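import Pool.Agent.PBK.Defs

/-!
# PBK MULTI: heights of vectors of multilinear expressions

Tools: `abs_htq` (`Pool/Agent/Helper63/WH/Ahtq.lean`), `absHeight_nonneg`, `absHeight_smul`,
`absHeight_prod` (`WH/Aapi.lean`); the private lemmas `hgt_sum_arch`, `hgt_sum_non`, `hgt_one`,
`hgt_pair` in `Pool/Agent/KSF/Hgt.lean` are a model (copy them).

* `absHeight_zero`: from the definition (`Height.logHeight` of the zero vector is `0`).
* `absHeight_comp_le`: if the vector on the left is zero use `absHeight_zero` and
  `absHeight_nonneg`; else `abs_htq` with one factor `z` and `c = 1`, `Q = ∅`.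
* `absHeight_mul`: `absHeight_prod` for `α = Bool`, `σ true = κ`, `σ false = κ'`; the vector indexed
  by the functions `I : (b : Bool) → σ b` and the vector indexed by the pairs are obtained from each
  other by a map of the index sets, so their heights are equal by `absHeight_comp_le` (twice).
* `multi`: if the left vector is zero the bound is trivial (`absHeight_nonneg`). Otherwise `coef`
  is not zero. Apply `abs_htq` to the index set `Option J` of factors: the factor `none` is the vector
  `coef` (indexed by `κ × (∀ j, σ j)`), the factor `some j` is `A j`; at a complex place every entry is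
  at most `card (∀ j, σ j)` times the product of the suprema, at a `p`-adic place at most the product.
  So `C = log (max 1 (card (∀ j, σ j))) + absHeight coef`.
* `absHeight_lin`: `multi` with `J = Unit` (or directly).
-/

set_option autoImplicit false

open MvPolynomial

namespace Pool.Agent.PBK

open Pool.Agent.Helper63.WH

variable {E : Type*} [Field E] [CharZero E] [Algebra.IsAlgebraic ℚ E]

/-- The absolute value given by a complex embedding. -/
private noncomputable def mulC {E : Type*} [Field E] (s : E →+* ℂ) : AbsoluteValue E ℝ where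
  toFun z := ‖s z‖
  map_mul' a b := by rw [map_mul, norm_mul]
  nonneg' a := norm_nonneg _
  eq_zero' a := by rw [norm_eq_zero, map_eq_zero]
  add_le' a b := by
    rw [map_add]
    exact norm_add_le _ _

private theorem mul_sum_arch {E : Type*} [Field E] (v : AbsoluteValue E ℝ) {τ : Type*} [Fintype τ]
    (f : τ → E) (B : ℝ) (h : ∀ q, v (f q) ≤ B) : v (∑ q, f q) ≤ Fintype.card τ * B := by
  calc v (∑ q, f q) ≤ ∑ q, v (f q) := v.sum_le _ _
    _ ≤ ∑ _q : τ, B := Finset.sum_le_sum fun q _ => h q
    _ = Fintype.card τ * B := by rw [Finset.sum_const, Finset.card_univ, nsmul_eq_mul]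

private theorem mul_sum_non {E : Type*} [Field E] (v : AbsoluteValue E ℝ) (hv : IsNonarchimedean v)
    {τ : Type*} [Fintype τ] (f : τ → E) (B : ℝ) (hB : 0 ≤ B) (h : ∀ q, v (f q) ≤ B) :
    v (∑ q, f q) ≤ B := by
  classical
  rcases (Finset.univ : Finset τ).eq_empty_or_nonempty with h0 | h0
  · rw [h0, Finset.sum_empty, map_zero]
    exact hB
  · obtain ⟨i, -, hi⟩ := hv.finset_image_add_of_nonempty f h0
    exact hi.trans (h i)

omit [Algebra.IsAlgebraic ℚ E] in
theorem absHeight_zero {κ : Type*} : absHeight (0 : κ → E) = 0 := by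
  unfold absHeight
  split_ifs with h
  · have : NumberField (fld (0 : κ → E)) :=
      { to_charZero := inferInstance, to_finiteDimensional := h }
    have h0 : (fun i => (⟨(0 : κ → E) i, IntermediateField.subset_adjoin ℚ _ ⟨i, rfl⟩⟩ :
        fld (0 : κ → E))) = 0 := by
      funext i
      exact Subtype.ext rfl
    rw [h0, Height.logHeight_zero, zero_div]
  · rfl

theorem absHeight_comp_le {κ κ' : Type} [Finite κ] [Finite κ'] (f : κ → κ') (z : κ' → E) :
    absHeight (fun i => z (f i)) ≤ absHeight z := by
  by_cases h0 : (fun i => z (f i)) = 0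
  · rw [h0, absHeight_zero]
    exact absHeight_nonneg _
  · have hz : z ≠ 0 := by
      rintro rfl
      exact h0 rfl
    have h := abs_htq (E := E) (κ := κ) (J := Unit) (σ := fun _ => κ') (fun i => z (f i)) h0
      (fun _ => z) (fun _ => hz) 1 le_rfl
      (fun s => by
        simp only [Finset.univ_unique, Finset.prod_const, Finset.card_singleton, pow_one, one_mul]
        exact Real.iSup_le (fun k => Finite.le_ciSup_of_le (f := fun i => ‖s (z i)‖) (f k) le_rfl)
          (Real.iSup_nonneg fun i => norm_nonneg _))
      (fun p τ => by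
        simp only [Finset.univ_unique, Finset.prod_const, Finset.card_singleton, pow_one]
        exact Real.iSup_le
          (fun k => Finite.le_ciSup_of_le (f := fun i => pAbs p τ (z i)) (f k) le_rfl)
          (Real.iSup_nonneg fun i => (pAbs p τ).nonneg _))
      ∅ (fun _ => 1) (by simp) (by simp)
    simpa using h

/-- Two index sets. -/
private def mulB (κ κ' : Type) : Bool → Type
  | true => κ
  | false => κ'

theorem absHeight_mul {κ κ' : Type} [Finite κ] [Finite κ'] (x : κ → E) (y : κ' → E)
    (hx : x ≠ 0) (hy : y ≠ 0) :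
    absHeight (fun p : κ × κ' => x p.1 * y p.2) = absHeight x + absHeight y := by
  have hfin : ∀ b, Finite (mulB κ κ' b) := fun b => by
    cases b
    · exact (inferInstance : Finite κ')
    · exact (inferInstance : Finite κ)
  let A : ∀ b, mulB κ κ' b → E := fun b => match b with
    | true => x
    | false => y
  have hA : ∀ b, A b ≠ 0 := fun b => by
    cases b
    · exact hy
    · exact hx
  have h := absHeight_prod (E := E) (α := Bool) (σ := mulB κ κ') A hA
  rw [Fintype.sum_bool] at h
  change absHeight (fun I : (a : Bool) → mulB κ κ' a => ∏ a, A a (I a)) =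
    absHeight x + absHeight y at h
  rw [← h]
  apply le_antisymm
  · have h1 := absHeight_comp_le (E := E) (fun p : κ × κ' => (fun b => match b with
        | true => p.1
        | false => p.2 : (b : Bool) → mulB κ κ' b))
      (fun I : (a : Bool) → mulB κ κ' a => ∏ a, A a (I a))
    simp only [Fintype.prod_bool] at h1 ⊢
    exact h1
  · have h1 := absHeight_comp_le (E := E) (fun I : (a : Bool) → mulB κ κ' a => (I true, I false))
      (fun p : κ × κ' => x p.1 * y p.2)
    simp only [Fintype.prod_bool]
    exact h1

/-- The index sets of the factors. -/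
private def mulO {J : Type} (κ' : Type) (σ : J → Type) : Option J → Type
  | none => κ'
  | some j => σ j

theorem multi {κ J : Type} [Finite κ] [Fintype J] [DecidableEq J] {σ : J → Type}
    [∀ j, Fintype (σ j)] (coef : κ → ((j : J) → σ j) → E) :
    ∃ C : ℝ, 0 ≤ C ∧ ∀ A : (j : J) → σ j → E, (∀ j, A j ≠ 0) →
      absHeight (fun k => ∑ I : ((j : J) → σ j), coef k I * ∏ j, A j (I j)) ≤
        ∑ j, absHeight (A j) + C := by
  have hmax : (1 : ℝ) ≤ max 1 (Fintype.card ((j : J) → σ j) : ℝ) := le_max_left _ _
  have hlog : 0 ≤ Real.log (max 1 (Fintype.card ((j : J) → σ j) : ℝ)) := Real.log_nonneg hmax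
  refine ⟨Real.log (max 1 (Fintype.card ((j : J) → σ j) : ℝ)) +
    absHeight (fun q : κ × ((j : J) → σ j) => coef q.1 q.2),
    add_nonneg hlog (absHeight_nonneg _), ?_⟩
  intro A hA
  have hsum : 0 ≤ ∑ j, absHeight (A j) := Finset.sum_nonneg fun j _ => absHeight_nonneg _
  have hcn := absHeight_nonneg (E := E) (fun q : κ × ((j : J) → σ j) => coef q.1 q.2)
  by_cases hz : (fun k => ∑ I : ((j : J) → σ j), coef k I * ∏ j, A j (I j)) = 0
  · rw [hz, absHeight_zero]
    linarith
  · have hc0 : (fun q : κ × ((j : J) → σ j) => coef q.1 q.2) ≠ 0 := by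
      intro h0
      apply hz
      funext k
      refine Finset.sum_eq_zero fun I _ => ?_
      rw [show coef k I = 0 from congrFun h0 (k, I), zero_mul]
    have hfin : ∀ o, Finite (mulO (κ × ((j : J) → σ j)) σ o) := fun o => by
      cases o with
      | none => exact (inferInstance : Finite (κ × ((j : J) → σ j)))
      | some j => exact (inferInstance : Finite (σ j))
    let B : ∀ o, mulO (κ × ((j : J) → σ j)) σ o → E := fun o => match o with
      | none => fun q : κ × ((j : J) → σ j) => coef q.1 q.2
      | some j => A j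
    have hB : ∀ o, B o ≠ 0 := fun o => by
      cases o with
      | none => exact hc0
      | some j => exact hA j
    have hnn : ∀ v : AbsoluteValue E ℝ, 0 ≤ (⨆ q : κ × ((j : J) → σ j), v (coef q.1 q.2)) *
        ∏ j, ⨆ i, v (A j i) := fun v =>
      mul_nonneg (Real.iSup_nonneg fun i => v.nonneg _)
        (Finset.prod_nonneg fun i _ => Real.iSup_nonneg fun w => v.nonneg _)
    have hterm : ∀ (v : AbsoluteValue E ℝ) (k : κ) (I : (j : J) → σ j),
        v (coef k I * ∏ j, A j (I j)) ≤ (⨆ q : κ × ((j : J) → σ j), v (coef q.1 q.2)) *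
          ∏ j, ⨆ i, v (A j i) := by
      intro v k I
      rw [map_mul, map_prod]
      refine mul_le_mul ?_ ?_ (Finset.prod_nonneg fun _ _ => v.nonneg _)
        (Real.iSup_nonneg fun i => v.nonneg _)
      · exact Finite.le_ciSup_of_le
          (f := fun q : κ × ((j : J) → σ j) => v (coef q.1 q.2)) (k, I) le_rfl
      · exact Finset.prod_le_prod (fun _ _ => v.nonneg _) fun i _ =>
          Finite.le_ciSup_of_le (f := fun w => v (A i w)) (I i) le_rfl
    have key := abs_htq (E := E) (κ := κ) (J := Option J)
      (σ := mulO (κ × ((j : J) → σ j)) σ)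
      (fun k => ∑ I : ((j : J) → σ j), coef k I * ∏ j, A j (I j)) hz B hB
      (max 1 (Fintype.card ((j : J) → σ j) : ℝ)) hmax
      (fun s => by
        rw [Fintype.prod_option]
        change (⨆ k, mulC s (∑ I : ((j : J) → σ j), coef k I * ∏ j, A j (I j))) ≤
          max 1 (Fintype.card ((j : J) → σ j) : ℝ) *
            ((⨆ q : κ × ((j : J) → σ j), mulC s (coef q.1 q.2)) * ∏ j, ⨆ i, mulC s (A j i))
        refine Real.iSup_le (fun k => ?_) (mul_nonneg (zero_le_one.trans hmax) (hnn (mulC s)))
        exact (mul_sum_arch (mulC s) _ _ (hterm (mulC s) k)).trans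
          (mul_le_mul_of_nonneg_right (le_max_right _ _) (hnn (mulC s))))
      (fun p τ => by
        rw [Fintype.prod_option]
        change (⨆ k, pAbs p τ (∑ I : ((j : J) → σ j), coef k I * ∏ j, A j (I j))) ≤
            ((⨆ q : κ × ((j : J) → σ j), pAbs p τ (coef q.1 q.2)) * ∏ j, ⨆ i, pAbs p τ (A j i))
        refine Real.iSup_le (fun k => ?_) (hnn (pAbs p τ))
        exact mul_sum_non (pAbs p τ) (pAbs_nonarch p τ) _ _ (hnn (pAbs p τ))
          (hterm (pAbs p τ) k))
      ∅ (fun _ => 1) (by simp) (by simp)
    rw [Fintype.sum_option, Finset.sum_empty, add_zero] at key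
    change _ ≤ Real.log (max 1 (Fintype.card ((j : J) → σ j) : ℝ)) +
      (absHeight (fun q : κ × ((j : J) → σ j) => coef q.1 q.2) + ∑ j, absHeight (A j)) at key
    linarith

theorem absHeight_lin {κ κ' : Type} [Finite κ] [Fintype κ'] (L : κ → κ' → E) :
    ∃ C : ℝ, 0 ≤ C ∧ ∀ x : κ' → E,
      absHeight (fun k => ∑ i, L k i * x i) ≤ absHeight x + C := by
  classical
  obtain ⟨C, hC, h⟩ := multi (κ := κ) (J := Unit) (σ := fun _ => κ')
    (fun k (I : Unit → κ') => L k (I ()))
  refine ⟨C, hC, fun x => ?_⟩
  by_cases hx : x = 0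
  · have h0 : (fun k => ∑ i, L k i * x i) = 0 := by
      funext k
      rw [hx]
      simp
    rw [h0, absHeight_zero]
    exact add_nonneg (absHeight_nonneg _) hC
  · have h1 := h (fun _ => x) (fun _ => hx)
    rw [Finset.sum_const, Finset.card_univ, Fintype.card_unit, one_smul] at h1
    have h2 : (fun k => ∑ I : (Unit → κ'), L k (I ()) * ∏ j : Unit, x (I j)) =
        fun k => ∑ i, L k i * x i := by
      funext k
      rw [← (Equiv.funUnique Unit κ').sum_comp (fun i => L k i * x i)]
      refine Finset.sum_congr rfl fun I _ => ?_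
      rw [Finset.univ_unique, Finset.prod_singleton]
      rfl
    rw [h2] at h1
    exact h1

end Pool.Agent.PBK
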