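import Mathlib

/-!
# PBK ANALY: three facts on growth rates

* `an1`: choose `ρ` with `max β 1 < ρ < q` (note `β ≥ 1` as `max (b n) 1 ≥ 1`). For large `n`
  `(max (b n) 1) ^ (1 / n) ≤ ρ`, so `b n ≤ ρ ^ n`. Take `D` at least `1` and all the finitely many other
  `b n` (`ρ ^ n ≥ 1`).
* `an2`: `(a n + b n) / q ^ n → L > 0` (`b n / q ^ n ≤ D * (ρ / q) ^ n → 0`), so for large `n`
  `(L / 2) * q ^ n ≤ a n + b n ≤ 2 * L * q ^ n`, which is `≥ 1` for large `n`, and the `n`-th roots of the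
  bounds tend to `q`.
* `an3`: lower bound: `(max (a n + b n) 1) ^ (1 / n) ≥ (max (b n) 1) ^ (1 / n) → β`. Upper bound: let
  `r > β` (so `r > q`, `r > 1`). There is `D ≥ 1` with `b n ≤ D * r ^ n` for all `n`. Then
  `a (n + 1) ≤ q * a n + C + C * (b n + 1) ≤ q * a n + 3 * C * D * r ^ n`, so by induction
  `a n ≤ A * r ^ n` for `A = max (a 0) (3 * C * D / (r - q))`: `q * A + 3 * C * D ≤ A * r`. So
  `max (a n + b n) 1 ≤ (A + D + 1) * r ^ n` and the limit superior of the roots is at most `r`.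
-/

set_option autoImplicit false

open Filter Topology

namespace Pool.Agent.PBK

private theorem root_bound {β r : ℝ} {b : ℕ → ℝ}
    (h : Tendsto (fun n : ℕ => (max (b n) 1) ^ ((1 : ℝ) / n)) atTop (𝓝 β)) (hr : β < r) :
    1 ≤ r ∧ ∃ D : ℝ, 1 ≤ D ∧ ∀ n : ℕ, b n ≤ D * r ^ n := by
  have h1 : 1 ≤ β := by
    refine ge_of_tendsto' h fun n => ?_
    exact Real.one_le_rpow (le_max_right _ _) (by positivity)
  have hr1 : 1 ≤ r := h1.trans hr.le
  refine ⟨hr1, ?_⟩
  have h2 : ∀ᶠ n : ℕ in atTop, (max (b n) 1) ^ ((1 : ℝ) / n) < r := h.eventually_lt_const hr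
  obtain ⟨N, hN⟩ := eventually_atTop.1 (h2.and (eventually_ge_atTop 1))
  have hS : 0 ≤ ∑ n ∈ Finset.range N, |b n| := Finset.sum_nonneg fun n _ => abs_nonneg _
  refine ⟨1 + ∑ n ∈ Finset.range N, |b n|, by linarith, fun n => ?_⟩
  have hrn : 1 ≤ r ^ n := one_le_pow₀ hr1
  by_cases hn : N ≤ n
  · obtain ⟨h3, h4⟩ := hN n hn
    have hn0 : (n : ℝ) ≠ 0 := by
      have : 0 < n := by omega
      positivity
    have hpos : (0 : ℝ) ≤ max (b n) 1 := le_trans zero_le_one (le_max_right _ _)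
    have h5 : max (b n) 1 = ((max (b n) 1) ^ ((1 : ℝ) / n)) ^ n := by
      rw [← Real.rpow_natCast, ← Real.rpow_mul hpos, one_div_mul_cancel hn0, Real.rpow_one]
    have h6 : max (b n) 1 ≤ r ^ n := by
      rw [h5]
      exact pow_le_pow_left₀ (Real.rpow_nonneg hpos _) h3.le n
    calc b n ≤ r ^ n := (le_max_left _ _).trans h6
      _ ≤ (1 + ∑ n ∈ Finset.range N, |b n|) * r ^ n := by
        nlinarith
  · have h3 : |b n| ≤ ∑ n ∈ Finset.range N, |b n| :=
      Finset.single_le_sum (f := fun n => |b n|) (fun n _ => abs_nonneg _)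
        (Finset.mem_range.2 (by omega))
    have h4 : b n ≤ |b n| := le_abs_self _
    nlinarith

private theorem root_const {c : ℝ} (hc : 0 < c) :
    Tendsto (fun n : ℕ => c ^ ((1 : ℝ) / n)) atTop (𝓝 1) := by
  have h1 := (Real.continuous_const_rpow hc.ne').tendsto 0
  rw [Real.rpow_zero] at h1
  exact h1.comp tendsto_one_div_atTop_nhds_zero_nat

private theorem root_mul {c r : ℝ} (hc : 0 < c) (hr : 0 < r) {n : ℕ} (hn : 1 ≤ n) :
    (c * r ^ n) ^ ((1 : ℝ) / n) = c ^ ((1 : ℝ) / n) * r := by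
  have hn0 : (n : ℝ) ≠ 0 := by positivity
  rw [Real.mul_rpow hc.le (by positivity), ← Real.rpow_natCast, ← Real.rpow_mul hr.le,
    mul_one_div_cancel hn0, Real.rpow_one]

theorem an1 {q β : ℝ} (hq : 2 ≤ q) (hβ : β < q) {b : ℕ → ℝ} (hb : ∀ n, 0 ≤ b n)
    (h : Tendsto (fun n : ℕ => (max (b n) 1) ^ ((1 : ℝ) / n)) atTop (𝓝 β)) :
    ∃ D ρ : ℝ, 0 ≤ D ∧ 1 ≤ ρ ∧ ρ < q ∧ ∀ n : ℕ, b n ≤ D * ρ ^ n := by
  obtain ⟨ρ, h1, h2⟩ := exists_between hβ
  obtain ⟨h3, D, h4, h5⟩ := root_bound h h1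
  exact ⟨D, ρ, by linarith, h3, h2, h5⟩

theorem an2 {q L D ρ : ℝ} (hq : 2 ≤ q) (hL : 0 < L) (hρ : 1 ≤ ρ) (hρq : ρ < q) {a b : ℕ → ℝ}
    (ha : Tendsto (fun n : ℕ => a n / q ^ n) atTop (𝓝 L)) (hb : ∀ n, 0 ≤ b n)
    (hb' : ∀ n : ℕ, b n ≤ D * ρ ^ n) :
    Tendsto (fun n : ℕ => (max (a n + b n) 1) ^ ((1 : ℝ) / n)) atTop (𝓝 q) := by
  have hq0 : 0 < q := by linarith
  have hρ0 : 0 < ρ := by linarith
  have hbq : Tendsto (fun n : ℕ => b n / q ^ n) atTop (𝓝 0) := by
    have h1 : Tendsto (fun n : ℕ => D * (ρ / q) ^ n) atTop (𝓝 (D * 0)) :=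
      (tendsto_pow_atTop_nhds_zero_of_lt_one (by positivity)
        ((div_lt_one hq0).2 hρq)).const_mul D
    rw [mul_zero] at h1
    refine squeeze_zero (fun n => div_nonneg (hb n) (by positivity)) (fun n => ?_) h1
    rw [div_pow, ← mul_div_assoc]
    exact div_le_div_of_nonneg_right (hb' n) (by positivity)
  have hu : Tendsto (fun n : ℕ => (a n + b n) / q ^ n) atTop (𝓝 L) := by
    have := ha.add hbq
    rw [add_zero] at this
    refine this.congr fun n => ?_
    rw [add_div]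
  have h1 : ∀ᶠ n : ℕ in atTop, L / 2 < (a n + b n) / q ^ n :=
    hu.eventually_const_lt (by linarith)
  have h2 : ∀ᶠ n : ℕ in atTop, (a n + b n) / q ^ n < 2 * L :=
    hu.eventually_lt_const (by linarith)
  have h3 : ∀ᶠ n : ℕ in atTop, 1 ≤ L / 2 * q ^ n := by
    have h4 : Tendsto (fun n : ℕ => L / 2 * q ^ n) atTop atTop :=
      (tendsto_pow_atTop_atTop_of_one_lt (by linarith)).const_mul_atTop (by positivity)
    exact h4.eventually_ge_atTop 1
  have hl : Tendsto (fun n : ℕ => (L / 2) ^ ((1 : ℝ) / n) * q) atTop (𝓝 q) := by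
    have := (root_const (c := L / 2) (by positivity)).mul_const q
    rwa [one_mul] at this
  have hr : Tendsto (fun n : ℕ => (2 * L) ^ ((1 : ℝ) / n) * q) atTop (𝓝 q) := by
    have := (root_const (c := 2 * L) (by positivity)).mul_const q
    rwa [one_mul] at this
  refine tendsto_of_tendsto_of_tendsto_of_le_of_le' hl hr ?_ ?_
  · filter_upwards [h1, h2, h3, eventually_ge_atTop 1] with n g1 g2 g3 g4
    rw [lt_div_iff₀ (by positivity)] at g1
    rw [← root_mul (by positivity) hq0 g4]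
    exact Real.rpow_le_rpow (by positivity) (g1.le.trans (le_max_left _ _)) (by positivity)
  · filter_upwards [h1, h2, h3, eventually_ge_atTop 1] with n g1 g2 g3 g4
    rw [lt_div_iff₀ (by positivity)] at g1
    rw [div_lt_iff₀ (by positivity)] at g2
    rw [← root_mul (by positivity) hq0 g4]
    refine Real.rpow_le_rpow (le_trans zero_le_one (le_max_right _ _))
      (max_le g2.le ?_) (by positivity)
    linarith

theorem an3 {q β C : ℝ} (hq : 2 ≤ q) (hβ : q ≤ β) (hC : 0 ≤ C) {a b l : ℕ → ℝ}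
    (ha : ∀ n, 0 ≤ a n) (hb : ∀ n, 0 ≤ b n) (hal : ∀ n, |a (n + 1) - q * a n - l n| ≤ C)
    (hl : ∀ n, |l n| ≤ C * (b n + 1))
    (h : Tendsto (fun n : ℕ => (max (b n) 1) ^ ((1 : ℝ) / n)) atTop (𝓝 β)) :
    Tendsto (fun n : ℕ => (max (a n + b n) 1) ^ ((1 : ℝ) / n)) atTop (𝓝 β) := by
  rw [tendsto_order]
  constructor
  · intro c hc
    filter_upwards [h.eventually_const_lt hc] with n hn
    refine hn.trans_le (Real.rpow_le_rpow (le_trans zero_le_one (le_max_right _ _))
      (max_le_max ?_ le_rfl) (by positivity))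
    linarith [ha n]
  · intro c hc
    obtain ⟨r, h1, h2⟩ := exists_between hc
    obtain ⟨hr1, D, hD, hbD⟩ := root_bound h h1
    have hqr : 0 < r - q := by linarith
    have hr0 : 0 < r := by linarith
    set A := max (a 0) (3 * C * D / (r - q)) with hA
    have hA0 : 0 ≤ A := (ha 0).trans (le_max_left _ _)
    have hA1 : 3 * C * D ≤ A * (r - q) := by
      have := le_max_right (a 0) (3 * C * D / (r - q))
      rw [div_le_iff₀ hqr] at this
      exact this
    have haA : ∀ n : ℕ, a n ≤ A * r ^ n := by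
      intro n
      induction n with
      | zero => rw [pow_zero, mul_one]; exact le_max_left _ _
      | succ n ih =>
        have g1 := (abs_le.1 (hal n)).2
        have g2 := (abs_le.1 (hl n)).2
        have g3 : b n ≤ D * r ^ n := hbD n
        have g4 : 1 ≤ r ^ n := one_le_pow₀ hr1
        have g5 : C * b n ≤ C * (D * r ^ n) := mul_le_mul_of_nonneg_left g3 hC
        have g6 : C * 1 ≤ C * (D * r ^ n) := by
          refine mul_le_mul_of_nonneg_left ?_ hC
          nlinarith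
        have g7 : q * a n ≤ q * (A * r ^ n) := mul_le_mul_of_nonneg_left ih (by linarith)
        have g8 : 3 * C * D * r ^ n ≤ A * (r - q) * r ^ n :=
          mul_le_mul_of_nonneg_right hA1 (by positivity)
        rw [pow_succ]
        nlinarith
    set B := A + D + 1 with hB
    have hB0 : 0 < B := by linarith
    have hlim : Tendsto (fun n : ℕ => B ^ ((1 : ℝ) / n) * r) atTop (𝓝 r) := by
      have := (root_const hB0).mul_const r
      rwa [one_mul] at this
    filter_upwards [hlim.eventually_lt_const h2, eventually_ge_atTop 1] with n g1 g2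
    refine lt_of_le_of_lt ?_ g1
    rw [← root_mul hB0 hr0 g2]
    refine Real.rpow_le_rpow (le_trans zero_le_one (le_max_right _ _)) ?_ (by positivity)
    have g4 : 1 ≤ r ^ n := one_le_pow₀ hr1
    have g5 := haA n
    have g6 := hbD n
    refine max_le ?_ ?_
    · rw [hB]; nlinarith
    · rw [hB]; nlinarith [mul_nonneg hA0 (zero_le_one.trans g4)]

end Pool.Agent.PBK
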