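import Mathlib

/-!
# PBK RSEQ: real sequences with `h (k + 1) = q * h k + lam k + O(1)`

Let `bs q lam n = - ∑' i, lam (n + i) / q ^ (i + 1)`. Assume `|lam i| ≤ C * (D * ρ ^ i + 1)` with
`1 ≤ ρ < q`, `2 ≤ q`, `0 ≤ C`, `0 ≤ D`. The series converges absolutely (comparison with
`C * D * ρ ^ n * (ρ / q) ^ i / q + C / q ^ (i + 1)`).

* `rseq_step`: `bs (n + 1) = q * bs n + lam n` (split off the first term).
* `rseq_bound`: `|bs n| ≤ ∑ C (D ρ ^ (n + i) + 1) / q ^ (i + 1) ≤ C D ρ ^ n / (q - ρ) + C / (q - 1)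
  ≤ C' * ρ ^ n`.
* `rseq_dist`: by induction on `k`, with `e k = h k - bs k`: `|e (k + 1) - q * e k| ≤ C`, so
  `|e k - q ^ k * e 0| ≤ C * (q ^ k - 1) / (q - 1) ≤ C * q ^ k`.
* `rseq_lower`: if `h k ≥ 0` for all `k`: `q ^ k * (h 0 - bs 0) ≥ - bs k - C * q ^ k`; divide by
  `q ^ k` and let `k → ∞` (`bs k / q ^ k → 0` by `rseq_bound`): `h 0 - bs 0 ≥ - C`.
* `rseq_lim`: `e k / q ^ k` is a Cauchy sequence (`|e (k + 1) / q ^ (k + 1) - e k / q ^ k| ≤
  C / q ^ (k + 1)`, summable), so `h k / q ^ k = e k / q ^ k + bs k / q ^ k` converges to some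
  `L ≥ 0` (as `h k ≥ 0`), and `|e k - q ^ k * L| ≤ C` for all `k`: `|e (k + j) / q ^ (k + j) - e k / q ^ k| ≤
  C * ∑_{i > k} q ^ (- i) ≤ C / q ^ k`.
  If `L = 0` this says `|h k - bs k| ≤ C`.
-/

set_option autoImplicit false

open Filter Topology

namespace Pool.Agent.PBK

/-- The sum of the future defects. -/
noncomputable def bs (q : ℝ) (lam : ℕ → ℝ) (n : ℕ) : ℝ :=
  -∑' i : ℕ, lam (n + i) / q ^ (i + 1)

variable {q ρ C D : ℝ} {lam : ℕ → ℝ}

private theorem maj_hasSum (hq : 2 ≤ q) (hρ : 1 ≤ ρ) (hρq : ρ < q) (n : ℕ) :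
    HasSum (fun i : ℕ => C * D * ρ ^ n / q * (ρ / q) ^ i + C / q * (1 / q) ^ i)
      (C * D * ρ ^ n / (q - ρ) + C / (q - 1)) := by
  have hq0 : 0 < q := by linarith
  have h1 : HasSum (fun i : ℕ => (ρ / q) ^ i) (1 - ρ / q)⁻¹ :=
    hasSum_geometric_of_lt_one (by positivity) ((div_lt_one hq0).2 hρq)
  have h2 : HasSum (fun i : ℕ => (1 / q) ^ i) (1 - 1 / q)⁻¹ :=
    hasSum_geometric_of_lt_one (by positivity) ((div_lt_one hq0).2 (by linarith))
  have h3 := (h1.mul_left (C * D * ρ ^ n / q)).add (h2.mul_left (C / q))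
  have e1 : C * D * ρ ^ n / q * (1 - ρ / q)⁻¹ = C * D * ρ ^ n / (q - ρ) := by
    have : q - ρ ≠ 0 := by linarith
    field_simp
  have e2 : C / q * (1 - 1 / q)⁻¹ = C / (q - 1) := by
    have : q - 1 ≠ 0 := by linarith
    field_simp
  rw [e1, e2] at h3
  exact h3

private theorem term_le (hq : 2 ≤ q) (hlam : ∀ i, |lam i| ≤ C * (D * ρ ^ i + 1)) (n i : ℕ) :
    ‖lam (n + i) / q ^ (i + 1)‖ ≤ C * D * ρ ^ n / q * (ρ / q) ^ i + C / q * (1 / q) ^ i := by
  have hq0 : 0 < q := by linarith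
  rw [Real.norm_eq_abs, abs_div, abs_of_pos (by positivity : 0 < q ^ (i + 1))]
  have e : C * D * ρ ^ n / q * (ρ / q) ^ i + C / q * (1 / q) ^ i =
      C * (D * ρ ^ (n + i) + 1) / q ^ (i + 1) := by
    rw [div_pow, div_pow, one_pow, pow_succ, pow_add]
    field_simp
  rw [e]
  gcongr
  exact hlam _

private theorem term_summable (hq : 2 ≤ q) (hρ : 1 ≤ ρ) (hρq : ρ < q)
    (hlam : ∀ i, |lam i| ≤ C * (D * ρ ^ i + 1)) (n : ℕ) :
    Summable fun i : ℕ => lam (n + i) / q ^ (i + 1) :=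
  Summable.of_norm_bounded (maj_hasSum (C := C) (D := D) hq hρ hρq n).summable
    fun i => term_le hq hlam n i

theorem rseq_step (hq : 2 ≤ q) (hρ : 1 ≤ ρ) (hρq : ρ < q) (hC : 0 ≤ C) (hD : 0 ≤ D)
    (hlam : ∀ i, |lam i| ≤ C * (D * ρ ^ i + 1)) (n : ℕ) :
    bs q lam (n + 1) = q * bs q lam n + lam n := by
  have hq0 : 0 < q := by linarith
  unfold bs
  rw [(term_summable hq hρ hρq hlam n).tsum_eq_zero_add]
  have e : ∀ i : ℕ, lam (n + (i + 1)) / q ^ (i + 1 + 1) =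
      q⁻¹ * (lam (n + 1 + i) / q ^ (i + 1)) := by
    intro i
    rw [show n + (i + 1) = n + 1 + i by ring, pow_succ q (i + 1)]
    field_simp
  simp_rw [e]
  rw [tsum_mul_left]
  simp only [add_zero, zero_add, pow_one]
  field_simp
  ring

theorem rseq_bound (hq : 2 ≤ q) (hρ : 1 ≤ ρ) (hρq : ρ < q) (hC : 0 ≤ C) (hD : 0 ≤ D)
    (hlam : ∀ i, |lam i| ≤ C * (D * ρ ^ i + 1)) :
    ∃ C' : ℝ, 0 ≤ C' ∧ ∀ n, |bs q lam n| ≤ C' * ρ ^ n := by
  have h1 : 0 < q - ρ := by linarith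
  have h2 : 0 < q - 1 := by linarith
  refine ⟨C * D / (q - ρ) + C / (q - 1), by positivity, fun n => ?_⟩
  have h3 : |bs q lam n| ≤ C * D * ρ ^ n / (q - ρ) + C / (q - 1) := by
    unfold bs
    rw [abs_neg, ← Real.norm_eq_abs]
    exact tsum_of_norm_bounded (maj_hasSum (C := C) (D := D) hq hρ hρq n)
      fun i => term_le hq hlam n i
  have h4 : (1 : ℝ) ≤ ρ ^ n := one_le_pow₀ hρ
  have h5 : C / (q - 1) ≤ C / (q - 1) * ρ ^ n := le_mul_of_one_le_right (by positivity) h4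
  calc |bs q lam n| ≤ C * D * ρ ^ n / (q - ρ) + C / (q - 1) := h3
    _ ≤ C * D * ρ ^ n / (q - ρ) + C / (q - 1) * ρ ^ n := by linarith
    _ = _ := by ring

private theorem dist_gen (hq : 2 ≤ q) (hρ : 1 ≤ ρ) (hρq : ρ < q) (hC : 0 ≤ C) (hD : 0 ≤ D)
    (hlam : ∀ i, |lam i| ≤ C * (D * ρ ^ i + 1)) {h : ℕ → ℝ}
    (hh : ∀ n, |h (n + 1) - q * h n - lam n| ≤ C) (n k : ℕ) :
    |(h (n + k) - bs q lam (n + k)) - q ^ k * (h n - bs q lam n)| ≤ C * (q ^ k - 1) := by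
  induction k with
  | zero => simp
  | succ k ih =>
    have h1 := rseq_step hq hρ hρq hC hD hlam (n + k)
    have h2 := hh (n + k)
    rw [← add_assoc, h1]
    have e : h (n + k + 1) - (q * bs q lam (n + k) + lam (n + k)) -
        q ^ (k + 1) * (h n - bs q lam n) =
        (h (n + k + 1) - q * h (n + k) - lam (n + k)) +
          q * ((h (n + k) - bs q lam (n + k)) - q ^ k * (h n - bs q lam n)) := by
      rw [pow_succ]; ring
    rw [e]
    refine (abs_add_le _ _).trans ?_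
    rw [abs_mul, abs_of_pos (by linarith : 0 < q)]
    have h3 : q * |h (n + k) - bs q lam (n + k) - q ^ k * (h n - bs q lam n)| ≤
        q * (C * (q ^ k - 1)) := mul_le_mul_of_nonneg_left ih (by linarith)
    have h4 : C * (q ^ (k + 1) - 1) = C + q * (C * (q ^ k - 1)) + C * (q - 2) := by
      rw [pow_succ]; ring
    have h5 : 0 ≤ C * (q - 2) := mul_nonneg hC (by linarith)
    linarith

theorem rseq_dist (hq : 2 ≤ q) (hρ : 1 ≤ ρ) (hρq : ρ < q) (hC : 0 ≤ C) (hD : 0 ≤ D)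
    (hlam : ∀ i, |lam i| ≤ C * (D * ρ ^ i + 1)) {h : ℕ → ℝ}
    (hh : ∀ n, |h (n + 1) - q * h n - lam n| ≤ C) (k : ℕ) :
    |h k - q ^ k * (h 0 - bs q lam 0) - bs q lam k| ≤ C * q ^ k := by
  have h1 := dist_gen hq hρ hρq hC hD hlam hh 0 k
  rw [zero_add] at h1
  have e : h k - q ^ k * (h 0 - bs q lam 0) - bs q lam k =
      (h k - bs q lam k) - q ^ k * (h 0 - bs q lam 0) := by ring
  rw [e]
  refine h1.trans ?_
  exact mul_le_mul_of_nonneg_left (by linarith) hC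

private theorem bs_div_tendsto (hq : 2 ≤ q) (hρ : 1 ≤ ρ) (hρq : ρ < q) (hC : 0 ≤ C) (hD : 0 ≤ D)
    (hlam : ∀ i, |lam i| ≤ C * (D * ρ ^ i + 1)) :
    Tendsto (fun k => bs q lam k / q ^ k) atTop (𝓝 0) := by
  obtain ⟨C', hC', hb⟩ := rseq_bound hq hρ hρq hC hD hlam
  have hq0 : 0 < q := by linarith
  have h1 : Tendsto (fun k : ℕ => C' * (ρ / q) ^ k) atTop (𝓝 0) := by
    have := (tendsto_pow_atTop_nhds_zero_of_lt_one (r := ρ / q) (by positivity)
      ((div_lt_one hq0).2 hρq)).const_mul C'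
    rwa [mul_zero] at this
  refine squeeze_zero_norm (fun k => ?_) h1
  rw [Real.norm_eq_abs, abs_div, abs_of_pos (by positivity : 0 < q ^ k), div_pow, ← mul_div_assoc]
  gcongr
  exact hb k

theorem rseq_lower (hq : 2 ≤ q) (hρ : 1 ≤ ρ) (hρq : ρ < q) (hC : 0 ≤ C) (hD : 0 ≤ D)
    (hlam : ∀ i, |lam i| ≤ C * (D * ρ ^ i + 1)) {h : ℕ → ℝ}
    (hh : ∀ n, |h (n + 1) - q * h n - lam n| ≤ C) (h0 : ∀ n, 0 ≤ h n) :
    bs q lam 0 - C ≤ h 0 := by
  have hq0 : 0 < q := by linarith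
  have h1 : Tendsto (fun k => -(bs q lam k / q ^ k)) atTop (𝓝 0) := by
    have := (bs_div_tendsto hq hρ hρq hC hD hlam).neg
    rwa [neg_zero] at this
  have h2 : (0 : ℝ) ≤ h 0 - bs q lam 0 + C := by
    refine le_of_tendsto' h1 fun k => ?_
    have h3 := rseq_dist hq hρ hρq hC hD hlam hh k
    have h4 := (abs_le.1 h3).2
    have h5 := h0 k
    have hqk : 0 < q ^ k := by positivity
    rw [neg_le_iff_add_nonneg, ← mul_le_mul_iff_of_pos_left hqk, mul_zero, mul_add,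
      mul_div_cancel₀ _ hqk.ne']
    have e : q ^ k * (h 0 - bs q lam 0 + C) = q ^ k * (h 0 - bs q lam 0) + C * q ^ k := by ring
    rw [e]
    linarith
  linarith

theorem rseq_lim (hq : 2 ≤ q) (hρ : 1 ≤ ρ) (hρq : ρ < q) (hC : 0 ≤ C) (hD : 0 ≤ D)
    (hlam : ∀ i, |lam i| ≤ C * (D * ρ ^ i + 1)) {h : ℕ → ℝ}
    (hh : ∀ n, |h (n + 1) - q * h n - lam n| ≤ C) (h0 : ∀ n, 0 ≤ h n) :
    ∃ L : ℝ, 0 ≤ L ∧ Tendsto (fun k => h k / q ^ k) atTop (𝓝 L) ∧
      (L = 0 → ∀ k, |h k - bs q lam k| ≤ C) := by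
  have hq0 : 0 < q := by linarith
  have key : ∀ n k : ℕ, |(h (n + k) - bs q lam (n + k)) / q ^ (n + k) -
      (h n - bs q lam n) / q ^ n| ≤ C / q ^ n := by
    intro n k
    have h1 := dist_gen hq hρ hρq hC hD hlam hh n k
    have hqk : 0 < q ^ k := by positivity
    have hqn : 0 < q ^ n := by positivity
    have e : (h (n + k) - bs q lam (n + k)) / q ^ (n + k) - (h n - bs q lam n) / q ^ n =
        ((h (n + k) - bs q lam (n + k)) - q ^ k * (h n - bs q lam n)) / (q ^ n * q ^ k) := by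
      rw [pow_add]
      field_simp
    rw [e, abs_div, abs_of_pos (mul_pos hqn hqk), div_le_div_iff₀ (mul_pos hqn hqk) hqn]
    calc _ ≤ C * (q ^ k - 1) * q ^ n := mul_le_mul_of_nonneg_right h1 hqn.le
      _ ≤ C * q ^ k * q ^ n := by
        refine mul_le_mul_of_nonneg_right (mul_le_mul_of_nonneg_left (by linarith) hC) hqn.le
      _ = _ := by ring
  have hcau : CauchySeq fun k => (h k - bs q lam k) / q ^ k := by
    refine cauchySeq_of_le_geometric (1 / 2) C (by norm_num) fun n => ?_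
    rw [dist_comm, Real.dist_eq]
    refine (key n 1).trans ?_
    rw [one_div, inv_pow, ← div_eq_mul_inv]
    gcongr
  obtain ⟨L, hL⟩ := cauchySeq_tendsto_of_complete hcau
  have hlim : Tendsto (fun k => h k / q ^ k) atTop (𝓝 L) := by
    have := hL.add (bs_div_tendsto hq hρ hρq hC hD hlam)
    rw [add_zero] at this
    refine this.congr fun k => ?_
    rw [← add_div]
    congr 1
    ring
  refine ⟨L, ge_of_tendsto' hlim fun k => div_nonneg (h0 k) (by positivity), hlim, ?_⟩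
  intro hL0 n
  have h1 : Tendsto (fun k => (h (n + k) - bs q lam (n + k)) / q ^ (n + k)) atTop (𝓝 L) := by
    have h2 : Tendsto (fun k : ℕ => n + k) atTop atTop :=
      tendsto_atTop_mono (fun k => Nat.le_add_left k n) tendsto_id
    exact hL.comp h2
  have h2 : |L - (h n - bs q lam n) / q ^ n| ≤ C / q ^ n :=
    le_of_tendsto' ((h1.sub_const _).abs) fun k => key n k
  rw [hL0, zero_sub, abs_neg, abs_div, abs_of_pos (by positivity : 0 < q ^ n),
    div_le_div_iff_of_pos_right (by positivity)] at h2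
  exact h2

end Pool.Agent.PBK
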