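import Pool.Agent.PBK.Star
import Pool.Agent.PBK.Rseq

/-!
# PBK BSEQ: heights along the orbits in the bundle

Let `C` be the constant of `star`. For `y ∈ S.Wc` with `S.Growth y` (constants `D`, `ρ`) put
`lam i = S.lam (S.gv^[i] y)`; then `|lam i| ≤ C * (D * ρ ^ i + 1)` (`gv_iter_mem`), and
`S.bb (S.gv^[n] y) = bs S.q lam n` for all `n` (`S.gv^[i] (S.gv^[n] y) = S.gv^[n + i] y`). For a nonzero
`z ∈ S.fib y` let `h n = absHeight (S.zo z y n)`; `|h (n + 1) - q * h n - lam n| ≤ C` by `star` and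
`zo_mem_ne`. Then apply the theorems of `Rseq.lean` (`q = S.q ≥ 2`). `S.Growth (S.gv y)`:
`absHeight (S.gv^[n + 1] y) ≤ D * ρ ^ (n + 1) = (D * ρ) * ρ ^ n`.
-/

set_option autoImplicit false

open MvPolynomial Filter Topology

namespace Pool.Agent.PBK

open Pool.Agent.Helper63.WH

variable {E : Type*} [Field E] [CharZero E] [Algebra.IsAlgebraic ℚ E] [IsAlgClosed E]
  {M N s nP nG : ℕ} {S : Sys E M N s nP nG}

omit [Algebra.IsAlgebraic ℚ E] [IsAlgClosed E] in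
theorem growth_iter {y : Fin N → E} (hg : S.Growth y) (n : ℕ) : S.Growth (S.gv^[n] y) := by
  obtain ⟨D, ρ, hD, hρ, hρq, h⟩ := hg
  refine ⟨D * ρ ^ n, ρ, by positivity, hρ, hρq, fun k => ?_⟩
  rw [← Function.iterate_add_apply]
  refine (h (k + n)).trans (le_of_eq ?_)
  rw [pow_add]
  ring

omit [Algebra.IsAlgebraic ℚ E] [IsAlgClosed E] in
private theorem bb_eq (y : Fin N → E) (n : ℕ) :
    S.bb (S.gv^[n] y) = bs (S.q : ℝ) (fun i => S.lam (S.gv^[i] y)) n := by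
  unfold Sys.bb bs
  congr 1
  refine tsum_congr fun i => ?_
  rw [← Function.iterate_add_apply, add_comm i n]

private theorem bs_data (hS : S.Good) : ∃ C : ℝ, 0 ≤ C ∧
    (∀ y ∈ S.Wc, ∀ D ρ : ℝ, (∀ n : ℕ, absHeight (S.gv^[n] y) ≤ D * ρ ^ n) →
      ∀ i : ℕ, |S.lam (S.gv^[i] y)| ≤ C * (D * ρ ^ i + 1)) ∧
    ∀ y ∈ S.Wc, ∀ z ∈ S.fib y, z ≠ 0 → ∀ n : ℕ,
      |absHeight (S.zo z y (n + 1)) - S.q * absHeight (S.zo z y n) -
        S.lam (S.gv^[n] y)| ≤ C := by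
  obtain ⟨C, hC, h1, h2⟩ := star hS
  refine ⟨C, hC, fun y hy D ρ h i => ?_, fun y hy z hz hz0 n => ?_⟩
  · refine (h2 _ (gv_iter_mem hS hy i)).trans ?_
    gcongr
    exact h i
  · have := zo_mem_ne hS hy hz hz0 n
    exact h1 _ (gv_iter_mem hS hy n) _ this.1 this.2

theorem bb_step (hS : S.Good) {y : Fin N → E} (hy : y ∈ S.Wc) (hg : S.Growth y) :
    S.bb (S.gv y) = S.q * S.bb y + S.lam y := by
  have hq : (2 : ℝ) ≤ S.q := by exact_mod_cast hS.hq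
  obtain ⟨C, hC, h1, -⟩ := bs_data hS
  obtain ⟨D, ρ, hD, hρ, hρq, h⟩ := hg
  have key := rseq_step hq hρ hρq hC hD (h1 y hy D ρ h) 0
  have e1 := bb_eq (S := S) y 1
  have e0 := bb_eq (S := S) y 0
  simp only [Function.iterate_one, Function.iterate_zero, id_eq, zero_add] at e1 e0 key
  rw [e1, e0, key]

theorem bb_bound (hS : S.Good) {y : Fin N → E} (hy : y ∈ S.Wc) (hg : S.Growth y) :
    ∃ C ρ : ℝ, 0 ≤ C ∧ 1 ≤ ρ ∧ ρ < S.q ∧ ∀ n : ℕ, |S.bb (S.gv^[n] y)| ≤ C * ρ ^ n := by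
  have hq : (2 : ℝ) ≤ S.q := by exact_mod_cast hS.hq
  obtain ⟨C, hC, h1, -⟩ := bs_data hS
  obtain ⟨D, ρ, hD, hρ, hρq, h⟩ := hg
  obtain ⟨C', hC', hb⟩ := rseq_bound hq hρ hρq hC hD (h1 y hy D ρ h)
  refine ⟨C', ρ, hC', hρ, hρq, fun n => ?_⟩
  rw [bb_eq]
  exact hb n

theorem bseq (hS : S.Good) : ∃ C : ℝ, 0 ≤ C ∧ ∀ y ∈ S.Wc, S.Growth y →
    ∀ z ∈ S.fib y, z ≠ 0 →
      (∀ k : ℕ, |absHeight (S.zo z y k) - (S.q : ℝ) ^ k * (absHeight z - S.bb y) -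
        S.bb (S.gv^[k] y)| ≤ C * (S.q : ℝ) ^ k) ∧
      S.bb y - C ≤ absHeight z ∧
      ∃ L : ℝ, 0 ≤ L ∧
        Tendsto (fun k : ℕ => absHeight (S.zo z y k) / (S.q : ℝ) ^ k) atTop (𝓝 L) ∧
        (L = 0 → ∀ k : ℕ, |absHeight (S.zo z y k) - S.bb (S.gv^[k] y)| ≤ C) := by
  have hq : (2 : ℝ) ≤ S.q := by exact_mod_cast hS.hq
  obtain ⟨C, hC, h1, h2⟩ := bs_data hS
  refine ⟨C, hC, fun y hy hg z hz hz0 => ?_⟩
  obtain ⟨D, ρ, hD, hρ, hρq, h⟩ := hg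
  have hl := h1 y hy D ρ h
  have hh := h2 y hy z hz hz0
  have hn : ∀ n, 0 ≤ absHeight (S.zo z y n) := fun n => absHeight_nonneg _
  have e0 : S.bb y = bs (S.q : ℝ) (fun i => S.lam (S.gv^[i] y)) 0 := bb_eq (S := S) y 0
  refine ⟨fun k => ?_, ?_, ?_⟩
  · rw [bb_eq, e0]
    exact rseq_dist hq hρ hρq hC hD hl (h := fun n => absHeight (S.zo z y n)) hh k
  · rw [e0]
    exact rseq_lower hq hρ hρq hC hD hl (h := fun n => absHeight (S.zo z y n)) hh hn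
  · obtain ⟨L, hL, hlim, hz⟩ :=
      rseq_lim hq hρ hρq hC hD hl (h := fun n => absHeight (S.zo z y n)) hh hn
    refine ⟨L, hL, hlim, fun h0 k => ?_⟩
    rw [bb_eq]
    exact hz h0 k

end Pool.Agent.PBK
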