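import Pool.Agent.PBK.Coef
import Pool.Agent.PBK.Bseq

/-!
# PBK BDD: bounded heights of the fibre maps and of the points in reduced bases

`bdd_map`: by `coef` (with `c = S.sc y`) `absHeight (cv q p) ≤ q * (bb y + C2) + m * absHeight y
- absHeight (S.sc y) + (R - 1) * (bb (gv y) + C2) - (R * bb (gv y) - C2) + C
= (q * bb y + lam y - bb (gv y)) + (q + R) * C2 + C` and the bracket is `0` by `bb_step`.

`bdd_pt`: by `detb` with `T = Unit`: `absHeight a + absHeight (plk w) ≤ absHeight (comb w a) +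
(R - 1) * absHeight (cc w) + C`, so `absHeight a ≤ (b + C2) + (R - 1) * (b + C2) - (R * b - C2) + C`.
(The vector indexed by `Unit × Fin R` and `a` have the same height by `absHeight_comp_le`.)
-/

set_option autoImplicit false

open MvPolynomial

namespace Pool.Agent.PBK

open Pool.Agent.Helper63.WH

variable {E : Type*} [Field E] [CharZero E] [Algebra.IsAlgebraic ℚ E] [IsAlgClosed E]
  {M N s nP nG : ℕ} {S : Sys E M N s nP nG}

theorem bdd_map (hS : S.Good) (C2 : ℝ) :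
    ∃ C : ℝ, ∀ y ∈ S.Wc, S.Growth y → ∀ w w' : Fin S.R → Fin M → E, S.IsBas y w →
      S.IsBas (S.gv y) w' → absHeight (cc w) ≤ S.bb y + C2 →
      absHeight (cc w') ≤ S.bb (S.gv y) + C2 → S.R * S.bb (S.gv y) - C2 ≤ absHeight (plk w') →
      ∀ k0 : Fin nP, S.IsScAt y k0 (S.sc y) →
      ∀ p : Fin S.R → MvPolynomial (Fin S.R) E, S.IsFM k0 y w w' p →
        absHeight (cv S.q p) ≤ C := by
  obtain ⟨C, hC, h⟩ := coef hS
  refine ⟨(S.q + S.R) * C2 + C, fun y hy hg w w' hw hw' h1 h2 h3 k0 hk p hp => ?_⟩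
  have h4 := h y hy k0 (S.sc y) hk w w' hw hw' p hp
  have h5 := bb_step hS hy hg
  have h6 : S.lam y = S.m * absHeight y - absHeight (S.sc y) := rfl
  have hR : (1 : ℝ) ≤ S.R := by
    have := hS.hR
    exact_mod_cast (by omega : 1 ≤ S.R)
  have hq : (0 : ℝ) ≤ S.q := Nat.cast_nonneg _
  have h7 := mul_le_mul_of_nonneg_left h1 hq
  have h8 := mul_le_mul_of_nonneg_left h2 (sub_nonneg.2 hR)
  nlinarith [h4, h5, h6, h7, h8, h3]

theorem bdd_pt (R M : ℕ) (hR : 1 ≤ R) (C2 : ℝ) :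
    ∃ C : ℝ, ∀ w : Fin R → Fin M → E, LinearIndependent E w → ∀ b : ℝ,
      absHeight (cc w) ≤ b + C2 → R * b - C2 ≤ absHeight (plk w) →
      ∀ a : Fin R → E, a ≠ 0 → absHeight (comb w a) ≤ b + C2 → absHeight a ≤ C := by
  obtain ⟨C, hC, h⟩ := detb (E := E) Unit R M hR
  refine ⟨(R + 1) * C2 + C, fun w hw b h1 h2 a ha h3 => ?_⟩
  have h4 := h w hw (fun _ => a) (fun h0 => ha (congrFun h0 ()))
  have h5 : absHeight a ≤ absHeight (fun x : Unit × Fin R => (fun _ : Unit => a) x.1 x.2) :=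
    absHeight_comp_le (fun i : Fin R => ((), i))
      (fun x : Unit × Fin R => (fun _ : Unit => a) x.1 x.2)
  have h6 : absHeight (fun x : Unit × Fin M => comb w ((fun _ : Unit => a) x.1) x.2) ≤
      absHeight (comb w a) :=
    absHeight_comp_le (fun x : Unit × Fin M => x.2) (comb w a)
  have hR' : (1 : ℝ) ≤ R := by exact_mod_cast hR
  have h7 := mul_le_mul_of_nonneg_left h1 (sub_nonneg.2 hR')
  nlinarith [h4, h5, h6, h7, h2, h3]

end Pool.Agent.PBK
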