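import Pool.Agent.PBK.Lin

/-!
# PBK BLK: minors of a block diagonal matrix

The matrix has the rows `a = (k, s)`, the columns `b = (j, s')` and the entries `v s k j` if `s = s'`, and
`0` otherwise. `g` is a choice of columns. Proof.

Case 1: for every `s` exactly `R` of the indices `c : Fin R × Fin d` have `(g c).2 = s`. Then choose for
every `s` a bijection `Fin R ≃ {c // (g c).2 = s}`; together they give a permutation
`θ : Fin R × Fin d ≃ Fin R × Fin d` with `(g (θ (k, s))).2 = s`. Then
`mi W g = sign θ * mi W (g ∘ θ)` (`Matrix.det_permute'`), and the matrix of `mi W (g ∘ θ)` is block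
diagonal with the blocks `(v s k (J s k'))`, `J s k' = (g (θ (k', s))).1`, so its determinant is
`∏ s, plk (v s) (J s)` (`Matrix.det_blockDiagonal`, for matrices indexed by `Fin R × Fin d`). So
`κ = sign θ` at this `J` and `0` elsewhere.

Case 2: otherwise for some `s` more than `R` of the indices `c` have `(g c).2 = s` (the total number is
`R * d`). The columns with these indices are nonzero only in the `R` rows `(k, s)`, so they are
linearly dependent and `mi W g = 0` for every `v`: in the formula `∑_π sign π ∏_c W (π c) (g c)` every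
product is zero, because `π` would map the set `{c | (g c).2 = s}` of more than `R` elements injectively
to the set of the `R` indices `(k, s)`. Take `κ = 0`.
-/

set_option autoImplicit false

namespace Pool.Agent.PBK

theorem blk {E : Type*} [CommRing E] {R M d : ℕ} (g : Fin R × Fin d → Fin M × Fin d) :
    ∃ κ : (Fin d → Fin R → Fin M) → E, ∀ v : Fin d → Fin R → Fin M → E,
      mi (fun (a : Fin R × Fin d) (b : Fin M × Fin d) => if a.2 = b.2 then v a.2 a.1 b.1 else 0) g =
        ∑ J : Fin d → Fin R → Fin M, κ J * ∏ s, plk (v s) (J s) := by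
  classical
  have hcard : ∀ s : Fin d, (Finset.univ.filter fun a : Fin R × Fin d => a.2 = s).card = R := by
    intro s
    have : (Finset.univ.filter fun a : Fin R × Fin d => a.2 = s) =
        (Finset.univ : Finset (Fin R)).image fun k => (k, s) := by
      ext ⟨k, s'⟩
      simp only [Finset.mem_filter, Finset.mem_univ, true_and, Finset.mem_image, Prod.mk.injEq,
        exists_eq_left]
      exact eq_comm
    rw [this, Finset.card_image_of_injective _ (fun a b h => (Prod.mk.inj h).1), Finset.card_univ,
      Fintype.card_fin]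
  by_cases hg : ∀ s : Fin d, (Finset.univ.filter fun c : Fin R × Fin d => (g c).2 = s).card = R
  · -- the permutation
    have he : ∀ s : Fin d, Nonempty (Fin R ≃ {c : Fin R × Fin d // (g c).2 = s}) := by
      intro s
      refine ⟨Fintype.equivOfCardEq ?_⟩
      rw [Fintype.card_fin, Fintype.card_subtype, hg s]
    let e : ∀ s : Fin d, Fin R ≃ {c : Fin R × Fin d // (g c).2 = s} := fun s => (he s).some
    let θ : Fin R × Fin d ≃ Fin R × Fin d :=
      ((Equiv.prodComm (Fin R) (Fin d)).trans (Equiv.sigmaEquivProd (Fin d) (Fin R)).symm).trans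
        ((Equiv.sigmaCongrRight e).trans (Equiv.sigmaFiberEquiv fun c => (g c).2))
    have hθ : ∀ k s, θ (k, s) = (e s k).1 := fun k s => rfl
    have hθ2 : ∀ k s, (g (θ (k, s))).2 = s := fun k s => (e s k).2
    refine ⟨fun J => if J = (fun s k => (g (θ (k, s))).1) then ((Equiv.Perm.sign θ : ℤ) : E) else 0,
      fun v => ?_⟩
    rw [Finset.sum_eq_single (fun s k => (g (θ (k, s))).1)
      (fun J _ hJ => by beta_reduce; rw [if_neg hJ, zero_mul])
      (fun h => absurd (Finset.mem_univ _) h)]
    beta_reduce
    rw [if_pos rfl]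
    unfold mi
    have h1 := Matrix.det_permute' θ (Matrix.of fun (a : Fin R × Fin d) (c : Fin R × Fin d) =>
      (fun (a : Fin R × Fin d) (b : Fin M × Fin d) => if a.2 = b.2 then v a.2 a.1 b.1 else 0) a (g c))
    have h2 : (Matrix.of fun (a : Fin R × Fin d) (c : Fin R × Fin d) =>
      (fun (a : Fin R × Fin d) (b : Fin M × Fin d) => if a.2 = b.2 then v a.2 a.1 b.1 else 0) a
        (g c)).submatrix id θ = Matrix.blockDiagonal fun s =>
          Matrix.of fun k k' => v s k (g (θ (k', s))).1 := by
      ext ⟨k, s⟩ ⟨k', s'⟩
      rw [Matrix.blockDiagonal_apply]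
      simp only [Matrix.submatrix_apply, id_eq, Matrix.of_apply, hθ2]
      by_cases hs : s = s'
      · subst hs
        rfl
      · rw [if_neg hs, if_neg hs]
    rw [h2, Matrix.det_blockDiagonal] at h1
    have h3 : ((Equiv.Perm.sign θ : ℤ) : E) * ((Equiv.Perm.sign θ : ℤ) : E) = 1 := by
      rw [← Int.cast_mul, ← Units.val_mul, Int.units_mul_self, Units.val_one, Int.cast_one]
    calc _ = ((Equiv.Perm.sign θ : ℤ) : E) * (((Equiv.Perm.sign θ : ℤ) : E) * Matrix.det
        (Matrix.of fun (a : Fin R × Fin d) (c : Fin R × Fin d) =>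
      (fun (a : Fin R × Fin d) (b : Fin M × Fin d) => if a.2 = b.2 then v a.2 a.1 b.1 else 0) a
        (g c))) := by rw [← mul_assoc, h3, one_mul]
      _ = _ := by
        rw [← h1]
        rfl
  · push Not at hg
    obtain ⟨s, hs⟩ := hg
    refine ⟨fun _ => 0, fun v => ?_⟩
    simp only [zero_mul, Finset.sum_const_zero]
    unfold mi
    rw [Matrix.det_apply]
    refine Finset.sum_eq_zero fun σ _ => ?_
    have h1 : ∃ c : Fin R × Fin d, (σ c).2 ≠ (g c).2 := by
      by_contra hall
      push Not at hall
      apply hs
      refine Eq.trans ?_ (hcard s)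
      refine Finset.card_bij (fun c _ => σ c) ?_ ?_ ?_
      · intro c hc
        simp only [Finset.mem_filter, Finset.mem_univ, true_and] at hc ⊢
        rw [hall c, hc]
      · intro a _ b _ h
        exact σ.injective h
      · intro b hb
        simp only [Finset.mem_filter, Finset.mem_univ, true_and] at hb
        refine ⟨σ.symm b, ?_, σ.apply_symm_apply b⟩
        simp only [Finset.mem_filter, Finset.mem_univ, true_and]
        rw [← hall, σ.apply_symm_apply, hb]
    obtain ⟨c, hc⟩ := h1
    rw [Finset.prod_eq_zero (Finset.mem_univ c), smul_zero]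
    simp only [Matrix.of_apply]
    rw [if_neg hc]

end Pool.Agent.PBK
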