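import Pool.Agent.PBK.Ldefs

/-!
# PBK BRK: brackets of symmetries

Proof of `isSym_brk`. For a matrix `A` let `δ_A = ∑ l, (∑ j, C (A l j) * X j) * pderiv l`, a derivation of
`MvPolynomial (Fin R) F` over `F`; `δ_A (X l) = ∑ j, C (A l j) * X j`. The commutator
`δ_A δ_B - δ_B δ_A` is a derivation (`Derivation` has a Lie ring structure in Mathlib, or check
directly) and its value at `X l` is `δ_A (∑ j, B l j X j) - δ_B (∑ j, A l j X j) =
∑ i, (B A - A B) l i X i`, so it is `δ_(B A - A B)` (derivations are determined by the values at the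
variables: `MvPolynomial.derivation_ext`). Apply it to `p k`: `δ_A (δ_B (p k)) = ∑ l, B' k l * δ_A (p l) =
∑ i, (B' A') k i * p i`. So `δ_(B A - A B) p = (B' A' - A' B') p`.
`chain_brk` follows for every `i`.
-/

set_option autoImplicit false

open MvPolynomial

namespace Pool.Agent.PBK

variable {F : Type*} [CommRing F] {R : ℕ}

/-- the linear forms of a matrix -/
private noncomputable def lin (A : Matrix (Fin R) (Fin R) F) (l : Fin R) : MvPolynomial (Fin R) F :=
  ∑ j, C (A l j) * X j

/-- the linear vector field of a matrix -/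
private noncomputable def dl (A : Matrix (Fin R) (Fin R) F) :
    Derivation F (MvPolynomial (Fin R) F) (MvPolynomial (Fin R) F) :=
  ∑ l, lin A l • pderiv l

private theorem der_sum {ι : Type*} (s : Finset ι)
    (D : ι → Derivation F (MvPolynomial (Fin R) F) (MvPolynomial (Fin R) F))
    (p : MvPolynomial (Fin R) F) : (∑ l ∈ s, D l) p = ∑ l ∈ s, D l p := by
  classical
  induction s using Finset.induction_on with
  | empty => rw [Finset.sum_empty, Finset.sum_empty]; rfl
  | insert a s ha ih => rw [Finset.sum_insert ha, Finset.sum_insert ha, Derivation.add_apply, ih]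

private theorem dl_apply (A : Matrix (Fin R) (Fin R) F) (p : MvPolynomial (Fin R) F) :
    dl A p = ∑ l, (∑ j, C (A l j) * X j) * pderiv l p := by
  unfold dl lin
  rw [der_sum]
  rfl

private theorem dl_X (A : Matrix (Fin R) (Fin R) F) (i : Fin R) : dl A (X i) = lin A i := by
  classical
  rw [dl_apply, Finset.sum_eq_single i]
  · rw [pderiv_X_self, mul_one]
    rfl
  · intro l _ hl
    rw [pderiv_X_of_ne hl.symm, mul_zero]
  · intro h
    exact absurd (Finset.mem_univ i) h

private theorem lin_mul (A B : Matrix (Fin R) (Fin R) F) (i : Fin R) :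
    ∑ j, C (B i j) * lin A j = lin (B * A) i := by
  unfold lin
  simp_rw [Finset.mul_sum]
  rw [Finset.sum_comm]
  refine Finset.sum_congr rfl fun k _ => ?_
  rw [Matrix.mul_apply, map_sum, Finset.sum_mul]
  refine Finset.sum_congr rfl fun j _ => ?_
  rw [C_mul]
  ring

private theorem dl_C_mul (A : Matrix (Fin R) (Fin R) F) (c : F) (p : MvPolynomial (Fin R) F) :
    dl A (C c * p) = C c * dl A p := by
  rw [← smul_eq_C_mul, ← smul_eq_C_mul, Derivation.map_smul]

private theorem dl_lin (A B : Matrix (Fin R) (Fin R) F) (i : Fin R) :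
    dl A (lin B i) = lin (B * A) i := by
  rw [← lin_mul]
  conv_lhs => unfold lin
  rw [map_sum]
  refine Finset.sum_congr rfl fun j _ => ?_
  rw [dl_C_mul, dl_X]

private theorem lin_sub (A B : Matrix (Fin R) (Fin R) F) (i : Fin R) :
    lin (A - B) i = lin A i - lin B i := by
  unfold lin
  rw [← Finset.sum_sub_distrib]
  refine Finset.sum_congr rfl fun j _ => ?_
  rw [Matrix.sub_apply, C_sub]
  ring

private theorem isSym_iff {p : Fin R → MvPolynomial (Fin R) F} {A A' : Matrix (Fin R) (Fin R) F} :
    IsSym p A A' ↔ ∀ k, dl A (p k) = ∑ l, C (A' k l) * p l := by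
  unfold IsSym
  simp_rw [dl_apply]

theorem isSym_brk {p : Fin R → MvPolynomial (Fin R) F} {A A' B B' : Matrix (Fin R) (Fin R) F}
    (hA : IsSym p A A') (hB : IsSym p B B') : IsSym p (B * A - A * B) (B' * A' - A' * B') := by
  rw [isSym_iff] at *
  have h1 : dl (B * A - A * B) = ⁅dl A, dl B⁆ := by
    refine MvPolynomial.derivation_ext fun i => ?_
    rw [Derivation.commutator_apply, dl_X, dl_X, dl_X, dl_lin, dl_lin, lin_sub]
  have h2 : ∀ (M N M' N' : Matrix (Fin R) (Fin R) F), (∀ k, dl M (p k) = ∑ l, C (M' k l) * p l) →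
      (∀ k, dl N (p k) = ∑ l, C (N' k l) * p l) → ∀ k,
      dl M (dl N (p k)) = ∑ l, C ((N' * M') k l) * p l := by
    intro M N M' N' hM hN k
    rw [hN, map_sum]
    simp_rw [dl_C_mul, hM, Finset.mul_sum]
    rw [Finset.sum_comm]
    refine Finset.sum_congr rfl fun l _ => ?_
    rw [Matrix.mul_apply, map_sum, Finset.sum_mul]
    refine Finset.sum_congr rfl fun j _ => ?_
    rw [C_mul]
    ring
  intro k
  rw [h1, Derivation.commutator_apply, h2 A B A' B' hA hB, h2 B A B' A' hB hA,
    ← Finset.sum_sub_distrib]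
  refine Finset.sum_congr rfl fun l _ => ?_
  rw [Matrix.sub_apply, C_sub]
  ring

theorem chain_brk {m : ℕ} {p : Fin m → Fin R → MvPolynomial (Fin R) F}
    {A B : Fin (m + 1) → Matrix (Fin R) (Fin R) F} (hA : IsChain p A) (hB : IsChain p B) :
    IsChain p (fun i => B i * A i - A i * B i) := by
  rw [isChain_iff] at *
  exact fun i => isSym_brk (hA i) (hB i)

/-- Change of variables in a symmetry. -/
theorem isSym_conj {p : Fin R → MvPolynomial (Fin R) F} {A A' Q Q' : Matrix (Fin R) (Fin R) F}
    (hQ : Q * Q' = 1) (h : IsSym p (Q * A * Q') A') :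
    IsSym (fun k => aeval (fun l => ∑ j, C (Q l j) * X j) (p k) :
      Fin R → MvPolynomial (Fin R) F) A A' := by
  rw [isSym_iff] at *
  have hQ' : Q' * Q = 1 := mul_eq_one_comm.1 hQ
  have hl : ∀ (B : Matrix (Fin R) (Fin R) F) (i : Fin R),
      aeval (fun l => ∑ j, C (Q l j) * X j : Fin R → MvPolynomial (Fin R) F) (lin B i) =
        lin (B * Q) i := by
    intro B i
    rw [← lin_mul]
    conv_lhs => unfold lin
    rw [map_sum]
    refine Finset.sum_congr rfl fun j _ => ?_
    rw [map_mul, aeval_X, aeval_C]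
    rfl
  have h1 : ∀ f : MvPolynomial (Fin R) F,
      dl A (aeval (fun l => ∑ j, C (Q l j) * X j : Fin R → MvPolynomial (Fin R) F) f) =
        aeval (fun l => ∑ j, C (Q l j) * X j : Fin R → MvPolynomial (Fin R) F)
          (dl (Q * A * Q') f) := by
    intro f
    induction f using MvPolynomial.induction_on with
    | C a =>
      rw [aeval_C]
      have e1 : dl A (algebraMap F (MvPolynomial (Fin R) F) a) = 0 := Derivation.map_algebraMap _ _
      have e2 : dl (Q * A * Q') (C a) = 0 := Derivation.map_algebraMap _ _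
      rw [e1, e2, map_zero]
    | add f g hf hg => rw [map_add, map_add, map_add, map_add, hf, hg]
    | mul_X f i hf =>
      rw [map_mul, Derivation.leibniz, Derivation.leibniz, map_add, smul_eq_mul, smul_eq_mul,
        smul_eq_mul, smul_eq_mul, map_mul, map_mul, hf, dl_X, hl, aeval_X]
      congr 2
      have e1 : dl A (∑ j, C (Q i j) * X j) = lin (Q * A) i := dl_lin A Q i
      rw [e1, Matrix.mul_assoc (Q * A), hQ', Matrix.mul_one]
  intro k
  rw [h1, h k, map_sum]
  refine Finset.sum_congr rfl fun l _ => ?_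
  rw [map_mul, aeval_C]
  rfl

end Pool.Agent.PBK
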