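import Pool.Agent.PBK.Lin

/-!
# PBK CB: the Cauchy-Binet formula, indexed by all functions

Proof of `cb`: the matrix `(∑ i, X a i * Y i (f b))_(a, b)`; expand the determinant with respect to the
columns `b` by multilinearity (`Matrix.det` of the transpose is alternating multilinear in the rows;
`MultilinearMap.map_sum`, `MultilinearMap.map_smul_univ`), or directly:
`det = ∑_π sign π ∏_b ∑_i X (π b) i * Y i (f b) = ∑_π sign π ∑_g ∏_b X (π b) (g b) * Y (g b) (f b)`
(`Matrix.det_apply'`, `Finset.prod_univ_sum`, `Fintype.piFinset_univ`), and exchange the sums.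
-/

set_option autoImplicit false

namespace Pool.Agent.PBK

theorem cb {ρ μ ν A : Type*} [Fintype ρ] [DecidableEq ρ] [Fintype μ] [DecidableEq μ]
    [CommRing A] (X : ρ → μ → A) (Y : μ → ν → A) (f : ρ → ν) :
    mi (fun a j => ∑ i, X a i * Y i j) f = ∑ g : ρ → μ, (∏ b, Y (g b) (f b)) * mi X g := by
  have h1 : ∀ π : Equiv.Perm ρ, ∏ b, (∑ i, X (π b) i * Y i (f b)) =
      ∑ g : ρ → μ, (∏ b, X (π b) (g b)) * ∏ b, Y (g b) (f b) := by
    intro π
    rw [Finset.prod_univ_sum, Fintype.piFinset_univ]
    exact Finset.sum_congr rfl fun g _ => Finset.prod_mul_distrib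
  unfold mi
  rw [Matrix.det_apply']
  simp only [Matrix.of_apply, h1, Finset.mul_sum]
  rw [Finset.sum_comm]
  refine Finset.sum_congr rfl fun g _ => ?_
  rw [Matrix.det_apply', Finset.mul_sum]
  refine Finset.sum_congr rfl fun π _ => ?_
  simp only [Matrix.of_apply]
  ring

/-- If the middle index set is the index set of the rows. -/
theorem mi_mul {ρ ν A : Type*} [Fintype ρ] [DecidableEq ρ] [CommRing A] (X : ρ → ρ → A)
    (Y : ρ → ν → A) (f : ρ → ν) :
    mi (fun a j => ∑ i, X a i * Y i j) f = Matrix.det (Matrix.of X) * mi Y f := by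
  unfold mi
  rw [← Matrix.det_mul]
  congr 1

end Pool.Agent.PBK
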