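import Pool.Agent.PBK.Multi

/-!
# PBK INTERP: coefficients from values

Proof of `exists_interp`. A polynomial with all `degreeOf ≤ q` which vanishes on the grid
`{0, ..., q} ^ R` is zero (Mathlib: `MvPolynomial.eq_zero_of_eval_zero_at_prod_finset` or
similar; `CharZero`). So the linear map from the coefficient vectors
`(Fin R → Fin (q + 1)) → E` to the vectors of the values `(Fin R → Fin (q + 1)) → E` on the grid is
injective; it has a left inverse, given by a matrix `L`.
A form of degree `q` has all its exponents `d` with `d i ≤ q`, so it is the sum of the monomials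
indexed by `Fin R → Fin (q + 1)`.
Proof of `interp`: `cv q p (j, d) = ∑ g, L d g * (value of p j at g)` is a fixed linear map applied to the
vector of the values; `absHeight_lin`.
-/

set_option autoImplicit false

open MvPolynomial

namespace Pool.Agent.PBK

open Pool.Agent.Helper63.WH

/-- The exponent of a point of the grid. -/
private noncomputable def itF {R q : ℕ} (d : Fin R → Fin (q + 1)) : Fin R →₀ ℕ :=
  Finsupp.equivFunOnFinite.symm fun i => (d i : ℕ)

private theorem itF_apply {R q : ℕ} (d : Fin R → Fin (q + 1)) (i : Fin R) :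
    itF d i = (d i : ℕ) := rfl

private theorem itF_inj {R q : ℕ} : Function.Injective (itF : (Fin R → Fin (q + 1)) → _) := by
  intro d d' h
  funext i
  have := DFunLike.congr_fun h i
  rw [itF_apply, itF_apply] at this
  exact Fin.ext this

private theorem itF_eval {E : Type*} [Field E] {R q : ℕ} (P : MvPolynomial (Fin R) E)
    (hP : ∀ s ∈ P.support, ∀ i, s i ≤ q) (x : Fin R → E) :
    eval x P = ∑ d : Fin R → Fin (q + 1), coeff (itF d) P * ∏ i, x i ^ (d i : ℕ) := by
  classical
  rw [eval_eq']
  have h1 : ∑ d : Fin R → Fin (q + 1), coeff (itF d) P * ∏ i, x i ^ (d i : ℕ) =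
      ∑ s ∈ Finset.univ.image (itF : (Fin R → Fin (q + 1)) → _), coeff s P * ∏ i, x i ^ s i := by
    rw [Finset.sum_image (fun _ _ _ _ h => itF_inj h)]
    rfl
  rw [h1]
  refine Finset.sum_subset ?_ ?_
  · intro s hs
    rw [Finset.mem_image]
    refine ⟨fun i => ⟨s i, Nat.lt_succ_of_le (hP s hs i)⟩, Finset.mem_univ _, ?_⟩
    ext i
    rfl
  · intro s _ hs
    rw [notMem_support_iff.1 hs, zero_mul]

private theorem it_hom {E : Type*} [Field E] {R q : ℕ} {F : MvPolynomial (Fin R) E}
    (hF : F.IsHomogeneous q) : ∀ s ∈ F.support, ∀ i, s i ≤ q := by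
  intro s hs i
  have h1 : s.degree = q := by
    rw [Finsupp.degree_eq_weight_one]
    exact hF (mem_support_iff.1 hs)
  rw [Finsupp.degree_eq_sum] at h1
  rw [← h1]
  exact Finset.single_le_sum (f := fun i => s i) (fun _ _ => Nat.zero_le _) (Finset.mem_univ i)

/-- The values on the grid of the polynomial with the given coefficients. -/
private noncomputable def itL (E : Type*) [Field E] (R q : ℕ) :
    ((Fin R → Fin (q + 1)) → E) →ₗ[E] ((Fin R → Fin (q + 1)) → E) where
  toFun c g := ∑ d, c d * ∏ i, ((g i : ℕ) : E) ^ (d i : ℕ)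
  map_add' c c' := by
    funext g
    simp only [Pi.add_apply, add_mul, Finset.sum_add_distrib]
  map_smul' t c := by
    funext g
    simp only [Pi.smul_apply, smul_eq_mul, Finset.mul_sum, RingHom.id_apply, mul_assoc]

private theorem itL_inj (E : Type*) [Field E] [CharZero E] (R q : ℕ) :
    LinearMap.ker (itL E R q) = ⊥ := by
  classical
  rw [LinearMap.ker_eq_bot']
  intro c hc
  obtain ⟨P, hP⟩ : ∃ P : MvPolynomial (Fin R) E, P = ∑ d, monomial (itF d) (c d) := ⟨_, rfl⟩
  have hcoef : ∀ d, coeff (itF d) P = c d := by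
    intro d
    rw [hP, coeff_sum, Finset.sum_eq_single d]
    · rw [coeff_monomial, if_pos rfl]
    · intro d' _ hd'
      rw [coeff_monomial, if_neg fun h => hd' (itF_inj h)]
    · intro h
      exact absurd (Finset.mem_univ _) h
  have hsupp : ∀ s ∈ P.support, ∀ i, s i ≤ q := by
    intro s hs i
    rw [hP] at hs
    have h1 := support_sum hs
    rw [Finset.mem_biUnion] at h1
    obtain ⟨d, _, hd⟩ := h1
    have h2 := support_monomial_subset hd
    rw [Finset.mem_singleton] at h2
    rw [h2, itF_apply]
    exact Nat.le_of_lt_succ (d i).2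
  have h0 : P = 0 := by
    refine eq_zero_of_eval_zero_at_prod_finset P
      (fun _ => Finset.image (fun k : Fin (q + 1) => ((k : ℕ) : E)) Finset.univ) ?_ ?_
    · intro i
      rw [Finset.card_image_of_injective _ (fun a b h => Fin.ext (Nat.cast_injective h)),
        Finset.card_univ, Fintype.card_fin, degreeOf_lt_iff (Nat.succ_pos q)]
      intro s hs
      exact Nat.lt_succ_of_le (hsupp s hs i)
    · intro x hx
      have h1 : ∀ i, ∃ k : Fin (q + 1), ((k : ℕ) : E) = x i := by
        intro i
        have := hx i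
        rw [Finset.mem_image] at this
        obtain ⟨k, _, hk⟩ := this
        exact ⟨k, hk⟩
      choose g hg using h1
      have hx' : x = fun i => ((g i : ℕ) : E) := funext fun i => (hg i).symm
      rw [hx', itF_eval P hsupp]
      simp only [hcoef]
      exact congrFun hc g
  funext d
  rw [← hcoef, h0, coeff_zero]
  rfl

theorem exists_interp {E : Type*} [Field E] [CharZero E] (R q : ℕ) :
    ∃ L : (Fin R → Fin (q + 1)) → (Fin R → Fin (q + 1)) → E,
      ∀ F : MvPolynomial (Fin R) E, F.IsHomogeneous q → ∀ d : Fin R → Fin (q + 1),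
        F.coeff (Finsupp.equivFunOnFinite.symm fun i => (d i : ℕ)) =
          ∑ g, L d g * eval (fun i => ((g i : ℕ) : E)) F := by
  classical
  obtain ⟨G, hG⟩ := LinearMap.exists_leftInverse_of_injective (itL E R q) (itL_inj E R q)
  refine ⟨fun d g => G (fun j => if g = j then 1 else 0) d, fun F hF d => ?_⟩
  have h1 : itL E R q (fun d => coeff (itF d) F) =
      fun g => eval (fun i => ((g i : ℕ) : E)) F := by
    funext g
    exact (itF_eval F (it_hom hF) _).symm
  have h2 := congrArg (fun f : ((Fin R → Fin (q + 1)) → E) →ₗ[E] _ =>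
    f (fun d => coeff (itF d) F)) hG
  simp only [LinearMap.comp_apply, LinearMap.id_apply] at h2
  rw [h1, LinearMap.pi_apply_eq_sum_univ] at h2
  have h3 := congrFun h2 d
  rw [Finset.sum_apply] at h3
  refine h3.symm.trans (Finset.sum_congr rfl fun g _ => ?_)
  rw [Pi.smul_apply, smul_eq_mul, mul_comm]

theorem interp {E : Type*} [Field E] [CharZero E] [Algebra.IsAlgebraic ℚ E] (R q : ℕ) :
    ∃ C : ℝ, 0 ≤ C ∧ ∀ p : Fin R → MvPolynomial (Fin R) E, (∀ j, (p j).IsHomogeneous q) →
      absHeight (cv q p) ≤
        absHeight (fun x : (Fin R → Fin (q + 1)) × Fin R =>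
          eval (fun i => ((x.1 i : ℕ) : E)) (p x.2)) + C := by
  classical
  obtain ⟨L, hL⟩ := exists_interp (E := E) R q
  obtain ⟨C, hC, h⟩ := absHeight_lin (E := E) (κ := Fin R × (Fin R → Fin (q + 1)))
    (κ' := (Fin R → Fin (q + 1)) × Fin R) (fun k x => if x.2 = k.1 then L k.2 x.1 else 0)
  refine ⟨C, hC, fun p hp => ?_⟩
  have h1 := h (fun x => eval (fun i => ((x.1 i : ℕ) : E)) (p x.2))
  have h2 : (fun k : Fin R × (Fin R → Fin (q + 1)) =>
      ∑ x : (Fin R → Fin (q + 1)) × Fin R, (if x.2 = k.1 then L k.2 x.1 else 0) *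
        eval (fun i => ((x.1 i : ℕ) : E)) (p x.2)) = cv q p := by
    funext k
    rw [Fintype.sum_prod_type]
    unfold cv
    rw [hL (p k.1) (hp k.1) k.2]
    refine Finset.sum_congr rfl fun g _ => ?_
    rw [Finset.sum_eq_single k.1]
    · rw [if_pos rfl]
    · intro j _ hj
      rw [if_neg hj, zero_mul]
    · intro hj
      exact absurd (Finset.mem_univ _) hj
  rw [h2] at h1
  exact h1

/-- Forms of degree `q` are determined by the vector of their coefficients. -/
theorem cv_inj {E : Type*} [Field E] {R q : ℕ} {p p' : Fin R → MvPolynomial (Fin R) E}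
    (hp : ∀ j, (p j).IsHomogeneous q) (hp' : ∀ j, (p' j).IsHomogeneous q) {c : E}
    (h : cv q p = c • cv q p') : ∀ j, p j = C c * p' j := by
  classical
  intro j
  ext s
  rw [coeff_C_mul]
  by_cases hs : ∀ i, s i ≤ q
  · have h1 := congrFun h (j, fun i => ⟨s i, Nat.lt_succ_of_le (hs i)⟩)
    have h2 : (Finsupp.equivFunOnFinite.symm fun i =>
        (((⟨s i, Nat.lt_succ_of_le (hs i)⟩ : Fin (q + 1))) : ℕ)) = s := by
      ext i
      rfl
    simp only [cv, Pi.smul_apply, smul_eq_mul] at h1
    rw [h2] at h1
    exact h1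
  · have h1 : coeff s (p j) = 0 := by
      by_contra hne
      exact hs (it_hom (hp j) s (mem_support_iff.2 hne))
    have h2 : coeff s (p' j) = 0 := by
      by_contra hne
      exact hs (it_hom (hp' j) s (mem_support_iff.2 hne))
    rw [h1, h2, mul_zero]

end Pool.Agent.PBK
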