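import Pool.Agent.PBK.Multi

/-!
# PBK UPB: upper bounds for the heights of the values of forms

Proof of `upb`. If the vector of the values is zero, its height is `0` (`absHeight_zero`). Otherwise
apply `abs_htq` (`Pool/Agent/Helper63/WH/Ahtq.lean`) with the factors: the vector of all the
coefficients of all the `P i` (indexed by `ι × D`, `D` the finite set of all exponents in the supports),
`a` times the vector `z`, `b` times the vector `y` (index set of the factors:
`Unit ⊕ Fin a ⊕ Fin b` or `Option (Fin a ⊕ Fin b)`), and `c` the number of the exponents. At an absolute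
value `v` a monomial of bidegree `(a, b)` is at most `(sup v (z i)) ^ a * (sup v (y j)) ^ b`; at a
complex place the sum has at most `card D` terms, at a `p`-adic place it is at most the maximum of
the terms. See the proof of `absHeight_low` and the private lemmas in `Pool/Agent/KSF/Hgt.lean`
(`hgt_mono`, `hgt_sum_arch`, `hgt_sum_non`) as a model. `uph` is the same with one group of variables
(or from `upb` with `α = Unit`, `a = 0`, `z = 1` after renaming the variables by `Sum.inr`).
-/

set_option autoImplicit false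

open MvPolynomial

namespace Pool.Agent.PBK

open Pool.Agent.Helper63.WH

variable {E : Type*} [Field E] [CharZero E] [Algebra.IsAlgebraic ℚ E]

/-- The absolute value given by a complex embedding. -/
private noncomputable def upbC {E : Type*} [Field E] (s : E →+* ℂ) : AbsoluteValue E ℝ where
  toFun z := ‖s z‖
  map_mul' a b := by rw [map_mul, norm_mul]
  nonneg' a := norm_nonneg _
  eq_zero' a := by rw [norm_eq_zero, map_eq_zero]
  add_le' a b := by
    rw [map_add]
    exact norm_add_le _ _

private theorem upb_sum_arch {E : Type*} [Field E] (v : AbsoluteValue E ℝ) {τ : Type*} [Fintype τ]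
    (f : τ → E) (B : ℝ) (h : ∀ q, v (f q) ≤ B) : v (∑ q, f q) ≤ Fintype.card τ * B := by
  calc v (∑ q, f q) ≤ ∑ q, v (f q) := v.sum_le _ _
    _ ≤ ∑ _q : τ, B := Finset.sum_le_sum fun q _ => h q
    _ = Fintype.card τ * B := by rw [Finset.sum_const, Finset.card_univ, nsmul_eq_mul]

private theorem upb_sum_non {E : Type*} [Field E] (v : AbsoluteValue E ℝ) (hv : IsNonarchimedean v)
    {τ : Type*} [Fintype τ] (f : τ → E) (B : ℝ) (hB : 0 ≤ B) (h : ∀ q, v (f q) ≤ B) :
    v (∑ q, f q) ≤ B := by
  classical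
  rcases (Finset.univ : Finset τ).eq_empty_or_nonempty with h0 | h0
  · rw [h0, Finset.sum_empty, map_zero]
    exact hB
  · obtain ⟨i, -, hi⟩ := hv.finset_image_add_of_nonempty f h0
    exact hi.trans (h i)

/-- The index sets of the factors. -/
private def upbT (κ α β : Type) {a b : ℕ} : Option (Fin a ⊕ Fin b) → Type
  | none => κ
  | some (.inl _) => α
  | some (.inr _) => β

private theorem upb_mono {E : Type*} [Field E] (v : AbsoluteValue E ℝ) {α β : Type} [Finite α]
    [Finite β] (z : α → E) (y : β → E) (d : α ⊕ β →₀ ℕ) (a b : ℕ)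
    (hd : Finsupp.weight (bw α β) d = (a, b)) :
    v (∏ i ∈ d.support, (pt z y) i ^ d i) ≤ (⨆ i, v (z i)) ^ a * (⨆ j, v (y j)) ^ b := by
  have hz : ∀ i, v (z i) ≤ ⨆ i, v (z i) := fun i =>
    Finite.le_ciSup_of_le (f := fun i => v (z i)) i le_rfl
  have hy : ∀ i, v (y i) ≤ ⨆ i, v (y i) := fun i =>
    Finite.le_ciSup_of_le (f := fun i => v (y i)) i le_rfl
  rw [map_prod]
  have h2 : ∀ i ∈ d.support, v ((pt z y) i ^ d i) ≤
      (⨆ i, v (z i)) ^ (d i • bw α β i).1 * (⨆ j, v (y j)) ^ (d i • bw α β i).2 := by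
    rintro (i | i) _
    · simp only [pt, bw, map_pow, Sum.elim_inl, Prod.smul_mk, smul_eq_mul, mul_one, mul_zero,
        pow_zero]
      exact pow_le_pow_left₀ (v.nonneg _) (hz i) _
    · simp only [pt, bw, map_pow, Sum.elim_inr, Prod.smul_mk, smul_eq_mul, mul_one, mul_zero,
        pow_zero, one_mul]
      exact pow_le_pow_left₀ (v.nonneg _) (hy i) _
  refine (Finset.prod_le_prod (fun i _ => v.nonneg _) h2).trans (le_of_eq ?_)
  rw [Finset.prod_mul_distrib, Finset.prod_pow_eq_pow_sum, Finset.prod_pow_eq_pow_sum,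
    ← Prod.fst_sum, ← Prod.snd_sum]
  rw [Finsupp.weight_apply, Finsupp.sum] at hd
  rw [hd]

theorem upb {ι α β : Type} [Finite ι] [Finite α] [Finite β] (P : ι → MvPolynomial (α ⊕ β) E)
    (a b : ℕ) (hP : ∀ i, IsBihom (P i) a b) :
    ∃ C : ℝ, 0 ≤ C ∧ ∀ (z : α → E) (y : β → E), z ≠ 0 → y ≠ 0 →
      absHeight (fun i => eval (pt z y) (P i)) ≤ a * absHeight z + b * absHeight y + C := by
  classical
  have := Fintype.ofFinite ι
  obtain ⟨S, hS⟩ : ∃ S : Finset (α ⊕ β →₀ ℕ), ∀ i, (P i).support ⊆ S :=
    ⟨Finset.univ.biUnion fun i => (P i).support, fun i s hs =>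
      Finset.mem_biUnion.2 ⟨i, Finset.mem_univ _, hs⟩⟩
  set Γ : ι × S → E := fun q => (P q.1).coeff q.2.1 with hΓ
  have hmax : (1 : ℝ) ≤ max 1 (Fintype.card S : ℝ) := le_max_left _ _
  have hlog : 0 ≤ Real.log (max 1 (Fintype.card S : ℝ)) := Real.log_nonneg hmax
  refine ⟨Real.log (max 1 (Fintype.card S : ℝ)) + absHeight Γ,
    add_nonneg hlog (absHeight_nonneg _), ?_⟩
  intro z y hz hy
  have hexp : ∀ i, eval (pt z y) (P i) =
      ∑ s : S, Γ (i, s) * ∏ u ∈ s.1.support, (pt z y) u ^ s.1 u := by
    intro i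
    rw [eval_eq, Finset.sum_coe_sort S
      (fun s => (P i).coeff s * ∏ u ∈ s.support, (pt z y) u ^ s u)]
    refine Finset.sum_subset (hS i) fun s _ hs => ?_
    rw [notMem_support_iff.1 hs, zero_mul]
  have hzn := absHeight_nonneg z
  have hyn := absHeight_nonneg y
  have hcn := absHeight_nonneg Γ
  by_cases h0 : (fun i => eval (pt z y) (P i)) = 0
  · rw [h0, absHeight_zero]
    positivity
  · have hc0 : Γ ≠ 0 := by
      intro h1
      apply h0
      funext i
      rw [hexp]
      refine Finset.sum_eq_zero fun s _ => ?_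
      rw [h1, Pi.zero_apply, zero_mul]
    have hfin : ∀ o, Finite (upbT (ι × S) α β (a := a) (b := b) o) := fun o => by
      rcases o with _ | (_ | _)
      · exact (inferInstance : Finite (ι × S))
      · exact (inferInstance : Finite α)
      · exact (inferInstance : Finite β)
    let B : ∀ o, upbT (ι × S) α β (a := a) (b := b) o → E := fun o => match o with
      | none => Γ
      | some (.inl _) => z
      | some (.inr _) => y
    have hB : ∀ o, B o ≠ 0 := fun o => by
      rcases o with _ | (_ | _)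
      · exact hc0
      · exact hz
      · exact hy
    have hnn : ∀ v : AbsoluteValue E ℝ, 0 ≤ (⨆ q, v (Γ q)) *
        ((⨆ i, v (z i)) ^ a * (⨆ j, v (y j)) ^ b) := fun v =>
      mul_nonneg (Real.iSup_nonneg fun i => v.nonneg _)
        (mul_nonneg (pow_nonneg (Real.iSup_nonneg fun w => v.nonneg _) _)
          (pow_nonneg (Real.iSup_nonneg fun w => v.nonneg _) _))
    have hterm : ∀ (v : AbsoluteValue E ℝ) (i : ι) (s : S),
        v (Γ (i, s) * ∏ u ∈ s.1.support, (pt z y) u ^ s.1 u) ≤ (⨆ q, v (Γ q)) *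
          ((⨆ i, v (z i)) ^ a * (⨆ j, v (y j)) ^ b) := by
      intro v i s
      by_cases hs : Γ (i, s) = 0
      · rw [hs, zero_mul, map_zero]
        exact hnn v
      · rw [map_mul]
        refine mul_le_mul ?_ (upb_mono v z y s.1 a b (hP i hs)) (v.nonneg _)
          (Real.iSup_nonneg fun i => v.nonneg _)
        exact Finite.le_ciSup_of_le (f := fun q => v (Γ q)) (i, s) le_rfl
    have key := abs_htq (E := E) (κ := ι) (J := Option (Fin a ⊕ Fin b))
      (σ := upbT (ι × S) α β (a := a) (b := b))
      (fun i => eval (pt z y) (P i)) h0 B hB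
      (max 1 (Fintype.card S : ℝ)) hmax
      (fun s => by
        rw [Fintype.prod_option, Fintype.prod_sum_type]
        change (⨆ k, upbC s (eval (pt z y) (P k))) ≤
          max 1 (Fintype.card S : ℝ) *
            ((⨆ q, upbC s (Γ q)) *
              ((∏ _i : Fin a, ⨆ i, upbC s (z i)) * ∏ _j : Fin b, ⨆ j, upbC s (y j)))
        rw [Finset.prod_const, Finset.prod_const, Finset.card_univ, Finset.card_univ,
          Fintype.card_fin, Fintype.card_fin]
        refine Real.iSup_le (fun k => ?_) (mul_nonneg (zero_le_one.trans hmax) (hnn (upbC s)))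
        rw [hexp]
        exact (upb_sum_arch (upbC s) _ _ (hterm (upbC s) k)).trans
          (mul_le_mul_of_nonneg_right (le_max_right _ _) (hnn (upbC s))))
      (fun p τ => by
        rw [Fintype.prod_option, Fintype.prod_sum_type]
        change (⨆ k, pAbs p τ (eval (pt z y) (P k))) ≤
            ((⨆ q, pAbs p τ (Γ q)) *
              ((∏ _i : Fin a, ⨆ i, pAbs p τ (z i)) * ∏ _j : Fin b, ⨆ j, pAbs p τ (y j)))
        rw [Finset.prod_const, Finset.prod_const, Finset.card_univ, Finset.card_univ,
          Fintype.card_fin, Fintype.card_fin]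
        refine Real.iSup_le (fun k => ?_) (hnn (pAbs p τ))
        rw [hexp]
        exact upb_sum_non (pAbs p τ) (pAbs_nonarch p τ) _ _ (hnn (pAbs p τ))
          (hterm (pAbs p τ) k))
      ∅ (fun _ => 1) (by simp) (by simp)
    rw [Fintype.sum_option, Fintype.sum_sum_type, Finset.sum_empty, add_zero] at key
    change _ ≤ Real.log (max 1 (Fintype.card S : ℝ)) +
      (absHeight Γ + ((∑ _i : Fin a, absHeight z) + ∑ _j : Fin b, absHeight y)) at key
    rw [Finset.sum_const, Finset.sum_const, Finset.card_univ, Finset.card_univ,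
      Fintype.card_fin, Fintype.card_fin, nsmul_eq_mul, nsmul_eq_mul] at key
    linarith

theorem uph {ι β : Type} [Finite ι] [Finite β] (P : ι → MvPolynomial β E)
    (b : ℕ) (hP : ∀ i, (P i).IsHomogeneous b) :
    ∃ C : ℝ, 0 ≤ C ∧ ∀ y : β → E, y ≠ 0 →
      absHeight (fun i => eval y (P i)) ≤ b * absHeight y + C := by
  have hP' : ∀ i, IsBihom (rename (Sum.inr : β → Unit ⊕ β) (P i)) 0 b := by
    intro i d hd
    obtain ⟨u, rfl, hu⟩ := coeff_rename_ne_zero _ _ _ hd
    have h1 := hP i hu
    rw [Finsupp.weight_apply] at h1 ⊢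
    rw [Finsupp.sum_mapDomain_index (by simp) (by intro _ _ _; rw [add_smul])]
    simp only [bw, Sum.elim_inr, Finsupp.sum] at h1 ⊢
    rw [Prod.ext_iff, Prod.fst_sum, Prod.snd_sum]
    constructor
    · simp
    · simpa using h1
  obtain ⟨C, hC, h⟩ := upb (α := Unit) (fun i => rename (Sum.inr : β → Unit ⊕ β) (P i)) 0 b hP'
  refine ⟨C, hC, fun y hy => ?_⟩
  have h1 := h (fun _ => 1) y (fun h0 => one_ne_zero (congrFun h0 ())) hy
  have h2 : ∀ i, eval (pt (fun _ : Unit => (1 : E)) y) (rename (Sum.inr : β → Unit ⊕ β) (P i)) =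
      eval y (P i) := by
    intro i
    rw [eval_rename]
    rfl
  simp_rw [h2] at h1
  rw [Nat.cast_zero, zero_mul, zero_add] at h1
  exact h1

end Pool.Agent.PBK
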