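import Pool.Agent.PBK.Detb
import Pool.Agent.PBK.Interp
import Pool.Agent.PBK.Fibmap
import Pool.Agent.PBK.Upb

/-!
# PBK COEF: the height of the map of a fibre in bases

Proof. Let `y, k0, c, w, w', p` be as in the statement. For all `k` and `u`:
`S.Pv k (comb w u) y = c k • S.Pv k0 (comb w u) y = comb w' (fun j => c k * p j u)`. Let
`T = Fin nP × (Fin S.R → Fin (S.q + 1))` and for `t = (k, g)` let `a t j = c k * p j (g)`, where `g` is
considered as a vector of `E ^ R` with integral coordinates. By `detb` (for `w'` and `a`)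
`absHeight a + absHeight (plk w') ≤ absHeight V + (R - 1) * absHeight (cc w') + C`, where
`V = (S.Pv k (comb w g) y l)_((k, g), l)`.
(1) The coordinates of `V` are the values at `(cc w, y)` of the polynomials
`aeval (Sum.elim (fun l => ∑ j, g j * X (inl (j, l))) (X ∘ inr)) (S.P k l)` in
`MvPolynomial ((Fin R × Fin M) ⊕ Fin N) E`, which are bihomogeneous of bidegree `(q, m)`
(`IsWeightedHomogeneous` of a substitution of weighted homogeneous polynomials of the same weights: the
substituted polynomials have the bidegrees `(1, 0)` and `(0, 1)`). By `upb`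
`absHeight V ≤ q * absHeight (cc w) + m * absHeight y + C` (`cc w ≠ 0`, `y ≠ 0`).
(2) `a` is the product vector of `c` and `(p j (g))_(g, j)` up to the order of the indices, so
`absHeight a = absHeight c + absHeight ((p j (g))_(g, j))` (`absHeight_mul`, `absHeight_comp_le` for
reordering), and `absHeight (cv q p) ≤ absHeight ((p j (g))_(g, j)) + C` by `interp`. The vectors are
nonzero: `c k0 = 1`; the forms `p j` are not all zero (the values on the fibre are not zero), and so
their values on the grid are not all zero (`exists_interp`).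
-/

set_option autoImplicit false

open MvPolynomial

namespace Pool.Agent.PBK

open Pool.Agent.Helper63.WH

variable {E : Type*} [Field E] [CharZero E] [Algebra.IsAlgebraic ℚ E]
  {M N s nP nG : ℕ} {S : Sys E M N s nP nG}

omit [CharZero E] [Algebra.IsAlgebraic ℚ E] in
/-- A substitution of weighted homogeneous polynomials. -/
theorem coef_subst {σ τ Γ : Type*} [AddCommMonoid Γ] {w : σ → Γ} {w' : τ → Γ} {n : Γ}
    {F : MvPolynomial σ E} (hF : IsWeightedHomogeneous w F n) (φ : σ → MvPolynomial τ E)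
    (hφ : ∀ i, IsWeightedHomogeneous w' (φ i) (w i)) :
    IsWeightedHomogeneous w' (aeval φ F) n := by
  classical
  rw [aeval_def, eval₂_eq]
  apply IsWeightedHomogeneous.sum
  intro d hd
  have h1 := IsWeightedHomogeneous.prod d.support (fun i => φ i ^ d i) (fun i => d i • w i)
    (w := w') (fun i _ => (hφ i).pow (d i))
  have h2 : ∑ i ∈ d.support, d i • w i = n := by
    have h3 := hF (mem_support_iff.1 hd)
    rwa [Finsupp.weight_apply, Finsupp.sum] at h3
  rw [h2] at h1
  exact h1.C_mul _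

/-- The substituted linear combination. -/
noncomputable def cfS (E : Type*) [Field E] {R M N : ℕ} (g : Fin R → ℕ) :
    Fin M ⊕ Fin N → MvPolynomial ((Fin R × Fin M) ⊕ Fin N) E :=
  Sum.elim (fun l => ∑ j, C ((g j : ℕ) : E) * X (Sum.inl (j, l))) fun i => X (Sum.inr i)

omit [CharZero E] [Algebra.IsAlgebraic ℚ E] in
theorem cfS_hom {R M N : ℕ} (g : Fin R → ℕ) (i : Fin M ⊕ Fin N) :
    IsWeightedHomogeneous (bw (Fin R × Fin M) (Fin N)) (cfS E g i) (bw (Fin M) (Fin N) i) := by
  rcases i with l | i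
  · show IsWeightedHomogeneous _ (∑ j, C ((g j : ℕ) : E) * X (Sum.inl (j, l))) (1, 0)
    apply IsWeightedHomogeneous.sum
    intro j _
    exact (isWeightedHomogeneous_X E (bw (Fin R × Fin M) (Fin N)) (Sum.inl (j, l))).C_mul _
  · exact isWeightedHomogeneous_X E (bw (Fin R × Fin M) (Fin N)) (Sum.inr i)

omit [CharZero E] [Algebra.IsAlgebraic ℚ E] in
theorem eval_cfS {R M N : ℕ} (g : Fin R → ℕ) (w : Fin R → Fin M → E) (y : Fin N → E)
    (F : MvPolynomial (Fin M ⊕ Fin N) E) :
    eval (pt (cc w) y) (aeval (cfS E g) F) =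
      eval (pt (comb w (fun i => ((g i : ℕ) : E))) y) F := by
  rw [← MvPolynomial.coe_aeval_eq_eval (pt (cc w) y), RingHom.coe_coe, ← AlgHom.comp_apply,
    ← MvPolynomial.coe_aeval_eq_eval, RingHom.coe_coe]
  congr 1
  apply MvPolynomial.algHom_ext
  intro i
  rw [AlgHom.comp_apply, aeval_X, aeval_X]
  rcases i with l | i
  · show aeval (pt (cc w) y) (∑ j, C ((g j : ℕ) : E) * X (Sum.inl (j, l))) =
      ∑ j, ((g j : ℕ) : E) * w j l
    rw [map_sum]
    apply Finset.sum_congr rfl
    intro j _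
    rw [map_mul, aeval_X, algHom_C]
    rfl
  · show aeval (pt (cc w) y) (X (Sum.inr i)) = y i
    rw [aeval_X]
    rfl

theorem coef (hS : S.Good) :
    ∃ C : ℝ, 0 ≤ C ∧ ∀ y ∈ S.Wc, ∀ (k0 : Fin nP) (c : Fin nP → E), S.IsScAt y k0 c →
      ∀ w w' : Fin S.R → Fin M → E, S.IsBas y w → S.IsBas (S.gv y) w' →
      ∀ p : Fin S.R → MvPolynomial (Fin S.R) E, S.IsFM k0 y w w' p →
        absHeight (cv S.q p) + absHeight (plk w') + absHeight c ≤
          S.q * absHeight (cc w) + S.m * absHeight y + ((S.R : ℝ) - 1) * absHeight (cc w') +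
            C := by
  classical
  have hR1 : 1 ≤ S.R := by
    have := hS.hR
    omega
  obtain ⟨CD, hCD, hD⟩ := detb (E := E) (Fin nP × (Fin S.R → Fin (S.q + 1))) S.R M hR1
  obtain ⟨C1, hC1, hU⟩ := upb (E := E) (ι := (Fin nP × (Fin S.R → Fin (S.q + 1))) × Fin M)
    (α := Fin S.R × Fin M) (β := Fin N)
    (fun x => aeval (cfS E (fun i => (x.1.2 i : ℕ))) (S.P x.1.1 x.2)) S.q S.m
    (fun x => coef_subst (hS.P_bihom x.1.1 x.2) _ (cfS_hom _))
  obtain ⟨C2, hC2, hI⟩ := interp (E := E) S.R S.q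
  refine ⟨CD + C1 + C2, by positivity, ?_⟩
  intro y hy k0 c hsc w w' hw hw' p hp
  -- the values on the grid
  set val : (Fin S.R → Fin (S.q + 1)) × Fin S.R → E :=
    fun x => eval (fun i => ((x.1 i : ℕ) : E)) (p x.2) with hval
  set a : Fin nP × (Fin S.R → Fin (S.q + 1)) → Fin S.R → E :=
    fun t j => c t.1 * val (t.2, j) with ha
  have hval0 : val ≠ 0 := by
    intro h0
    obtain ⟨L, hL⟩ := exists_interp (E := E) S.R S.q
    have h1 : cv S.q p = (0 : E) • cv S.q p := by
      funext x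
      rw [zero_smul, Pi.zero_apply]
      unfold cv
      rw [hL (p x.1) (hp.1 x.1) x.2]
      apply Finset.sum_eq_zero
      intro g _
      have h2 : eval (fun i => ((g i : ℕ) : E)) (p x.1) = 0 := congrFun h0 (g, x.1)
      rw [h2, mul_zero]
    have h2 := cv_inj hp.1 hp.1 h1
    have hu : (Pi.single ⟨0, hR1⟩ 1 : Fin S.R → E) ≠ 0 := by
      intro h3
      have := congrFun h3 ⟨0, hR1⟩
      simp at this
    have h3 := hsc.2.1 _ (IsBas.comb_mem hw _) (comb_ne_zero hw.1 hu)
    apply h3
    rw [hp.2]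
    have h4 : (fun j => eval (Pi.single ⟨0, hR1⟩ 1 : Fin S.R → E) (p j)) = 0 := by
      funext j
      rw [h2 j, C_0, zero_mul, map_zero]
      rfl
    rw [h4, comb_zero]
  have hc0 : c ≠ 0 := by
    intro h0
    have h1 := hsc.1
    rw [h0] at h1
    exact zero_ne_one h1
  have ha0 : a ≠ 0 := by
    intro h0
    apply hval0
    funext x
    have h1 := congrFun (congrFun h0 (k0, x.1)) x.2
    simp only [ha, hsc.1, one_mul] at h1
    exact h1
  -- the vector of the values of the forms
  have hV : ∀ t : Fin nP × (Fin S.R → Fin (S.q + 1)), comb w' (a t) =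
      S.Pv t.1 (comb w (fun i => ((t.2 i : ℕ) : E))) y := by
    intro t
    rw [hsc.2.2 t.1 _ (IsBas.comb_mem hw _), hp.2, ← comb_smul]
    rfl
  have h1 := hD w' hw'.1 a ha0
  have h2 : (fun x : (Fin nP × (Fin S.R → Fin (S.q + 1))) × Fin M => comb w' (a x.1) x.2) =
      fun x => eval (pt (cc w) y) (aeval (cfS E (fun i => (x.1.2 i : ℕ))) (S.P x.1.1 x.2)) := by
    funext x
    rw [hV, eval_cfS]
    rfl
  have hcc : cc w ≠ 0 := by
    intro h0
    have h3 : w ⟨0, hR1⟩ = 0 := by
      funext l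
      exact congrFun h0 (⟨0, hR1⟩, l)
    exact hw.1.ne_zero ⟨0, hR1⟩ h3
  have h3 := hU (cc w) y hcc (hS.W_ne0 y hy)
  rw [h2] at h1
  -- the product vector
  have h4 := absHeight_mul c val hc0 hval0
  have h5 := absHeight_comp_le (E := E)
    (fun x : Fin nP × ((Fin S.R → Fin (S.q + 1)) × Fin S.R) =>
      (((x.1, x.2.1), x.2.2) : (Fin nP × (Fin S.R → Fin (S.q + 1))) × Fin S.R))
    (fun x => a x.1 x.2)
  have h6 : absHeight (fun x : Fin nP × ((Fin S.R → Fin (S.q + 1)) × Fin S.R) =>
      c x.1 * val x.2) ≤ absHeight (fun x : (Fin nP × (Fin S.R → Fin (S.q + 1))) × Fin S.R =>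
        a x.1 x.2) := h5
  rw [h4] at h6
  have h7 := hI p hp.1
  have h8 : absHeight (cv S.q p) ≤ absHeight val + C2 := h7
  linarith

end Pool.Agent.PBK
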