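import Pool.Agent.PBK.Defs

/-!
# PBK INTS: heights of integral vectors

* `absHeight_le_of_integral`: if `z = 0` the height is `0 ≤ log T`. Otherwise apply `abs_htq`
  (`Pool/Agent/Helper63/WH/Ahtq.lean`) with one factor, the vector `1` indexed by `Unit` (of height
  `0`: apply `absHeight_eq` of `WH/Ext.lean` over `ℚ`, or the second part), `c = T`, `Q = ∅`:
  `‖s (z k)‖ ≤ T` at the complex places, and `‖τ (z k)‖ ≤ 1` at the `p`-adic places because `z k` is
  integral over `ℤ` and the norm is nonarchimedean (an equation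
  `z ^ n = - ∑_{i < n} a_i z ^ i` with integers `a_i` and `‖z‖ > 1` is impossible).
* `absHeight_nat_le`: special case.
* `log_le_absHeight_int`: `κ` is nonempty; the gcd of the `δ k` is `1`. The absolute height over `E` is
  the logarithmic height over `ℚ` (`absHeight_eq` of `Pool/Agent/Helper63/WH/Ext.lean` with `L = ℚ`,
  `finrank = 1`), and it is `log ⨆ |δ k|` by `Rat.logHeight_eq_max_abs_of_gcd_eq_one` (Mathlib,
  `NumberTheory/Height/NumberField.lean`). (`δ k = 0`: `Real.log 0 = 0`.)
-/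

set_option autoImplicit false

open MvPolynomial

namespace Pool.Agent.PBK

open Pool.Agent.Helper63.WH

variable {E : Type*} [Field E] [CharZero E] [Algebra.IsAlgebraic ℚ E]

private theorem ints_zero {κ : Type} [Finite κ] : absHeight (0 : κ → E) = 0 := by
  unfold absHeight
  split_ifs with h
  · haveI : NumberField (fld (0 : κ → E)) :=
      { to_charZero := inferInstance, to_finiteDimensional := h }
    have h0 : (fun i => (⟨(0 : κ → E) i, IntermediateField.subset_adjoin ℚ _ ⟨i, rfl⟩⟩ :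
        fld (0 : κ → E))) = 0 := by
      funext i
      exact Subtype.ext rfl
    have h1 : Height.logHeight (fun i => (⟨(0 : κ → E) i,
        IntermediateField.subset_adjoin ℚ _ ⟨i, rfl⟩⟩ : fld (0 : κ → E))) = 0 := by
      rw [h0]
      exact Height.logHeight_zero
    rw [h1, zero_div]
  · rfl

private theorem ints_one : absHeight (fun _ : Unit => (1 : E)) = 0 := by
  have h := absHeight_eq (E := E) (algebraMap ℚ E) (fun _ : Unit => (1 : ℚ))
    (fun h => one_ne_zero (congrFun h ()))
  have h1 : Height.logHeight (fun _ : Unit => (1 : ℚ)) = 0 := Height.logHeight_one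
  rw [h1, zero_div] at h
  simpa using h

theorem absHeight_le_of_integral {κ : Type} [Finite κ] (z : κ → E)
    (hz : ∀ k, IsIntegral ℤ (z k)) (T : ℝ) (hT : 1 ≤ T)
    (h : ∀ (s : E →+* ℂ) (k : κ), ‖s (z k)‖ ≤ T) : absHeight z ≤ Real.log T := by
  by_cases hz0 : z = 0
  · rw [hz0, ints_zero]
    exact Real.log_nonneg hT
  have hne : Nonempty κ := by
    by_contra hcon
    rw [not_nonempty_iff] at hcon
    exact hz0 (funext fun k => hcon.elim k)
  have h1 : ∀ s : E →+* ℂ, (∏ _j : Unit, ⨆ _i : Unit, ‖s (1 : E)‖) = 1 := by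
    intro s
    simp
  have h2 : ∀ (p : Nat.Primes) (τ : E →+* PadicAlgCl p),
      (∏ _j : Unit, ⨆ _i : Unit, pAbs p τ (1 : E)) = 1 := by
    intro p τ
    simp
  have key := abs_htq (E := E) (J := Unit) (σ := fun _ => Unit) z hz0 (fun _ _ => (1 : E))
    (fun _ h => one_ne_zero (congrFun h ())) T hT
    (fun s => by
      rw [h1 s, mul_one]
      exact ciSup_le fun k => h s k)
    (fun p τ => by
      rw [h2 p τ]
      refine ciSup_le fun k => ?_
      rw [pAbs_apply]
      exact pint_le_one p _ ((hz k).map τ.toIntAlgHom))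
    ∅ (fun _ => 1) (fun p hp => absurd hp (Finset.notMem_empty p))
    (fun p hp => absurd hp (Finset.notMem_empty p))
  rw [Finset.sum_empty, add_zero, Fintype.sum_unique, ints_one, add_zero] at key
  exact key

theorem absHeight_nat_le {κ : Type} [Finite κ] (a : κ → ℕ) (T : ℕ) (hT : 1 ≤ T)
    (h : ∀ k, a k ≤ T) : absHeight (fun k => ((a k : ℕ) : E)) ≤ Real.log T := by
  refine absHeight_le_of_integral _ (fun k => ?_) T (by exact_mod_cast hT) fun s k => ?_
  · have h1 : IsIntegral ℤ ((algebraMap ℤ E) (a k : ℤ)) := isIntegral_algebraMap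
    have h2 : (algebraMap ℤ E) (a k : ℤ) = ((a k : ℕ) : E) := by simp
    rwa [h2] at h1
  · rw [map_natCast, Complex.norm_natCast]
    exact_mod_cast h k

theorem log_le_absHeight_int {κ : Type} [Fintype κ] (δ : κ → ℤ)
    (h : ∀ p : ℕ, p.Prime → ∃ k, ¬ (p : ℤ) ∣ δ k) (k : κ) :
    Real.log |(δ k : ℝ)| ≤ absHeight (fun k => ((δ k : ℤ) : E)) := by
  classical
  haveI : Nonempty κ := ⟨k⟩
  have hgcd : Finset.univ.gcd δ = 1 := by
    have h1 : (Finset.univ.gcd δ).natAbs = 1 := by
      by_contra hcon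
      obtain ⟨p, hp, hpd⟩ := Nat.exists_prime_and_dvd hcon
      obtain ⟨k', hk'⟩ := h p hp
      exact hk' ((Int.natCast_dvd.2 hpd).trans (Finset.gcd_dvd (Finset.mem_univ k')))
    have h2 : normalize (Finset.univ.gcd δ) = Finset.univ.gcd δ := Finset.normalize_gcd
    rw [← Int.abs_eq_normalize, Int.abs_eq_natAbs, h1] at h2
    rw [← h2]
    rfl
  have hne : (fun k => (δ k : ℚ)) ≠ 0 := by
    intro h0
    obtain ⟨k', hk'⟩ := h 2 Nat.prime_two
    apply hk'
    have h1 : (δ k' : ℚ) = 0 := congrFun h0 k'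
    have h2 : δ k' = 0 := by exact_mod_cast h1
    rw [h2]
    exact dvd_zero _
  have h1 := absHeight_eq (E := E) (algebraMap ℚ E) (fun k => (δ k : ℚ)) hne
  have h2 : Height.logHeight (fun k => (δ k : ℚ)) = Real.log ↑(⨆ i, |δ i|) :=
    Rat.logHeight_eq_max_abs_of_gcd_eq_one hgcd
  rw [h2, Module.finrank_self, Nat.cast_one, div_one] at h1
  have h3 : (fun i => (algebraMap ℚ E) (δ i : ℚ)) = fun k => ((δ k : ℤ) : E) := by
    funext i
    rw [map_intCast]
  rw [h3] at h1
  rw [h1]
  have h4 : |δ k| ≤ ⨆ i, |δ i| := Finite.le_ciSup (fun i => |δ i|) k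
  by_cases hk : δ k = 0
  · rw [hk, Int.cast_zero, abs_zero, Real.log_zero]
    obtain ⟨k', hk'⟩ := h 2 Nat.prime_two
    have h5 : |δ k'| ≤ ⨆ i, |δ i| := Finite.le_ciSup (fun i => |δ i|) k'
    have h6 : 1 ≤ |δ k'| := by
      apply Int.one_le_abs
      rintro h0
      rw [h0] at hk'
      exact hk' (dvd_zero _)
    apply Real.log_nonneg
    exact_mod_cast h6.trans h5
  · have h5 : 0 < |(δ k : ℝ)| := abs_pos.2 (by exact_mod_cast hk)
    apply Real.log_le_log h5
    exact_mod_cast h4

end Pool.Agent.PBK
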