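import Pool.Agent.PBK.Sub
import Pool.Agent.PBK.Multi
import Pool.Agent.PBK.Upb
import Pool.Agent.PBK.Ints

/-!
# PBK COLS: small vectors in a fibre

Proof. Take for `w` a basis consisting of columns `S.col y (J i)` (`exists_cols`). For each of the
finitely many `J : Fin S.R → Fin s` the vector `comb w a = ∑ i, a i * S.col y (J i)` has the coordinates
`∑_{i} a i * v (i, l)`, where `v = (S.col y (J i) l)_(i, l)`; this is a bilinear expression in `a` and `v`,
so by `multi` (`J = Bool`, or `Unit ⊕ Unit`) its height is at most `absHeight a + absHeight v + C`;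
`v ≠ 0` as `w` is linearly independent and `S.R > 0`. By `absHeight_nat_le` `absHeight a ≤ log T`, by
`uph` `absHeight v ≤ S.c * absHeight y + C`. Take the maximum of the constants over all `J`
(`Finite`: use the sum of the constants over all `J`).
-/

set_option autoImplicit false

open MvPolynomial

namespace Pool.Agent.PBK

open Pool.Agent.Helper63.WH

variable {E : Type*} [Field E] [CharZero E] [Algebra.IsAlgebraic ℚ E]
  {M N s nP nG : ℕ} {S : Sys E M N s nP nG}

private theorem cols_comb (R M : ℕ) : ∃ C : ℝ, 0 ≤ C ∧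
    ∀ (a : Fin R → E) (w : Fin R → Fin M → E), a ≠ 0 → cc w ≠ 0 →
      absHeight (comb w a) ≤ absHeight a + absHeight (cc w) + C := by
  classical
  obtain ⟨C, hC, h⟩ := absHeight_lin (E := E) (κ := Fin M) (κ' := Fin R × (Fin R × Fin M))
    (fun l p => if p.2 = (p.1, l) then 1 else 0)
  refine ⟨C, hC, fun a w ha hw => ?_⟩
  have h1 := h (fun p => a p.1 * cc w p.2)
  rw [absHeight_mul a (cc w) ha hw] at h1
  refine le_trans (le_of_eq ?_) h1
  congr 1
  funext l
  rw [Fintype.sum_prod_type]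
  refine Finset.sum_congr rfl fun i _ => ?_
  rw [Finset.sum_eq_single (i, l)]
  · rw [if_pos rfl, one_mul]
    rfl
  · intro b _ hb
    rw [if_neg hb, zero_mul]
  · intro hb
    exact absurd (Finset.mem_univ _) hb

theorem cols (hS : S.Good) :
    ∃ C : ℝ, 0 ≤ C ∧ ∀ y ∈ S.Wc, ∃ w : Fin S.R → Fin M → E, S.IsBas y w ∧
      ∀ (T : ℕ) (a : Fin S.R → ℕ), 1 ≤ T → a ≠ 0 → (∀ j, a j ≤ T) →
        absHeight (comb w (fun j => ((a j : ℕ) : E))) ≤
          Real.log T + C * (absHeight y + 1) := by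
  classical
  obtain ⟨C₁, hC₁, h₁⟩ := cols_comb (E := E) S.R M
  have hu : ∀ J : Fin S.R → Fin s, ∃ C : ℝ, 0 ≤ C ∧ ∀ y : Fin N → E, y ≠ 0 →
      absHeight (fun x : Fin S.R × Fin M => eval y (S.B (J x.1) x.2)) ≤
        S.c * absHeight y + C := fun J =>
    uph (fun x : Fin S.R × Fin M => S.B (J x.1) x.2) S.c (fun x => hS.B_hom _ _)
  choose K hK hK' using hu
  have hsum : 0 ≤ ∑ J, K J := Finset.sum_nonneg fun J _ => hK J
  refine ⟨C₁ + ∑ J, K J + S.c, by positivity, fun y hy => ?_⟩
  obtain ⟨J, hJ⟩ := exists_cols hS hy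
  refine ⟨fun i => S.col y (J i), hJ, fun T a hT ha haT => ?_⟩
  have hyn := absHeight_nonneg (E := E) y
  have hcc : cc (fun i => S.col y (J i)) ≠ 0 := by
    intro h0
    have hR : 0 < S.R := lt_of_lt_of_le (by norm_num) hS.hR
    apply hJ.1.ne_zero ⟨0, hR⟩
    funext l
    exact congrFun h0 (⟨0, hR⟩, l)
  have ha' : (fun j => ((a j : ℕ) : E)) ≠ 0 := by
    intro h0
    apply ha
    funext j
    have := congrFun h0 j
    simpa using this
  have h2 := h₁ _ _ ha' hcc
  have h3 := absHeight_nat_le (E := E) a T hT haT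
  have h4 := hK' J y (hS.W_ne0 y hy)
  have h5 : K J ≤ ∑ J, K J := Finset.single_le_sum (fun J _ => hK J) (Finset.mem_univ J)
  have h6 : absHeight (cc (fun i => S.col y (J i))) ≤ S.c * absHeight y + K J := h4
  have h7 : 0 ≤ (C₁ + ∑ J, K J) * absHeight y := by positivity
  have h8 : (0 : ℝ) ≤ S.c := by positivity
  calc absHeight (comb (fun i => S.col y (J i)) (fun j => ((a j : ℕ) : E))) ≤
      Real.log T + (S.c * absHeight y + K J) + C₁ := by linarith
    _ ≤ Real.log T + (C₁ + ∑ J, K J + S.c) * (absHeight y + 1) := by nlinarith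

end Pool.Agent.PBK
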