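import Pool.Agent.PBK.Ldefs

/-!
# PBK COMM: a Lie algebra of semisimple matrices is commutative

Proof. Fix `A ∈ H`. `SemiS A` and `E` algebraically closed: `A` is diagonalizable, i.e. `E ^ R` has a basis
of eigenvectors of `A` (the generalised eigenspaces are the eigenspaces; Mathlib:
`Module.End.iSup_maxGenEigenspace_eq_top`), equivalently the minimal polynomial of `A` is a product of
distinct linear factors (`Module.End.IsSemisimple`, `isFinitelySemisimple` ...). Hence the linear map
`ad A : X ↦ A * X - X * A` on the space of matrices is diagonalizable (in the basis of the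
matrices `v_i ⊗ w_j`, `v_i` eigenvectors of `A` and `w_j` of the transpose, it is diagonal; or: it is the
difference of the commuting diagonalizable maps `X ↦ A * X`, `X ↦ X * A`), and so is its restriction to
the invariant subspace `H`. Suppose `ad A ≠ 0` on `H`. Then there are `μ ≠ 0` and `B ∈ H`, `B ≠ 0` with
`A * B - B * A = μ • B`. Then `B` maps the eigenspace of `A` for the eigenvalue `c` to the one for
`c + μ`; characteristic `0` and finitely many eigenvalues: `B` is nilpotent. By `SemiS B` with `c = 0`:
`B ^ 2 u = 0` implies `B u = 0`, so `B ^ (n + 1) = 0` implies `B ^ n = 0` for `n ≥ 1`, and `B = 0`,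
a contradiction. So `A * B = B * A` for all `B ∈ H`.
-/

set_option autoImplicit false

namespace Pool.Agent.PBK

/-- generalised eigenvectors of a semisimple matrix are eigenvectors -/
private theorem comm_gen {E : Type*} [Field E] {R : ℕ} {A : Matrix (Fin R) (Fin R) E} (hs : SemiS A)
    (c : E) : ∀ (k : ℕ) (v : Fin R → E), ((A - c • 1) ^ k).mulVec v = 0 →
      (A - c • 1).mulVec v = 0 := by
  intro k
  induction k with
  | zero =>
    intro v hv
    rw [pow_zero, Matrix.one_mulVec] at hv
    rw [hv, Matrix.mulVec_zero]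
  | succ k ih =>
    intro v hv
    rw [pow_succ, ← Matrix.mulVec_mulVec] at hv
    have h1 := ih _ hv
    rw [Matrix.mulVec_mulVec, ← pow_two] at h1
    exact hs c v h1

/-- a matrix killing all eigenvectors of a semisimple matrix is zero -/
private theorem comm_zero {E : Type*} [Field E] [IsAlgClosed E] {R : ℕ}
    {A : Matrix (Fin R) (Fin R) E} (hs : SemiS A) (C : Matrix (Fin R) (Fin R) E)
    (hC : ∀ (c : E) (v : Fin R → E), (A - c • 1).mulVec v = 0 → C.mulVec v = 0) : C = 0 := by
  have h1 : ∀ c : E, Module.End.maxGenEigenspace (Matrix.toLin' A) c ≤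
      LinearMap.ker (Matrix.toLin' C) := by
    intro c v hv
    rw [Module.End.mem_maxGenEigenspace] at hv
    obtain ⟨k, hk⟩ := hv
    rw [LinearMap.mem_ker, Matrix.toLin'_apply]
    refine hC c v (comm_gen hs c k v ?_)
    have h2 : (Matrix.toLin' A - c • (1 : Module.End E (Fin R → E))) = Matrix.toLin' (A - c • 1) := by
      rw [map_sub, map_smul, Matrix.toLin'_one]
      rfl
    rw [h2, ← Matrix.toLin'_pow, Matrix.toLin'_apply] at hk
    exact hk
  have h2 : (⊤ : Submodule E (Fin R → E)) ≤ LinearMap.ker (Matrix.toLin' C) := by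
    rw [← Module.End.iSup_maxGenEigenspace_eq_top (Matrix.toLin' A)]
    exact iSup_le h1
  have h3 : Matrix.toLin' C = 0 := LinearMap.ker_eq_top.1 (top_le_iff.1 h2)
  exact (LinearEquiv.map_eq_zero_iff _).1 h3

private theorem comm_eig {E V : Type*} [Field E] [AddCommGroup V] [Module E V] (T : Module.End E V)
    (μ : E) : ∀ (k : ℕ) (v : V), v ≠ 0 → ((T - μ • (1 : Module.End E V)) ^ k) v = 0 →
      ∃ w, w ≠ 0 ∧ T w = μ • w := by
  intro k
  induction k with
  | zero =>
    intro v hv h
    exact absurd h hv
  | succ k ih =>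
    intro v hv h
    by_cases hw : (T - μ • (1 : Module.End E V)) v = 0
    · refine ⟨v, hv, ?_⟩
      rw [LinearMap.sub_apply, LinearMap.smul_apply, Module.End.one_apply] at hw
      exact sub_eq_zero.1 hw
    · refine ih _ hw ?_
      rw [pow_succ] at h
      exact h

theorem comm_of_semi {E : Type*} [Field E] [CharZero E] [IsAlgClosed E] {R : ℕ}
    (H : Submodule E (Matrix (Fin R) (Fin R) E))
    (hb : ∀ A ∈ H, ∀ B ∈ H, B * A - A * B ∈ H) (hs : ∀ A ∈ H, SemiS A) :
    ∀ A ∈ H, ∀ B ∈ H, A * B = B * A := by
  intro A hA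
  -- the restriction of `ad A`
  let ad : Module.End E (Matrix (Fin R) (Fin R) E) := LinearMap.mulLeft E A - LinearMap.mulRight E A
  have had : ∀ B, ad B = A * B - B * A := fun B => rfl
  have hinv : ∀ B ∈ H, ad B ∈ H := fun B hB => hb B hB A hA
  let T : Module.End E H := ad.restrict hinv
  have hT : ∀ B : H, ((T B : H) : Matrix (Fin R) (Fin R) E) = A * B - B * A := fun B => rfl
  -- `T (T B) = 0` implies `T B = 0`
  have hT2 : ∀ B : H, T (T B) = 0 → T B = 0 := by
    intro B h
    apply Subtype.ext
    have h0 : A * (T B : Matrix (Fin R) (Fin R) E) = (T B : Matrix (Fin R) (Fin R) E) * A := by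
      have h1 : ((T (T B) : H) : Matrix (Fin R) (Fin R) E) = 0 := by
        rw [h]
        rfl
      rw [hT] at h1
      exact sub_eq_zero.1 h1
    refine comm_zero (hs A hA) _ fun c v hv => ?_
    have hv' : A.mulVec v = c • v := by
      rw [Matrix.sub_mulVec, Matrix.smul_mulVec, Matrix.one_mulVec] at hv
      exact sub_eq_zero.1 hv
    -- `C v = (A - c) (B v)`
    have h1 : (T B : Matrix (Fin R) (Fin R) E).mulVec v =
        (A - c • 1).mulVec ((B : Matrix (Fin R) (Fin R) E).mulVec v) := by
      rw [hT, Matrix.sub_mulVec, ← Matrix.mulVec_mulVec, ← Matrix.mulVec_mulVec, hv',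
        Matrix.mulVec_smul, Matrix.sub_mulVec, Matrix.smul_mulVec, Matrix.one_mulVec]
    have h2 : (A - c • 1).mulVec ((T B : Matrix (Fin R) (Fin R) E).mulVec v) = 0 := by
      rw [Matrix.sub_mulVec, Matrix.smul_mulVec, Matrix.one_mulVec, Matrix.mulVec_mulVec, h0,
        ← Matrix.mulVec_mulVec, hv', Matrix.mulVec_smul, sub_self]
    rw [h1]
    refine hs A hA c _ ?_
    rw [pow_two, ← Matrix.mulVec_mulVec, ← h1]
    exact h2
  have hTk : ∀ (k : ℕ) (B : H), (T ^ k) B = 0 → T B = 0 := by
    intro k
    induction k with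
    | zero =>
      intro B h
      have h0 : B = 0 := h
      rw [h0, map_zero]
    | succ k ih =>
      intro B h
      rw [pow_succ] at h
      exact hT2 B (ih _ h)
  -- nonzero eigenvalues do not exist
  have hμ : ∀ μ : E, μ ≠ 0 → ∀ B : H, B ≠ 0 → T B ≠ μ • B := by
    intro μ hμ B hB h
    obtain ⟨B, hBH⟩ := B
    have hB0 : B ≠ 0 := fun h0 => hB (Subtype.ext h0)
    have hAB : A * B - B * A = μ • B := congrArg Subtype.val h
    have hpow : ∀ k : ℕ, A * B ^ k - B ^ k * A = ((k : E) * μ) • B ^ k := by
      intro k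
      induction k with
      | zero => simp
      | succ k ih =>
        have e1 : A * B ^ (k + 1) - B ^ (k + 1) * A =
            (A * B ^ k - B ^ k * A) * B + B ^ k * (A * B - B * A) := by
          rw [pow_succ]
          noncomm_ring
        rw [e1, ih, hAB, Matrix.smul_mul, Matrix.mul_smul, ← pow_succ, ← add_smul]
        congr 1
        push_cast
        ring
    have hnil : ∃ k : ℕ, B ^ k = 0 := by
      by_contra hno
      push Not at hno
      have hinj : Function.Injective fun k : ℕ => (k : E) * μ := by
        intro a b hab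
        exact Nat.cast_injective (mul_right_cancel₀ hμ hab)
      have hsub : Set.range (fun k : ℕ => (k : E) * μ) ⊆ {μ | ad.HasEigenvalue μ} := by
        rintro _ ⟨k, rfl⟩
        refine Module.End.hasEigenvalue_of_hasEigenvector (x := B ^ k) ?_
        rw [Module.End.hasEigenvector_iff, Module.End.mem_eigenspace_iff]
        exact ⟨hpow k, hno k⟩
      exact Set.infinite_range_of_injective hinj
        ((Module.End.finite_hasEigenvalue ad).subset hsub)
    obtain ⟨k, hk⟩ := hnil
    have h1 : ∀ k : ℕ, B ^ k = 0 → B = 0 := by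
      intro k hk
      have h2 : ∀ v : Fin R → E, B.mulVec v = 0 := by
        intro v
        have h3 := comm_gen (hs B hBH) 0 k v (by
          rw [zero_smul, sub_zero, hk, Matrix.zero_mulVec])
        rwa [zero_smul, sub_zero] at h3
      have h3 : Matrix.toLin' B = 0 := LinearMap.ext fun v => by
        rw [Matrix.toLin'_apply, h2 v, LinearMap.zero_apply]
      exact (LinearEquiv.map_eq_zero_iff _).1 h3
    exact hB0 (h1 k hk)
  intro B hB
  have hTB : T ⟨B, hB⟩ = 0 := by
    have h1 : Module.End.maxGenEigenspace T 0 = ⊤ := by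
      rw [← Module.End.iSup_maxGenEigenspace_eq_top T]
      refine le_antisymm (le_iSup _ 0) (iSup_le fun μ => ?_)
      by_cases h0 : μ = 0
      · rw [h0]
      · intro x hx
        rw [Module.End.mem_maxGenEigenspace] at hx
        obtain ⟨k, hk⟩ := hx
        by_cases hx0 : x = 0
        · rw [hx0]
          exact Submodule.zero_mem _
        · obtain ⟨w, hw, hw2⟩ := comm_eig T μ k x hx0 hk
          exact absurd hw2 (hμ μ h0 w hw)
    have h2 : (⟨B, hB⟩ : H) ∈ Module.End.maxGenEigenspace T 0 := by
      rw [h1]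
      exact Submodule.mem_top
    rw [Module.End.mem_maxGenEigenspace] at h2
    obtain ⟨k, hk⟩ := h2
    have e0 : (T - (0 : E) • (1 : Module.End E H)) = T := by
      refine LinearMap.ext fun x => ?_
      rw [LinearMap.sub_apply, LinearMap.smul_apply, zero_smul, sub_zero]
    rw [e0] at hk
    exact hTk k _ hk
  have h3 := congrArg Subtype.val hTB
  exact sub_eq_zero.1 h3

end Pool.Agent.PBK
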