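import Pool.Agent.PBK.Fibmap

/-!
# PBK COMP: the iterates on a fibre in bases

Proof. Induction on `k`. For `k = 0`: both `w` and `w'` are bases of `S.fib y`, so
`comb w u = comb w' (g u)` with an invertible matrix `g`; take for `p j` the linear forms (`q ^ 0 = 1`).
Step: choose a basis `w''` of `S.fib (S.gv^[k] y)` (`exists_cols`), get `p` for `k`; let `y' = S.gv^[k] y`
and let `k0` be as in `P_ne` for `y'`; `fibmap` gives `p1` of degree `q` without zeros with
`S.Pv k0 (comb w'' u) y' = comb w' (p1 u)`. For `u ≠ 0`: `S.zo z y k = t • comb w'' (p u)`, `p u ≠ 0`, and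
`S.zo z y (k + 1) = S.fv (S.zo z y k) y'` is a nonzero multiple of
`S.Pv k0 (S.zo z y k) y' = t ^ q • S.Pv k0 (comb w'' (p u)) y' = t ^ q • comb w' (p1 (p u))`
(`fv_P`, the factor is nonzero since `S.Pv k0 ≠ 0`). Take the composition `bind₁ p (p1 j)`: homogeneous
of degree `q ^ k * q` (`IsHomogeneous` of `bind₁`/`aeval`, Mathlib: `IsHomogeneous.aeval` or
`IsHomogeneous.eval₂`), `eval u (bind₁ p (p1 j)) = eval (fun i => eval u (p i)) (p1 j)`.
-/

set_option autoImplicit false

open MvPolynomial

namespace Pool.Agent.PBK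

variable {E : Type*} [Field E] [CharZero E] {M N s nP nG : ℕ} {S : Sys E M N s nP nG}

private theorem comp_eval_bind {R : ℕ} (p : Fin R → MvPolynomial (Fin R) E)
    (F : MvPolynomial (Fin R) E) (u : Fin R → E) :
    eval u (bind₁ p F) = eval (fun i => eval u (p i)) F := by
  have h := eval₂Hom_bind₁ (RingHom.id E) u p F
  exact h

theorem comp_fibre (hS : S.Good) {y : Fin N → E} (hy : y ∈ S.Wc) {w : Fin S.R → Fin M → E}
    (hw : S.IsBas y w) (k : ℕ) {w' : Fin S.R → Fin M → E} (hw' : S.IsBas (S.gv^[k] y) w') :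
    ∃ p : Fin S.R → MvPolynomial (Fin S.R) E, (∀ j, (p j).IsHomogeneous (S.q ^ k)) ∧ NoZero p ∧
      ∀ u : Fin S.R → E, u ≠ 0 → ∃ t : E, t ≠ 0 ∧
        S.zo (comb w u) y k = t • comb w' (fun j => eval u (p j)) := by
  induction k generalizing w' with
  | zero =>
    have hw'0 : S.IsBas y w' := hw'
    have h1 : ∀ i, ∃ g : Fin S.R → E, comb w' g = w i := fun i => by
      apply IsBas.exists_comb hw'0
      rw [← hw.2]
      exact Submodule.subset_span (Set.mem_range_self i)
    choose g hg using h1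
    have h2 : ∀ u : Fin S.R → E,
        comb w' (fun j => eval u (∑ i, C (g i j) * X i : MvPolynomial (Fin S.R) E)) =
          comb w u := by
      intro u
      have h3 : (fun j => eval u (∑ i, C (g i j) * X i : MvPolynomial (Fin S.R) E)) =
          ∑ i, u i • g i := by
        funext j
        simp [Finset.sum_apply, mul_comm]
      rw [h3, comb_eq_sum w u]
      have h4 : comb w' (∑ i, u i • g i) = ∑ i, u i • comb w' (g i) := by
        funext l
        simp only [comb, Finset.sum_apply, Pi.smul_apply, smul_eq_mul, Finset.sum_mul,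
          Finset.mul_sum]
        rw [Finset.sum_comm]
        refine Finset.sum_congr rfl fun i _ => Finset.sum_congr rfl fun j _ => by ring
      rw [h4]
      exact Finset.sum_congr rfl fun i _ => by rw [hg i]
    refine ⟨fun j => ∑ i, C (g i j) * X i, ?_, ?_, ?_⟩
    · intro j
      rw [pow_zero]
      refine IsHomogeneous.sum _ _ _ fun i _ => ?_
      have := (isHomogeneous_C (Fin S.R) (g i j)).mul (isHomogeneous_X E i)
      simpa using this
    · intro u hu
      by_contra hcon
      push Not at hcon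
      have h5 := h2 u
      have h6 : (fun j => eval u (∑ i, C (g i j) * X i : MvPolynomial (Fin S.R) E)) = 0 := by
        funext j
        exact hcon j
      rw [h6, comb_zero] at h5
      exact comb_ne_zero hw.1 hu h5.symm
    · intro u _
      refine ⟨1, one_ne_zero, ?_⟩
      rw [one_smul, h2 u]
      rfl
  | succ k ih =>
    have hy' : S.gv^[k] y ∈ S.Wc := gv_iter_mem hS hy k
    obtain ⟨J, hJ⟩ := exists_cols hS hy'
    obtain ⟨p, hp1, hp2, hp3⟩ := ih hJ
    obtain ⟨k0, hk0⟩ := hS.P_ne _ hy'
    have hw'1 : S.IsBas (S.gv (S.gv^[k] y)) w' := by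
      rw [← Function.iterate_succ_apply' S.gv k y]
      exact hw'
    obtain ⟨p1, hp1a, hp1b, -⟩ := fibmap hS hy' k0 hJ hw'1
    have hnz := hp1b hk0
    refine ⟨fun j => bind₁ p (p1 j), ?_, ?_, ?_⟩
    · intro j
      rw [pow_succ]
      exact (hp1a.1 j).aeval p hp1
    · intro u hu
      have h1 : (fun i => eval u (p i)) ≠ 0 := by
        obtain ⟨i, hi⟩ := hp2 u hu
        intro h
        exact hi (congrFun h i)
      obtain ⟨j, hj⟩ := hnz _ h1
      exact ⟨j, by rw [comp_eval_bind]; exact hj⟩
    · intro u hu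
      obtain ⟨t, ht, hzt⟩ := hp3 u hu
      obtain ⟨hm, hne⟩ := zo_mem_ne hS hy (IsBas.comb_mem hw u) (comb_ne_zero hw.1 hu) k
      obtain ⟨c, hc⟩ := hS.fv_P k0 _ hy' _ hm hne
      have hPne := hk0 _ hm hne
      have hc0 : c ≠ 0 := by
        rintro rfl
        rw [zero_smul] at hc
        exact hPne hc
      have h2 : S.Pv k0 (S.zo (comb w u) y k) (S.gv^[k] y) =
          t ^ S.q • comb w' (fun j => eval u (bind₁ p (p1 j))) := by
        rw [hzt, Pv_smul_left hS, hp1a.2]
        congr 2
        funext j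
        rw [comp_eval_bind]
      refine ⟨c⁻¹ * t ^ S.q, mul_ne_zero (inv_ne_zero hc0) (pow_ne_zero _ ht), ?_⟩
      rw [zo_succ, mul_smul, ← h2, hc, smul_smul, inv_mul_cancel₀ hc0, one_smul]

end Pool.Agent.PBK
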