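import Pool.Agent.PBK.Lin

/-!
# PBK COORD: integral bases

Proof. `K` is a number field. `NumberField.integralBasis K` is a basis of `K` over `ℚ` indexed by a finite
type with `finrank ℚ K` elements (`Module.finrank_eq_card_basis`), reindex it by `Fin`. `int`:
`NumberField.integralBasis_apply`, elements of the ring of integers. `rep`: for `x` integral,
`integralBasis_repr_apply` (the coordinates are those of the `ℤ`-basis of the ring of integers).
`σ`: the embeddings `K →ₐ[ℚ] E` are `finrank ℚ K` many (`AlgHom.card`, `E` algebraically closed),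
number them by `Fin d`. `det_ne`: the square of the determinant is the discriminant of the basis
(`Algebra.discr_eq_det_embeddingsMatrixReindex_pow_two`, stated for an algebraically closed field `E`),
nonzero by `Algebra.discr_not_zero_of_basis`. `bound`: the restrictions to `K` of the `s : E →+* ℂ` are
among the finitely many ring homomorphisms `K →+* ℂ` (`Fintype`), so take for `B` the maximum (or
the sum) of `1` and all the `‖s (ω i)‖`.
-/

set_option autoImplicit false

namespace Pool.Agent.PBK

theorem exists_ib {E : Type*} [Field E] [CharZero E] [IsAlgClosed E] (K : IntermediateField ℚ E)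
    [FiniteDimensional ℚ K] : Nonempty (IB K (Module.finrank ℚ K)) := by
  classical
  have hN : NumberField K :=
    { to_charZero := inferInstance, to_finiteDimensional := inferInstance }
  have hcard : Fintype.card (Module.Free.ChooseBasisIndex ℤ (NumberField.RingOfIntegers K)) =
      Module.finrank ℚ K := (Module.finrank_eq_card_basis (NumberField.integralBasis K)).symm
  obtain ⟨e⟩ : Nonempty (Module.Free.ChooseBasisIndex ℤ (NumberField.RingOfIntegers K) ≃
    Fin (Module.finrank ℚ K)) := ⟨Fintype.equivFinOfCardEq hcard⟩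
  obtain ⟨b, hb⟩ : ∃ b : Module.Basis (Fin (Module.finrank ℚ K)) ℚ K,
      b = (NumberField.integralBasis K).reindex e := ⟨_, rfl⟩
  have hc : Fintype.card (K →ₐ[ℚ] E) = Module.finrank ℚ K := AlgHom.card ℚ K E
  obtain ⟨es⟩ : Nonempty (Fin (Module.finrank ℚ K) ≃ (K →ₐ[ℚ] E)) :=
    ⟨(Fintype.equivFinOfCardEq hc).symm⟩
  refine ⟨⟨b, ?_, ?_, fun i => ((es i : K →ₐ[ℚ] E) : K →+* E), ?_,
    1 + ∑ φ : K →+* ℂ, ∑ i, ‖φ (b i)‖, ?_, ?_⟩⟩
  · intro i
    rw [hb, Module.Basis.reindex_apply, NumberField.integralBasis_apply]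
    exact NumberField.RingOfIntegers.isIntegral_coe _
  · intro x hx i
    refine ⟨(NumberField.RingOfIntegers.basis K).repr ⟨x, hx⟩ (e.symm i), ?_⟩
    rw [hb, Module.Basis.repr_reindex_apply]
    exact NumberField.integralBasis_repr_apply K ⟨x, hx⟩ (e.symm i)
  · have h1 := Algebra.discr_eq_det_embeddingsMatrixReindex_pow_two ℚ E (b : _ → K) es
    have h2 := Algebra.discr_not_zero_of_basis ℚ b
    intro h3
    apply h2
    have h4 : (Algebra.embeddingsMatrixReindex ℚ E (b : _ → K) es).det = 0 := by
      rw [← h3, ← Matrix.det_transpose]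
      rfl
    rw [h4, zero_pow two_ne_zero] at h1
    exact (map_eq_zero _).1 h1
  · have : 0 ≤ ∑ φ : K →+* ℂ, ∑ i, ‖φ (b i)‖ :=
      Finset.sum_nonneg fun _ _ => Finset.sum_nonneg fun _ _ => norm_nonneg _
    linarith
  · intro s i
    have h1 : ‖(s.comp (algebraMap K E)) (b i)‖ ≤ ∑ i, ‖(s.comp (algebraMap K E)) (b i)‖ :=
      Finset.single_le_sum (f := fun i => ‖(s.comp (algebraMap K E)) (b i)‖)
        (fun _ _ => norm_nonneg _) (Finset.mem_univ i)
    have h2 : ∑ i, ‖(s.comp (algebraMap K E)) (b i)‖ ≤ ∑ φ : K →+* ℂ, ∑ i, ‖φ (b i)‖ :=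
      Finset.single_le_sum (f := fun φ : K →+* ℂ => ∑ i, ‖φ (b i)‖)
        (fun _ _ => Finset.sum_nonneg fun _ _ => norm_nonneg _)
        (Finset.mem_univ (s.comp (algebraMap K E)))
    have h3 : ‖s (b i : E)‖ = ‖(s.comp (algebraMap K E)) (b i)‖ := rfl
    rw [h3]
    linarith

end Pool.Agent.PBK
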