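import Mathlib

/-!
# PBK DER: extension of derivations to algebraic extensions

Proof. `L` is algebraic over the fraction field `Q` of `A` (`Q → L` exists by `hinj`; one may work with
`FractionRing A` and `IsFractionRing.lift`, or with the subfield generated by the image of `A`). `A → Q`
is formally etale (localization: `Algebra.FormallyEtale.of_isLocalization`), `Q → L` is formally etale
(algebraic and separable, characteristic `0`: `Algebra.FormallyEtale.of_isSeparable`), so `A → L` is
formally etale (`Algebra.FormallyEtale.comp`) and derivations extend uniquely (Mathlib: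
`KaehlerDifferential.tensorKaehlerEquivOfFormallyEtale`, or `Differential`:
`Mathlib/RingTheory/Derivation/DifferentialRing.lean`, `Mathlib/FieldTheory/Differential/Basic.lean`, or
directly with dual numbers: the ring homomorphism `A → L[ε]`, `a ↦ a + D(a) ε` lifts to `L → L[ε]` over
`L` (formally smooth, `TrivSqZeroExt L L` or `DualNumber L`), and the `ε`-part of the lift is
the derivation). Another elementary way: extend to `Q` by the quotient rule, and to `L` as `L` is a
union of finite extensions `Q(α)`, with `D' (α) = - f^D (α) / f' (α)`. The second component of the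
result is only additive and satisfies the product rule (`Derivation ℤ L L`).
-/

set_option autoImplicit false

namespace Pool.Agent.PBK

private theorem der_kd {L M : Type*} [CommRing L] [AddCommGroup M] [Module L M]
    (alg : Algebra ℤ L) (mod : Module ℤ M) (δ : @Derivation ℤ L M _ _ _ alg _ mod) (a b : L) :
    δ (a * b) = a • δ b + b • δ a := δ.leibniz a b

theorem der_ext {E A : Type*} [Field E] [CommRing A] [IsDomain A] [CharZero A] [Algebra E A]
    {L : Type*} [Field L] [Algebra A L] [Algebra.IsAlgebraic A L]
    (hinj : Function.Injective (algebraMap A L)) (D : Derivation E A A) :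
    ∃ D' : Derivation ℤ L L, ∀ a : A, D' (algebraMap A L a) = algebraMap A L (D a) := by
  have hfs : FaithfulSMul A L := (faithfulSMul_iff_algebraMap_injective A L).2 hinj
  let _ : Algebra (FractionRing A) L := FractionRing.liftAlgebra A L
  have : IsScalarTower A (FractionRing A) L := FractionRing.isScalarTower_liftAlgebra A L
  have : CharZero (FractionRing A) :=
    charZero_of_injective_algebraMap (IsFractionRing.injective A (FractionRing A))
  have : Algebra.IsAlgebraic (FractionRing A) L :=
    (IsFractionRing.comap_isAlgebraic_iff (A := A) (K := FractionRing A) (C := L)).1 inferInstance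
  have : Algebra.FormallyEtale A (FractionRing A) :=
    Algebra.FormallyEtale.of_isLocalization (nonZeroDivisors A)
  have : Algebra.FormallyEtale (FractionRing A) L :=
    Algebra.FormallyEtale.of_isSeparable _ _
  have : Algebra.FormallyEtale A L :=
    Algebra.FormallyEtale.comp A (FractionRing A) L
  let D0 : A →+ L :=
    (algebraMap A L).toAddMonoidHom.comp (D : A →ₗ[E] A).toAddMonoidHom
  have hD0 : ∀ a, D0 a = algebraMap A L (D a) := fun a => rfl
  let D1 : Derivation ℤ A L :=
    Derivation.mk' D0.toIntLinearMap (by
      intro a b
      change D0 (a * b) = a • D0 b + b • D0 a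
      rw [hD0, hD0, hD0, Derivation.leibniz, map_add, smul_eq_mul, smul_eq_mul, map_mul, map_mul,
        Algebra.smul_def, Algebra.smul_def])
  have hD1 : ∀ a, D1 a = algebraMap A L (D a) := fun a => rfl
  let f : Ω[L⁄ℤ] →ₗ[L] L :=
    (LinearMap.liftBaseChange L D1.liftKaehlerDifferential) ∘ₗ
      (KaehlerDifferential.tensorKaehlerEquivOfFormallyEtale ℤ A L).symm.toLinearMap
  let D2 : L →+ L :=
    { toFun := fun a => f (KaehlerDifferential.D ℤ L a)
      map_zero' := by rw [map_zero, map_zero]
      map_add' := fun a b => by rw [map_add, map_add] }
  have hD2 : ∀ a, D2 a = f (KaehlerDifferential.D ℤ L a) := fun a => rfl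
  refine ⟨Derivation.mk' D2.toIntLinearMap (by
      intro a b
      change D2 (a * b) = a • D2 b + b • D2 a
      rw [hD2, hD2, hD2, der_kd _ _ (KaehlerDifferential.D ℤ L) a b,
        map_add, map_smul, map_smul]), fun a => ?_⟩
  change (LinearMap.liftBaseChange L D1.liftKaehlerDifferential)
    ((KaehlerDifferential.tensorKaehlerEquivOfFormallyEtale ℤ A L).symm
      (KaehlerDifferential.D ℤ L (algebraMap A L a))) = _
  rw [KaehlerDifferential.tensorKaehlerEquivOfFormallyEtale_symm_D_algebraMap,
    LinearMap.liftBaseChange_tmul, one_smul, Derivation.liftKaehlerDifferential_comp_D, hD1]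

end Pool.Agent.PBK
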