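import Pool.Agent.PBK.Defs

/-!
# PBK DESC: descent of infinitesimal symmetries to the field of constants

Proof. `1 ≠ 0` in `L`, so there is an `E`-linear map `θ : L → E` with `θ 1 = 1`
(extend `1` to an `E`-basis of `L`; `exists_extend` or `Submodule.exists_le_ker...`;
`LinearMap.exists_leftInverse_of_injective` for `Algebra.linearMap E L`). Then
`θ (algebraMap c * x) = c * θ x`. Let `A' i = (A i).map θ`. The relation `IsChain` for `A` says, comparing the
coefficients of the monomials, that certain combinations of the entries of `A` with coefficients in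
`E` vanish; applying `θ` gives the same for `A'`. (In detail: let `Θ` be the additive map
`MvPolynomial (Fin R) L → MvPolynomial (Fin R) E` applying `θ` to all the coefficients; it satisfies
`Θ (C a * X j * map F) = C (θ a) * X j * F` and `Θ (C a * map F) = C (θ a) * F` for
`F ∈ MvPolynomial (Fin R) E`; `pderiv l (map p) = map (pderiv l p)`.) And
`(A' 0).mulVec a = θ ((A 0).mulVec (algebraMap ∘ a)) = θ (algebraMap ∘ v) = v`.
`isChain_lin`: the relation is linear in `A`.
-/

set_option autoImplicit false

open MvPolynomial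

namespace Pool.Agent.PBK

theorem desc {E L : Type*} [Field E] [Field L] [Algebra E L] {R m : ℕ}
    (p : Fin m → Fin R → MvPolynomial (Fin R) E) (a v : Fin R → E)
    (A : Fin (m + 1) → Matrix (Fin R) (Fin R) L)
    (hA : IsChain (fun i k => MvPolynomial.map (algebraMap E L) (p i k)) A)
    (h : (A 0).mulVec (fun j => algebraMap E L (a j)) = fun j => algebraMap E L (v j)) :
    ∃ A' : Fin (m + 1) → Matrix (Fin R) (Fin R) E, IsChain p A' ∧ (A' 0).mulVec a = v := by
  obtain ⟨θ, hθ⟩ := (Algebra.linearMap E L).exists_leftInverse_of_injective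
    (LinearMap.ker_eq_bot.2 (algebraMap E L).injective)
  have hθ1 : ∀ c : E, θ (algebraMap E L c) = c := fun c => by
    have := congrArg (fun f : E →ₗ[E] E => f c) hθ
    simpa using this
  have hθ2 : ∀ (x : L) (c : E), θ (x * algebraMap E L c) = θ x * c := fun x c => by
    rw [mul_comm, ← Algebra.smul_def, map_smul, smul_eq_mul, mul_comm]
  refine ⟨fun i => (A i).map θ, ?_, ?_⟩
  · intro i k
    have h1 := hA i k
    refine MvPolynomial.ext _ _ fun n => ?_
    have h2 : ∑ l, ∑ j, A i.castSucc l j * algebraMap E L (coeff n (X j * pderiv l (p i k))) =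
        ∑ l, A i.succ k l * algebraMap E L (coeff n (p i l)) := by
      have h3 := congrArg (coeff n) h1
      rw [coeff_sum, coeff_sum] at h3
      have e1 : ∀ l, coeff n ((∑ j, C (A i.castSucc l j) * X j) *
          pderiv l (MvPolynomial.map (algebraMap E L) (p i k))) =
          ∑ j, A i.castSucc l j * algebraMap E L (coeff n (X j * pderiv l (p i k))) := by
        intro l
        rw [Finset.sum_mul, coeff_sum]
        refine Finset.sum_congr rfl fun j _ => ?_
        rw [mul_assoc, coeff_C_mul, pderiv_map]
        congr 1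
        rw [← coeff_map, map_mul, map_X]
      have e2 : ∀ l, coeff n (C (A i.succ k l) * MvPolynomial.map (algebraMap E L) (p i l)) =
          A i.succ k l * algebraMap E L (coeff n (p i l)) := by
        intro l
        rw [coeff_C_mul, coeff_map]
      rw [Finset.sum_congr rfl fun l _ => e1 l, Finset.sum_congr rfl fun l _ => e2 l] at h3
      exact h3
    have h4 := congrArg θ h2
    rw [map_sum, map_sum, Finset.sum_congr rfl fun l _ => map_sum θ _ _,
      Finset.sum_congr rfl fun l _ => Finset.sum_congr rfl fun j _ => hθ2 _ _,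
      Finset.sum_congr rfl fun l _ => hθ2 _ _] at h4
    rw [coeff_sum, coeff_sum]
    refine Eq.trans (Finset.sum_congr rfl fun l _ => ?_) (h4.trans (Finset.sum_congr rfl fun l _ => ?_))
    · rw [Finset.sum_mul, coeff_sum]
      refine Finset.sum_congr rfl fun j _ => ?_
      rw [mul_assoc, coeff_C_mul]
      rfl
    · rw [coeff_C_mul]
      rfl
  · funext k
    have h1 := congrArg θ (congrFun h k)
    rw [hθ1] at h1
    rw [← h1]
    change ∑ j, θ (A 0 k j) * a j = θ (∑ j, A 0 k j * algebraMap E L (a j))
    rw [map_sum]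
    exact Finset.sum_congr rfl fun j _ => (hθ2 _ _).symm

theorem isChain_sum {F : Type*} [CommRing F] {R m : ℕ}
    {p : Fin m → Fin R → MvPolynomial (Fin R) F} {ι : Type*} [Fintype ι] (c : ι → F)
    (A : ι → Fin (m + 1) → Matrix (Fin R) (Fin R) F) (h : ∀ j, IsChain p (A j)) :
    IsChain p (fun i => ∑ j, c j • A j i) := by
  intro i k
  have h1 : ∀ (i' : Fin (m + 1)) (l j : Fin R),
      C ((∑ t, c t • A t i') l j) = ∑ t, C (c t) * (C (A t i' l j) : MvPolynomial (Fin R) F) := by
    intro i' l j
    rw [Matrix.sum_apply, map_sum]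
    exact Finset.sum_congr rfl fun t _ => by
      rw [Matrix.smul_apply, smul_eq_mul, C_mul]
  have h2 : ∑ l, (∑ j, C ((∑ t, c t • A t i.castSucc) l j) * X j) * pderiv l (p i k) =
      ∑ t, C (c t) * ∑ l, (∑ j, C (A t i.castSucc l j) * X j) * pderiv l (p i k) := by
    have e1 : ∀ l, (∑ j, C ((∑ t, c t • A t i.castSucc) l j) * X j) =
        ∑ t, C (c t) * ∑ j, (C (A t i.castSucc l j) : MvPolynomial (Fin R) F) * X j := by
      intro l
      rw [Finset.sum_congr rfl fun j _ => by rw [h1, Finset.sum_mul], Finset.sum_comm]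
      refine Finset.sum_congr rfl fun t _ => ?_
      rw [Finset.mul_sum]
      exact Finset.sum_congr rfl fun j _ => by ring
    rw [Finset.sum_congr rfl fun l _ => by rw [e1, Finset.sum_mul], Finset.sum_comm]
    refine Finset.sum_congr rfl fun t _ => ?_
    rw [Finset.mul_sum]
    exact Finset.sum_congr rfl fun l _ => by ring
  have h3 : ∑ l, C ((∑ t, c t • A t i.succ) k l) * p i l =
      ∑ t, C (c t) * ∑ l, C (A t i.succ k l) * p i l := by
    simp_rw [h1, Finset.mul_sum, Finset.sum_mul]
    rw [Finset.sum_comm]
    exact Finset.sum_congr rfl fun t _ => Finset.sum_congr rfl fun l _ => by ring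
  refine h2.trans (Eq.trans ?_ h3.symm)
  exact Finset.sum_congr rfl fun t _ => by rw [h t i k]

end Pool.Agent.PBK
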