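import Pool.Agent.PBK.Plk

/-!
# PBK DETB: heights of coordinates in a basis

Proof. Let `v t = comb w (a t)`. For `t : T`, `j : Fin R`, `I : Fin R → Fin M`:
`a t j * plk w I = plk (Function.update w j (v t)) I` (a determinant with a row replaced by a
combination of the rows: `Matrix.det_updateRow_sum` or Cramer's rule `Matrix.cramer`; the matrix of
`plk (update w j (v t)) I` is the matrix of `plk w I` with the row `j` replaced by
`∑_i a t i * (row i)`). The vector `(a t j * plk w I)_((t, j), I)` has the height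
`absHeight a + absHeight (plk w)` (`absHeight_mul`; `plk w ≠ 0`, and `a ≠ 0`).
On the other hand `plk (update w j (v t)) I = ∑_π sign π * v t (I (π j)) * ∏_{i ≠ j} w i (I (π i))`
(or with `π⁻¹`) is a combination, with coefficients `0`, `1`, `-1` and at most `R!` terms, of products of
one coordinate `v t l` of the vector `v` and `R - 1` coordinates of the vector `cc w`: write
`R = r + 1`, `∏_{i ≠ j} F i = ∏_{i : Fin r} F (j.succAbove i)` (`Fin.prod_univ_succAbove`). So `multi`
applies with `J := Option (Fin r)`, `σ none = T × Fin M`, `σ (some i) = Fin R × Fin M`, or one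
estimates directly with `abs_htq`. If `a ≠ 0` then `v ≠ 0` since `w` is linearly independent, and
`cc w ≠ 0` as `R ≥ 1`.
-/

set_option autoImplicit false

namespace Pool.Agent.PBK

open Pool.Agent.Helper63.WH

/-- The index sets of the factors. -/
private def dtO (T : Type) (R M : ℕ) (r : ℕ) : Option (Fin r) → Type
  | none => T × Fin M
  | some _ => Fin R × Fin M

private instance dtF (T : Type) [Fintype T] (R M : ℕ) (r : ℕ) (o : Option (Fin r)) :
    Fintype (dtO T R M r o) :=
  match o with
  | none => (inferInstance : Fintype (T × Fin M))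
  | some _ => (inferInstance : Fintype (Fin R × Fin M))

/-- The index of the product for the permutation `π`. -/
private def dtK {T : Type} {M r : ℕ} (t : T) (j : Fin (r + 1)) (I : Fin (r + 1) → Fin M)
    (π : Equiv.Perm (Fin (r + 1))) : (o : Option (Fin r)) → dtO T (r + 1) M r o
  | none => (t, I (π j))
  | some i => (j.succAbove i, I (π (j.succAbove i)))

/-- The factors. -/
private def dtA {E : Type*} [Field E] {T : Type} {R M r : ℕ} (v : T × Fin M → E)
    (c : Fin R × Fin M → E) : (o : Option (Fin r)) → dtO T R M r o → E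
  | none => v
  | some _ => c

open Classical in
/-- The coefficients. -/
private noncomputable def dtC {E : Type*} [Field E] (T : Type) (M r : ℕ)
    (k : (T × Fin (r + 1)) × (Fin (r + 1) → Fin M))
    (K : (o : Option (Fin r)) → dtO T (r + 1) M r o) : E :=
  ∑ π : Equiv.Perm (Fin (r + 1)),
    if K = dtK k.1.1 k.1.2 k.2 π then (((Equiv.Perm.sign π : ℤˣ) : ℤ) : E) else 0

/-- Cramer's rule. -/
private theorem dt_cramer {E : Type*} [Field E] {R M : ℕ} (w : Fin R → Fin M → E)
    (a : Fin R → E) (j : Fin R) (I : Fin R → Fin M) :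
    a j * plk w I = plk (Function.update w j (comb w a)) I := by
  have h := Matrix.det_updateRow_sum (Matrix.of fun i j' : Fin R => w i (I j')) j a
  unfold plk
  rw [← smul_eq_mul, ← h]
  congr 1
  ext i l
  by_cases hij : i = j
  · subst hij
    rw [Matrix.updateRow_self, Matrix.of_apply, Function.update_self, Finset.sum_apply]
    simp [comb]
  · rw [Matrix.updateRow_ne hij, Matrix.of_apply, Matrix.of_apply,
      Function.update_of_ne hij]

/-- The expansion of the determinant. -/
private theorem dt_expand {E : Type*} [Field E] {T : Type} [Fintype T] {M r : ℕ}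
    (w : Fin (r + 1) → Fin M → E) (v : T × Fin M → E)
    (k : (T × Fin (r + 1)) × (Fin (r + 1) → Fin M)) :
    plk (Function.update w k.1.2 (fun l => v (k.1.1, l))) k.2 =
      ∑ K : ((o : Option (Fin r)) → dtO T (r + 1) M r o),
        dtC T M r k K * ∏ o, dtA v (cc w) o (K o) := by
  classical
  obtain ⟨⟨t, j⟩, I⟩ := k
  have h1 : ∀ K : ((o : Option (Fin r)) → dtO T (r + 1) M r o),
      dtC (E := E) T M r ((t, j), I) K * ∏ o, dtA v (cc w) o (K o) =
      ∑ π : Equiv.Perm (Fin (r + 1)), if K = dtK t j I π then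
        (((Equiv.Perm.sign π : ℤˣ) : ℤ) : E) * ∏ o, dtA v (cc w) o (dtK t j I π o) else 0 := by
    intro K
    unfold dtC
    rw [Finset.sum_mul]
    refine Finset.sum_congr rfl fun π _ => ?_
    split_ifs with h
    · rw [h]
    · rw [zero_mul]
  rw [Finset.sum_congr rfl fun K _ => h1 K, Finset.sum_comm]
  simp only [Finset.sum_ite_eq', Finset.mem_univ, if_true]
  unfold plk
  rw [← Matrix.det_transpose, Matrix.det_apply']
  refine Finset.sum_congr rfl fun π _ => ?_
  congr 1
  rw [Fin.prod_univ_succAbove _ j, Fintype.prod_option]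
  congr 1
  · simp [Matrix.transpose_apply, dtA, dtK]
  · refine Finset.prod_congr rfl fun i _ => ?_
    rw [Matrix.transpose_apply, Matrix.of_apply,
      Function.update_of_ne (Fin.succAbove_ne j i)]
    rfl

theorem detb {E : Type*} [Field E] [CharZero E] [Algebra.IsAlgebraic ℚ E] (T : Type) [Fintype T]
    (R M : ℕ) (hR : 1 ≤ R) :
    ∃ C : ℝ, 0 ≤ C ∧ ∀ w : Fin R → Fin M → E, LinearIndependent E w →
      ∀ a : T → Fin R → E, a ≠ 0 →
      absHeight (fun x : T × Fin R => a x.1 x.2) + absHeight (plk w) ≤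
        absHeight (fun x : T × Fin M => comb w (a x.1) x.2) + ((R : ℝ) - 1) * absHeight (cc w) +
          C := by
  classical
  obtain ⟨r, rfl⟩ : ∃ r, R = r + 1 := ⟨R - 1, by omega⟩
  obtain ⟨C, hC, h⟩ := multi (E := E) (κ := (T × Fin (r + 1)) × (Fin (r + 1) → Fin M))
    (J := Option (Fin r)) (σ := dtO T (r + 1) M r) (dtC T M r)
  refine ⟨C, hC, fun w hw a ha => ?_⟩
  obtain ⟨t, ht⟩ := Function.ne_iff.1 ha
  have hw0 : plk w ≠ 0 := plk_ne_zero hw
  have ha0 : (fun x : T × Fin (r + 1) => a x.1 x.2) ≠ 0 := by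
    obtain ⟨j, hj⟩ := Function.ne_iff.1 ht
    exact Function.ne_iff.2 ⟨(t, j), hj⟩
  have hv0 : (fun x : T × Fin M => comb w (a x.1) x.2) ≠ 0 := by
    obtain ⟨l, hl⟩ := Function.ne_iff.1 (comb_ne_zero hw ht)
    exact Function.ne_iff.2 ⟨(t, l), hl⟩
  have hc0 : cc w ≠ 0 := by
    obtain ⟨l, hl⟩ := Function.ne_iff.1 (hw.ne_zero 0)
    exact Function.ne_iff.2 ⟨(0, l), hl⟩
  have h1 := h (dtA (fun x : T × Fin M => comb w (a x.1) x.2) (cc w)) (fun o => by
    cases o with
    | none => exact hv0
    | some i => exact hc0)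
  have h2 : (fun k : (T × Fin (r + 1)) × (Fin (r + 1) → Fin M) =>
      ∑ K : ((o : Option (Fin r)) → dtO T (r + 1) M r o), dtC T M r k K *
        ∏ o, dtA (fun x : T × Fin M => comb w (a x.1) x.2) (cc w) o (K o)) =
      fun k => (fun x : T × Fin (r + 1) => a x.1 x.2) k.1 * plk w k.2 := by
    funext k
    rw [← dt_expand w (fun x : T × Fin M => comb w (a x.1) x.2) k]
    exact (dt_cramer w (a k.1.1) k.1.2 k.2).symm
  rw [h2, absHeight_mul _ _ ha0 hw0, Fintype.sum_option] at h1
  change _ ≤ absHeight (fun x : T × Fin M => comb w (a x.1) x.2) +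
    ∑ _i : Fin r, absHeight (cc w) + C at h1
  rw [Finset.sum_const, Finset.card_univ, Fintype.card_fin, nsmul_eq_mul] at h1
  push_cast
  linarith

end Pool.Agent.PBK
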