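import Pool.Agent.PBK.Ldefs

/-!
# PBK DIAG: a commuting family of semisimple matrices with a cyclic vector

Proof. (1) The map `H → E ^ R`, `A ↦ A a` is bijective: surjective by `ha`; if `A a = 0`, then for
all `B ∈ H` `A (B a) = B (A a) = 0`, and the `B a` are all the vectors, so `A = 0`.
(2) `H` is a subalgebra: let `U ∈ H` with `U a = a`; `U - 1` commutes with `H` and kills `a`, so it is
`0` and `1 ∈ H`. For `A, B ∈ H` let `C ∈ H` with `C a = A (B a)`; `A * B - C` commutes with `H` and kills
`a`, so `A * B = C ∈ H`.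
(3) Simultaneous diagonalization: the `A ∈ H` are diagonalizable (`SemiS`, `E` algebraically closed) and
commute, so `E ^ R` is the direct sum of the simultaneous eigenspaces (Mathlib:
`Module.End.iSup_iInf_maxGenEigenspace_eq_top_of_forall_mapsTo` or the independence and supremum of
simultaneous eigenspaces in `Mathlib/LinearAlgebra/Eigenspace/Pi.lean`; or by induction on the
dimension). So there are an invertible `Q` (the columns are simultaneous eigenvectors) and linear
forms `χ i : H → E` with `A = Q * diagonal (χ · A) * Q⁻¹` for `A ∈ H`. The map `A ↦ (χ i A)_i`,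
`H → E ^ R` is injective and both spaces have dimension `R`, so it is bijective: every matrix
`Q * diagonal d * Q⁻¹` is in `H`, in particular `d = Pi.single i 1`.
(Alternative to (3): `H` is a commutative reduced algebra of dimension `R`, so it is a product of `R`
copies of `E`; the orthogonal idempotents `e i` satisfy `e i (e j a) = δ_ij e j a`, and `e j a ≠ 0`.)
-/

set_option autoImplicit false

namespace Pool.Agent.PBK

private theorem semi_pow {E : Type*} [Field E] {R : ℕ} {A : Matrix (Fin R) (Fin R) E}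
    (hA : SemiS A) (c : E) (u : Fin R → E) (n : ℕ)
    (h : ((A - c • 1) ^ (n + 1)).mulVec u = 0) : (A - c • 1).mulVec u = 0 := by
  induction n with
  | zero => rwa [zero_add, pow_one] at h
  | succ n ih =>
    apply ih
    have h1 : ((A - c • 1) ^ 2).mulVec (((A - c • 1) ^ n).mulVec u) = 0 := by
      rw [Matrix.mulVec_mulVec, ← pow_add, show 2 + n = n + 1 + 1 by omega]
      exact h
    have h2 := hA c _ h1
    rw [Matrix.mulVec_mulVec, ← pow_succ'] at h2
    exact h2

theorem diag {E : Type*} [Field E] [CharZero E] [IsAlgClosed E] {R : ℕ}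
    (H : Submodule E (Matrix (Fin R) (Fin R) E))
    (hc : ∀ A ∈ H, ∀ B ∈ H, A * B = B * A) (hs : ∀ A ∈ H, SemiS A) (a : Fin R → E)
    (ha : ∀ v : Fin R → E, ∃ A ∈ H, A.mulVec a = v) :
    ∃ Q Q' : Matrix (Fin R) (Fin R) E, Q * Q' = 1 ∧ Q' * Q = 1 ∧
      ∀ i, Q * Matrix.diagonal (Pi.single i 1) * Q' ∈ H := by
  classical
  set f : H → Module.End E (Fin R → E) := fun A => Matrix.toLin' A.1 with hf
  have h1 : ⨆ χ : H → E, ⨅ A, (f A).maxGenEigenspace (χ A) = ⊤ := by
    refine Module.End.iSup_iInf_maxGenEigenspace_eq_top_of_iSup_maxGenEigenspace_eq_top_of_commute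
      f ?_ ?_
    · intro A B _
      change (Matrix.toLin' A.1).comp (Matrix.toLin' B.1) =
        (Matrix.toLin' B.1).comp (Matrix.toLin' A.1)
      rw [← Matrix.toLin'_mul, ← Matrix.toLin'_mul, hc A.1 A.2 B.1 B.2]
    · intro A
      exact Module.End.iSup_maxGenEigenspace_eq_top _
  set S : Set (Fin R → E) := {v | ∃ χ : H → E, ∀ A : H, A.1.mulVec v = χ A • v} with hS
  have h2 : Submodule.span E S = ⊤ := by
    rw [eq_top_iff, ← h1]
    refine iSup_le fun χ => ?_
    intro v hv
    apply Submodule.subset_span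
    refine ⟨χ, fun A => ?_⟩
    rw [Module.End.mem_iInf_maxGenEigenspace_iff] at hv
    obtain ⟨n, hn⟩ := hv A
    have h3 : ((A.1 - χ A • 1) ^ n).mulVec v = 0 := by
      have h4 : f A - χ A • (1 : Module.End E (Fin R → E)) =
          Matrix.toLin' (A.1 - χ A • 1) := by
        rw [map_sub, map_smul, Matrix.toLin'_one]
        rfl
      rw [h4, ← Matrix.toLin'_pow, Matrix.toLin'_apply] at hn
      exact hn
    have h5 : ((A.1 - χ A • 1) ^ (n + 1)).mulVec v = 0 := by
      rw [pow_succ', ← Matrix.mulVec_mulVec, h3, Matrix.mulVec_zero]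
    have h6 := semi_pow (hs A.1 A.2) (χ A) v n h5
    rw [Matrix.sub_mulVec, Matrix.smul_mulVec, Matrix.one_mulVec] at h6
    exact sub_eq_zero.1 h6
  have hfr : Module.finrank E (Submodule.span E S) = R := by
    rw [h2, finrank_top, Module.finrank_fin_fun]
  have key := Submodule.exists_fun_fin_finrank_span_eq E S
  rw [hfr] at key
  obtain ⟨g, hgS, -, hgli⟩ := key
  choose χ hχ using hgS
  set Q : Matrix (Fin R) (Fin R) E := Matrix.of fun l i => g i l with hQ
  have hQu : IsUnit Q := by
    rw [← Matrix.linearIndependent_cols_iff_isUnit]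
    exact hgli
  have hQd : IsUnit Q.det := (Matrix.isUnit_iff_isUnit_det Q).1 hQu
  have hAQ : ∀ A : H, A.1 * Q = Q * Matrix.diagonal (fun i => χ i A) := by
    intro A
    ext l i
    rw [Matrix.mul_diagonal]
    have h3 := congrFun (hχ i A) l
    rw [Pi.smul_apply, smul_eq_mul, mul_comm] at h3
    exact h3
  set Φ : (Fin R → E) →ₗ[E] Matrix (Fin R) (Fin R) E :=
    { toFun := fun v => Q * Matrix.diagonal v * Q⁻¹
      map_add' := by
        intro v w
        rw [← Matrix.add_mul, ← Matrix.mul_add, Matrix.diagonal_add]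
        rfl
      map_smul' := by
        intro c v
        rw [RingHom.id_apply, ← Matrix.smul_mul, ← Matrix.mul_smul, ← Matrix.diagonal_smul] }
    with hΦ
  have hHle : H ≤ LinearMap.range Φ := by
    intro A hA
    refine ⟨fun i => χ i ⟨A, hA⟩, ?_⟩
    change Q * Matrix.diagonal (fun i => χ i ⟨A, hA⟩) * Q⁻¹ = A
    rw [← hAQ ⟨A, hA⟩]
    exact Matrix.mul_nonsing_inv_cancel_right Q A hQd
  have hfin1 : Module.finrank E (LinearMap.range Φ) ≤ R := by
    refine (LinearMap.finrank_range_le Φ).trans ?_
    rw [Module.finrank_fin_fun]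
  have hfin2 : R ≤ Module.finrank E H := by
    let Ψ : H →ₗ[E] (Fin R → E) :=
      { toFun := fun A => A.1.mulVec a
        map_add' := by
          intro A B
          exact Matrix.add_mulVec _ _ _
        map_smul' := by
          intro c A
          exact Matrix.smul_mulVec _ _ _ }
    have hΨ : LinearMap.range Ψ = ⊤ := by
      rw [LinearMap.range_eq_top]
      intro v
      obtain ⟨A, hA, hAv⟩ := ha v
      exact ⟨⟨A, hA⟩, hAv⟩
    have h3 := LinearMap.finrank_range_le Ψ
    rw [hΨ, finrank_top, Module.finrank_fin_fun] at h3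
    exact h3
  have hHeq : H = LinearMap.range Φ :=
    Submodule.eq_of_le_of_finrank_le hHle (hfin1.trans hfin2)
  refine ⟨Q, Q⁻¹, Matrix.mul_nonsing_inv _ hQd, Matrix.nonsing_inv_mul _ hQd, fun i => ?_⟩
  rw [hHeq]
  exact ⟨Pi.single i 1, rfl⟩

end Pool.Agent.PBK
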