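import Mathlib

/-!
# PBK DYA: the limit of the degrees (real analysis)

Proof. Let `r > max q δ` (so `r > 1`, `r > q`). Since `x n ^ (1 / n) → δ < r` there is `D ≥ 1` with
`x n ≤ D * r ^ n` for all `n`. Choose `r'` with `max q δ < r' < r` and use `x i ≤ D' * r' ^ i`:
`∑_{i < n} m * q ^ (n - 1 - i) * x i ≤ m * D' * ∑_{i < n} q ^ (n - 1 - i) * r' ^ i ≤ m * D' * n * r' ^ n`
(`q ≤ r'`, `r' ≥ 1`), and `n * r' ^ n ≤ C * r ^ n`. So `d n ≤ C' * r ^ n` for all `n`, and the limit
superior of the roots is at most `r`. Lower bound: `d n ≥ q ^ n` and `d n ≥ x n / (c + 1)`, with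
`(x n / (c + 1)) ^ (1 / n) → δ`. So `d n ^ (1 / n)` converges to `max q δ` (squeeze: for every `ε`).
-/

set_option autoImplicit false

open Filter Topology

namespace Pool.Agent.PBK

private theorem dya_const {b : ℝ} (hb : 0 < b) :
    Tendsto (fun n : ℕ => b ^ ((1 : ℝ) / n)) atTop (𝓝 1) := by
  have h := (Real.continuousAt_const_rpow (a := b) (b := 0) hb.ne').tendsto.comp
    tendsto_one_div_atTop_nhds_zero_nat
  rwa [Real.rpow_zero] at h

private theorem dya_root {r : ℝ} (hr : 0 ≤ r) {n : ℕ} (hn : n ≠ 0) :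
    (r ^ n) ^ ((1 : ℝ) / n) = r := by
  rw [one_div]
  exact Real.pow_rpow_inv_natCast hr hn

theorem dya {q m c : ℕ} (hq : 2 ≤ q) {δ : ℝ} (x d : ℕ → ℕ)
    (hx : Tendsto (fun n : ℕ => (x n : ℝ) ^ ((1 : ℝ) / n)) atTop (𝓝 δ))
    (h1 : ∀ n, q ^ n ≤ d n) (h2 : ∀ n, x n ≤ (c + 1) * d n)
    (h3 : ∀ n, d n ≤ q ^ n + ∑ i ∈ Finset.range n, m * q ^ (n - 1 - i) * x i + x n) :
    Tendsto (fun n : ℕ => (d n : ℝ) ^ ((1 : ℝ) / n)) atTop (𝓝 (max (q : ℝ) δ)) := by
  have hq0 : (0 : ℝ) ≤ q := Nat.cast_nonneg q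
  have hq2 : (2 : ℝ) ≤ q := by exact_mod_cast hq
  rw [tendsto_order]
  constructor
  · intro a ha
    rcases lt_max_iff.1 ha with ha | ha
    · filter_upwards [eventually_ne_atTop 0] with n hn
      refine lt_of_lt_of_le ha ?_
      calc (q : ℝ) = ((q : ℝ) ^ n) ^ ((1 : ℝ) / n) := (dya_root hq0 hn).symm
        _ ≤ (d n : ℝ) ^ ((1 : ℝ) / n) :=
          Real.rpow_le_rpow (by positivity) (by exact_mod_cast h1 n) (by positivity)
    · have hc : (0 : ℝ) < (c : ℝ) + 1 := by positivity
      have h4 : Tendsto (fun n : ℕ => (x n : ℝ) ^ ((1 : ℝ) / n) / ((c : ℝ) + 1) ^ ((1 : ℝ) / n))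
          atTop (𝓝 δ) := by
        have := hx.div (dya_const hc) one_ne_zero
        rwa [div_one] at this
      filter_upwards [h4.eventually_const_lt ha] with n hn
      refine hn.trans_le ?_
      rw [← Real.div_rpow (Nat.cast_nonneg _) hc.le]
      refine Real.rpow_le_rpow (by positivity) ?_ (by positivity)
      rw [div_le_iff₀ hc, mul_comm]
      exact_mod_cast h2 n
  · intro r hr
    obtain ⟨r', hr1, hr2⟩ := exists_between hr
    have hrq : (q : ℝ) < r' := (le_max_left _ _).trans_lt hr1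
    have hrδ : δ < r' := (le_max_right _ _).trans_lt hr1
    have hr'1 : 1 ≤ r' := by linarith
    have hr'0 : 0 ≤ r' := by linarith
    -- a bound for the `x i`
    obtain ⟨D, hD0, hD⟩ : ∃ D : ℝ, 0 ≤ D ∧ ∀ i, (x i : ℝ) ≤ D * r' ^ i := by
      obtain ⟨N, hN⟩ := eventually_atTop.1
        ((hx.eventually_lt_const hrδ).and (eventually_ne_atTop 0))
      refine ⟨1 + ∑ i ∈ Finset.range N, (x i : ℝ), by positivity, fun i => ?_⟩
      rcases lt_or_ge i N with hi | hi
      · have h5 : (x i : ℝ) ≤ ∑ i ∈ Finset.range N, (x i : ℝ) :=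
          Finset.single_le_sum (f := fun i => (x i : ℝ)) (fun _ _ => Nat.cast_nonneg _)
            (Finset.mem_range.2 hi)
        have h6 : (1 : ℝ) ≤ r' ^ i := one_le_pow₀ hr'1
        have h7 : (0 : ℝ) ≤ ∑ i ∈ Finset.range N, (x i : ℝ) := by positivity
        nlinarith
      · obtain ⟨h5, h6⟩ := hN i hi
        have h7 : (x i : ℝ) ≤ r' ^ i := by
          have h8 : ((x i : ℝ) ^ ((1 : ℝ) / i)) ^ i = x i := by
            rw [one_div]
            exact Real.rpow_inv_natCast_pow (Nat.cast_nonneg _) h6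
          rw [← h8]
          exact pow_le_pow_left₀ (by positivity) h5.le i
        have h8 : (0 : ℝ) ≤ ∑ i ∈ Finset.range N, (x i : ℝ) := by positivity
        have h9 : (0 : ℝ) ≤ r' ^ i := by positivity
        nlinarith
    set A : ℝ := 1 + D + m * D with hA
    have hA0 : 0 < A := by positivity
    have hb : ∀ n : ℕ, n ≠ 0 → (d n : ℝ) ≤ A * (n * r' ^ n) := by
      intro n hn
      have hn1 : (1 : ℝ) ≤ n := by exact_mod_cast Nat.one_le_iff_ne_zero.2 hn
      have h4 : (d n : ℝ) ≤ (q : ℝ) ^ n +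
          ∑ i ∈ Finset.range n, (m : ℝ) * (q : ℝ) ^ (n - 1 - i) * x i + x n := by
        exact_mod_cast h3 n
      have h5 : ∑ i ∈ Finset.range n, (m : ℝ) * (q : ℝ) ^ (n - 1 - i) * x i ≤
          n * ((m : ℝ) * D * r' ^ n) := by
        have : ∀ i ∈ Finset.range n, (m : ℝ) * (q : ℝ) ^ (n - 1 - i) * x i ≤
            (m : ℝ) * D * r' ^ n := by
          intro i hi
          rw [Finset.mem_range] at hi
          calc (m : ℝ) * (q : ℝ) ^ (n - 1 - i) * x i
              ≤ (m : ℝ) * r' ^ (n - 1 - i) * (D * r' ^ i) := by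
                gcongr
                exact hD i
            _ = (m : ℝ) * D * r' ^ (n - 1) := by
                have : r' ^ (n - 1) = r' ^ (n - 1 - i) * r' ^ i := by
                  rw [← pow_add]
                  congr 1
                  omega
                rw [this]
                ring
            _ ≤ (m : ℝ) * D * r' ^ n := by
                gcongr
                omega
        calc _ ≤ ∑ _i ∈ Finset.range n, (m : ℝ) * D * r' ^ n := Finset.sum_le_sum this
          _ = n * ((m : ℝ) * D * r' ^ n) := by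
            rw [Finset.sum_const, Finset.card_range, nsmul_eq_mul]
      have h6 : (q : ℝ) ^ n ≤ r' ^ n := pow_le_pow_left₀ hq0 hrq.le n
      have h7 := hD n
      have h8 : (0 : ℝ) ≤ r' ^ n := by positivity
      have h9 : r' ^ n ≤ n * r' ^ n := by nlinarith
      have h10 : D * r' ^ n ≤ D * (n * r' ^ n) := by gcongr
      calc (d n : ℝ) ≤ r' ^ n + n * ((m : ℝ) * D * r' ^ n) + D * r' ^ n := by linarith
        _ ≤ n * r' ^ n + n * ((m : ℝ) * D * r' ^ n) + D * (n * r' ^ n) := by linarith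
        _ = A * (n * r' ^ n) := by rw [hA]; ring
    have hlim : Tendsto (fun n : ℕ => A ^ ((1 : ℝ) / n) * ((n : ℝ) ^ ((1 : ℝ) / n) * r'))
        atTop (𝓝 r') := by
      have h4 := (dya_const hA0).mul
        ((tendsto_rpow_div.comp tendsto_natCast_atTop_atTop).mul_const r')
      rw [one_mul, one_mul] at h4
      exact h4
    filter_upwards [hlim.eventually_lt_const hr2, eventually_ne_atTop 0] with n hn hn0
    refine lt_of_le_of_lt ?_ hn
    calc (d n : ℝ) ^ ((1 : ℝ) / n) ≤ (A * (n * r' ^ n)) ^ ((1 : ℝ) / n) :=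
          Real.rpow_le_rpow (Nat.cast_nonneg _) (hb n hn0) (by positivity)
      _ = A ^ ((1 : ℝ) / n) * ((n : ℝ) ^ ((1 : ℝ) / n) * r') := by
          rw [Real.mul_rpow hA0.le (by positivity), Real.mul_rpow (by positivity) (by positivity),
            dya_root hr'0 hn0]

end Pool.Agent.PBK
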