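import Pool.Agent.PBK.Defs

/-!
# PBK DYD: degrees of the iterates. Definitions.
-/

set_option autoImplicit false

open MvPolynomial

namespace Pool.Agent.PBK

variable {E : Type*} [Field E] {M N s nP nG : ℕ}

/-- The `n`-th iterate of the map of the base is given, as a rational map, by forms of degree `d`. -/
def RepG (S : Sys E M N s nP nG) (n d : ℕ) : Prop :=
  ∃ G : Fin N → MvPolynomial (Fin N) E, (∀ i, (G i).IsHomogeneous d) ∧
    (∃ y ∈ S.Wc, ∃ i, eval y (G i) ≠ 0) ∧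
    ∀ y ∈ S.Wc, ∃ c : E, ∀ i, eval y (G i) = c * S.gv^[n] y i

/-- The first component of the `n`-th iterate of the map of the bundle is given, as a rational map,
by forms of bidegree `(a, b)`. -/
def RepZ (S : Sys E M N s nP nG) (n a b : ℕ) : Prop :=
  ∃ P : Fin M → MvPolynomial (Fin M ⊕ Fin N) E, (∀ i, IsBihom (P i) a b) ∧
    (∃ y ∈ S.Wc, ∃ z ∈ S.fib y, z ≠ 0 ∧ ∃ i, eval (pt z y) (P i) ≠ 0) ∧
    ∀ y ∈ S.Wc, ∀ z ∈ S.fib y, z ≠ 0 → ∃ c : E, ∀ i, eval (pt z y) (P i) = c * S.zo z y n i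

/-- The second component of the `n`-th iterate of the map of the bundle is given, as a rational map,
by forms of bidegree `(a, b)`. -/
def RepY (S : Sys E M N s nP nG) (n a b : ℕ) : Prop :=
  ∃ P : Fin N → MvPolynomial (Fin M ⊕ Fin N) E, (∀ i, IsBihom (P i) a b) ∧
    (∃ y ∈ S.Wc, ∃ z ∈ S.fib y, z ≠ 0 ∧ ∃ i, eval (pt z y) (P i) ≠ 0) ∧
    ∀ y ∈ S.Wc, ∀ z ∈ S.fib y, z ≠ 0 → ∃ c : E, ∀ i, eval (pt z y) (P i) = c * S.gv^[n] y i

/-- Both components are given by forms of total degree at most `d`. -/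
def RepF (S : Sys E M N s nP nG) (n d : ℕ) : Prop :=
  (∃ a b, a + b ≤ d ∧ RepZ S n a b) ∧ ∃ a b, a + b ≤ d ∧ RepY S n a b

/-- The degree of the `n`-th iterate of the map of the base. -/
noncomputable def dG (S : Sys E M N s nP nG) (n : ℕ) : ℕ := sInf {d | RepG S n d}

/-- The degree of the `n`-th iterate of the map of the bundle. -/
noncomputable def dF (S : Sys E M N s nP nG) (n : ℕ) : ℕ := sInf {d | RepF S n d}

end Pool.Agent.PBK
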