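import Pool.Agent.PBK.Csys
import Pool.Agent.PBK.Dyd

/-!
# PBK DYC: degrees of the iterates, from projective spaces to vectors

Let `S = csys W B R q c m e P G g f`. `csys_rep1`: `S.gv^[n] v` for `v ∈ S.Wc` is `(g^[n] [v]).rep` for
`n ≥ 1` and `v` for `n = 0`; in all cases it is a nonzero multiple of `(g^[n] [v]).rep`, and
`v = a • [v].rep` with `a ≠ 0` (`Projectivization.exists_smul_eq_mk_rep`); forms at `v` and `[v].rep`
differ by a nonzero factor (`Pool.Agent.KSF.eval_smul_form`). So `Rep1 W g^[n] d ↔ RepG S n d`.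
`csys_rep2`: in the same way, with `csys_zo` for the representatives and `eval_smul_bihom`:
`S.zo z y n` is a nonzero multiple of `(f^[n] ([z], [y])).1.rep` for `y ∈ S.Wc`, `z ∈ S.fib y`, `z ≠ 0` (for
`n ≥ 1` it is equal to it; for `n = 0` it is `z`), and the second component is `g^[n] [y]`. The points
of `bundle W B` are the pairs `([z], [y])`, `y ∈ S.Wc`, `z ∈ S.fib y`, `z ≠ 0`.
-/

set_option autoImplicit false

open MvPolynomial
open scoped LinearAlgebra.Projectivization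

namespace Pool.Agent.PBK

variable {E : Type*} [Field E] {M N s : ℕ} {W : Set (Pr E N)}
  {B : Fin s → Fin (M + 1) → MvPolynomial (Fin (N + 1)) E}
  {R q c m e nP nG : ℕ} {P : Fin nP → Fin (M + 1) → MvPolynomial (Fin (M + 1) ⊕ Fin (N + 1)) E}
  {G : Fin nG → Fin (N + 1) → MvPolynomial (Fin (N + 1)) E}
  {g : Pr E N → Pr E N} {f : Pr E M × Pr E N → Pr E M × Pr E N}

private theorem rep_eq {K : ℕ} (v : Fin (K + 1) → E) (hv : v ≠ 0) :
    ∃ t : E, t ≠ 0 ∧ v = t • (Projectivization.mk E v hv).rep := by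
  obtain ⟨a, ha⟩ := Projectivization.exists_smul_eq_mk_rep E v hv
  refine ⟨((a⁻¹ : Eˣ) : E), Units.ne_zero _, ?_⟩
  rw [← ha, Units.smul_def, smul_smul, Units.inv_mul, one_smul]

private theorem mk_of_smul_rep {K : ℕ} {v : Fin (K + 1) → E} (hv : v ≠ 0) {x : Pr E K} {t : E}
    (h : v = t • x.rep) : Projectivization.mk E v hv = x := by
  have h1 : Projectivization.mk E v hv = Projectivization.mk E x.rep x.rep_nonzero := by
    rw [Projectivization.mk_eq_mk_iff']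
    exact ⟨t, h.symm⟩
  rw [h1]
  exact Projectivization.mk_rep x

private theorem gv_eq (v : Fin (N + 1) → E) (hv : v ≠ 0) :
    (csys W B R q c m e P G g f).gv v = (g (Projectivization.mk E v hv)).rep :=
  dif_pos hv

private theorem fv_eq (z : Fin (M + 1) → E) (hz : z ≠ 0) (v : Fin (N + 1) → E) (hv : v ≠ 0) :
    (csys W B R q c m e P G g f).fv z v =
      (f (Projectivization.mk E z hz, Projectivization.mk E v hv)).1.rep :=
  dif_pos ⟨hz, hv⟩

private theorem rep_mem {y : Pr E N} (hy : y ∈ W) : y.rep ∈ (csys W B R q c m e P G g f).Wc :=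
  ⟨Projectivization.rep_nonzero y, by rw [Projectivization.mk_rep]; exact hy⟩

private theorem gv_iter (v : Fin (N + 1) → E) (hv : v ≠ 0) (n : ℕ) :
    ∃ b : E, b ≠ 0 ∧ (csys W B R q c m e P G g f).gv^[n] v =
      b • (g^[n] (Projectivization.mk E v hv)).rep := by
  cases n with
  | zero =>
    obtain ⟨t, ht, he⟩ := rep_eq v hv
    exact ⟨t, ht, he⟩
  | succ n =>
    refine ⟨1, one_ne_zero, ?_⟩
    rw [Function.iterate_succ_apply, gv_eq v hv, csys_gv, Function.iterate_succ_apply, one_smul]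

theorem csys_rep1 (n d : ℕ) :
    Rep1 W g^[n] d ↔ RepG (csys W B R q c m e P G g f) n d := by
  constructor
  · rintro ⟨F, hF, ⟨y0, hy0, i0, hi0⟩, hrep⟩
    refine ⟨F, hF, ⟨y0.rep, rep_mem hy0, i0, hi0⟩, ?_⟩
    rintro y ⟨hy, hyW⟩
    obtain ⟨a, ha⟩ := hrep _ hyW
    obtain ⟨t, ht, he⟩ := rep_eq y hy
    obtain ⟨b, hb, hbe⟩ := gv_iter (W := W) (B := B) (R := R) (q := q) (c := c) (m := m) (e := e)
      (P := P) (G := G) (g := g) (f := f) y hy n
    refine ⟨t ^ d * a * b⁻¹, fun i => ?_⟩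
    have h1 := Pool.Agent.KSF.eval_smul_form (hF i) t (Projectivization.mk E y hy).rep
    rw [← he, ha i] at h1
    rw [h1, hbe, Pi.smul_apply, smul_eq_mul]
    field_simp
  · rintro ⟨F, hF, ⟨y0, ⟨hy0, hy0W⟩, i0, hi0⟩, hrep⟩
    refine ⟨F, hF, ⟨Projectivization.mk E y0 hy0, hy0W, i0, fun h0 => hi0 ?_⟩, ?_⟩
    · obtain ⟨t, ht, he⟩ := rep_eq y0 hy0
      have h1 := Pool.Agent.KSF.eval_smul_form (hF i0) t (Projectivization.mk E y0 hy0).rep
      rw [← he, h0, mul_zero] at h1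
      exact h1
    · intro y hy
      obtain ⟨a, ha⟩ := hrep y.rep (rep_mem hy)
      refine ⟨a, fun i => ?_⟩
      rw [ha i, csys_gv]

private theorem orb (hS : (csys W B R q c m e P G g f).Good) (hgW : Set.MapsTo g W W)
    (hf : ∀ p ∈ bundle W B, (f p).2 = g p.2 ∧ (f p).1.rep ∈ fibre B (g p.2))
    {z : Fin (M + 1) → E} (hz : z ≠ 0) {y : Fin (N + 1) → E} (hy : y ≠ 0)
    (hyW : Projectivization.mk E y hy ∈ W) (hzy : z ∈ (csys W B R q c m e P G g f).fib y)
    (n : ℕ) :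
    (∃ b : E, b ≠ 0 ∧ (csys W B R q c m e P G g f).zo z y n =
      b • (f^[n] (Projectivization.mk E z hz, Projectivization.mk E y hy)).1.rep) ∧
    (∃ b : E, b ≠ 0 ∧ (csys W B R q c m e P G g f).gv^[n] y =
      b • (f^[n] (Projectivization.mk E z hz, Projectivization.mk E y hy)).2.rep) ∧
    f^[n] (Projectivization.mk E z hz, Projectivization.mk E y hy) ∈ bundle W B := by
  have hfib : (csys W B R q c m e P G g f).fib y = fibre B (Projectivization.mk E y hy) := by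
    obtain ⟨t, ht, he⟩ := rep_eq y hy
    have h1 := fib_smul hS ht (Projectivization.mk E y hy).rep
    rw [← he] at h1
    exact h1
  induction n with
  | zero =>
    obtain ⟨t, ht, he⟩ := rep_eq z hz
    obtain ⟨t', ht', he'⟩ := rep_eq y hy
    refine ⟨⟨t, ht, he⟩, ⟨t', ht', he'⟩, hyW, ?_⟩
    change (Projectivization.mk E z hz).rep ∈ fibre B (Projectivization.mk E y hy)
    rw [hfib] at hzy
    obtain ⟨a, ha⟩ := Projectivization.exists_smul_eq_mk_rep E z hz
    rw [← ha]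
    exact Submodule.smul_mem _ _ hzy
  | succ n ih =>
    obtain ⟨⟨b, hb, hbe⟩, ⟨b', hb', hbe'⟩, hmem⟩ := ih
    obtain ⟨h4, h5⟩ := hf _ hmem
    set p' := f^[n] (Projectivization.mk E z hz, Projectivization.mk E y hy) with hp'
    have hz' : (csys W B R q c m e P G g f).zo z y n ≠ 0 := by
      rw [hbe]
      exact smul_ne_zero hb (Projectivization.rep_nonzero _)
    have hy' : (csys W B R q c m e P G g f).gv^[n] y ≠ 0 := by
      rw [hbe']
      exact smul_ne_zero hb' (Projectivization.rep_nonzero _)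
    rw [Function.iterate_succ_apply', Function.iterate_succ_apply', ← hp']
    refine ⟨⟨1, one_ne_zero, ?_⟩, ⟨1, one_ne_zero, ?_⟩, ?_, ?_⟩
    · rw [zo_succ, fv_eq _ hz' _ hy', mk_of_smul_rep hz' hbe, mk_of_smul_rep hy' hbe', one_smul]
    · rw [gv_eq _ hy', mk_of_smul_rep hy' hbe', one_smul, h4]
    · rw [h4]
      exact hgW hmem.1
    · rw [h4]
      exact h5

theorem csys_rep2 (hS : (csys W B R q c m e P G g f).Good) (hgW : Set.MapsTo g W W)
    (hf : ∀ p ∈ bundle W B, (f p).2 = g p.2 ∧ (f p).1.rep ∈ fibre B (g p.2)) (n d : ℕ) :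
    Rep2 (bundle W B) f^[n] d ↔ RepF (csys W B R q c m e P G g f) n d := by
  have hfact : ∀ (K : ℕ) (F : Fin K → MvPolynomial (Fin (M + 1) ⊕ Fin (N + 1)) E) (a b : ℕ),
      (∀ i, Bihom (F i) a b) →
      ∀ (z : Fin (M + 1) → E) (hz : z ≠ 0) (y : Fin (N + 1) → E) (hy : y ≠ 0),
      ∃ r : E, r ≠ 0 ∧ ∀ i, eval (pt z y) (F i) =
        r * eval (Sum.elim (Projectivization.mk E z hz).rep
          (Projectivization.mk E y hy).rep) (F i) := by
    intro K F a b hF z hz y hy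
    obtain ⟨t, ht, he⟩ := rep_eq z hz
    obtain ⟨t', ht', he'⟩ := rep_eq y hy
    refine ⟨t ^ a * t' ^ b, mul_ne_zero (pow_ne_zero _ ht) (pow_ne_zero _ ht'), fun i => ?_⟩
    have h1 := eval_smul_bihom (F := F i) (hF i) t t' (Projectivization.mk E z hz).rep
      (Projectivization.mk E y hy).rep
    rw [← he, ← he'] at h1
    exact h1
  have hpt : ∀ p ∈ bundle W B, p.2.rep ∈ (csys W B R q c m e P G g f).Wc ∧
      p.1.rep ∈ (csys W B R q c m e P G g f).fib p.2.rep ∧ p.1.rep ≠ 0 := fun p hp =>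
    ⟨rep_mem hp.1, hp.2, Projectivization.rep_nonzero _⟩
  have hbun : ∀ (z : Fin (M + 1) → E) (hz : z ≠ 0) (y : Fin (N + 1) → E) (hy : y ≠ 0),
      Projectivization.mk E y hy ∈ W → z ∈ (csys W B R q c m e P G g f).fib y →
      (Projectivization.mk E z hz, Projectivization.mk E y hy) ∈ bundle W B :=
    fun z hz y hy hyW hzy => (orb hS hgW hf hz hy hyW hzy 0).2.2
  unfold Rep2 RepF
  constructor
  · rintro ⟨⟨a, b, F, hab, hF, ⟨p0, hp0, i0, hi0⟩, hrep⟩,
      ⟨a', b', F', hab', hF', ⟨p1, hp1, i1, hi1⟩, hrep'⟩⟩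
    refine ⟨⟨a, b, hab, F, hF, ⟨p0.2.rep, (hpt p0 hp0).1, p0.1.rep, (hpt p0 hp0).2.1,
      (hpt p0 hp0).2.2, i0, hi0⟩, ?_⟩, ⟨a', b', hab', F', hF', ⟨p1.2.rep, (hpt p1 hp1).1,
      p1.1.rep, (hpt p1 hp1).2.1, (hpt p1 hp1).2.2, i1, hi1⟩, ?_⟩⟩
    · rintro y ⟨hy, hyW⟩ z hzy hz
      obtain ⟨r, hr, hre⟩ := hfact _ F a b hF z hz y hy
      obtain ⟨⟨s, hs, hse⟩, -, -⟩ := orb hS hgW hf hz hy hyW hzy n
      obtain ⟨k, hk⟩ := hrep _ (hbun z hz y hy hyW hzy)
      refine ⟨r * k * s⁻¹, fun i => ?_⟩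
      have h1 := hk i
      rw [hre i, hse, Pi.smul_apply, smul_eq_mul]
      have h2 : eval (Sum.elim (Projectivization.mk E z hz).rep
          (Projectivization.mk E y hy).rep) (F i) = k * (f^[n] (Projectivization.mk E z hz,
            Projectivization.mk E y hy)).1.rep i := h1
      rw [h2]
      field_simp
    · rintro y ⟨hy, hyW⟩ z hzy hz
      obtain ⟨r, hr, hre⟩ := hfact _ F' a' b' hF' z hz y hy
      obtain ⟨-, ⟨s, hs, hse⟩, -⟩ := orb hS hgW hf hz hy hyW hzy n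
      obtain ⟨k, hk⟩ := hrep' _ (hbun z hz y hy hyW hzy)
      refine ⟨r * k * s⁻¹, fun i => ?_⟩
      have h1 := hk i
      rw [hre i, hse, Pi.smul_apply, smul_eq_mul]
      have h2 : eval (Sum.elim (Projectivization.mk E z hz).rep
          (Projectivization.mk E y hy).rep) (F' i) = k * (f^[n] (Projectivization.mk E z hz,
            Projectivization.mk E y hy)).2.rep i := h1
      rw [h2]
      field_simp
  · rintro ⟨⟨a, b, hab, F, hF, ⟨y0, ⟨hy0, hy0W⟩, z0, hz0m, hz0, i0, hi0⟩, hrep⟩,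
      ⟨a', b', hab', F', hF', ⟨y1, ⟨hy1, hy1W⟩, z1, hz1m, hz1, i1, hi1⟩, hrep'⟩⟩
    refine ⟨⟨a, b, F, hab, hF, ⟨_, hbun z0 hz0 y0 hy0 hy0W hz0m, i0, fun h0 => hi0 ?_⟩, ?_⟩,
      ⟨a', b', F', hab', hF', ⟨_, hbun z1 hz1 y1 hy1 hy1W hz1m, i1, fun h0 => hi1 ?_⟩, ?_⟩⟩
    · obtain ⟨r, hr, hre⟩ := hfact _ F a b hF z0 hz0 y0 hy0
      rw [hre i0]
      exact mul_eq_zero_of_right _ h0
    · intro p hp
      obtain ⟨k, hk⟩ := hrep p.2.rep (hpt p hp).1 p.1.rep (hpt p hp).2.1 (hpt p hp).2.2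
      refine ⟨k, fun i => ?_⟩
      have h1 := hk i
      rw [(csys_zo hgW hf hp n).1] at h1
      exact h1
    · obtain ⟨r, hr, hre⟩ := hfact _ F' a' b' hF' z1 hz1 y1 hy1
      rw [hre i1]
      exact mul_eq_zero_of_right _ h0
    · intro p hp
      obtain ⟨k, hk⟩ := hrep' p.2.rep (hpt p hp).1 p.1.rep (hpt p hp).2.1 (hpt p hp).2.2
      refine ⟨k, fun i => ?_⟩
      have h1 := hk i
      have h2 := (csys_zo (R := R) (q := q) (c := c) (m := m) (e := e) (P := P) (G := G)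
        hgW hf hp n).2.1
      rw [csys_gv, ← h2] at h1
      exact h1

end Pool.Agent.PBK
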