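import Pool.Agent.PBK.Dyp
import Pool.Agent.PBK.Comp

/-!
# PBK DYL: lower bounds for the degrees of the iterates

* `dyl_fibre`: if `RepZ S n a b` by the forms `P`, take `y ∈ S.Wc`, `z` with `P (z, y) ≠ 0`, bases `w` of
  `S.fib y`, `w'` of `S.fib (S.gv^[n] y)` (`exists_cols`) and `p` of `comp_fibre` (degree `q ^ n`). The
  forms `A i = P i (comb w u, y)` of degree `a` in `u` (substitution as in `Sub.lean`) are not all zero
  (`z = comb w u` for some `u`), and at every `u ≠ 0` proportional to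
  `comb w' (p u) i = ∑ j, p j (u) * w' j i` (`i : Fin M`); these are forms of degree `q ^ n` without
  nontrivial common zero (`comb_ne_zero`). Apply `prop_deg` (index type `Fin M`).
* `dyl_base`: if `RepY S n a b` by `P`, take `y0 ∈ S.Wc`, `z0 = ∑ j, u j • S.col y0 j`
  (`Submodule.mem_span_range_iff_exists_fun`) with `P (z0, y0) ≠ 0`. The polynomials
  `G i = P i (∑ j, u j * S.B j l, y)` in `y` are forms of degree `a * S.c + b`, not all zero at `y0`, and for
  `y ∈ S.Wc` the vector `z = ∑ j, u j • S.col y j` is in `S.fib y`; if `z ≠ 0` the values are proportional to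
  `S.gv^[n] y`; if `z = 0` and `a ≥ 1` the values are `0` (`eval_smul_bihom` with `s = 0`); if `z = 0`
  and `a = 0` the value at `(0, y)` is the value at `(z', y)` for a nonzero `z' ∈ S.fib y`
  (`eval_smul_bihom` with `s = 0`, `0 ^ 0 = 1`). So `RepG S n (a * S.c + b)`.
* `dyl`: the sets are sets of natural numbers; `Nat.sInf_mem` (the set is nonempty by hypothesis) says
  that `dF S n` is attained: `q ^ n ≤ a ≤ a + b ≤ dF`, and
  `dG S n ≤ a * S.c + b ≤ (S.c + 1) * (a + b) ≤ (S.c + 1) * dF S n` (`Nat.sInf_le`).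
-/

set_option autoImplicit false

open MvPolynomial

namespace Pool.Agent.PBK

section Sub

variable {E : Type*} [Field E] {α β σ : Type*}

private theorem dyl_hom (f : α → MvPolynomial σ E) (g : β → MvPolynomial σ E) {k l a b : ℕ}
    (hf : ∀ i, (f i).IsHomogeneous k) (hg : ∀ j, (g j).IsHomogeneous l)
    {F : MvPolynomial (α ⊕ β) E} (hF : IsBihom F a b) :
    (aeval (Sum.elim f g) F).IsHomogeneous (a * k + b * l) := by
  classical
  have h1 : aeval (Sum.elim f g) F = ∑ d ∈ F.support, C (coeff d F) *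
      ∏ x ∈ d.support, (Sum.elim f g x) ^ d x := by
    conv_lhs => rw [F.as_sum, map_sum]
    refine Finset.sum_congr rfl fun d _ => ?_
    rw [aeval_monomial, algebraMap_eq]
    rfl
  rw [h1]
  refine IsHomogeneous.sum _ _ _ fun d hd => ?_
  have h0 := hF (mem_support_iff.1 hd)
  rw [Finsupp.weight_apply, Finsupp.sum] at h0
  have h2 := IsHomogeneous.prod d.support (fun x => (Sum.elim f g x) ^ d x)
    (fun x => (d x • bw α β x).1 * k + (d x • bw α β x).2 * l) (by
    rintro (i | j) _
    · have h3 := (hf i).pow (d (Sum.inl i))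
      simpa [bw, mul_comm] using h3
    · have h3 := (hg j).pow (d (Sum.inr j))
      simpa [bw, mul_comm] using h3)
  have h3 := (isHomogeneous_C σ (coeff d F)).mul h2
  rw [Finset.sum_add_distrib, ← Finset.sum_mul, ← Finset.sum_mul, ← Prod.fst_sum, ← Prod.snd_sum,
    h0, zero_add] at h3
  exact h3

private theorem dyl_eval (f : α → MvPolynomial σ E) (g : β → MvPolynomial σ E)
    (F : MvPolynomial (α ⊕ β) E) (x : σ → E) :
    eval x (aeval (Sum.elim f g) F) =
      eval (pt (fun i => eval x (f i)) (fun j => eval x (g j))) F := by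
  have h := eval₂Hom_bind₁ (RingHom.id E) x (Sum.elim f g) F
  refine Eq.trans h ?_
  have h2 : (fun i => (eval₂Hom (RingHom.id E) x) (Sum.elim f g i)) =
      pt (fun i => eval x (f i)) (fun j => eval x (g j)) := by
    funext i
    rcases i with i | i <;> rfl
  rw [h2]
  rfl

end Sub

variable {E : Type*} [Field E] [CharZero E] [IsAlgClosed E] {M N s nP nG : ℕ}
  {S : Sys E M N s nP nG}

theorem dyl_fibre (hS : S.Good) {n a b : ℕ} (h : RepZ S n a b) : S.q ^ n ≤ a := by
  obtain ⟨P, hP, ⟨y, hy, z, hz, hz0, i0, hi0⟩, hprop⟩ := h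
  obtain ⟨J, hJ⟩ := exists_cols hS hy
  obtain ⟨J', hJ'⟩ := exists_cols hS (gv_iter_mem hS hy n)
  obtain ⟨p, hp1, hp2, hp3⟩ := comp_fibre hS hy hJ n hJ'
  set w : Fin S.R → Fin M → E := fun i => S.col y (J i) with hw
  set w' : Fin S.R → Fin M → E := fun i => S.col (S.gv^[n] y) (J' i) with hw'
  have hev : ∀ i u, eval u (aeval (Sum.elim (fun l => ∑ j, C (w j l) * X j)
      (fun l => C (y l))) (P i) : MvPolynomial (Fin S.R) E) = eval (pt (comb w u) y) (P i) := by
    intro i u
    rw [dyl_eval]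
    have h1 : (fun l => eval u (∑ j, C (w j l) * X j : MvPolynomial (Fin S.R) E)) = comb w u := by
      funext l
      simp only [map_sum, map_mul, eval_C, eval_X, comb]
      exact Finset.sum_congr rfl fun j _ => mul_comm _ _
    have h2 : (fun l => eval u (C (y l) : MvPolynomial (Fin S.R) E)) = y := by
      funext l
      exact eval_C _
    rw [h1, h2]
  have hev' : ∀ i u, eval u (∑ j, C (w' j i) * p j) = comb w' (fun j => eval u (p j)) i := by
    intro i u
    simp only [map_sum, map_mul, eval_C, comb]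
    exact Finset.sum_congr rfl fun j _ => mul_comm _ _
  refine prop_deg hS.hR (fun i : Fin M => (aeval (Sum.elim (fun l => ∑ j, C (w j l) * X j)
      (fun l => C (y l))) (P i) : MvPolynomial (Fin S.R) E)) (fun i => ∑ j, C (w' j i) * p j)
      ?_ ?_ ?_ ?_ ?_
  · intro i
    have h1 := dyl_hom (fun l => ∑ j, C (w j l) * X j) (fun l => (C (y l) :
      MvPolynomial (Fin S.R) E)) (k := 1) (l := 0) (a := a) (b := b) (F := P i) (fun l => by
        refine IsHomogeneous.sum _ _ _ fun j _ => ?_
        have := (isHomogeneous_C (Fin S.R) (w j l)).mul (isHomogeneous_X E j)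
        rwa [zero_add] at this) (fun l => isHomogeneous_C _ _) (hP i)
    rwa [mul_one, mul_zero, add_zero] at h1
  · intro i
    refine IsHomogeneous.sum _ _ _ fun j _ => ?_
    have := (isHomogeneous_C (Fin S.R) (w' j i)).mul (hp1 j)
    rwa [zero_add] at this
  · intro u hu
    have h1 : (fun i => eval u (p i)) ≠ 0 := by
      obtain ⟨i, hi⟩ := hp2 u hu
      intro h
      exact hi (congrFun h i)
    obtain ⟨i, hi⟩ := Function.ne_iff.1 (comb_ne_zero hJ'.1 h1)
    exact ⟨i, by rw [hev']; exact hi⟩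
  · obtain ⟨u, hu⟩ := IsBas.exists_comb hJ hz
    refine ⟨i0, fun h0 => hi0 ?_⟩
    have h1 := hev i0 u
    rw [hu] at h1
    rw [← h1]
    have h2 : (aeval (Sum.elim (fun l => ∑ j, C (w j l) * X j)
      (fun l => C (y l))) (P i0) : MvPolynomial (Fin S.R) E) = 0 := h0
    rw [h2, map_zero]
  · intro u hu
    obtain ⟨c, hc⟩ := hprop y hy (comb w u) (IsBas.comb_mem hJ u) (comb_ne_zero hJ.1 hu)
    obtain ⟨t, _, ht⟩ := hp3 u hu
    refine ⟨c * t, fun i => ?_⟩
    rw [hev, hev', hc i, ht, Pi.smul_apply, smul_eq_mul, mul_assoc]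

theorem dyl_base (hS : S.Good) {n a b : ℕ} (h : RepY S n a b) : RepG S n (a * S.c + b) := by
  obtain ⟨P, hP, ⟨y0, hy0, z0, hz0, hz00, i0, hi0⟩, hprop⟩ := h
  obtain ⟨u, hu⟩ := (Submodule.mem_span_range_iff_exists_fun E).1 hz0
  have hev : ∀ i y, eval y (aeval (Sum.elim (fun l => ∑ j, C (u j) * S.B j l)
      (fun l => X l)) (P i) : MvPolynomial (Fin N) E) =
        eval (pt (∑ j, u j • S.col y j) y) (P i) := by
    intro i y
    rw [dyl_eval]
    have h1 : (fun l => eval y (∑ j, C (u j) * S.B j l : MvPolynomial (Fin N) E)) =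
        ∑ j, u j • S.col y j := by
      funext l
      simp only [map_sum, map_mul, eval_C, Finset.sum_apply, Pi.smul_apply, smul_eq_mul, Sys.col]
    have h2 : (fun l => eval y (X l : MvPolynomial (Fin N) E)) = y := by
      funext l
      exact eval_X _
    rw [h1, h2]
  refine ⟨fun i => (aeval (Sum.elim (fun l => ∑ j, C (u j) * S.B j l)
      (fun l => X l)) (P i) : MvPolynomial (Fin N) E), ?_, ⟨y0, hy0, i0, ?_⟩, ?_⟩
  · intro i
    have h1 := dyl_hom (fun l => ∑ j, C (u j) * S.B j l) (fun l => (X l :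
      MvPolynomial (Fin N) E)) (k := S.c) (l := 1) (a := a) (b := b) (F := P i) (fun l => by
        refine IsHomogeneous.sum _ _ _ fun j _ => ?_
        have := (isHomogeneous_C (Fin N) (u j)).mul (hS.B_hom j l)
        rwa [zero_add] at this) (fun l => isHomogeneous_X _ _) (hP i)
    rwa [mul_one] at h1
  · have h1 := hev i0 y0
    rw [hu] at h1
    have h2 := hi0
    rw [← h1] at h2
    exact h2
  · intro y hy
    have hz : (∑ j, u j • S.col y j) ∈ S.fib y := Submodule.sum_mem _ fun j _ =>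
      Submodule.smul_mem _ _ (Submodule.subset_span (Set.mem_range_self j))
    by_cases hz0 : (∑ j, u j • S.col y j) = 0
    · obtain ⟨z', hz', hz'0⟩ : ∃ z' ∈ S.fib y, z' ≠ 0 := by
        have hne : S.fib y ≠ ⊥ := by
          intro hbot
          have h1 := hS.rank y hy
          rw [hbot, finrank_bot] at h1
          have := hS.hR
          omega
        obtain ⟨z', h1, h2⟩ := Submodule.exists_mem_ne_zero_of_ne_bot hne
        exact ⟨z', h1, h2⟩
      obtain ⟨c, hc⟩ := hprop y hy z' hz' hz'0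
      refine ⟨(0 : E) ^ a * c, fun i => ?_⟩
      have h1 := eval_smul_bihom (hP i) 0 1 z' y
      rw [zero_smul, one_smul, one_pow, mul_one, hc i] at h1
      rw [hev i y, hz0, h1, mul_assoc]
    · obtain ⟨c, hc⟩ := hprop y hy _ hz hz0
      exact ⟨c, fun i => by rw [hev i y]; exact hc i⟩

theorem dyl (hS : S.Good) {n d : ℕ} (h : RepF S n d) :
    S.q ^ n ≤ dF S n ∧ dG S n ≤ (S.c + 1) * dF S n := by
  have hmem : RepF S n (dF S n) := Nat.sInf_mem (s := {d | RepF S n d}) ⟨d, h⟩
  obtain ⟨⟨a, b, hab, hZ⟩, a', b', hab', hY⟩ := hmem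
  have h1 := dyl_fibre hS hZ
  have h2 : dG S n ≤ a' * S.c + b' := Nat.sInf_le (dyl_base hS hY)
  refine ⟨by omega, h2.trans ?_⟩
  calc a' * S.c + b' ≤ (S.c + 1) * (a' + b') := by nlinarith [Nat.zero_le (b' * S.c)]
    _ ≤ (S.c + 1) * dF S n := Nat.mul_le_mul_left _ hab'

end Pool.Agent.PBK
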