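import Pool.Agent.PBK.Dyg
import Pool.Agent.PBK.Dyz

/-!
# PBK DYU: upper bound for the degrees of the iterates

`dG S n` is attained (`repG_exists`, `Nat.sInf_mem`): `RepG S n (dG S n)`.
By induction `RepZ S n (q ^ n) (mm n)` with `mm 0 = 0`, `mm (n + 1) = q * mm n + m * dG S n`
(`repZ_succ`; for `n = 0`: `P' i = X (Sum.inl i)`, bidegree `(1, 0)`; the fibres are nonzero: `rank`,
`hR`, `W_nonempty`). So `mm n = ∑ i ∈ range n, m * q ^ (n - 1 - i) * dG S i`
(`Finset.sum_range_succ`, `Finset.mul_sum`), and `RepY S n 0 (dG S n)` by the forms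
`rename Sum.inr (G j)`. Both sums of the bidegrees are at most the bound.
-/

set_option autoImplicit false

open MvPolynomial

namespace Pool.Agent.PBK

variable {E : Type*} [Field E] {M N s nP nG : ℕ} {S : Sys E M N s nP nG}

private theorem dyu_ne (hS : S.Good) {y : Fin N → E} (hy : y ∈ S.Wc) : ∃ z ∈ S.fib y, z ≠ 0 := by
  have h1 : S.fib y ≠ ⊥ := by
    intro h0
    have h2 := hS.rank y hy
    rw [h0, finrank_bot] at h2
    have h3 := hS.hR
    omega
  exact (Submodule.ne_bot_iff _).1 h1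

private theorem dyu_dG (hS : S.Good) (n : ℕ) : RepG S n (dG S n) := by
  obtain ⟨d, hd⟩ := repG_exists hS n
  exact Nat.sInf_mem (s := {d | RepG S n d}) ⟨d, hd⟩

private theorem dyu_rename {G : MvPolynomial (Fin N) E} {d : ℕ} (hG : G.IsHomogeneous d) :
    IsBihom (rename (Sum.inr : Fin N → Fin M ⊕ Fin N) G) 0 d := by
  intro e he
  obtain ⟨u, rfl, hu⟩ := coeff_rename_ne_zero _ _ _ he
  have h1 := hG hu
  rw [Finsupp.weight_apply, Finsupp.sum] at h1
  have h2 := Finsupp.sum_mapDomain_index (f := (Sum.inr : Fin N → Fin M ⊕ Fin N)) (s := u)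
    (h := fun i c => c • bw (Fin M) (Fin N) i) (fun _ => zero_smul _ _)
    (fun _ _ _ => add_smul _ _ _)
  rw [Finsupp.weight_apply, h2, Finsupp.sum]
  simp only [bw, Sum.elim_inr]
  simp only [Pi.one_apply, smul_eq_mul, mul_one] at h1
  ext
  · simp [Prod.fst_sum]
  · simp only [Prod.snd_sum, Prod.smul_snd, smul_eq_mul, mul_one]
    exact h1

private theorem dyu_Y (hS : S.Good) (n : ℕ) : RepY S n 0 (dG S n) := by
  obtain ⟨G, hG, ⟨y0, hy0, i, hi⟩, hrep⟩ := dyu_dG hS n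
  have hev : ∀ (z : Fin M → E) (y : Fin N → E) (F : MvPolynomial (Fin N) E),
      eval (pt z y) (rename (Sum.inr : Fin N → Fin M ⊕ Fin N) F) = eval y F := by
    intro z y F
    rw [eval_rename]
    rfl
  obtain ⟨z0, hz0, hz0'⟩ := dyu_ne hS hy0
  refine ⟨fun j => rename Sum.inr (G j), fun j => dyu_rename (hG j),
    ⟨y0, hy0, z0, hz0, hz0', i, by rw [hev]; exact hi⟩, ?_⟩
  intro y hy z hz hz'
  obtain ⟨c, hc⟩ := hrep y hy
  exact ⟨c, fun j => by rw [hev]; exact hc j⟩

private theorem dyu_Z0 (hS : S.Good) : RepZ S 0 1 0 := by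
  obtain ⟨y0, hy0⟩ := hS.W_nonempty
  obtain ⟨z0, hz0, hz0'⟩ := dyu_ne hS hy0
  refine ⟨fun i => X (Sum.inl i), fun i => isWeightedHomogeneous_X E _ _,
    ⟨y0, hy0, z0, hz0, hz0', ?_⟩, ?_⟩
  · obtain ⟨i, hi⟩ := Function.ne_iff.1 hz0'
    refine ⟨i, ?_⟩
    rw [eval_X]
    exact hi
  · intro y _ z _ _
    refine ⟨1, fun i => ?_⟩
    rw [eval_X, one_mul]
    rfl

/-- the second degrees -/
private noncomputable def dyuM (S : Sys E M N s nP nG) : ℕ → ℕ
  | 0 => 0
  | n + 1 => S.q * dyuM S n + S.m * dG S n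

private theorem dyu_Z [Infinite E] (hS : S.Good) (n : ℕ) : RepZ S n (S.q ^ n) (dyuM S n) := by
  induction n with
  | zero =>
    rw [pow_zero]
    exact dyu_Z0 hS
  | succ n ih =>
    rw [pow_succ']
    exact repZ_succ hS ih (dyu_dG hS n)

private theorem dyu_sum (S : Sys E M N s nP nG) (n : ℕ) :
    dyuM S n = ∑ i ∈ Finset.range n, S.m * S.q ^ (n - 1 - i) * dG S i := by
  induction n with
  | zero => rfl
  | succ n ih =>
    rw [dyuM, ih, Finset.sum_range_succ, Finset.mul_sum]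
    congr 1
    · refine Finset.sum_congr rfl fun i hi => ?_
      rw [Finset.mem_range] at hi
      have h1 : n + 1 - 1 - i = (n - 1 - i) + 1 := by omega
      rw [h1, pow_succ]
      ring
    · have h1 : n + 1 - 1 - n = 0 := by omega
      rw [h1, pow_zero, mul_one]

theorem repF_upper [Infinite E] (hS : S.Good) (n : ℕ) :
    RepF S n (S.q ^ n + ∑ i ∈ Finset.range n, S.m * S.q ^ (n - 1 - i) * dG S i + dG S n) := by
  rw [← dyu_sum]
  exact ⟨⟨S.q ^ n, dyuM S n, by omega, dyu_Z hS n⟩, ⟨0, dG S n, by omega, dyu_Y hS n⟩⟩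

end Pool.Agent.PBK
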