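import Pool.Agent.PBK.Defs

/-!
# PBK PROP: proportional homogeneous maps without common zeros

Proof. Assume `p' ` has no nontrivial zero and `p u = t(u) • p' u` for all `u ≠ 0`. Fix `u0 ≠ 0`
(`R ≥ 1`), and let `t0 = t(u0)`. Replacing `p` by `p - t0 p'` we may assume `p u0 = 0`, and have to show
`p = 0`, i.e. (`E` infinite, `MvPolynomial.funext`) `p v = 0` for all `v`. If `v` is a multiple of `u0`
this is clear by homogeneity. Otherwise consider the polynomials in one variable
`a_i(s) = p_i (v + s u0)`, `a'_i(s) = p'_i (v + s u0)` in `E[s]`: `v + s u0 ≠ 0` for all `s ∈ E`, so the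
`a'_i` have no common zero, hence they generate the unit ideal of `E[s]` (a PID, `E` algebraically
closed): `∑ b_i a'_i = 1`. From `a_i a'_j = a_j a'_i` (true at all `s ∈ E`) we get
`a_j = ∑_i b_i a'_i a_j = (∑_i b_i a_i) a'_j =: T a'_j` for all `j`. The coefficient of `s ^ q` of
`a'_j` is `p'_j u0`, which is nonzero for some `j`; the coefficient of `s ^ q` of `a_j` is
`p_j u0 = 0`, and all the `a_j`, `a'_j` have degree `≤ q`. If `T ≠ 0`, then for this `j`:
`deg a_j = deg T + q ≥ q`, so the coefficient of `s ^ q` of `a_j` would be nonzero (degree exactly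
`q`), a contradiction. So `T = 0`, `a_j = 0` and `p_j v = a_j(0) = 0`.
(The coefficient of `s ^ q` of `p_j (v + s u0)` is `p_j u0`: `p_j` is a form of degree `q`; to see
this, and the bound of the degree, check monomials, or use the homogenisation identity
`p_j (v + s u0) = s ^ q p_j (u0 + s⁻¹ v)` and reverse polynomials.)
-/

set_option autoImplicit false

open MvPolynomial

namespace Pool.Agent.PBK

section Line

variable {E : Type*} [Field E] {R : ℕ}

/-- The restriction to the line `v + s u`. -/
private noncomputable def propL (v u : Fin R → E) : MvPolynomial (Fin R) E →ₐ[E] Polynomial E :=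
  aeval fun l => Polynomial.C (u l) * Polynomial.X + Polynomial.C (v l)

private theorem propL_eval (v u : Fin R → E) (P : MvPolynomial (Fin R) E) (s : E) :
    Polynomial.eval s (propL v u P) = eval (v + s • u) P := by
  have h : ((Polynomial.aeval s : Polynomial E →ₐ[E] E).comp (propL v u)) =
      (aeval (v + s • u) : MvPolynomial (Fin R) E →ₐ[E] E) := by
    refine MvPolynomial.algHom_ext fun l => ?_
    simp only [propL, AlgHom.comp_apply, aeval_X, map_add, map_mul, Polynomial.aeval_X,
      Polynomial.aeval_C, Algebra.algebraMap_self, RingHom.id_apply, Pi.add_apply, Pi.smul_apply,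
      smul_eq_mul]
    ring
  have h1 := DFunLike.congr_fun h P
  rw [AlgHom.comp_apply, Polynomial.coe_aeval_eq_eval, aeval_eq_eval] at h1
  exact h1

private theorem propL_mono (v u : Fin R → E) (d : Fin R →₀ ℕ) (t : Finset (Fin R)) :
    (∏ l ∈ t, (Polynomial.C (u l) * Polynomial.X + Polynomial.C (v l)) ^ d l).natDegree ≤
        ∑ l ∈ t, d l ∧
      (∏ l ∈ t, (Polynomial.C (u l) * Polynomial.X + Polynomial.C (v l)) ^ d l).coeff
        (∑ l ∈ t, d l) = ∏ l ∈ t, u l ^ d l := by
  classical
  induction t using Finset.induction_on with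
  | empty => simp
  | insert l t hl ih =>
    rw [Finset.prod_insert hl, Finset.sum_insert hl, Finset.prod_insert hl]
    have h1 : (Polynomial.C (u l) * Polynomial.X + Polynomial.C (v l)).natDegree ≤ 1 :=
      Polynomial.natDegree_linear_le
    have h2 : ((Polynomial.C (u l) * Polynomial.X + Polynomial.C (v l)) ^ d l).natDegree ≤
        d l := by
      have := Polynomial.natDegree_pow_le_of_le (d l) h1
      rwa [mul_one] at this
    have h3 : ((Polynomial.C (u l) * Polynomial.X + Polynomial.C (v l)) ^ d l).coeff (d l) =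
        u l ^ d l := by
      have := Polynomial.coeff_pow_of_natDegree_le (m := d l) h1
      rw [mul_one] at this
      rw [this]
      simp
    refine ⟨Polynomial.natDegree_mul_le_of_le h2 ih.1, ?_⟩
    rw [Polynomial.coeff_mul_add_eq_of_natDegree_le h2 ih.1, h3, ih.2]

private theorem propL_deg (v u : Fin R → E) (P : MvPolynomial (Fin R) E) (k : ℕ)
    (hP : P.IsHomogeneous k) :
    (propL v u P).natDegree ≤ k ∧ (propL v u P).coeff k = eval u P := by
  have hd : ∀ d ∈ P.support, ∑ l, d l = k := by
    intro d hd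
    have h4 := hP (mem_support_iff.1 hd)
    rw [← h4, Finsupp.weight_apply, Finsupp.sum_fintype _ _ (by simp)]
    simp
  have h0 : propL v u P = ∑ d ∈ P.support, Polynomial.C (coeff d P) *
      ∏ l, (Polynomial.C (u l) * Polynomial.X + Polynomial.C (v l)) ^ d l := by
    rw [propL, aeval_def, eval₂_eq']
    rfl
  constructor
  · rw [h0]
    refine Polynomial.natDegree_sum_le_of_forall_le _ _ fun d hd' => ?_
    refine (Polynomial.natDegree_C_mul_le _ _).trans ?_
    rw [← hd d hd']
    exact (propL_mono v u d Finset.univ).1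
  · rw [h0, Polynomial.finsetSum_coeff, eval_eq']
    refine Finset.sum_congr rfl fun d hd' => ?_
    rw [Polynomial.coeff_C_mul, ← (propL_mono v u d Finset.univ).2, hd d hd']

end Line

variable {E : Type*} [Field E] [IsAlgClosed E]

theorem prop_const {R q : ℕ} (hR : 2 ≤ R) {ι : Type*} (p p' : ι → MvPolynomial (Fin R) E)
    (hp : ∀ i, (p i).IsHomogeneous q) (hp' : ∀ i, (p' i).IsHomogeneous q) (h0 : NoZero p')
    (h : ∀ u : Fin R → E, u ≠ 0 → ∃ t : E, ∀ i, eval u (p i) = t * eval u (p' i)) :
    ∃ t : E, ∀ i, p i = C t * p' i := by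
  classical
  have hinf : Infinite E := IsAlgClosed.instInfinite
  let z0 : Fin R := ⟨0, by omega⟩
  set u0 : Fin R → E := Pi.single z0 1 with hu0
  have hu0ne : u0 ≠ 0 := by
    intro h1
    have h2 := congrFun h1 z0
    rw [hu0, Pi.single_eq_same] at h2
    exact one_ne_zero h2
  obtain ⟨t0, ht0⟩ := h u0 hu0ne
  refine ⟨t0, fun i0 => ?_⟩
  set A : ι → MvPolynomial (Fin R) E := fun i => p i - C t0 * p' i with hAdef
  have hA : ∀ i, (A i).IsHomogeneous q := fun i =>
    (hp i).sub (by simpa using (isHomogeneous_C (Fin R) t0).mul (hp' i))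
  have hA0 : ∀ i, eval u0 (A i) = 0 := by
    intro i
    rw [hAdef]
    simp only [map_sub, map_mul, eval_C, ht0 i, sub_self]
  have hAe : ∀ (x : Fin R → E) i, eval x (A i) = eval x (p i) - t0 * eval x (p' i) := by
    intro x i
    rw [hAdef]
    simp only [map_sub, map_mul, eval_C]
  have hAh : ∀ u : Fin R → E, u ≠ 0 → ∃ t : E, ∀ i, eval u (A i) = t * eval u (p' i) := by
    intro u hu
    obtain ⟨t, ht⟩ := h u hu
    exact ⟨t - t0, fun i => by rw [hAe, ht i]; ring⟩
  suffices hz : A i0 = 0 from sub_eq_zero.1 hz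
  refine MvPolynomial.funext fun v => ?_
  rw [map_zero]
  by_cases hvm : ∃ c : E, v = c • u0
  · obtain ⟨c, rfl⟩ := hvm
    rw [Pool.Agent.KSF.eval_smul_form (hA i0), hA0, mul_zero]
  have hvs : ∀ s : E, v + s • u0 ≠ 0 := by
    intro s hs
    apply hvm
    refine ⟨-s, ?_⟩
    rw [neg_smul]
    exact eq_neg_of_add_eq_zero_left hs
  have h1 : (1 : Polynomial E) ∈ Ideal.span (Set.range fun i => propL v u0 (p' i)) := by
    rw [← Ideal.eq_top_iff_one]
    by_contra hne
    set I : Ideal (Polynomial E) := Ideal.span (Set.range fun i => propL v u0 (p' i)) with hI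
    obtain ⟨M, hM, hIM⟩ := Ideal.exists_le_maximal I hne
    obtain ⟨g, hg⟩ := (IsPrincipalIdealRing.principal M).principal
    have hg' : M = Ideal.span {g} := hg
    have hgu : ¬ IsUnit g := by
      intro hu
      apply hM.ne_top
      rw [hg', Ideal.span_singleton_eq_top]
      exact hu
    have hroot : ∃ s, Polynomial.eval s g = 0 := by
      by_cases hg0 : g = 0
      · exact ⟨0, by rw [hg0, Polynomial.eval_zero]⟩
      · have hdeg : g.degree ≠ 0 := fun hd => hgu (Polynomial.isUnit_iff_degree_eq_zero.2 hd)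
        obtain ⟨s, hs⟩ := IsAlgClosed.exists_root g hdeg
        exact ⟨s, hs⟩
    obtain ⟨s, hs⟩ := hroot
    obtain ⟨i, hi⟩ := h0 (v + s • u0) (hvs s)
    apply hi
    rw [← propL_eval]
    have hmem : propL v u0 (p' i) ∈ Ideal.span {g} := by
      rw [← hg']
      exact hIM (Ideal.subset_span ⟨i, rfl⟩)
    obtain ⟨b, hb⟩ := Ideal.mem_span_singleton'.1 hmem
    rw [← hb, Polynomial.eval_mul, hs, mul_zero]
  obtain ⟨b, hb⟩ := (Finsupp.mem_ideal_span_range_iff_exists_finsupp).1 h1
  have hrel : ∀ i j, propL v u0 (A i) * propL v u0 (p' j) =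
      propL v u0 (A j) * propL v u0 (p' i) := by
    intro i j
    refine Polynomial.funext fun s => ?_
    rw [Polynomial.eval_mul, Polynomial.eval_mul, propL_eval, propL_eval, propL_eval, propL_eval]
    obtain ⟨t, ht⟩ := hAh (v + s • u0) (hvs s)
    rw [ht i, ht j]
    ring
  set T : Polynomial E := b.sum fun i c => c * propL v u0 (A i) with hT
  have hTj : ∀ j, propL v u0 (A j) = T * propL v u0 (p' j) := by
    intro j
    rw [hT, Finsupp.sum, Finset.sum_mul]
    have : ∀ i ∈ b.support, b i * propL v u0 (A i) * propL v u0 (p' j) =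
        propL v u0 (A j) * (b i * propL v u0 (p' i)) := by
      intro i _
      rw [mul_assoc, hrel i j]
      ring
    rw [Finset.sum_congr rfl this, ← Finset.mul_sum]
    have hb' : ∑ i ∈ b.support, b i * propL v u0 (p' i) = 1 := hb
    rw [hb', mul_one]
  have hT0 : T = 0 := by
    by_contra hT0
    obtain ⟨j, hj⟩ := h0 u0 hu0ne
    have h2 := propL_deg v u0 (p' j) q (hp' j)
    have h3 : q ≤ (propL v u0 (p' j)).natDegree :=
      Polynomial.le_natDegree_of_ne_zero (by rwa [h2.2])
    have h4 : propL v u0 (p' j) ≠ 0 := by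
      intro h5
      have h6 := h2.2
      rw [h5, Polynomial.coeff_zero] at h6
      exact hj h6.symm
    have h5 := propL_deg v u0 (A j) q (hA j)
    have h6 : (propL v u0 (A j)).natDegree = T.natDegree + (propL v u0 (p' j)).natDegree := by
      rw [hTj j, Polynomial.natDegree_mul hT0 h4]
    have h7 : (propL v u0 (A j)).natDegree = q := by
      have := h5.1
      omega
    have h8 : (propL v u0 (A j)).leadingCoeff = 0 := by
      rw [Polynomial.leadingCoeff, h7, h5.2, hA0]
    rw [Polynomial.leadingCoeff_eq_zero, hTj j] at h8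
    rcases mul_eq_zero.1 h8 with h9 | h9
    · exact hT0 h9
    · exact h4 h9
  have h2 := propL_eval v u0 (A i0) 0
  rw [hTj i0, hT0, zero_mul, Polynomial.eval_zero, zero_smul, add_zero] at h2
  exact h2.symm

end Pool.Agent.PBK
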