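import Pool.Agent.PBK.Sub
import Pool.Agent.PBK.PropC

/-!
# PBK FIBSC: on a fibre all the tuples `P k` are proportional

Proof. Let `k0` be as in `P_ne`, `w` a basis of the fibre (`exists_cols`). For every `k` apply
`prop_const` (`R = S.R ≥ 2`, `q = S.q`) to the forms `p i = subP S k y w i`, `p' i = subP S k0 y w i`
(`i : Fin M`; `subP_hom`, `eval_subP`): for `u ≠ 0` the vector `z = comb w u ≠ 0` of the fibre has
`S.Pv k z y = t • S.fv z y`, `S.Pv k0 z y = t0 • S.fv z y` with `t0 ≠ 0` (since `S.Pv k0 z y ≠ 0`), so they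
are proportional. Get `c k` with `p i = C (c k) * p' i` for all `i`; for `k = k0` take `c k0 = 1`.
-/

set_option autoImplicit false

open MvPolynomial

namespace Pool.Agent.PBK

variable {E : Type*} [Field E] [IsAlgClosed E] {M N s nP nG : ℕ} {S : Sys E M N s nP nG}

theorem exists_sc (hS : S.Good) {y : Fin N → E} (hy : y ∈ S.Wc) :
    ∃ c : Fin nP → E, ∃ k0, S.IsScAt y k0 c := by
  classical
  obtain ⟨k0, hk0⟩ := hS.P_ne y hy
  obtain ⟨J, hJ⟩ := exists_cols hS hy
  set w : Fin S.R → Fin M → E := fun i => S.col y (J i) with hw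
  have main : ∀ k, ∃ t : E, ∀ i : Fin M, subP S k y w i = C t * subP S k0 y w i := by
    intro k
    refine prop_const (q := S.q) hS.hR (fun i => subP S k y w i) (fun i => subP S k0 y w i)
      (fun i => subP_hom hS k y w i) (fun i => subP_hom hS k0 y w i) ?_ ?_
    · intro u hu
      have h1 : S.Pv k0 (comb w u) y ≠ 0 :=
        hk0 _ (IsBas.comb_mem hJ u) (comb_ne_zero hJ.1 hu)
      obtain ⟨i, hi⟩ := Function.ne_iff.1 h1
      refine ⟨i, ?_⟩
      rw [eval_subP]
      exact hi
    · intro u hu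
      have hm := IsBas.comb_mem hJ u
      have hne := comb_ne_zero hJ.1 hu
      obtain ⟨t, ht⟩ := hS.fv_P k y hy _ hm hne
      obtain ⟨t0, ht0⟩ := hS.fv_P k0 y hy _ hm hne
      have h0 : t0 ≠ 0 := by
        rintro rfl
        rw [zero_smul] at ht0
        exact hk0 _ hm hne ht0
      refine ⟨t / t0, fun i => ?_⟩
      rw [eval_subP, eval_subP, ht, ht0, Pi.smul_apply, Pi.smul_apply, smul_eq_mul, smul_eq_mul,
        ← mul_assoc, div_mul_cancel₀ _ h0]
  choose c hc using main
  refine ⟨fun k => if k = k0 then 1 else c k, k0, by simp, hk0, fun k z hz => ?_⟩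
  obtain ⟨u, rfl⟩ := IsBas.exists_comb hJ hz
  by_cases hk : k = k0
  · subst hk
    simp
  · simp only [if_neg hk]
    funext i
    rw [Pi.smul_apply, smul_eq_mul, ← eval_subP, ← eval_subP]
    have h1 := congrArg (eval u) (hc k i)
    rwa [map_mul, eval_C] at h1

/-- The vector `S.sc y` has the property which defines it. -/
theorem sc_spec (hS : S.Good) {y : Fin N → E} (hy : y ∈ S.Wc) :
    ∃ k0, S.IsScAt y k0 (S.sc y) := by
  unfold Sys.sc
  rw [dif_pos (exists_sc hS hy)]
  exact (exists_sc hS hy).choose_spec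

end Pool.Agent.PBK
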