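import Pool.Agent.PBK.Gdefs

/-!
# PBK GPT: a point of the type solves the specialised system

Let `z = comb (fun j => S.col y (J j)) u`, and let `Y`, `w` be as in `HasTyp τ z y`.
(1) For all `i : Fin (m + 1)` and `l`: `eval y (Yp S τ.t i l) = Y i l`, by induction on `i`
(`Y i.succ = S.Gv (τ.t i) (Y i.castSucc)`, `eval` of `bind₁` is `eval` at the values).
(2) So `((cdata S τ J).map (evA S y hy u)).Bm i` is the matrix with the columns `S.col (Y i) j`
(`evA_ψ`, entries `(l, j)`: `S.col (Y i) j l`), `.Pm i j` is the polynomial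
`F i j = aeval (Sum.elim (fun l => X l) (fun l => C (Y i.castSucc l))) (S.P (τ.k i) j)` with
`eval z' (F i j) = S.Pv (τ.k i) z' (Y i.castSucc) j`, `.pm i j = τ.p i j`, `.av = τ.a`
(`evA_algebraMap`), and `.zv = z` (`evA_X`).
(3) The basis `w i` of `S.fib (Y i)`, the span of the columns: there is a matrix `κ i` with
`Bm i * κ i = ` the matrix with the columns `w i k`, a matrix `η i` expressing the columns of `Bm i` by the
`w i k`, and a left inverse `γ i` (linear independence).
(4) The equation `map` is an identity of polynomials in `u' : Fin R → E`; `E` is infinite, so it is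
enough to check it at all values `u'` (`MvPolynomial.funext`): `eval u' (lsub W F) = eval (W *ᵥ u') F` and
`W *ᵥ u' = comb (w i.castSucc) u'`.
(5) `pnt`: `comb (w 0) τ.a = z`.
-/

set_option autoImplicit false

open MvPolynomial

namespace Pool.Agent.PBK

variable {E : Type*} [Field E] [Infinite E] {M N s nP nG : ℕ} {S : Sys E M N s nP nG}

omit [Infinite E] in
private theorem gpt_eval_bind {y : Fin N → E} {f : Fin N → MvPolynomial (Fin N) E}
    {v : Fin N → E} (hf : ∀ l, eval y (f l) = v l) (F : MvPolynomial (Fin N) E) :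
    eval y (bind₁ f F) = eval v F := by
  have h1 : eval y (bind₁ f F) = eval (fun l => eval y (f l)) F := by
    have h2 := aeval_bind₁ (y : Fin N → E) f F
    rw [aeval_eq_eval, aeval_eq_eval] at h2
    exact h2
  rw [h1]
  congr 2
  exact funext hf

omit [Infinite E] in
private theorem gpt_Yp {m : ℕ} {τ : Typ E S.R m nP nG} {y : Fin N → E}
    {Y : Fin (m + 1) → Fin N → E} (h0 : Y 0 = y)
    (hs : ∀ i : Fin m, Y i.succ = S.Gv (τ.t i) (Y i.castSucc)) :
    ∀ (n : ℕ) (hn : n < m + 1) (l : Fin N), eval y (Yp S τ.t n l) = Y ⟨n, hn⟩ l := by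
  intro n
  induction n with
  | zero =>
    intro hn l
    have e : (⟨0, hn⟩ : Fin (m + 1)) = 0 := rfl
    rw [e, h0]
    change eval y (X l) = y l
    rw [eval_X]
  | succ n ih =>
    intro hn l
    have hn' : n < m := by omega
    have e1 : Yp S τ.t (n + 1) l = bind₁ (Yp S τ.t n) (S.G (τ.t ⟨n, hn'⟩) l) := by
      change (if h : n < m then bind₁ (Yp S τ.t n) (S.G (τ.t ⟨n, h⟩) l) else 0) = _
      rw [dif_pos hn']
    have e2 : (⟨n + 1, hn⟩ : Fin (m + 1)) = Fin.succ ⟨n, hn'⟩ := rfl
    have e3 : (⟨n, by omega⟩ : Fin (m + 1)) = Fin.castSucc ⟨n, hn'⟩ := rfl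
    rw [e1, e2, hs, gpt_eval_bind (ih (by omega))]
    rfl

omit [Infinite E] in
private theorem gpt_left {R : ℕ} {w : Fin R → Fin M → E} (hw : LinearIndependent E w) :
    ∃ γ : Matrix (Fin R) (Fin M) E, γ * (Matrix.of fun l k => w k l) = 1 := by
  have hinj : LinearMap.ker (Matrix.toLin' (Matrix.of fun (l : Fin M) (k : Fin R) => w k l)) =
      ⊥ := by
    rw [LinearMap.ker_eq_bot']
    intro v hv
    refine comb_inj hw ?_
    rw [comb_zero, ← hv]
    funext l
    rw [Matrix.toLin'_apply]
    change ∑ i, v i * w i l = ∑ i, w i l * v i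
    exact Finset.sum_congr rfl fun i _ => mul_comm _ _
  obtain ⟨g, hg⟩ := LinearMap.exists_leftInverse_of_injective _ hinj
  refine ⟨LinearMap.toMatrix' g, ?_⟩
  have h1 : LinearMap.toMatrix' (g ∘ₗ Matrix.toLin' (Matrix.of fun (l : Fin M) (k : Fin R) =>
      w k l)) = 1 := by
    rw [hg]
    exact LinearMap.toMatrix'_id
  rwa [LinearMap.toMatrix'_comp, LinearMap.toMatrix'_toLin'] at h1

theorem gpt {m : ℕ} {τ : Typ E S.R m nP nG} (J : Fin S.R → Fin s) {y : Fin N → E}
    (hy : y ∈ S.Wc) (u : Fin S.R → E)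
    (h : S.HasTyp τ (comb (fun j => S.col y (J j)) u) y) :
    ∃ x : Unk E M s S.R m, IsSol ((cdata S τ J).map (evA S y hy u)) x := by
  classical
  obtain ⟨Y, w, hY0, hYW, hYs, hbas, hmap, hpt⟩ := h
  have hYp := gpt_Yp (τ := τ) hY0 hYs
  have hYp' : ∀ (i : Fin (m + 1)) (l : Fin N), eval y (Yp S τ.t i l) = Y i l := fun i l =>
    hYp i i.2 l
  -- the specialised data
  have hψ : (evA S y hy u).comp (ψ S) = eval y := by
    refine RingHom.ext fun F => ?_
    exact evA_ψ S y hy u F
  have halg : (evA S y hy u).comp (algebraMap E (AA S)) = RingHom.id E := by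
    refine RingHom.ext fun c => ?_
    exact evA_algebraMap S y hy u c
  have hBm : ∀ i l j, ((cdata S τ J).map (evA S y hy u)).Bm i l j = S.col (Y i) j l := by
    intro i l j
    change evA S y hy u (ψ S (bind₁ (Yp S τ.t i) (S.B j l))) = eval (Y i) (S.B j l)
    rw [evA_ψ]
    exact gpt_eval_bind (hYp' i) _
  have hPm : ∀ (i : Fin m) (j : Fin M) (z' : Fin M → E),
      eval z' (((cdata S τ J).map (evA S y hy u)).Pm i j) =
        S.Pv (τ.k i) z' (Y i.castSucc) j := by
    intro i j z'
    change eval z' (MvPolynomial.map (evA S y hy u) (MvPolynomial.map (ψ S)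
      (aeval (Sum.elim (fun l => X l) (fun l => C (Yp S τ.t i l))) (S.P (τ.k i) j) :
      MvPolynomial (Fin M) (MvPolynomial (Fin N) E)))) = eval (pt z' (Y i.castSucc)) (S.P (τ.k i) j)
    rw [MvPolynomial.map_map, hψ]
    have e1 := MvPolynomial.map_aeval (Sum.elim (fun l => X l) (fun l => C (Yp S τ.t i l)) :
      Fin M ⊕ Fin N → MvPolynomial (Fin M) (MvPolynomial (Fin N) E))
      ((eval z').comp (MvPolynomial.map (eval y))) (S.P (τ.k i) j)
    rw [RingHom.comp_apply] at e1
    rw [e1]
    have e2 : ((eval z').comp (MvPolynomial.map (eval y))).comp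
        (algebraMap E (MvPolynomial (Fin M) (MvPolynomial (Fin N) E))) = RingHom.id E := by
      refine RingHom.ext fun c => ?_
      have e3 : algebraMap E (MvPolynomial (Fin M) (MvPolynomial (Fin N) E)) c = C (C c) := rfl
      rw [RingHom.comp_apply, RingHom.comp_apply, e3, MvPolynomial.map_C, eval_C, eval_C]
      rfl
    have e4 : (fun x : Fin M ⊕ Fin N => ((eval z').comp (MvPolynomial.map (eval y)))
        ((Sum.elim (fun l => X l) (fun l => C (Yp S τ.t i l)) :
      Fin M ⊕ Fin N → MvPolynomial (Fin M) (MvPolynomial (Fin N) E)) x)) =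
        pt z' (Y i.castSucc) := by
      funext x
      rcases x with l | l
      · rw [RingHom.comp_apply, Sum.elim_inl, MvPolynomial.map_X, eval_X]
        rfl
      · rw [RingHom.comp_apply, Sum.elim_inr, MvPolynomial.map_C, eval_C]
        exact hYp' i.castSucc l
    rw [e2, e4]
    rfl
  have hpm : ∀ (i : Fin m) (k : Fin S.R), ((cdata S τ J).map (evA S y hy u)).pm i k = τ.p i k := by
    intro i k
    change MvPolynomial.map (evA S y hy u) (MvPolynomial.map (algebraMap E (AA S)) (τ.p i k)) =
      τ.p i k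
    rw [MvPolynomial.map_map, halg, MvPolynomial.map_id]
  have hav : ((cdata S τ J).map (evA S y hy u)).av = τ.a := by
    funext i
    exact evA_algebraMap S y hy u (τ.a i)
  have hzv : ((cdata S τ J).map (evA S y hy u)).zv = comb (fun j => S.col y (J j)) u := by
    funext l
    change evA S y hy u (∑ j, X j * ψ S (S.B (J j) l)) = ∑ j, u j * eval y (S.B (J j) l)
    rw [map_sum]
    refine Finset.sum_congr rfl fun j _ => ?_
    rw [map_mul, evA_X, evA_ψ]
  -- the unknowns
  have hκ : ∀ i, ∃ κ : Matrix (Fin s) (Fin S.R) E, ∀ k, comb (S.col (Y i)) (fun j => κ j k) =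
      w i k := by
    intro i
    have h1 : ∀ k, ∃ c : Fin s → E, comb (S.col (Y i)) c = w i k := by
      intro k
      refine exists_comb ?_
      have h2 : w i k ∈ Submodule.span E (Set.range (w i)) :=
        Submodule.subset_span (Set.mem_range_self k)
      rw [(hbas i).2] at h2
      exact h2
    choose c hc using h1
    exact ⟨Matrix.of fun j k => c k j, hc⟩
  have hη : ∀ i, ∃ η : Matrix (Fin S.R) (Fin s) E, ∀ j, comb (w i) (fun k => η k j) =
      S.col (Y i) j := by
    intro i
    have h1 : ∀ j, ∃ c : Fin S.R → E, comb (w i) c = S.col (Y i) j := by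
      intro j
      refine exists_comb ?_
      rw [(hbas i).2]
      exact Submodule.subset_span (Set.mem_range_self j)
    choose c hc using h1
    exact ⟨Matrix.of fun k j => c j k, hc⟩
  choose κ hκ using hκ
  choose η hη using hη
  choose γ hγ using fun i => gpt_left (hbas i).1
  have hW : ∀ i, ((cdata S τ J).map (evA S y hy u)).Bm i * κ i =
      Matrix.of fun l k => w i k l := by
    intro i
    ext l k
    rw [Matrix.mul_apply, Matrix.of_apply, ← hκ i k]
    change _ = ∑ j, κ i j k * S.col (Y i) j l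
    refine Finset.sum_congr rfl fun j _ => ?_
    rw [hBm, mul_comm]
  refine ⟨⟨κ, η, γ⟩, ?_, ?_, ?_, ?_⟩
  · intro i
    change γ i * (((cdata S τ J).map (evA S y hy u)).Bm i * κ i) = 1
    rw [hW, hγ]
  · intro i
    change (((cdata S τ J).map (evA S y hy u)).Bm i * κ i) * η i = _
    rw [hW]
    ext l j
    rw [Matrix.mul_apply, hBm, ← hη i j]
    change ∑ k, w i k l * η i k j = ∑ k, η i k j * w i k l
    exact Finset.sum_congr rfl fun k _ => mul_comm _ _
  · intro i j
    change lsub (((cdata S τ J).map (evA S y hy u)).Bm i.castSucc * κ i.castSucc)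
      (((cdata S τ J).map (evA S y hy u)).Pm i j) =
      ∑ k, C ((((cdata S τ J).map (evA S y hy u)).Bm i.succ * κ i.succ) j k) *
        ((cdata S τ J).map (evA S y hy u)).pm i k
    rw [hW, hW]
    refine MvPolynomial.funext fun u' => ?_
    have e1 : eval u' (lsub (Matrix.of fun l k => w i.castSucc k l)
        (((cdata S τ J).map (evA S y hy u)).Pm i j)) =
        eval (comb (w i.castSucc) u') (((cdata S τ J).map (evA S y hy u)).Pm i j) := by
      unfold lsub
      have e2 := MvPolynomial.map_aeval (fun l => ∑ k, C (w i.castSucc k l) * X k :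
        Fin M → MvPolynomial (Fin S.R) E) (eval u') (((cdata S τ J).map (evA S y hy u)).Pm i j)
      have e3 : (eval u').comp (algebraMap E (MvPolynomial (Fin S.R) E)) = RingHom.id E := by
        refine RingHom.ext fun c => ?_
        rw [RingHom.comp_apply, MvPolynomial.algebraMap_eq, eval_C]
        rfl
      have e4 : (fun l => eval u' (∑ k, C (w i.castSucc k l) * X k)) =
          comb (w i.castSucc) u' := by
        funext l
        rw [map_sum]
        refine Finset.sum_congr rfl fun k _ => ?_
        rw [map_mul, eval_C, eval_X, mul_comm]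
      rw [e3, e4] at e2
      exact e2
    rw [e1, hPm, hmap i u', map_sum]
    refine Finset.sum_congr rfl fun k _ => ?_
    rw [map_mul, eval_C, hpm, mul_comm]
    rfl
  · change (((cdata S τ J).map (evA S y hy u)).Bm 0 * κ 0).mulVec
      ((cdata S τ J).map (evA S y hy u)).av = ((cdata S τ J).map (evA S y hy u)).zv
    rw [hW, hav, hzv, ← hpt]
    funext l
    change ∑ k, w 0 k l * τ.a k = ∑ k, τ.a k * w 0 k l
    exact Finset.sum_congr rfl fun k _ => mul_comm _ _

end Pool.Agent.PBK
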