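import Pool.Agent.PBK.Multi

/-!
# PBK PLK: Plücker coordinates

* `plk_ne_zero`: linearly independent rows have a nonzero maximal minor (the rank of the matrix is
  `R`, so there are `R` linearly independent columns; e.g. `exists_linearIndependent` for the columns,
  `Matrix.rank_transpose`, and a square matrix with independent columns has a nonzero determinant).
* `plk_comb`: `plk (fun i => comb w (g i)) J = det g * plk w J`: determinant of a product of matrices.
* `absHeight_plk_eq`: if two linearly independent families have the same span, then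
  `w' i = comb w (g i)` with `det g ≠ 0`, so the Plücker vectors are proportional (`absHeight_smul`).
* `absHeight_plk_le`: `plk w J = ∑_π sign π * ∏ i, w i (J (π i))`, use `multi` with `J := Fin R`,
  `σ i := Fin M` and the coefficient array
  `coef J I = ∑_π, if (∀ i, I i = J (π i)) then sign π else 0` (`Matrix.det_apply`; or
  `abs_htq` directly).
* `absHeight_le_cc`: `absHeight_comp_le` with `l ↦ (i, l)`.
-/

set_option autoImplicit false

open MvPolynomial

namespace Pool.Agent.PBK

open Pool.Agent.Helper63.WH

section

variable {E : Type*} [Field E]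

theorem plk_ne_zero {R M : ℕ} {w : Fin R → Fin M → E} (hw : LinearIndependent E w) :
    plk w ≠ 0 := by
  classical
  have h1 : (Matrix.of w : Matrix (Fin R) (Fin M) E).rank = R := by
    have h := LinearIndependent.rank_matrix (M := (Matrix.of w : Matrix (Fin R) (Fin M) E)) hw
    rw [h, Fintype.card_fin]
  rw [Matrix.rank_eq_finrank_span_cols] at h1
  obtain ⟨f, hf, hsp, hli⟩ := Submodule.exists_fun_fin_finrank_span_eq E
    (Set.range (Matrix.of w : Matrix (Fin R) (Fin M) E).col)
  generalize Module.finrank E (Submodule.span E (Set.range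
    (Matrix.of w : Matrix (Fin R) (Fin M) E).col)) = r at h1 f hf hsp hli
  subst h1
  choose J hJ using hf
  intro h0
  have h2 : plk w J = 0 := congrFun h0 J
  unfold plk at h2
  have h3 : (Matrix.of fun i j => w i (J j) : Matrix (Fin r) (Fin r) E) =
      (Matrix.of f : Matrix (Fin r) (Fin r) E).transpose := by
    ext i j
    have := congrFun (hJ j) i
    simpa [Matrix.col, Matrix.transpose] using this
  rw [h3, Matrix.det_transpose] at h2
  have h4 : IsUnit (Matrix.of f : Matrix (Fin r) (Fin r) E) :=
    Matrix.linearIndependent_rows_iff_isUnit.1 hli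
  rw [Matrix.isUnit_iff_isUnit_det, h2] at h4
  exact not_isUnit_zero h4

theorem plk_comb {R M : ℕ} (w : Fin R → Fin M → E) (g : Matrix (Fin R) (Fin R) E) :
    plk (fun i => comb w (g i)) = g.det • plk w := by
  funext J
  simp only [plk, Pi.smul_apply, smul_eq_mul]
  rw [← Matrix.det_mul]
  congr 1

end

variable {E : Type*} [Field E] [CharZero E] [Algebra.IsAlgebraic ℚ E]

theorem absHeight_plk_eq {R M : ℕ} {w w' : Fin R → Fin M → E} (hw : LinearIndependent E w)
    (hw' : LinearIndependent E w')
    (h : Submodule.span E (Set.range w) = Submodule.span E (Set.range w')) :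
    absHeight (plk w) = absHeight (plk w') := by
  classical
  have h1 : ∀ i, ∃ u, comb w u = w' i := fun i =>
    exists_comb (by rw [h]; exact Submodule.subset_span (Set.mem_range_self i))
  choose g hg using h1
  have h2 : plk w' = Matrix.det (g : Matrix (Fin R) (Fin R) E) • plk w := by
    rw [← plk_comb]
    congr 1
    funext i
    exact (hg i).symm
  have h3 : Matrix.det (g : Matrix (Fin R) (Fin R) E) ≠ 0 := by
    intro h0
    apply plk_ne_zero hw'
    rw [h2, h0, zero_smul]
  rw [h2, absHeight_smul _ h3]

theorem absHeight_plk_le (R M : ℕ) : ∃ C : ℝ, 0 ≤ C ∧ ∀ w : Fin R → Fin M → E,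
    LinearIndependent E w → absHeight (plk w) ≤ ∑ i, absHeight (w i) + C := by
  classical
  obtain ⟨C, hC, h⟩ := multi (E := E) (κ := Fin R → Fin M) (J := Fin R) (σ := fun _ => Fin M)
    (fun J I => ∑ π : Equiv.Perm (Fin R), if I = (fun i => J (π⁻¹ i)) then
      ((Equiv.Perm.sign π : ℤ) : E) else 0)
  refine ⟨C, hC, fun w hw => ?_⟩
  refine le_trans (le_of_eq ?_) (h w fun j => hw.ne_zero j)
  congr 1
  funext J
  simp only [Finset.sum_mul]
  rw [Finset.sum_comm]
  unfold plk
  rw [Matrix.det_apply]
  refine Finset.sum_congr rfl fun π _ => ?_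
  rw [Finset.sum_eq_single (fun i => J (π⁻¹ i))]
  · rw [if_pos rfl, Units.smul_def, zsmul_eq_mul]
    congr 1
    rw [← Equiv.prod_comp π (fun j => w j (J (π⁻¹ j)))]
    refine Finset.prod_congr rfl fun i _ => ?_
    simp
  · intro b _ hb
    rw [if_neg hb, zero_mul]
  · intro hb
    exact absurd (Finset.mem_univ _) hb

theorem absHeight_le_cc {R M : ℕ} (w : Fin R → Fin M → E) (i : Fin R) :
    absHeight (w i) ≤ absHeight (cc w) :=
  absHeight_comp_le (fun l : Fin M => (i, l)) (cc w)

end Pool.Agent.PBK
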