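import Pool.Agent.PBK.Vprime
import Pool.Agent.PBK.Plk

/-!
# PBK GSEP: the points of a dense type separate the elements of `AA`

Proof. By `hJ` there is `y0 ∈ S.Wc` such that the columns `S.col y0 (J j)` are linearly independent; choose rows
`I : Fin R → Fin M` with `det (S.col y0 (J j) (I i)) ≠ 0` and let `δ = det (S.B (J j) (I i))` in
`MvPolynomial (Fin N) E`, `δ ∉ S.IW`. Let `g ∈ AA S`, `g ≠ 0`. Lift `g` to
`ĝ ∈ MvPolynomial (Fin R) (MvPolynomial (Fin N) E)` (the quotient map is surjective on coefficients).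
There are a natural number `k` and `F ∈ MvPolynomial (Fin M ⊕ Fin N) E` such that for all `(z, y)` with
`δ(y) ≠ 0`: `F (z, y) = δ(y) ^ k * ĝ (u, y)`, where `u j = (∑ i, adj(y) j i * z (I i)) / δ(y)` and `adj(y)` is the
adjugate matrix of `(S.B (J j) (I i) (y))_(i, j)`: take `k` at least the total degree of `ĝ` in `u` and
`F = ∑_d ĝ_d(y) * δ(y) ^ (k - |d|) * ∏_j (∑ i, adj(y) j i * z (I i)) ^ (d j)`.
If `y ∈ S.Wc` and `z = comb (fun j => S.col y (J j)) u`, then `∑ i, adj(y) j i * z (I i) = δ(y) * u j`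
(`Matrix.adjugate_mul`), so `F (z, y) = δ(y) ^ k * evA S y hy u g` (if `δ(y) ≠ 0`).
`ψ S δ * g ≠ 0` in the domain `AA S` (`IW_prime`), so there are `y ∈ S.Wc`, `u` with
`δ(y) * evA S y hy u g ≠ 0` (an element of `AA S` with all the evaluations zero is zero: `E` is infinite,
see `Vprime.lean`); so the polynomial `F * δ` does not vanish on the bundle, and by `hd` it does not
vanish at some `(z, y)` of type `τ`. For this point `y ∈ S.Wc` (contained in `HasTyp`) and `δ(y) ≠ 0`,
so the `S.col y (J j)` are linearly independent and a basis of `S.fib y` (`rank`), `z` is in the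
fibre (`comb (w 0) τ.a`), so `z = comb (fun j => S.col y (J j)) u` for some `u`, and
`evA S y hy u g ≠ 0`.
-/

set_option autoImplicit false

open MvPolynomial

namespace Pool.Agent.PBK

variable {E : Type*} [Field E] [Infinite E] {M N s nP nG : ℕ} {S : Sys E M N s nP nG}

omit [Infinite E] in
private theorem gsep_eval_det {R : ℕ} (B : Fin R → Fin R → MvPolynomial (Fin N) E) (y : Fin N → E) :
    eval y (Matrix.det (Matrix.of fun i j => B i j)) =
      Matrix.det (Matrix.of fun i j => eval y (B i j)) := by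
  rw [RingHom.map_det]
  rfl

private theorem gsep_minor (J : Fin S.R → Fin s) {y : Fin N → E}
    (hy : LinearIndependent E (fun j => S.col y (J j))) :
    ∃ I : Fin S.R → Fin M,
      eval y (Matrix.det (Matrix.of fun i j => S.B (J j) (I i))) ≠ 0 := by
  obtain ⟨I, hI⟩ := Function.ne_iff.1 (plk_ne_zero hy)
  refine ⟨I, ?_⟩
  rw [gsep_eval_det (fun i j => S.B (J j) (I i)) y, ← Matrix.det_transpose]
  exact hI

/-- Some minor of the columns `J` is not zero in the coordinate ring. -/
theorem exists_delta (hS : S.Good) (J : Fin S.R → Fin s)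
    (hJ : ∃ y ∈ S.Wc, LinearIndependent E (fun j => S.col y (J j))) :
    ∃ I : Fin S.R → Fin M, ψ S (Matrix.det (Matrix.of fun i j => S.B (J j) (I i))) ≠ 0 := by
  obtain ⟨y, hyW, hy⟩ := hJ
  obtain ⟨I, hI⟩ := gsep_minor J hy
  refine ⟨I, fun h => hI ?_⟩
  have h1 := congrArg (evA S y hyW (fun _ => 0)) h
  rw [evA_ψ, map_zero] at h1
  exact h1

private theorem gsep_zero (h : AA S)
    (h0 : ∀ (y : Fin N → E) (hy : y ∈ S.Wc) (u : Fin S.R → E), evA S y hy u h = 0) : h = 0 := by
  have h1 : ∀ (y : Fin N → E) (hy : y ∈ S.Wc), MvPolynomial.map (evRW S y hy) h = 0 := by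
    intro y hy
    apply MvPolynomial.funext
    intro u
    rw [map_zero, eval_map]
    exact h0 y hy u
  ext d
  rw [coeff_zero]
  obtain ⟨F, hF⟩ := Ideal.Quotient.mk_surjective (coeff d h)
  rw [← hF, Ideal.Quotient.eq_zero_iff_mem]
  intro y hy
  have h2 := congrArg (coeff d) (h1 y hy)
  rw [coeff_map, coeff_zero, ← hF] at h2
  exact h2

omit [Infinite E] in
private theorem gsep_F (J : Fin S.R → Fin s) (I : Fin S.R → Fin M)
    (g : MvPolynomial (Fin S.R) (MvPolynomial (Fin N) E)) :
    ∃ (k : ℕ) (F : MvPolynomial (Fin M ⊕ Fin N) E), ∀ (y : Fin N → E) (u : Fin S.R → E),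
      eval (pt (comb (fun j => S.col y (J j)) u) y) F =
        (eval y (Matrix.det (Matrix.of fun i j => S.B (J j) (I i)))) ^ k *
          eval₂ (eval y) u g := by
  have hren : ∀ (a : MvPolynomial (Fin N) E) (z : Fin M → E) (y : Fin N → E),
      eval (pt z y) (rename Sum.inr a) = eval y a := by
    intro a z y
    rw [eval_rename]
    rfl
  induction g using MvPolynomial.induction_on with
  | C a =>
    refine ⟨0, rename Sum.inr a, fun y u => ?_⟩
    rw [hren, pow_zero, one_mul, eval₂_C]
  | add p q hp hq =>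
    obtain ⟨k₁, F₁, h₁⟩ := hp
    obtain ⟨k₂, F₂, h₂⟩ := hq
    refine ⟨k₁ + k₂,
      (rename Sum.inr (Matrix.det (Matrix.of fun i j => S.B (J j) (I i)))) ^ k₂ * F₁ +
      (rename Sum.inr (Matrix.det (Matrix.of fun i j => S.B (J j) (I i)))) ^ k₁ * F₂,
      fun y u => ?_⟩
    rw [map_add, map_mul, map_mul, map_pow, map_pow, hren, h₁, h₂, eval₂_add]
    ring
  | mul_X p j hp =>
    obtain ⟨k, F, h⟩ := hp
    refine ⟨k + 1, F * ∑ i, rename Sum.inr
      (Matrix.adjugate (Matrix.of fun i j => S.B (J j) (I i)) j i) * X (Sum.inl (I i)),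
      fun y u => ?_⟩
    rw [map_mul, h, eval₂_mul, eval₂_X, map_sum]
    have h1 : ∑ i, eval (pt (comb (fun j => S.col y (J j)) u) y)
        (rename Sum.inr (Matrix.adjugate (Matrix.of fun i j => S.B (J j) (I i)) j i) *
          X (Sum.inl (I i))) =
        eval y (Matrix.det (Matrix.of fun i j => S.B (J j) (I i))) * u j := by
      set A : Matrix (Fin S.R) (Fin S.R) (MvPolynomial (Fin N) E) :=
        Matrix.of fun i j => S.B (J j) (I i) with hA
      have h2 : ∀ i, eval (pt (comb (fun j => S.col y (J j)) u) y)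
          (rename Sum.inr (Matrix.adjugate A j i) * X (Sum.inl (I i))) =
          ∑ j', u j' * eval y (Matrix.adjugate A j i * A i j') := by
        intro i
        rw [map_mul, hren, eval_X]
        simp only [pt, Sum.elim_inl, comb, Finset.mul_sum, map_mul]
        refine Finset.sum_congr rfl fun j' _ => ?_
        simp only [hA, Matrix.of_apply, Sys.col]
        ring
      rw [Finset.sum_congr rfl fun i _ => h2 i, Finset.sum_comm]
      have h3 : ∀ j', ∑ i, u j' * eval y (Matrix.adjugate A j i * A i j') =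
          u j' * eval y ((Matrix.adjugate A * A) j j') := by
        intro j'
        rw [Matrix.mul_apply, map_sum, Finset.mul_sum]
      rw [Finset.sum_congr rfl fun j' _ => h3 j', Matrix.adjugate_mul]
      simp only [Matrix.smul_apply, Matrix.one_apply, smul_eq_mul, mul_ite, mul_one, mul_zero]
      rw [Finset.sum_eq_single j]
      · rw [if_pos rfl]
        ring
      · intro j' _ hj'
        rw [if_neg (Ne.symm hj'), map_zero, mul_zero]
      · intro h'
        exact absurd (Finset.mem_univ _) h'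
    rw [h1]
    ring

theorem gsep (hS : S.Good) {m : ℕ} {τ : Typ E S.R m nP nG} (J : Fin S.R → Fin s)
    (hJ : ∃ y ∈ S.Wc, LinearIndependent E (fun j => S.col y (J j)))
    (hd : ∀ F : MvPolynomial (Fin M ⊕ Fin N) E,
      (∀ z y, S.HasTyp τ z y → eval (pt z y) F = 0) → VanV S F)
    (g : AA S) (hg : g ≠ 0) :
    ∃ (y : Fin N → E) (hy : y ∈ S.Wc) (u : Fin S.R → E),
      S.HasTyp τ (comb (fun j => S.col y (J j)) u) y ∧ evA S y hy u g ≠ 0 := by
  obtain ⟨I, hI⟩ := exists_delta hS J hJ
  set δ : MvPolynomial (Fin N) E := Matrix.det (Matrix.of fun i j => S.B (J j) (I i)) with hδ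
  obtain ⟨g', hg'⟩ := MvPolynomial.map_surjective (Ideal.Quotient.mk S.IW)
    Ideal.Quotient.mk_surjective g
  have hev : ∀ (y : Fin N → E) (hy : y ∈ S.Wc) (u : Fin S.R → E),
      evA S y hy u g = eval₂ (eval y) u g' := by
    intro y hy u
    rw [← hg']
    change eval₂ (evRW S y hy) u (MvPolynomial.map (Ideal.Quotient.mk S.IW) g') = _
    rw [eval₂_map]
    rfl
  obtain ⟨k, F, hF⟩ := gsep_F J I g'
  have hprime := IW_prime hS
  have hdom : IsDomain (RW S) := Ideal.Quotient.isDomain S.IW
  have hne : ψ S δ * g ≠ 0 := mul_ne_zero hI hg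
  have hex : ∃ (y : Fin N → E) (hy : y ∈ S.Wc) (u : Fin S.R → E),
      evA S y hy u (ψ S δ * g) ≠ 0 := by
    by_contra hcon
    push Not at hcon
    exact hne (gsep_zero _ hcon)
  obtain ⟨y0, hy0, u0, hu0⟩ := hex
  rw [map_mul, evA_ψ] at hu0
  have hren : ∀ (a : MvPolynomial (Fin N) E) (z : Fin M → E) (y : Fin N → E),
      eval (pt z y) (rename Sum.inr a) = eval y a := by
    intro a z y
    rw [eval_rename]
    rfl
  have hnv : ¬ VanV S (F * rename Sum.inr δ) := by
    intro hv
    have h1 := hv y0 hy0 (comb (fun j => S.col y0 (J j)) u0) (by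
      rw [comb_eq_sum]
      exact Submodule.sum_mem _ fun i _ => Submodule.smul_mem _ _
        (Submodule.subset_span (Set.mem_range_self (J i))))
    rw [map_mul, hF, hren, ← hev y0 hy0 u0] at h1
    have h2 := left_ne_zero_of_mul hu0
    have h3 := right_ne_zero_of_mul hu0
    exact mul_ne_zero (mul_ne_zero (pow_ne_zero k h2) h3) h2 h1
  have hex2 : ∃ z y, S.HasTyp τ z y ∧ eval (pt z y) (F * rename Sum.inr δ) ≠ 0 := by
    by_contra hcon
    push Not at hcon
    exact hnv (hd _ hcon)
  obtain ⟨z, y, hzy, hne2⟩ := hex2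
  rw [map_mul, hren] at hne2
  have hδy : eval y δ ≠ 0 := right_ne_zero_of_mul hne2
  have hFy := left_ne_zero_of_mul hne2
  have hyW : y ∈ S.Wc := by
    obtain ⟨Y, w, h1, h2, -⟩ := hzy
    rw [← h1]
    exact h2 0
  have hzf : z ∈ S.fib y := by
    obtain ⟨Y, w, h1, h2, h3, h4, h5, h6⟩ := hzy
    rw [← h6, ← h1]
    exact IsBas.comb_mem (h4 0) _
  have hli : LinearIndependent E (fun j => S.col y (J j)) := by
    have h1 : Matrix.det (Matrix.of fun i j => eval y (S.B (J j) (I i))) ≠ 0 := by
      rw [← gsep_eval_det (fun i j => S.B (J j) (I i)) y]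
      exact hδy
    have h2 : Matrix.det (Matrix.of fun j i => eval y (S.B (J j) (I i))) ≠ 0 := by
      rw [← Matrix.det_transpose]
      exact h1
    have h3 : LinearIndependent E (Matrix.of fun j i => eval y (S.B (J j) (I i))).row :=
      Matrix.linearIndependent_rows_iff_isUnit.2
        ((Matrix.isUnit_iff_isUnit_det _).2 (isUnit_iff_ne_zero.2 h2))
    rw [Fintype.linearIndependent_iff] at h3 ⊢
    intro c hc i
    apply h3 c _ i
    funext a
    have h4 := congrFun hc (I a)
    simp only [Finset.sum_apply, Pi.smul_apply, Pi.zero_apply] at h4 ⊢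
    exact h4
  have hspan : Submodule.span E (Set.range fun j => S.col y (J j)) = S.fib y := by
    have hfin : FiniteDimensional E (S.fib y) := inferInstance
    apply Submodule.eq_of_le_of_finrank_eq
    · rw [Submodule.span_le]
      rintro _ ⟨j, rfl⟩
      exact Submodule.subset_span (Set.mem_range_self (J j))
    · rw [hS.rank y hyW, finrank_span_eq_card hli, Fintype.card_fin]
  rw [← hspan] at hzf
  obtain ⟨u, hu⟩ := exists_comb hzf
  refine ⟨y, hyW, u, ?_, ?_⟩
  · rw [hu]
    exact hzy
  · rw [hev y hyW u]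
    rw [← hu, hF] at hFy
    exact right_ne_zero_of_mul hFy

end Pool.Agent.PBK
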