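import Pool.Agent.PBK.Gdefs

/-!
# PBK LIECH: differentiating a solution

Proof. Let `W i = cd.Bm i * x.κ i` and `A i = x.η i * (x.κ i).map D`, where `.map D` applies `D` to the
entries. By `hB` and the product rule `(W i).map D = cd.Bm i * (x.κ i).map D = (W i * x.η i) * (x.κ i).map D =
W i * A i` (by `hx.gen`).
For a polynomial `F` over `L` let `F^D` be the polynomial with the coefficients `D (coeff)`
(`MvPolynomial.mapRange`-like; Mathlib has `Derivation.mapCoeff`), an additive map with
`(F G)^D = F^D G + F G^D`, `X^D = 0`, `(C c)^D = C (D c)`. Let `F = cd.Pm i j`, `W = W i.castSucc`,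
`A = A i.castSucc`. As `D` kills the coefficients of `F`:
`(lsub W F)^D = ∑ l, lsub W (pderiv l F) * (∑ k, C (D (W l k)) * X k)
            = ∑ l, lsub W (pderiv l F) * (∑ k, C ((W * A) l k) * X k)`  (1)
(by induction on `F`: true for constants killed by `D`, for the variables, sums and products; or on
monomials). On the other hand, for the derivation `δ = ∑ k', (∑ j, C (A k' j) * X j) * pderiv k'` of
`MvPolynomial (Fin R) L`: `δ (∑ k, C (W l k) * X k) = ∑ k, C ((W * A) l k) * X k`, so by the chain rule
`δ (lsub W F)` is equal to the right side of (1). Now `lsub W F = ∑ k, C (W' j k) * p k` with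
`W' = W i.succ`, `p = cd.pm i`, whose coefficients are killed by `D`. So
`δ (lsub W F) = ∑ k, C (W' j k) * δ (p k)` and
`(lsub W F)^D = ∑ k, C (D (W' j k)) * p k = ∑ k, C ((W' * A') j k) * p k`, `A' = A i.succ`. Hence
`∑ k, C (W' j k) * (δ (p k) - ∑ l, C (A' k l) * p l) = 0` for all `j`; multiply with `γ i.succ`
(`hx.inj`): `δ (p k) = ∑ l, C (A' k l) * p l`, which is `IsChain`.
-/

set_option autoImplicit false

open MvPolynomial

namespace Pool.Agent.PBK

section

variable {L : Type*} [Field L] {M R : ℕ}

/-- `G` has the derivatives of the coefficients of `F` as coefficients. -/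
private def IsD (D : Derivation ℤ L L) (F G : MvPolynomial (Fin R) L) : Prop :=
  ∀ d, D (coeff d F) = coeff d G

private theorem IsD.add {D : Derivation ℤ L L} {F F' G G' : MvPolynomial (Fin R) L}
    (h : IsD D F G) (h' : IsD D F' G') : IsD D (F + F') (G + G') := by
  intro d
  rw [coeff_add, coeff_add, map_add, h d, h' d]

private theorem IsD.mul {D : Derivation ℤ L L} {F F' G G' : MvPolynomial (Fin R) L}
    (h : IsD D F G) (h' : IsD D F' G') : IsD D (F * F') (G * F' + F * G') := by
  classical
  intro d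
  rw [coeff_add, coeff_mul, coeff_mul, coeff_mul, map_sum, ← Finset.sum_add_distrib]
  refine Finset.sum_congr rfl fun x _ => ?_
  rw [Derivation.leibniz, h, h', smul_eq_mul, smul_eq_mul]
  ring

private theorem isD_C (D : Derivation ℤ L L) (a : L) :
    IsD D (C a : MvPolynomial (Fin R) L) (C (D a)) := by
  classical
  intro d
  rw [coeff_C, coeff_C]
  split_ifs
  · rfl
  · exact map_zero D

private theorem isD_X (D : Derivation ℤ L L) (i : Fin R) :
    IsD D (X i : MvPolynomial (Fin R) L) 0 := by
  classical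
  intro d
  rw [coeff_X, coeff_zero]
  split_ifs
  · exact D.map_one_eq_zero
  · exact map_zero D

private theorem IsD.sum {D : Derivation ℤ L L} {ι : Type*} (s : Finset ι)
    {F G : ι → MvPolynomial (Fin R) L} (h : ∀ i ∈ s, IsD D (F i) (G i)) :
    IsD D (∑ i ∈ s, F i) (∑ i ∈ s, G i) := by
  classical
  intro d
  rw [coeff_sum, coeff_sum, map_sum]
  exact Finset.sum_congr rfl fun i hi => h i hi d

private theorem IsD.unique {D : Derivation ℤ L L} {F G G' : MvPolynomial (Fin R) L}
    (h : IsD D F G) (h' : IsD D F G') : G = G' := by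
  ext d
  rw [← h d, ← h' d]

/-- The derivative of `F (W u)` if `W` moves by `V`. -/
private noncomputable def TT (W V : Matrix (Fin M) (Fin R) L) (F : MvPolynomial (Fin M) L) :
    MvPolynomial (Fin R) L :=
  ∑ l, lsub W (pderiv l F) * ∑ k, C (V l k) * X k

private theorem lsub_add (W : Matrix (Fin M) (Fin R) L) (F G : MvPolynomial (Fin M) L) :
    lsub W (F + G) = lsub W F + lsub W G := map_add _ _ _

private theorem lsub_mul (W : Matrix (Fin M) (Fin R) L) (F G : MvPolynomial (Fin M) L) :
    lsub W (F * G) = lsub W F * lsub W G := map_mul _ _ _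

private theorem lsub_C (W : Matrix (Fin M) (Fin R) L) (a : L) :
    lsub W (C a : MvPolynomial (Fin M) L) = C a := by
  simp [lsub, algebraMap_eq]

private theorem lsub_X (W : Matrix (Fin M) (Fin R) L) (i : Fin M) :
    lsub W (X i : MvPolynomial (Fin M) L) = ∑ k, C (W i k) * X k := by
  simp [lsub]

private theorem TT_add (W V : Matrix (Fin M) (Fin R) L) (F G : MvPolynomial (Fin M) L) :
    TT W V (F + G) = TT W V F + TT W V G := by
  unfold TT
  rw [← Finset.sum_add_distrib]
  refine Finset.sum_congr rfl fun l _ => ?_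
  rw [map_add, lsub_add]
  ring

private theorem TT_mul (W V : Matrix (Fin M) (Fin R) L) (F G : MvPolynomial (Fin M) L) :
    TT W V (F * G) = TT W V F * lsub W G + lsub W F * TT W V G := by
  unfold TT
  rw [Finset.sum_mul, Finset.mul_sum, ← Finset.sum_add_distrib]
  refine Finset.sum_congr rfl fun l _ => ?_
  rw [pderiv_mul, lsub_add, lsub_mul, lsub_mul]
  ring

private theorem TT_C (W V : Matrix (Fin M) (Fin R) L) (a : L) :
    TT W V (C a) = 0 := by
  unfold TT
  refine Finset.sum_eq_zero fun l _ => ?_
  rw [pderiv_C]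
  have : lsub W (0 : MvPolynomial (Fin M) L) = 0 := map_zero _
  rw [this, zero_mul]

private theorem TT_X (W V : Matrix (Fin M) (Fin R) L) (i : Fin M) :
    TT W V (X i) = ∑ k, C (V i k) * X k := by
  unfold TT
  rw [Finset.sum_eq_single i]
  · rw [pderiv_X_self]
    have : lsub W (1 : MvPolynomial (Fin M) L) = 1 := map_one _
    rw [this, one_mul]
  · intro j _ hj
    rw [pderiv_X_of_ne (Ne.symm hj)]
    have : lsub W (0 : MvPolynomial (Fin M) L) = 0 := map_zero _
    rw [this, zero_mul]
  · intro h
    exact absurd (Finset.mem_univ i) h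

/-- The linear vector field. -/
private noncomputable def dl (A : Matrix (Fin R) (Fin R) L) (F : MvPolynomial (Fin R) L) :
    MvPolynomial (Fin R) L :=
  ∑ l, (∑ j, C (A l j) * X j) * pderiv l F

private theorem dl_add (A : Matrix (Fin R) (Fin R) L) (F G : MvPolynomial (Fin R) L) :
    dl A (F + G) = dl A F + dl A G := by
  unfold dl
  rw [← Finset.sum_add_distrib]
  refine Finset.sum_congr rfl fun l _ => ?_
  rw [map_add]
  ring

private theorem dl_mul (A : Matrix (Fin R) (Fin R) L) (F G : MvPolynomial (Fin R) L) :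
    dl A (F * G) = dl A F * G + F * dl A G := by
  unfold dl
  rw [Finset.sum_mul, Finset.mul_sum, ← Finset.sum_add_distrib]
  refine Finset.sum_congr rfl fun l _ => ?_
  rw [pderiv_mul]
  ring

private theorem dl_C (A : Matrix (Fin R) (Fin R) L) (a : L) : dl A (C a) = 0 := by
  unfold dl
  refine Finset.sum_eq_zero fun l _ => ?_
  rw [pderiv_C, mul_zero]

private theorem dl_X (A : Matrix (Fin R) (Fin R) L) (i : Fin R) :
    dl A (X i) = ∑ j, C (A i j) * X j := by
  unfold dl
  rw [Finset.sum_eq_single i]
  · rw [pderiv_X_self, mul_one]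
  · intro j _ hj
    rw [pderiv_X_of_ne (Ne.symm hj), mul_zero]
  · intro h
    exact absurd (Finset.mem_univ i) h

private theorem dl_sum (A : Matrix (Fin R) (Fin R) L) {ι : Type*} (s : Finset ι)
    (F : ι → MvPolynomial (Fin R) L) : dl A (∑ i ∈ s, F i) = ∑ i ∈ s, dl A (F i) := by
  classical
  induction s using Finset.induction_on with
  | empty =>
    have := dl_C A (0 : L)
    rw [map_zero] at this
    simpa using this
  | insert a s ha ih => rw [Finset.sum_insert ha, Finset.sum_insert ha, dl_add, ih]

private theorem dl_lin (W : Matrix (Fin M) (Fin R) L) (A : Matrix (Fin R) (Fin R) L)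
    (i : Fin M) : dl A (∑ k, C (W i k) * X k) = ∑ k, C ((W * A) i k) * X k := by
  rw [dl_sum]
  have h1 : ∀ k, dl A (C (W i k) * X k) = ∑ j, C (W i k) * (C (A k j) * X j) := by
    intro k
    rw [dl_mul, dl_C, zero_mul, zero_add, dl_X, Finset.mul_sum]
  rw [Finset.sum_congr rfl fun k _ => h1 k, Finset.sum_comm]
  refine Finset.sum_congr rfl fun j _ => ?_
  rw [Matrix.mul_apply, map_sum, Finset.sum_mul]
  refine Finset.sum_congr rfl fun k _ => ?_
  rw [map_mul, mul_assoc]

/-- The chain rule. -/
private theorem dl_lsub (W : Matrix (Fin M) (Fin R) L) (A : Matrix (Fin R) (Fin R) L)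
    (F : MvPolynomial (Fin M) L) : dl A (lsub W F) = TT W (W * A) F := by
  induction F using MvPolynomial.induction_on with
  | C a => rw [lsub_C, dl_C, TT_C]
  | add F G hF hG => rw [lsub_add, dl_add, TT_add, hF, hG]
  | mul_X F i hF => rw [lsub_mul, dl_mul, TT_mul, hF, lsub_X, dl_lin, TT_X]

/-- The derivative of the coefficients of `F (W u)`. -/
private theorem isD_lsub (D : Derivation ℤ L L) (W V : Matrix (Fin M) (Fin R) L)
    (hW : W.map D = V) (F : MvPolynomial (Fin M) L) (hF : ∀ d, D (coeff d F) = 0) :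
    IsD D (lsub W F) (TT W V F) := by
  classical
  have hmul : ∀ F G : MvPolynomial (Fin M) L, IsD D (lsub W F) (TT W V F) →
      IsD D (lsub W G) (TT W V G) → IsD D (lsub W (F * G)) (TT W V (F * G)) := by
    intro F G h1 h2
    rw [lsub_mul, TT_mul]
    exact h1.mul h2
  have hX : ∀ i, IsD D (lsub W (X i)) (TT W V (X i)) := by
    intro i
    rw [lsub_X, TT_X]
    refine IsD.sum _ fun k _ => ?_
    have h1 := (isD_C (R := R) D (W i k)).mul (isD_X D k)
    rw [mul_zero, add_zero] at h1
    have h2 : D (W i k) = V i k := by rw [← hW]; rfl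
    rwa [h2] at h1
  have hC : ∀ a : L, D a = 0 → IsD D (lsub W (C a)) (TT W V (C a)) := by
    intro a ha
    rw [lsub_C, TT_C]
    have := isD_C (R := R) D a
    rwa [ha, map_zero] at this
  have hpow : ∀ (i : Fin M) (n : ℕ), IsD D (lsub W (X i ^ n)) (TT W V (X i ^ n)) := by
    intro i n
    induction n with
    | zero =>
      have := hC 1 D.map_one_eq_zero
      rw [map_one] at this
      rwa [pow_zero]
    | succ n ih =>
      rw [pow_succ]
      exact hmul _ _ ih (hX i)
  have hmon : ∀ d : Fin M →₀ ℕ, IsD D (lsub W (monomial d (coeff d F)))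
      (TT W V (monomial d (coeff d F))) := by
    intro d
    rw [monomial_eq]
    refine hmul _ _ (hC _ (hF d)) ?_
    rw [Finsupp.prod]
    refine Finset.prod_induction _ (fun G => IsD D (lsub W G) (TT W V G)) hmul ?_
      (fun i _ => hpow i _)
    have := hC 1 D.map_one_eq_zero
    rwa [map_one] at this
  have hsum : ∀ s : Finset (Fin M →₀ ℕ), IsD D (lsub W (∑ d ∈ s, monomial d (coeff d F)))
      (TT W V (∑ d ∈ s, monomial d (coeff d F))) := by
    intro s
    induction s using Finset.induction_on with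
    | empty =>
      have := hC 0 (map_zero D)
      rw [map_zero] at this
      rwa [Finset.sum_empty]
    | insert a s ha ih =>
      rw [Finset.sum_insert ha, lsub_add, TT_add]
      exact (hmon a).add ih
  have := hsum F.support
  rwa [← F.as_sum] at this

end

theorem liech {L : Type*} [Field L] {M s R m : ℕ} {cd : CD L M s R m} {x : Unk L M s R m}
    (hx : IsSol cd x) (D : Derivation ℤ L L) (hB : ∀ i l j, D (cd.Bm i l j) = 0)
    (hP : ∀ i j d, D ((cd.Pm i j).coeff d) = 0) (hp : ∀ i j d, D ((cd.pm i j).coeff d) = 0) :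
    ∃ A : Fin (m + 1) → Matrix (Fin R) (Fin R) L, IsChain cd.pm A ∧
      (cd.Bm 0 * x.κ 0).map D = (cd.Bm 0 * x.κ 0) * A 0 := by
  classical
  set A : Fin (m + 1) → Matrix (Fin R) (Fin R) L := fun i => x.η i * (x.κ i).map D with hA
  have hW : ∀ i, (cd.Bm i * x.κ i).map D = (cd.Bm i * x.κ i) * A i := by
    intro i
    have h1 : (cd.Bm i * x.κ i).map D = cd.Bm i * (x.κ i).map D := by
      ext l k
      rw [Matrix.map_apply, Matrix.mul_apply, Matrix.mul_apply, map_sum]
      refine Finset.sum_congr rfl fun j _ => ?_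
      rw [Derivation.leibniz, hB, smul_zero, add_zero, smul_eq_mul]
      rfl
    rw [h1, hA]
    simp only
    rw [← Matrix.mul_assoc, hx.gen i]
  refine ⟨A, fun i k => ?_, hW 0⟩
  -- the identity for the row `j`
  have hrow : ∀ j, ∑ k, C ((cd.Bm i.succ * x.κ i.succ) j k) *
      (dl (A i.castSucc) (cd.pm i k) - ∑ l, C (A i.succ k l) * cd.pm i l) = 0 := by
    intro j
    have h1 := isD_lsub D (cd.Bm i.castSucc * x.κ i.castSucc) _ (hW i.castSucc) (cd.Pm i j)
      (hP i j)
    have h2 := dl_lsub (cd.Bm i.castSucc * x.κ i.castSucc) (A i.castSucc) (cd.Pm i j)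
    rw [← h2, hx.map i j] at h1
    have h3 : IsD D (∑ k, C ((cd.Bm i.succ * x.κ i.succ) j k) * cd.pm i k)
        (∑ k, C (((cd.Bm i.succ * x.κ i.succ) * A i.succ) j k) * cd.pm i k) := by
      refine IsD.sum _ fun k _ => ?_
      have h4 : IsD D (cd.pm i k) 0 := by
        intro d
        rw [hp, coeff_zero]
      have h5 := (isD_C (R := R) D ((cd.Bm i.succ * x.κ i.succ) j k)).mul h4
      rw [mul_zero, add_zero] at h5
      have h6 : D ((cd.Bm i.succ * x.κ i.succ) j k) =
          ((cd.Bm i.succ * x.κ i.succ) * A i.succ) j k := by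
        rw [← hW i.succ]
        rfl
      rwa [h6] at h5
    have h4 := h1.unique h3
    rw [dl_sum] at h4
    simp only [mul_sub, Finset.sum_sub_distrib]
    rw [sub_eq_zero]
    have h5 : ∀ k, dl (A i.castSucc) (C ((cd.Bm i.succ * x.κ i.succ) j k) * cd.pm i k) =
        C ((cd.Bm i.succ * x.κ i.succ) j k) * dl (A i.castSucc) (cd.pm i k) := by
      intro k
      rw [dl_mul, dl_C, zero_mul, zero_add]
    simp only [h5] at h4
    rw [h4]
    have h6 : ∀ k, C ((cd.Bm i.succ * x.κ i.succ * A i.succ) j k) * cd.pm i k =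
        ∑ k', C ((cd.Bm i.succ * x.κ i.succ) j k') * (C (A i.succ k' k) * cd.pm i k) := by
      intro k
      rw [Matrix.mul_apply, map_sum, Finset.sum_mul]
      refine Finset.sum_congr rfl fun k' _ => ?_
      rw [map_mul, mul_assoc]
    simp only [h6]
    rw [Finset.sum_comm]
    refine Finset.sum_congr rfl fun k' _ => ?_
    rw [Finset.mul_sum]
  -- multiply with the left inverse
  set H : Fin R → MvPolynomial (Fin R) L := fun k =>
    dl (A i.castSucc) (cd.pm i k) - ∑ l, C (A i.succ k l) * cd.pm i l with hH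
  have hinj := hx.inj i.succ
  have key : H k = 0 := by
    have h1 : ∑ j, C (x.γ i.succ k j) * ∑ k', C ((cd.Bm i.succ * x.κ i.succ) j k') * H k' =
        0 := Finset.sum_eq_zero fun j _ => by rw [hrow j, mul_zero]
    have h2 : ∑ j, C (x.γ i.succ k j) * ∑ k', C ((cd.Bm i.succ * x.κ i.succ) j k') * H k' =
        ∑ k', C ((x.γ i.succ * (cd.Bm i.succ * x.κ i.succ)) k k') * H k' := by
      simp only [Finset.mul_sum]
      rw [Finset.sum_comm]
      refine Finset.sum_congr rfl fun k' _ => ?_
      rw [Matrix.mul_apply, map_sum, Finset.sum_mul]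
      refine Finset.sum_congr rfl fun j _ => ?_
      rw [map_mul, mul_assoc]
    rw [h2, hinj] at h1
    rw [Finset.sum_eq_single k] at h1
    · rwa [Matrix.one_apply_eq, map_one, one_mul] at h1
    · intro k' _ hk'
      rw [Matrix.one_apply_ne (Ne.symm hk'), map_zero, zero_mul]
    · intro h
      exact absurd (Finset.mem_univ k) h
  exact sub_eq_zero.1 key

end Pool.Agent.PBK
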