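import Pool.Agent.PBK.Gensys
import Pool.Agent.PBK.Der
import Pool.Agent.PBK.Liech
import Pool.Agent.PBK.Desc
import Pool.Agent.PBK.Gpt
import Pool.Agent.PBK.Gsep
import Pool.Agent.PBK.Sub

/-!
# PBK GMAIN: a dense type has many infinitesimal symmetries

Proof. Choose `y0 ∈ S.Wc` and `J` such that the `S.col y0 (J j)` are a basis (`exists_cols`). `AA S` is a
domain (`IW_prime`). Let `Ω` be the set of all `evA S y hy u` such that
`comb (fun j => S.col y (J j)) u` has the type `τ` at `y`. By `gsep`, `gpt` and `gensys` there is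
`x : Unk L M s S.R m` over `L = AlgebraicClosure (FractionRing (AA S))` with
`IsSol ((cdata S τ J).map (algebraMap (AA S) L)) x`.
For `j : Fin S.R` let `D j` be the derivation of `L` extending `pderiv j` of `AA S` over `RW S`
(restrict scalars to `E`; `der_ext`). It kills the images of `ψ S F` (constants `C _`) and of `E`, so the
entries of `Bm i`, the coefficients of `Pm i j` and of `pm i j` (`coeff_map`). By `liech` there are
`A j` with `IsChain pm (A j)` and `(W 0).map (D j) = W 0 * A j 0`, `W 0 = Bm 0 * x.κ 0`. Apply `D j` to the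
equation `(W 0).mulVec av = zv` (`av` is constant, `zv l = ∑ j, X j * ψ S (S.B (J j) l)`):
`(W 0 * A j 0).mulVec av = (ψ S (S.B (J j) l))_l`, i.e. with `b j = (A j 0).mulVec av ∈ L ^ R`:
`(W 0).mulVec (b j) = ` the column `J j`. The columns `J j` are linearly independent over `L`
(`exists_delta`: a minor is not zero in `AA S`, hence in `L`; `algebraMap` is injective), so
the `R` vectors `b j ∈ L ^ R` are linearly independent, hence a basis. Let `v : Fin S.R → E`; write
`v = ∑ j, c j • b j` with `c j ∈ L`. Then `A = ∑ j, c j • A j` is a chain (`isChain_sum`) for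
`pm = map (algebraMap E L) τ.p` (compose `E → AA S → L`) with `(A 0).mulVec av = v`. By `desc` there is such
a chain over `E`.
-/

set_option autoImplicit false

open MvPolynomial

namespace Pool.Agent.PBK

variable {E : Type*} [Field E] [CharZero E] {M N s nP nG : ℕ} {S : Sys E M N s nP nG}

private theorem gmain_aux (hS : S.Good) {m : ℕ} {τ : Typ E S.R m nP nG} (J : Fin S.R → Fin s)
    (hJ' : ∃ y ∈ S.Wc, LinearIndependent E (fun j => S.col y (J j)))
    {L : Type*} [Field L] [Algebra E L] (ι : AA S →+* L) (hinj : Function.Injective ι)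
    (hEL : ∀ c : E, algebraMap E L c = ι (algebraMap E (AA S) c))
    (x : Unk L M s S.R m) (hx : IsSol ((cdata S τ J).map ι) x)
    (hDer : ∀ j : Fin S.R, ∃ D : Derivation ℤ L L, ∀ a : AA S, D (ι a) = ι (pderiv j a))
    (v : Fin S.R → E) :
    ∃ A : Fin (m + 1) → Matrix (Fin S.R) (Fin S.R) E, IsChain τ.p A ∧
      (A 0).mulVec τ.a = v := by
  classical
  set cd := (cdata S τ J).map ι with hcd
  -- the derivations
  choose D hD using hDer
  have hDψ : ∀ j F, D j (ι (ψ S F)) = 0 := by
    intro j F
    rw [hD]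
    have : pderiv j (ψ S F) = 0 := pderiv_C
    rw [this, map_zero]
  have hDE : ∀ j (c : E), D j (ι (algebraMap E (AA S) c)) = 0 := by
    intro j c
    exact hDψ j (C c)
  have hli : ∀ j, ∃ A : Fin (m + 1) → Matrix (Fin S.R) (Fin S.R) L, IsChain cd.pm A ∧
      (cd.Bm 0 * x.κ 0).map (D j) = (cd.Bm 0 * x.κ 0) * A 0 := by
    intro j
    refine liech hx (D j) ?_ ?_ ?_
    · intro i l j'
      exact hDψ j _
    · intro i j' d
      change (D j) (coeff d (MvPolynomial.map ι (MvPolynomial.map (ψ S) _))) = 0
      rw [coeff_map, coeff_map]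
      exact hDψ j _
    · intro i j' d
      change (D j) (coeff d (MvPolynomial.map ι (MvPolynomial.map (algebraMap E (AA S)) _))) = 0
      rw [coeff_map, coeff_map]
      exact hDE j _
  choose A hA1 hA2 using hli
  set W0 := cd.Bm 0 * x.κ 0 with hW0
  -- differentiate the equation of the point
  have hb : ∀ j l, (W0.mulVec ((A j 0).mulVec cd.av)) l = ι (ψ S (S.B (J j) l)) := by
    intro j l
    rw [Matrix.mulVec_mulVec, ← hA2 j]
    have h1 : ∑ k, W0 l k * cd.av k = cd.zv l := congrFun hx.pnt l
    have h2 : D j (∑ k, W0 l k * cd.av k) = ∑ k, D j (W0 l k) * cd.av k := by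
      rw [map_sum]
      refine Finset.sum_congr rfl fun k _ => ?_
      rw [Derivation.leibniz]
      have h3 : D j (cd.av k) = 0 := hDE j _
      rw [h3, smul_zero, zero_add, smul_eq_mul, mul_comm]
    have h4 : D j (cd.zv l) = ι (ψ S (S.B (J j) l)) := by
      change D j (ι (∑ j', X j' * ψ S (S.B (J j') l))) = _
      rw [hD, map_sum, Finset.sum_eq_single j]
      · rw [pderiv_mul, pderiv_X_self, one_mul]
        have : pderiv j (ψ S (S.B (J j) l)) = 0 := pderiv_C
        rw [this, mul_zero, add_zero]
      · intro j' _ hj'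
        rw [pderiv_mul, pderiv_X_of_ne hj', zero_mul]
        have : pderiv j (ψ S (S.B (J j') l)) = 0 := pderiv_C
        rw [this, mul_zero, add_zero]
      · intro h
        exact absurd (Finset.mem_univ j) h
    change ∑ k, D j (W0 l k) * cd.av k = _
    rw [← h2, h1, h4]
  -- the vectors `b j` are a basis
  obtain ⟨I, hI⟩ := exists_delta hS J hJ'
  have hdet : Matrix.det (Matrix.of fun i j => ι (ψ S (S.B (J j) (I i)))) ≠ 0 := by
    have h1 : Matrix.det (Matrix.of fun i j => ι (ψ S (S.B (J j) (I i)))) =
        ι (ψ S (Matrix.det (Matrix.of fun i j => S.B (J j) (I i)))) := by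
      have h2 := RingHom.map_det (ι.comp (ψ S)) (Matrix.of fun i j => S.B (J j) (I i))
      exact h2.symm
    rw [h1]
    exact fun h => hI (hinj (h.trans (map_zero ι).symm))
  set Mb : Matrix (Fin S.R) (Fin S.R) L := Matrix.of fun i j => ((A j 0).mulVec cd.av) i with hMb
  have hMbdet : Mb.det ≠ 0 := by
    intro h0
    obtain ⟨c, hc, hc0⟩ := Matrix.exists_mulVec_eq_zero_iff.2 h0
    apply hc
    apply Matrix.eq_zero_of_mulVec_eq_zero hdet
    funext i
    have h1 : (W0.mulVec (Mb.mulVec c)) (I i) = 0 := by
      rw [hc0, Matrix.mulVec_zero]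
      rfl
    have h2 : Mb.mulVec c = ∑ j, c j • (A j 0).mulVec cd.av := by
      funext i'
      simp only [Matrix.mulVec, dotProduct, hMb, Matrix.of_apply, Finset.sum_apply, Pi.smul_apply,
        smul_eq_mul]
      exact Finset.sum_congr rfl fun j _ => mul_comm _ _
    rw [h2, Matrix.mulVec_sum, Finset.sum_apply] at h1
    simp only [Matrix.mulVec_smul, Pi.smul_apply, hb, smul_eq_mul] at h1
    simp only [Matrix.mulVec, dotProduct, Matrix.of_apply, Pi.zero_apply]
    rw [← h1]
    exact Finset.sum_congr rfl fun j _ => mul_comm _ _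
  -- the chain over `L`
  set v' : Fin S.R → L := fun i => algebraMap E L (v i) with hv'
  set c : Fin S.R → L := Mb⁻¹.mulVec v' with hc
  have hcv : Mb.mulVec c = v' := by
    rw [hc, Matrix.mulVec_mulVec, Matrix.mul_nonsing_inv _ (Ne.isUnit hMbdet), Matrix.one_mulVec]
  have hch : IsChain cd.pm (fun i => ∑ j, c j • A j i) := isChain_sum c A hA1
  have hpm : cd.pm = fun i k => MvPolynomial.map (algebraMap E L) (τ.p i k) := by
    funext i k
    change MvPolynomial.map ι (MvPolynomial.map (algebraMap E (AA S)) (τ.p i k)) = _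
    rw [MvPolynomial.map_map]
    have h1 : ι.comp (algebraMap E (AA S)) = algebraMap E L := RingHom.ext fun c => (hEL c).symm
    rw [h1]
  rw [hpm] at hch
  refine desc τ.p τ.a v _ hch ?_
  have hav : (fun j => algebraMap E L (τ.a j)) = cd.av := by
    funext j
    exact hEL _
  rw [hav, ← hv', ← hcv]
  funext i
  rw [Matrix.sum_mulVec]
  simp only [Finset.sum_apply, Matrix.smul_mulVec, Pi.smul_apply, smul_eq_mul]
  simp only [Matrix.mulVec, dotProduct, hMb, Matrix.of_apply]
  exact Finset.sum_congr rfl fun j _ => mul_comm _ _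


theorem gmain (hS : S.Good) {m : ℕ} {τ : Typ E S.R m nP nG}
    (hd : ∀ F : MvPolynomial (Fin M ⊕ Fin N) E,
      (∀ z y, S.HasTyp τ z y → eval (pt z y) F = 0) → VanV S F) (v : Fin S.R → E) :
    ∃ A : Fin (m + 1) → Matrix (Fin S.R) (Fin S.R) E, IsChain τ.p A ∧
      (A 0).mulVec τ.a = v := by
  classical
  have : Infinite E := inferInstance
  obtain ⟨y0, hy0⟩ := hS.W_nonempty
  obtain ⟨J, hJ⟩ := exists_cols hS hy0
  have : S.IW.IsPrime := IW_prime hS
  have : IsDomain (RW S) := Ideal.Quotient.isDomain S.IW
  have : IsDomain (AA S) := inferInstance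
  have : CharZero (AA S) :=
    charZero_of_injective_algebraMap (algebraMap E (AA S)).injective
  have hinj : Function.Injective (algebraMap (AA S) (AlgebraicClosure (FractionRing (AA S)))) := by
    have h1 : algebraMap (AA S) (AlgebraicClosure (FractionRing (AA S))) = (algebraMap (FractionRing (AA S)) (AlgebraicClosure (FractionRing (AA S)))).comp
        (algebraMap (AA S) (FractionRing (AA S))) := IsScalarTower.algebraMap_eq _ _ _
    rw [h1]
    exact (algebraMap (FractionRing (AA S)) (AlgebraicClosure (FractionRing (AA S)))).injective.comp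
      (IsFractionRing.injective (AA S) (FractionRing (AA S)))
  have hEL : ∀ c : E, algebraMap E (AlgebraicClosure (FractionRing (AA S))) c = algebraMap (AA S) (AlgebraicClosure (FractionRing (AA S))) (algebraMap E (AA S) c) := by
    intro c
    rw [IsScalarTower.algebraMap_apply E (FractionRing (AA S)) (AlgebraicClosure (FractionRing (AA S))),
      IsScalarTower.algebraMap_apply (AA S) (FractionRing (AA S)) (AlgebraicClosure (FractionRing (AA S))),
      IsScalarTower.algebraMap_apply E (AA S) (FractionRing (AA S))]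
  have hJ' : ∃ y ∈ S.Wc, LinearIndependent E (fun j => S.col y (J j)) := ⟨y0, hy0, hJ.1⟩
  -- the solution over L
  obtain ⟨x, hx⟩ := gensys (E := E) (cdata S τ J)
    {ω | ∃ (y : Fin N → E) (hy : y ∈ S.Wc) (u : Fin S.R → E),
      S.HasTyp τ (comb (fun j => S.col y (J j)) u) y ∧ ω = evA S y hy u}
    (by
      intro g hg
      obtain ⟨y, hy, u, h1, h2⟩ := gsep hS J hJ' hd g hg
      exact ⟨_, ⟨y, hy, u, h1, rfl⟩, h2⟩)
    (by
      rintro _ ⟨y, hy, u, h1, rfl⟩
      exact gpt J hy u h1)
  have halg : Algebra.IsAlgebraic (AA S) (AlgebraicClosure (FractionRing (AA S))) :=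
    (IsFractionRing.comap_isAlgebraic_iff (A := AA S) (K := FractionRing (AA S))
      (C := AlgebraicClosure (FractionRing (AA S)))).2 inferInstance
  exact gmain_aux hS J hJ' (algebraMap (AA S) (AlgebraicClosure (FractionRing (AA S)))) hinj hEL x
    hx (fun j => der_ext (E := E) (A := AA S) (L := AlgebraicClosure (FractionRing (AA S))) hinj
      ((pderiv j : Derivation (RW S) (AA S) (AA S)).restrictScalars E)) v

end Pool.Agent.PBK
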