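import Pool.Agent.PBK.Ldefs

/-!
# PBK MONO: a homogeneous map with all the diagonal symmetries is a power map

Proof. For every `i` there is `B i` with `X i * ∂_i p k = ∑ l, B i k l * p l` (the hypothesis for
`A = diagonal (Pi.single i 1)`). Let `V` be the span of the `p k`, of dimension `≤ R`. It is stable under the
commuting operators `θ_i = X i * ∂_i`, which are diagonal in the basis of the monomials
(`θ_i X ^ α = α i * X ^ α`). For fixed `i` let `N_i = ∏_{k < q} (θ_i - k)`: it kills all the monomials
`X ^ α` of degree `q` except `X i ^ q`, which is multiplied by `q!`. So `N_i (p k) = q! * c_(k i) * X i ^ q`,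
`c_(k i)` the coefficient of `X i ^ q` in `p k`, and `N_i (p k) ∈ V`. Since `p (e_i) ≠ 0`
(`NoZero`), `c_(k i) ≠ 0` for some `k`, so `X i ^ q ∈ V` for all `i`. The `R` forms `X i ^ q` (`q ≥ 1`) are
linearly independent, so they are a basis of `V`, and `p k = ∑ i, T k i * X i ^ q`. The `p k` span `V` of
dimension `R`, so they are linearly independent and `T` is invertible (or: if `T v = 0` with `v ≠ 0`,
take `u` with `u i ^ q = v i`, `E` algebraically closed; `p u = 0`, a contradiction to `NoZero`).
-/

set_option autoImplicit false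

open MvPolynomial

namespace Pool.Agent.PBK

private theorem coeff_theta {E : Type*} [Field E] {R : ℕ} (i : Fin R)
    (f : MvPolynomial (Fin R) E) (α : Fin R →₀ ℕ) :
    coeff α (X i * pderiv i f) = (α i : E) * coeff α f := by
  classical
  induction f using MvPolynomial.induction_on' with
  | monomial u a =>
    rw [X_mul_pderiv_monomial, coeff_smul, coeff_monomial]
    by_cases h : u = α
    · rw [if_pos h, h, nsmul_eq_mul]
    · rw [if_neg h, mul_zero, smul_zero]
  | add p q hp hq => rw [map_add, mul_add, coeff_add, hp, hq, coeff_add, mul_add]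

private theorem sym_diag {E : Type*} [Field E] {R : ℕ} {p : Fin R → MvPolynomial (Fin R) E}
    {i : Fin R} {B : Matrix (Fin R) (Fin R) E}
    (h : IsSym p (Matrix.diagonal (Pi.single i 1)) B) (k : Fin R) :
    X i * pderiv i (p k) = ∑ l, C (B k l) * p l := by
  classical
  rw [← h k, Finset.sum_eq_single i]
  · rw [Finset.sum_eq_single i]
    · rw [Matrix.diagonal_apply_eq, Pi.single_eq_same, C_1, one_mul]
    · intro j _ hj
      rw [Matrix.diagonal_apply_ne _ hj.symm, C_0, zero_mul]
    · intro hh
      exact absurd (Finset.mem_univ _) hh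
  · intro l _ hl
    rw [Finset.sum_eq_zero, zero_mul]
    intro j _
    by_cases hj : l = j
    · rw [← hj, Matrix.diagonal_apply_eq, Pi.single_eq_of_ne hl, C_0, zero_mul]
    · rw [Matrix.diagonal_apply_ne _ hj, C_0, zero_mul]
  · intro hh
    exact absurd (Finset.mem_univ _) hh

private theorem theta_mem {E : Type*} [Field E] {R : ℕ} {p : Fin R → MvPolynomial (Fin R) E}
    {i : Fin R} {B : Matrix (Fin R) (Fin R) E}
    (h : IsSym p (Matrix.diagonal (Pi.single i 1)) B) {f : MvPolynomial (Fin R) E}
    (hf : f ∈ Submodule.span E (Set.range p)) :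
    X i * pderiv i f ∈ Submodule.span E (Set.range p) := by
  induction hf using Submodule.span_induction with
  | mem x hx =>
    obtain ⟨k, rfl⟩ := hx
    rw [sym_diag h k]
    refine Submodule.sum_mem _ fun l _ => ?_
    rw [← smul_eq_C_mul]
    exact Submodule.smul_mem _ _ (Submodule.subset_span ⟨l, rfl⟩)
  | zero => rw [map_zero, mul_zero]; exact Submodule.zero_mem _
  | add x y _ _ hx hy => rw [map_add, mul_add]; exact Submodule.add_mem _ hx hy
  | smul a x _ hx =>
    rw [Derivation.map_smul, mul_smul_comm]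
    exact Submodule.smul_mem _ _ hx

private theorem iter_mem {E : Type*} [Field E] {R : ℕ} {p : Fin R → MvPolynomial (Fin R) E}
    {i : Fin R} {B : Matrix (Fin R) (Fin R) E}
    (h : IsSym p (Matrix.diagonal (Pi.single i 1)) B) (k : Fin R) (n : ℕ) :
    ∃ g ∈ Submodule.span E (Set.range p), ∀ α,
      coeff α g = (∏ j ∈ Finset.range n, ((α i : E) - j)) * coeff α (p k) := by
  induction n with
  | zero =>
    refine ⟨p k, Submodule.subset_span ⟨k, rfl⟩, fun α => ?_⟩
    rw [Finset.prod_range_zero, one_mul]
  | succ n ih =>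
    obtain ⟨g, hg, hgc⟩ := ih
    refine ⟨X i * pderiv i g - (n : E) • g,
      Submodule.sub_mem _ (theta_mem h hg) (Submodule.smul_mem _ _ hg), fun α => ?_⟩
    rw [coeff_sub, coeff_theta, coeff_smul, hgc, Finset.prod_range_succ, smul_eq_mul]
    ring

private theorem eq_single {R q : ℕ} {α : Fin R →₀ ℕ} (hα : α.degree = q) {i : Fin R}
    (h : q ≤ α i) : α = Finsupp.single i q := by
  classical
  rw [Finsupp.degree_eq_sum] at hα
  have h1 : ∀ j, j ≠ i → α j = 0 := by
    intro j hj
    have h2 : α i + α j ≤ ∑ l, α l := by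
      rw [← Finset.sum_pair hj.symm]
      exact Finset.sum_le_sum_of_subset (Finset.subset_univ _)
    omega
  have h3 : α i ≤ ∑ l, α l := Finset.single_le_sum (f := fun l => α l)
    (fun l _ => Nat.zero_le _) (Finset.mem_univ i)
  ext j
  by_cases hj : j = i
  · rw [hj, Finsupp.single_eq_same]
    omega
  · rw [h1 j hj, Finsupp.single_eq_of_ne hj]

private theorem pow_mem {E : Type*} [Field E] [CharZero E] {R q : ℕ}
    {p : Fin R → MvPolynomial (Fin R) E} (hp : ∀ i, (p i).IsHomogeneous q) (h0 : NoZero p)
    {i : Fin R} {B : Matrix (Fin R) (Fin R) E}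
    (h : IsSym p (Matrix.diagonal (Pi.single i 1)) B) :
    (X i ^ q : MvPolynomial (Fin R) E) ∈ Submodule.span E (Set.range p) := by
  classical
  have hdeg : ∀ k α, coeff α (p k) ≠ 0 → α.degree = q := by
    intro k α hα
    have := hp k hα
    rwa [Finsupp.degree_eq_weight_one]
  obtain ⟨k, hk⟩ := h0 (Pi.single i 1) (by
    intro hh
    have := congrFun hh i
    simp at this)
  have hc : coeff (Finsupp.single i q) (p k) ≠ 0 := by
    intro hc
    apply hk
    rw [eval_eq]
    refine Finset.sum_eq_zero fun α hα => ?_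
    have h1 := mem_support_iff.1 hα
    have h2 : α ≠ Finsupp.single i q := by
      rintro rfl
      exact h1 hc
    have h3 : ∃ j ∈ α.support, j ≠ i := by
      by_contra hh
      push Not at hh
      apply h2
      apply eq_single (hdeg k α h1)
      have h4 := hdeg k α h1
      rw [Finsupp.degree_apply] at h4
      rw [← h4]
      have h5 : α.support ⊆ {i} := fun j hj => Finset.mem_singleton.2 (hh j hj)
      refine (Finset.sum_le_sum_of_subset h5).trans ?_
      rw [Finset.sum_singleton]
    obtain ⟨j, hj, hji⟩ := h3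
    rw [Finset.prod_eq_zero hj, mul_zero]
    rw [Pi.single_eq_of_ne hji, zero_pow (Finsupp.mem_support_iff.1 hj)]
  obtain ⟨g, hg, hgc⟩ := iter_mem h k q
  have h5 : g = ((q.factorial : E) * coeff (Finsupp.single i q) (p k)) • X i ^ q := by
    ext α
    rw [hgc, coeff_smul, coeff_X_pow]
    by_cases hα : Finsupp.single i q = α
    · rw [if_pos hα, ← hα, Finsupp.single_eq_same, smul_eq_mul, mul_one]
      congr 1
      rw [← Finset.prod_range_reflect, ← Finset.prod_range_add_one_eq_factorial, Nat.cast_prod]
      refine Finset.prod_congr rfl fun j hj => ?_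
      have := Finset.mem_range.1 hj
      rw [Nat.cast_sub (by omega), Nat.cast_sub (by omega)]
      push_cast
      ring
    · rw [if_neg hα, smul_zero]
      by_cases h6 : coeff α (p k) = 0
      · rw [h6, mul_zero]
      · have h7 : α i < q := by
          by_contra h8
          exact hα (eq_single (hdeg k α h6) (by omega)).symm
        rw [Finset.prod_eq_zero (Finset.mem_range.2 h7) (sub_self _), zero_mul]
  have h6 : ((q.factorial : E) * coeff (Finsupp.single i q) (p k)) ≠ 0 :=
    mul_ne_zero (Nat.cast_ne_zero.2 (Nat.factorial_ne_zero q)) hc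
  have h7 := Submodule.smul_mem _ ((q.factorial : E) * coeff (Finsupp.single i q) (p k))⁻¹ hg
  rw [h5, smul_smul, inv_mul_cancel₀ h6, one_smul] at h7
  exact h7

theorem mono {E : Type*} [Field E] [CharZero E] [IsAlgClosed E] {R q : ℕ} (hq : 1 ≤ q)
    (p : Fin R → MvPolynomial (Fin R) E) (hp : ∀ i, (p i).IsHomogeneous q) (h0 : NoZero p)
    (h : ∀ i, ∃ B : Matrix (Fin R) (Fin R) E,
      IsSym p (Matrix.diagonal (Pi.single i 1)) B) :
    ∃ T T' : Matrix (Fin R) (Fin R) E, T * T' = 1 ∧ T' * T = 1 ∧
      ∀ k, p k = ∑ i, C (T k i) * X i ^ q := by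
  classical
  have h1 : ∀ i : Fin R, ∃ u : Fin R → E, ∑ k, u k • p k = X i ^ q := by
    intro i
    obtain ⟨B, hB⟩ := h i
    exact (Submodule.mem_span_range_iff_exists_fun E).1 (pow_mem hp h0 hB)
  choose U hU using h1
  have hdet : Matrix.det (Matrix.of U) ≠ 0 := by
    intro hd
    obtain ⟨v, hv, hv0⟩ := Matrix.exists_vecMul_eq_zero_iff.2 hd
    apply hv
    have h2 : ∑ i, v i • (X i ^ q : MvPolynomial (Fin R) E) = 0 := by
      simp_rw [← hU, Finset.smul_sum, smul_smul]
      rw [Finset.sum_comm]
      refine Finset.sum_eq_zero fun k _ => ?_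
      rw [← Finset.sum_smul]
      have := congrFun hv0 k
      rw [Matrix.vecMul, dotProduct] at this
      simp only [Matrix.of_apply, Pi.zero_apply] at this
      rw [this, zero_smul]
    funext j
    have h3 := congrArg (coeff (Finsupp.single j q)) h2
    rw [coeff_sum, Finset.sum_eq_single j] at h3
    · rw [coeff_smul, coeff_X_pow, if_pos rfl, smul_eq_mul, mul_one, coeff_zero] at h3
      exact h3
    · intro l _ hl
      rw [coeff_smul, coeff_X_pow, if_neg, smul_zero]
      intro h4
      have := DFunLike.congr_fun h4 l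
      rw [Finsupp.single_eq_same, Finsupp.single_eq_of_ne hl] at this
      omega
    · intro hh
      exact absurd (Finset.mem_univ _) hh
  have hu : IsUnit (Matrix.det (Matrix.of U)) := isUnit_iff_ne_zero.2 hdet
  refine ⟨(Matrix.of U)⁻¹, Matrix.of U, Matrix.nonsing_inv_mul _ hu, Matrix.mul_nonsing_inv _ hu,
    fun k => ?_⟩
  have h4 : ∀ j, ∑ i, (Matrix.of U)⁻¹ k i * U i j = (1 : Matrix (Fin R) (Fin R) E) k j := by
    intro j
    rw [← Matrix.nonsing_inv_mul _ hu, Matrix.mul_apply]
    rfl
  have h5 : ∑ i, C ((Matrix.of U)⁻¹ k i) * X i ^ q =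
      ∑ j, (∑ i, (Matrix.of U)⁻¹ k i * U i j) • p j := by
    simp_rw [← hU, ← smul_eq_C_mul, Finset.smul_sum, smul_smul, Finset.sum_smul]
    rw [Finset.sum_comm]
  rw [h5, Finset.sum_eq_single k]
  · rw [h4, Matrix.one_apply_eq, one_smul]
  · intro j _ hj
    rw [h4, Matrix.one_apply_ne hj.symm, zero_smul]
  · intro hh
    exact absurd (Finset.mem_univ _) hh

end Pool.Agent.PBK
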