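import Pool.Agent.PBK.Semi
import Pool.Agent.PBK.Brk
import Pool.Agent.PBK.Comm
import Pool.Agent.PBK.Diag
import Pool.Agent.PBK.Mono

/-!
# PBK LIE: many symmetries force a power map

Proof. Let `H` be the set of the `A 0` for the chains `A` (`IsChain p A`): a subspace (`isSym_add`,
`isSym_smul`, `0`), closed under brackets (`chain_brk`), all elements are semisimple (`semi`). By
`comm_of_semi` it is commutative, by `diag` (with `a`) there are `Q`, `Q'` with
`Q * diagonal (Pi.single i 1) * Q' ∈ H`: so there are chains with `A 0` equal to it; with `A' = A 1`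
(`m ≥ 1`): `IsSym (p 0) (Q * diagonal (Pi.single i 1) * Q') A'`, and by `isSym_conj`
`IsSym p̃ (diagonal (Pi.single i 1)) A'` for `p̃ k = p 0 k (Q X)`. The `p̃ k` are forms of degree `q`
without common zero (`Q` invertible). By `mono` `p̃ k = ∑ i, T k i * X i ^ q`; evaluate at `u`.
-/

set_option autoImplicit false

open MvPolynomial

namespace Pool.Agent.PBK

/-- the space of the initial symmetries of chains -/
def lieH {E : Type*} [Field E] [CharZero E] {R q m : ℕ}
    (p : Fin m → Fin R → MvPolynomial (Fin R) E) (hp : ∀ i j, (p i j).IsHomogeneous q) :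
    Submodule E (Matrix (Fin R) (Fin R) E) where
  carrier := {M | ∃ A : Fin (m + 1) → Matrix (Fin R) (Fin R) E, IsChain p A ∧ A 0 = M}
  zero_mem' := by
    refine ⟨fun _ => 0, ?_, rfl⟩
    rw [isChain_iff]
    intro i
    have h := isSym_smul (0 : E) (isSym_one (p i) (hp i))
    rw [zero_smul, zero_smul] at h
    exact h
  add_mem' := by
    rintro M M' ⟨A, hA, rfl⟩ ⟨A', hA', rfl⟩
    refine ⟨fun i => A i + A' i, ?_, rfl⟩
    rw [isChain_iff] at hA hA' ⊢
    intro i
    exact isSym_add (hA i) (hA' i)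
  smul_mem' := by
    rintro c M ⟨A, hA, rfl⟩
    refine ⟨fun i => c • A i, ?_, rfl⟩
    rw [isChain_iff] at hA ⊢
    intro i
    exact isSym_smul c (hA i)

theorem lie_subst_hom {E : Type*} [Field E] {R q : ℕ} (Q : Matrix (Fin R) (Fin R) E)
    {F : MvPolynomial (Fin R) E} (hF : F.IsHomogeneous q) :
    (aeval (fun l => ∑ j, C (Q l j) * X j) F : MvPolynomial (Fin R) E).IsHomogeneous q := by
  have h := hF.aeval (fun l => ∑ j, C (Q l j) * X j : Fin R → MvPolynomial (Fin R) E) (n := 1)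
    (fun l => IsHomogeneous.sum _ _ _ fun j _ => by
      have h1 := (isHomogeneous_C (Fin R) (Q l j)).mul (isHomogeneous_X E j)
      rwa [zero_add] at h1)
  rwa [one_mul] at h

theorem lie_eval_subst {E : Type*} [Field E] {R : ℕ} (Q : Matrix (Fin R) (Fin R) E)
    (F : MvPolynomial (Fin R) E) (u : Fin R → E) :
    eval u (aeval (fun l => ∑ j, C (Q l j) * X j) F : MvPolynomial (Fin R) E) =
      eval (Q.mulVec u) F := by
  have h : (eval u).comp (aeval (fun l => ∑ j, C (Q l j) * X j :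
      Fin R → MvPolynomial (Fin R) E) : MvPolynomial (Fin R) E →ₐ[E] MvPolynomial (Fin R) E).toRingHom
      = eval (Q.mulVec u) := by
    apply MvPolynomial.ringHom_ext
    · intro r
      simp
    · intro i
      simp [Matrix.mulVec, dotProduct]
  exact RingHom.congr_fun h F

theorem lie {E : Type*} [Field E] [CharZero E] [IsAlgClosed E] {R q m : ℕ} (hq : 1 ≤ q)
    (hm : 0 < m) (p : Fin m → Fin R → MvPolynomial (Fin R) E)
    (hp : ∀ i j, (p i j).IsHomogeneous q) (h0 : ∀ i, NoZero (p i)) (hmR : R ≤ q ^ m)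
    (a : Fin R → E)
    (h : ∀ v : Fin R → E, ∃ A : Fin (m + 1) → Matrix (Fin R) (Fin R) E,
      IsChain p A ∧ (A 0).mulVec a = v) :
    ∃ Q Q' T T' : Matrix (Fin R) (Fin R) E, Q * Q' = 1 ∧ Q' * Q = 1 ∧ T * T' = 1 ∧
      T' * T = 1 ∧ ∀ (u : Fin R → E) (k : Fin R),
        eval (Q.mulVec u) (p ⟨0, hm⟩ k) = ∑ i, T k i * u i ^ q := by
  have hb : ∀ A ∈ lieH p hp, ∀ B ∈ lieH p hp, B * A - A * B ∈ lieH p hp := by
    rintro M ⟨A, hA, rfl⟩ M' ⟨B, hB, rfl⟩
    exact ⟨_, chain_brk hA hB, rfl⟩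
  have hs : ∀ A ∈ lieH p hp, SemiS A := by
    rintro M ⟨A, hA, rfl⟩
    exact semi p hp h0 hmR A hA
  have hc := comm_of_semi (lieH p hp) hb hs
  obtain ⟨Q, Q', hQ, hQ', hd⟩ := diag (lieH p hp) hc hs a (by
    intro v
    obtain ⟨A, hA, hv⟩ := h v
    exact ⟨A 0, ⟨A, hA, rfl⟩, hv⟩)
  obtain ⟨T, T', hT, hT', hmono⟩ := mono hq
    (fun k => aeval (fun l => ∑ j, C (Q l j) * X j) (p ⟨0, hm⟩ k) :
      Fin R → MvPolynomial (Fin R) E)
    (fun i => lie_subst_hom Q (hp _ i))
    (by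
      intro u hu
      have hne : Q.mulVec u ≠ 0 := by
        intro h0'
        apply hu
        have h1 : Q'.mulVec (Q.mulVec u) = u := by
          rw [Matrix.mulVec_mulVec, hQ', Matrix.one_mulVec]
        rw [← h1, h0', Matrix.mulVec_zero]
      obtain ⟨i, hi⟩ := h0 ⟨0, hm⟩ _ hne
      refine ⟨i, ?_⟩
      rw [lie_eval_subst]
      exact hi)
    (by
      intro i
      obtain ⟨A, hA, hA0⟩ := hd i
      rw [isChain_iff] at hA
      have h1 := hA ⟨0, hm⟩
      have h2 : (⟨0, hm⟩ : Fin m).castSucc = 0 := rfl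
      rw [h2, hA0] at h1
      exact ⟨_, isSym_conj hQ h1⟩)
  refine ⟨Q, Q', T, T', hQ, hQ', hT, hT', ?_⟩
  intro u k
  rw [← lie_eval_subst, hmono k, map_sum]
  refine Finset.sum_congr rfl fun i _ => ?_
  rw [map_mul, map_pow, eval_C, eval_X]

end Pool.Agent.PBK
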