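import Pool.Agent.PBK.Rat

/-!
# PBK POWER: a type whose first map is a power map

Proof. Let `Y`, `w` be as in `HasTyp τ z y`; `y = Y 0`, `k = τ.k 0`. For `u : Fin R → E`:
`S.Pv k (comb (w 0) u) y = comb (w 1) (τ.p 0 u)`, nonzero for `u ≠ 0` (`hadm.noz`, `comb_ne_zero`). `Y 1` is
in `S.Wc`, so it is not `0` (`W_ne0`), and `Y 1 = S.Gv (τ.t 0) y`, so `Y 1 = c • S.gv y` with `c ≠ 0` (`Gv_eq`)
and `w 1` is a basis of `S.fib (S.gv y)` (`isBas_smul`). Let `v i = comb (w 0) (column i of Q)`,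
`v' i = comb (w 1) (column i of T)`: bases of the same spaces (`Q`, `T` invertible), and
`comb v u = comb (w 0) (Q *ᵥ u)`, `comb v' b = comb (w 1) (T *ᵥ b)`. For `u ≠ 0`:
`S.Pv k (comb v u) y = comb (w 1) (τ.p 0 (Q *ᵥ u)) = comb (w 1) (T *ᵥ (u ^ q)) = comb v' (u ^ q)`, and it is a
nonzero multiple of `S.fv (comb v u) y` (`Pv_eq`).
-/

set_option autoImplicit false

open MvPolynomial

namespace Pool.Agent.PBK

variable {E : Type*} [Field E] {M N s nP nG : ℕ} {S : Sys E M N s nP nG}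

/-- A basis times an invertible matrix. -/
private theorem power_bas {y : Fin N → E} {w : Fin S.R → Fin M → E} (hw : S.IsBas y w)
    {Q Q' : Matrix (Fin S.R) (Fin S.R) E} (hQ : Q * Q' = 1) (hQ' : Q' * Q = 1) :
    S.IsBas y (fun i => comb w (fun j => Q j i)) ∧
      ∀ u, comb (fun i => comb w (fun j => Q j i)) u = comb w (Q.mulVec u) := by
  have hcomb : ∀ u, comb (fun i => comb w (fun j => Q j i)) u = comb w (Q.mulVec u) := by
    intro u
    funext l
    simp only [comb, Matrix.mulVec, dotProduct, Finset.mul_sum, Finset.sum_mul]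
    rw [Finset.sum_comm]
    exact Finset.sum_congr rfl fun i _ => Finset.sum_congr rfl fun j _ => by ring
  refine ⟨⟨?_, ?_⟩, hcomb⟩
  · rw [Fintype.linearIndependent_iff]
    intro g hg
    have h1 : comb (fun i => comb w (fun j => Q j i)) g = 0 := by
      rw [comb_eq_sum]
      exact hg
    rw [hcomb] at h1
    have h2 := comb_inj hw.1 (h1.trans (comb_zero w).symm)
    have h3 : Q'.mulVec (Q.mulVec g) = 0 := by rw [h2, Matrix.mulVec_zero]
    rw [Matrix.mulVec_mulVec, hQ', Matrix.one_mulVec] at h3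
    intro i
    exact congrFun h3 i
  · rw [← hw.2]
    apply le_antisymm
    · rw [Submodule.span_le]
      rintro _ ⟨i, rfl⟩
      exact comb_mem w _
    · rw [Submodule.span_le]
      rintro _ ⟨i, rfl⟩
      have h1 : w i = comb (fun i => comb w (fun j => Q j i)) (Q'.mulVec (Pi.single i 1)) := by
        rw [hcomb, Matrix.mulVec_mulVec, hQ, Matrix.one_mulVec]
        funext l
        simp [comb, Pi.single_apply]
      rw [SetLike.mem_coe, h1]
      exact comb_mem _ _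

theorem isPow_of_hasTyp (hS : S.Good) {m : ℕ} (hm : 0 < m) {τ : Typ E S.R m nP nG}
    (hadm : τ.Adm S.q) {Q Q' T T' : Matrix (Fin S.R) (Fin S.R) E} (hQ : Q * Q' = 1)
    (hQ' : Q' * Q = 1) (hT : T * T' = 1) (hT' : T' * T = 1)
    (h : ∀ (u : Fin S.R → E) (k : Fin S.R),
      eval (Q.mulVec u) (τ.p ⟨0, hm⟩ k) = ∑ i, T k i * u i ^ S.q)
    {z : Fin M → E} {y : Fin N → E} (hty : S.HasTyp τ z y) : S.IsPow y := by
  obtain ⟨Y, w, hY0, hYW, hYG, hwB, hP, -⟩ := hty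
  set i0 : Fin m := ⟨0, hm⟩ with hi0
  have hc0 : i0.castSucc = (0 : Fin (m + 1)) := by
    ext
    rfl
  have hB0 := hwB 0
  have hB1 := hwB i0.succ
  have hy : y ∈ S.Wc := by
    rw [← hY0]
    exact hYW 0
  have hP0 := hP i0
  have hG0 := hYG i0
  rw [hc0, hY0] at hP0
  rw [hc0, hY0] at hG0
  rw [hY0] at hB0
  have hGne : S.Gv (τ.t i0) y ≠ 0 := by
    rw [← hG0]
    exact hS.W_ne0 _ (hYW _)
  obtain ⟨c, hc, hGc⟩ := Gv_eq hS hy hGne
  rw [hG0, hGc, isBas_smul hS hc] at hB1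
  obtain ⟨hv, hvc⟩ := power_bas hB0 hQ hQ'
  obtain ⟨hv', hvc'⟩ := power_bas hB1 hT hT'
  refine ⟨_, _, hv, hv', fun u hu => ?_⟩
  have hQu : Q.mulVec u ≠ 0 := by
    intro h0
    apply hu
    have : Q'.mulVec (Q.mulVec u) = 0 := by rw [h0, Matrix.mulVec_zero]
    rwa [Matrix.mulVec_mulVec, hQ', Matrix.one_mulVec] at this
  have h1 : S.Pv (τ.k i0) (comb (w 0) (Q.mulVec u)) y =
      comb (w i0.succ) (fun j => eval (Q.mulVec u) (τ.p i0 j)) := hP0 (Q.mulVec u)
  have h2 : (fun j => eval (Q.mulVec u) (τ.p i0 j)) = T.mulVec (fun i => u i ^ S.q) := by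
    funext j
    exact h u j
  have hne : S.Pv (τ.k i0) (comb (w 0) (Q.mulVec u)) y ≠ 0 := by
    rw [h1]
    obtain ⟨i, hi⟩ := hadm.noz i0 _ hQu
    exact comb_ne_zero hB1.1 (fun h0 => hi (congrFun h0 i))
  obtain ⟨c', hc', hPc⟩ := Pv_eq hS hy (IsBas.comb_mem hB0 _) (comb_ne_zero hB0.1 hQu) hne
  refine ⟨c'⁻¹, inv_ne_zero hc', ?_⟩
  rw [hvc, hvc', ← h2, ← h1, hPc, smul_smul, inv_mul_cancel₀ hc', one_smul]

end Pool.Agent.PBK
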