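import Pool.Agent.PBK.Types
import Pool.Agent.PBK.Vprime
import Pool.Agent.PBK.Gmain
import Pool.Agent.PBK.Lie
import Pool.Agent.PBK.Power
import Pool.Agent.PBK.Analy

/-!
# PBK: the main theorem for the data `Sys` (assembly)
-/

set_option autoImplicit false

open MvPolynomial Filter Topology

namespace Pool.Agent.PBK

open Pool.Agent.Helper63.WH

variable {E : Type*} [Field E] [CharZero E] {M N s nP nG : ℕ}

/-- Everything is defined over a number field. -/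
theorem exists_K [Algebra.IsAlgebraic ℚ E] (S : Sys E M N s nP nG) (y : Fin N → E)
    (z : Fin M → E) :
    ∃ K : IntermediateField ℚ E, FiniteDimensional ℚ K ∧ S.OverK K ∧ (∀ i, y i ∈ K) ∧
      ∀ i, z i ∈ K := by
  classical
  obtain ⟨K, hK, hs⟩ := aapi_field
    (((⋃ j, ⋃ i, (S.B j i).coeff '' ((S.B j i).support : Set _)) ∪
      (⋃ k, ⋃ i, (S.P k i).coeff '' ((S.P k i).support : Set _)) ∪
      (⋃ l, ⋃ i, (S.G l i).coeff '' ((S.G l i).support : Set _))) ∪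
      (Set.range y ∪ Set.range z) : Set E) (by
        refine Set.Finite.union (Set.Finite.union (Set.Finite.union ?_ ?_) ?_)
          ((Set.finite_range y).union (Set.finite_range z)) <;>
        exact Set.finite_iUnion fun a => Set.finite_iUnion fun b =>
          (Finset.finite_toSet _).image _)
  refine ⟨K, hK, ⟨fun j i d => ?_, fun k i d => ?_, fun l i d => ?_⟩, fun i => ?_, fun i => ?_⟩
  · by_cases h : (S.B j i).coeff d = 0
    · rw [h]; exact K.zero_mem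
    · exact hs (Or.inl (Or.inl (Or.inl (Set.mem_iUnion.2 ⟨j, Set.mem_iUnion.2 ⟨i, d,
        mem_support_iff.2 h, rfl⟩⟩))))
  · by_cases h : (S.P k i).coeff d = 0
    · rw [h]; exact K.zero_mem
    · exact hs (Or.inl (Or.inl (Or.inr (Set.mem_iUnion.2 ⟨k, Set.mem_iUnion.2 ⟨i, d,
        mem_support_iff.2 h, rfl⟩⟩))))
  · by_cases h : (S.G l i).coeff d = 0
    · rw [h]; exact K.zero_mem
    · exact hs (Or.inl (Or.inr (Set.mem_iUnion.2 ⟨l, Set.mem_iUnion.2 ⟨i, d,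
        mem_support_iff.2 h, rfl⟩⟩)))
  · exact hs (Or.inr (Or.inl ⟨i, rfl⟩))
  · exact hs (Or.inr (Or.inr ⟨i, rfl⟩))

theorem isBihom_rename_inr {F : MvPolynomial (Fin N) E} {k : ℕ} (hF : F.IsHomogeneous k) :
    IsBihom (rename (Sum.inr : Fin N → Fin M ⊕ Fin N) F) 0 k := by
  classical
  intro d hd
  have h1 : d ∈ (rename (Sum.inr : Fin N → Fin M ⊕ Fin N) F).support := mem_support_iff.2 hd
  rw [support_rename_of_injective Sum.inr_injective] at h1
  obtain ⟨x, hx, rfl⟩ := Finset.mem_image.1 h1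
  have h2 := hF (mem_support_iff.1 hx)
  rw [Finsupp.weight_apply, Finsupp.sum_mapDomain_index (by simp) (by simp [add_smul])]
  rw [Finsupp.weight_apply] at h2
  simp only [bw, Sum.elim_inr]
  rw [Finsupp.sum] at h2 ⊢
  simp only [Pi.one_apply, smul_eq_mul, mul_one] at h2
  ext
  · simp [Prod.fst_sum]
  · simp [Prod.snd_sum, h2]

variable {S : Sys E M N s nP nG} [Algebra.IsAlgebraic ℚ E] [IsAlgClosed E]

/-- The canonical height is positive. -/
theorem main_pos (hS : S.Good) {y : Fin N → E} (hy : y ∈ S.Wc) (hg : S.Growth y)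
    {z : Fin M → E} (hz : z ∈ S.fib y) (hz0 : z ≠ 0)
    (hd : ∀ (F : MvPolynomial (Fin M ⊕ Fin N) E) (a b : ℕ), IsBihom F a b →
      (∀ n, eval (pt (S.zo z y n) (S.gv^[n] y)) F = 0) → VanV S F)
    (hp : ∃ (F : MvPolynomial (Fin N) E) (k : ℕ), F.IsHomogeneous k ∧
      (∃ x ∈ S.Wc, eval x F ≠ 0) ∧ ∀ x ∈ S.Wc, S.IsPow x → eval x F = 0) :
    ∃ L : ℝ, 0 < L ∧
      Tendsto (fun k : ℕ => absHeight (S.zo z y k) / (S.q : ℝ) ^ k) atTop (𝓝 L) := by
  obtain ⟨C, hC, hb⟩ := bseq hS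
  obtain ⟨-, -, L, hL0, hL, hL'⟩ := hb y hy hg z hz hz0
  rcases hL0.lt_or_eq with h | h
  · exact ⟨L, h, hL⟩
  exfalso
  have h0 := hL' h.symm
  obtain ⟨K, hfd, hK, hyK, hzK⟩ := exists_K S y z
  have hR := hS.hR
  have hq := hS.hq
  have hmR : S.R ≤ S.q ^ S.R := (Nat.lt_pow_self (by omega)).le
  have hm : 0 < S.R := by omega
  obtain ⟨T, hT, hTa, hTn⟩ := types hS K hK S.R hy hyK hg hz hz0 hzK h0
  obtain ⟨τ, hτ, hτd⟩ := pick hS hT (fun n => S.zo z y n) (fun n => S.gv^[n] y) hd hTn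
  have hadm := hTa τ hτ
  have hd' := dens hS (τ := τ) (fun n => S.zo z y n) (fun n => S.gv^[n] y) hτd
  obtain ⟨Q, Q', T1, T1', hQ, hQ', hT1, hT1', hpow⟩ := lie (by omega : 1 ≤ S.q) hm τ.p hadm.hom
    hadm.noz hmR τ.a (fun v => gmain hS hd' v)
  obtain ⟨F, k, hF, ⟨x, hx, hxF⟩, hFp⟩ := hp
  have hvan : VanV S (rename Sum.inr F) := by
    refine hτd _ 0 k (isBihom_rename_inr hF) ?_
    rintro n ⟨c, hc, hn⟩
    have := hFp _ (gv_iter_mem hS hy n) (isPow_of_hasTyp hS hm hadm hQ hQ' hT1 hT1' hpow hn)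
    rw [eval_rename]
    exact this
  have := hvan x hx 0 (Submodule.zero_mem _)
  rw [eval_rename] at this
  exact hxF this

theorem main_sys (hS : S.Good) {y : Fin N → E} (hy : y ∈ S.Wc)
    {z : Fin M → E} (hz : z ∈ S.fib y) (hz0 : z ≠ 0)
    (hd : ∀ (F : MvPolynomial (Fin M ⊕ Fin N) E) (a b : ℕ), IsBihom F a b →
      (∀ n, eval (pt (S.zo z y n) (S.gv^[n] y)) F = 0) → VanV S F)
    {β : ℝ} (hp : β < S.q → ∃ (F : MvPolynomial (Fin N) E) (k : ℕ), F.IsHomogeneous k ∧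
      (∃ x ∈ S.Wc, eval x F ≠ 0) ∧ ∀ x ∈ S.Wc, S.IsPow x → eval x F = 0)
    (hβ : Tendsto (fun n : ℕ => (max (absHeight (S.gv^[n] y)) 1) ^ ((1 : ℝ) / n)) atTop
      (𝓝 β)) :
    Tendsto (fun n : ℕ => (max (absHeight (S.zo z y n) + absHeight (S.gv^[n] y)) 1) ^
      ((1 : ℝ) / n)) atTop (𝓝 (max (S.q : ℝ) β)) := by
  have hq : (2 : ℝ) ≤ S.q := by exact_mod_cast hS.hq
  rcases lt_or_ge β S.q with h | h
  · rw [max_eq_left h.le]
    obtain ⟨D, ρ, hD, hρ, hρq, hb⟩ := an1 hq h (fun n => absHeight_nonneg (S.gv^[n] y)) hβ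
    obtain ⟨L, hL, hlim⟩ := main_pos hS hy ⟨D, ρ, hD, hρ, hρq, hb⟩ hz hz0 hd (hp h)
    exact an2 hq hL hρ hρq hlim (fun n => absHeight_nonneg _) hb
  · rw [max_eq_right h]
    obtain ⟨C, hC, h1, h2⟩ := star hS
    refine an3 hq h hC (a := fun n => absHeight (S.zo z y n)) (l := fun n => S.lam (S.gv^[n] y))
      (fun n => absHeight_nonneg _) (fun n => absHeight_nonneg _) (fun n => ?_)
      (fun n => h2 _ (gv_iter_mem hS hy n)) hβ
    have := zo_mem_ne hS hy hz hz0 n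
    exact h1 _ (gv_iter_mem hS hy n) _ this.1 this.2

end Pool.Agent.PBK
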