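import Pool.Agent.PBK.Csys
import Pool.Agent.PBK.Dyl
import Pool.Agent.PBK.Dyu
import Pool.Agent.PBK.Dya
import Pool.Agent.PBK.Dyc

/-!
# PBK: the first dynamical degree of the map of the bundle (assembly)
-/

set_option autoImplicit false

open MvPolynomial Filter Topology
open scoped LinearAlgebra.Projectivization

namespace Pool.Agent.PBK

theorem final_dyn {E : Type*} [Field E] [CharZero E] [IsAlgClosed E]
    {M N s R q : ℕ} (W : Set (Pr E N)) (hW : PClosed W) (hWi : PIrred W)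
    (B : Fin s → Fin (M + 1) → MvPolynomial (Fin (N + 1)) E) (hB : IsBundle W B R) (hR : 2 ≤ R)
    (g : Pr E N → Pr E N) (hg : IsMap W g) (f : Pr E M × Pr E N → Pr E M × Pr E N) (hq : 2 ≤ q)
    (hf : IsBundleMap W B g f q) (δ : ℝ) (hδ : DynDeg1 W g δ) :
    DynDeg2 (bundle W B) f (max q δ) := by
  obtain ⟨⟨c, hBc⟩, hBR⟩ := hB
  obtain ⟨hgW, e, nG, G, hG, hGg, hG0⟩ := hg
  obtain ⟨hfW, m, nP, P, hP, hPf, hP0⟩ := hf
  set S := csys W B R q c m e P G g f with hSdef
  have hS : S.Good := csys_good hW hWi hBc hBR hR hq hgW hG hGg hG0 hfW hP hPf hP0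
  haveI : Infinite E := IsAlgClosed.instInfinite
  have h1 : ∀ n, {d | Rep1 W g^[n] d} = {d | RepG S n d} := fun n => by
    ext d
    exact csys_rep1 n d
  have h2 : ∀ n, {d | Rep2 (bundle W B) f^[n] d} = {d | RepF S n d} := fun n => by
    ext d
    exact csys_rep2 hS hgW hfW n d
  unfold DynDeg1 at hδ
  unfold DynDeg2
  simp only [h1] at hδ
  simp only [h2]
  exact dya (q := q) (m := m) (c := c) hq (dG S) (dF S) hδ
    (fun n => (dyl hS (repF_upper hS n)).1) (fun n => (dyl hS (repF_upper hS n)).2)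
    (fun n => Nat.sInf_le (repF_upper hS n))

end Pool.Agent.PBK
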