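import Mathlib

/-!
# PBK GEN: a system which is solvable at many points is solvable generically

Proof. Let `Q = FractionRing A`, `I` the ideal of `MvPolynomial ν Q` generated by the images of the
`f i`.
(1) `I ≠ ⊤`: otherwise `1 = ∑ c k * f (i k)`, a finite sum with `c k ∈ MvPolynomial ν Q`; multiplying with a
common denominator `g ∈ A`, `g ≠ 0` of all the coefficients: `C g = ∑ c' k * f (i k)` in
`MvPolynomial ν A` (`MvPolynomial ν A → MvPolynomial ν Q` is injective). Choose `ω ∈ Ω` with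
`ω g ≠ 0` and a solution `x` for `ω`; apply `eval₂Hom ω x`: `ω g = 0`, a contradiction.
(2) Let `𝔪 ⊇ I` be a maximal ideal, `L = MvPolynomial ν Q ⧸ 𝔪`, a field and a finitely generated
`Q`-algebra, so it is finite, hence algebraic, over `Q` (Zariski's lemma:
`finite_of_finite_type_of_isJacobsonRing`). So there is a `Q`-embedding of `L` in
`AlgebraicClosure Q` (`IsAlgClosed.lift`); take for `x` the images of the variables.
`aeval` is over `A`, via `A → Q → AlgebraicClosure Q` (`IsScalarTower`).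
-/

set_option autoImplicit false

open MvPolynomial

namespace Pool.Agent.PBK

/-- clearing denominators in a polynomial -/
private theorem gen_denom {A : Type*} [CommRing A] [IsDomain A] {ν : Type*}
    (p : MvPolynomial ν (FractionRing A)) :
    ∃ g : A, g ≠ 0 ∧ ∃ q : MvPolynomial ν A,
      MvPolynomial.map (algebraMap A (FractionRing A)) q =
        C (algebraMap A (FractionRing A) g) * p := by
  induction p using MvPolynomial.induction_on with
  | C a =>
    obtain ⟨⟨x, y⟩, h⟩ := IsLocalization.surj (nonZeroDivisors A) a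
    refine ⟨y, nonZeroDivisors.ne_zero y.2, C x, ?_⟩
    rw [map_C, ← C_mul, mul_comm]
    exact congrArg C h.symm
  | add p q hp hq =>
    obtain ⟨g, hg, p', hp'⟩ := hp
    obtain ⟨h, hh, q', hq'⟩ := hq
    refine ⟨g * h, mul_ne_zero hg hh, C h * p' + C g * q', ?_⟩
    rw [map_add, map_mul, map_mul, hp', hq', map_C, map_C, map_mul, C_mul]
    ring
  | mul_X p i hp =>
    obtain ⟨g, hg, p', hp'⟩ := hp
    refine ⟨g, hg, p' * X i, ?_⟩
    rw [map_mul, hp', map_X]
    ring

theorem gen {A E : Type*} [CommRing A] [IsDomain A] [Field E] {ν : Type*} [Finite ν]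
    {ι : Type*} (f : ι → MvPolynomial ν A) (Ω : Set (A →+* E))
    (hΩ : ∀ g : A, g ≠ 0 → ∃ ω ∈ Ω, ω g ≠ 0)
    (h : ∀ ω ∈ Ω, ∃ x : ν → E, ∀ i, eval₂ ω x (f i) = 0) :
    ∃ x : ν → AlgebraicClosure (FractionRing A), ∀ i,
      eval₂ (algebraMap A (AlgebraicClosure (FractionRing A))) x (f i) = 0 := by
  classical
  let Q := FractionRing A
  let φ : MvPolynomial ν A →+* MvPolynomial ν Q := MvPolynomial.map (algebraMap A Q)
  have hφ : Function.Injective φ := MvPolynomial.map_injective _ (IsFractionRing.injective A Q)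
  let I : Ideal (MvPolynomial ν Q) := Ideal.span (Set.range fun i => φ (f i))
  -- every element of `I` is, after multiplication by a nonzero constant, in the ideal of the `f i`
  have hI : ∀ p ∈ I, ∃ g : A, g ≠ 0 ∧ ∃ q ∈ Ideal.span (Set.range f), φ q = C (algebraMap A Q g) * p := by
    intro p hp
    refine Submodule.span_induction (p := fun p _ => ∃ g : A, g ≠ 0 ∧ ∃ q ∈ Ideal.span (Set.range f),
      φ q = C (algebraMap A Q g) * p) ?_ ?_ ?_ ?_ hp
    · rintro _ ⟨i, rfl⟩
      exact ⟨1, one_ne_zero, f i, Ideal.subset_span ⟨i, rfl⟩, by simp⟩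
    · exact ⟨1, one_ne_zero, 0, Ideal.zero_mem _, by simp⟩
    · rintro p q _ _ ⟨g, hg, p', hp1, hp2⟩ ⟨h, hh, q', hq1, hq2⟩
      refine ⟨g * h, mul_ne_zero hg hh, C h * p' + C g * q',
        Ideal.add_mem _ (Ideal.mul_mem_left _ _ hp1) (Ideal.mul_mem_left _ _ hq1), ?_⟩
      rw [map_add, map_mul, map_mul, hp2, hq2]
      simp only [φ, map_C, map_mul]
      ring
    · rintro a p _ ⟨g, hg, p', hp1, hp2⟩
      obtain ⟨h, hh, a', ha'⟩ := gen_denom a
      refine ⟨h * g, mul_ne_zero hh hg, a' * p', Ideal.mul_mem_left _ _ hp1, ?_⟩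
      rw [map_mul, hp2]
      change MvPolynomial.map (algebraMap A (FractionRing A)) a' * _ = _
      rw [ha', smul_eq_mul, map_mul, C_mul]
      ring
  have hItop : I ≠ ⊤ := by
    intro htop
    obtain ⟨g, hg, q, hq, hq2⟩ := hI 1 (htop ▸ Submodule.mem_top)
    have hq3 : q = C g := by
      apply hφ
      rw [hq2, mul_one]
      simp [φ]
    obtain ⟨ω, hω, hωg⟩ := hΩ g hg
    obtain ⟨x, hx⟩ := h ω hω
    have h0 : ∀ q ∈ Ideal.span (Set.range f), eval₂ ω x q = 0 := by
      intro q hq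
      have hle : Ideal.span (Set.range f) ≤ RingHom.ker (eval₂Hom ω x) := by
        rw [Ideal.span_le]
        rintro _ ⟨i, rfl⟩
        exact hx i
      exact hle hq
    apply hωg
    have := h0 q hq
    rwa [hq3, eval₂_C] at this
  obtain ⟨𝔪, hm, hIm⟩ := Ideal.exists_le_maximal I hItop
  letI : Field (MvPolynomial ν Q ⧸ 𝔪) := Ideal.Quotient.field 𝔪
  haveI : Algebra.FiniteType Q (MvPolynomial ν Q ⧸ 𝔪) :=
    Algebra.FiniteType.of_surjective (Ideal.Quotient.mkₐ Q 𝔪) Ideal.Quotient.mk_surjective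
  haveI : Module.Finite Q (MvPolynomial ν Q ⧸ 𝔪) := finite_of_finite_type_of_isJacobsonRing _ _
  haveI : Algebra.IsAlgebraic Q (MvPolynomial ν Q ⧸ 𝔪) := Algebra.IsAlgebraic.of_finite _ _
  let ψ : (MvPolynomial ν Q ⧸ 𝔪) →ₐ[Q] AlgebraicClosure Q := IsAlgClosed.lift
  refine ⟨fun v => ψ (Ideal.Quotient.mk 𝔪 (X v)), fun i => ?_⟩
  have h1 : ∀ p : MvPolynomial ν A, eval₂ (algebraMap A (AlgebraicClosure (FractionRing A)))
      (fun v => ψ (Ideal.Quotient.mk 𝔪 (X v))) p = ψ (Ideal.Quotient.mk 𝔪 (φ p)) := by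
    intro p
    induction p using MvPolynomial.induction_on with
    | C a =>
      rw [eval₂_C]
      have e1 : φ (C a) = algebraMap Q (MvPolynomial ν Q) (algebraMap A Q a) := by
        simp [φ, MvPolynomial.algebraMap_eq]
      rw [e1]
      have e2 : ψ (Ideal.Quotient.mk 𝔪 (algebraMap Q (MvPolynomial ν Q) (algebraMap A Q a))) =
          algebraMap Q (AlgebraicClosure Q) (algebraMap A Q a) := ψ.commutes _
      rw [e2]
      exact IsScalarTower.algebraMap_apply A Q (AlgebraicClosure Q) a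
    | add p q hp hq => rw [eval₂_add, hp, hq, map_add, map_add, map_add]
    | mul_X p i hp =>
      rw [eval₂_mul, hp, eval₂_X, map_mul, map_mul, map_mul]
      simp [φ]
  rw [h1]
  have h2 : Ideal.Quotient.mk 𝔪 (φ (f i)) = 0 :=
    Ideal.Quotient.eq_zero_iff_mem.2 (hIm (Ideal.subset_span ⟨i, rfl⟩))
  rw [h2, map_zero]

end Pool.Agent.PBK
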