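import Pool.Agent.PBK.Gen
import Pool.Agent.PBK.Gdefs

/-!
# PBK GENSYS: the system of the chain is solvable generically

Proof. Let `ν = Fin (m + 1) × (Fin s × Fin R ⊕ Fin R × Fin s ⊕ Fin R × Fin M)` be the index set of the
unknowns, `U = MvPolynomial ν A`, and let `x0 : Unk U M s R m` be the tuple of the variables. Over `U` consider
the data `cd.map C` (`C : A → U`) and the elements: the entries of `γ i * (Bm i * κ i) - 1`, of
`(Bm i * κ i) * η i - Bm i`, the coefficients (for all exponents `d : Fin R →₀ ℕ`) of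
`lsub (Bm i.castSucc * κ i.castSucc) (Pm i j) - ∑ k, C ((Bm i.succ * κ i.succ) j k) * pm i k`, and the entries of
`(Bm 0 * κ 0).mulVec av - zv`, all with `x0`; let `f` be the family of all of them (index set a sum of
types, or `f : ι → U` with `ι = {F : U // F is one of them}`).
For a ring homomorphism `φ : A → F` and values `x : ν → F` let `Φ = eval₂Hom φ x : U → F`. Then
`Φ` maps `cd.map C` to `cd.map φ` and `x0` to the tuple `Unk` of the values; all the constructions
commute with `Φ` (`Matrix.map_mul`, `lsub` commutes with `MvPolynomial.map Φ`: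
`MvPolynomial.map Φ (lsub W F) = lsub (W.map Φ) (MvPolynomial.map Φ F)`, by `map_aeval`/`induction_on`;
`coeff_map`), so all `f i` are mapped to `0` if and only if `IsSol (cd.map φ)` holds for the tuple.
Apply `gen`.
-/

set_option autoImplicit false

open MvPolynomial

namespace Pool.Agent.PBK

theorem map_lsub {U U' : Type*} [CommRing U] [CommRing U'] (φ : U →+* U') {M R : ℕ}
    (W : Matrix (Fin M) (Fin R) U) (F : MvPolynomial (Fin M) U) :
    MvPolynomial.map φ (lsub W F) = lsub (W.map φ) (MvPolynomial.map φ F) := by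
  unfold lsub
  induction F using MvPolynomial.induction_on with
  | C a => rw [algHom_C, map_C, algHom_C, MvPolynomial.algebraMap_eq, MvPolynomial.algebraMap_eq,
      map_C]
  | add p q hp hq => rw [map_add, map_add, map_add, hp, hq, map_add]
  | mul_X p l hp =>
    rw [map_mul, map_mul, map_mul, hp, map_mul, map_X, aeval_X, aeval_X, map_sum]
    congr 1
    apply Finset.sum_congr rfl
    intro k _
    rw [map_mul, map_C, map_X]
    rfl

section

variable {U F : Type*} [CommRing U] [CommRing F] {M s R m : ℕ}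

/-- The image of the unknowns. -/
def Unk.map (φ : U → F) (x : Unk U M s R m) : Unk F M s R m where
  κ i := (x.κ i).map φ
  η i := (x.η i).map φ
  γ i := (x.γ i).map φ

/-- The index set of the equations. -/
abbrev EqI (M s R m : ℕ) : Type :=
  (Fin (m + 1) × Fin R × Fin R) ⊕ (Fin (m + 1) × Fin M × Fin s) ⊕
    (Fin m × Fin M × (Fin R →₀ ℕ)) ⊕ Fin M

/-- The equations. -/
noncomputable def eqs (cd : CD U M s R m) (x : Unk U M s R m) : EqI M s R m → U
  | .inl (i, a, b) => (x.γ i * (cd.Bm i * x.κ i) - 1 : Matrix (Fin R) (Fin R) U) a b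
  | .inr (.inl (i, a, b)) => ((cd.Bm i * x.κ i) * x.η i - cd.Bm i) a b
  | .inr (.inr (.inl (i, j, d))) =>
      coeff d (lsub (cd.Bm i.castSucc * x.κ i.castSucc) (cd.Pm i j) -
        ∑ k, C ((cd.Bm i.succ * x.κ i.succ) j k) * cd.pm i k)
  | .inr (.inr (.inr a)) => ((cd.Bm 0 * x.κ 0).mulVec cd.av - cd.zv) a

theorem eqs_map (Φ : U →+* F) (cd : CD U M s R m) (x : Unk U M s R m) (i : EqI M s R m) :
    Φ (eqs cd x i) = eqs (cd.map Φ) (x.map Φ) i := by
  rcases i with ⟨i, a, b⟩ | ⟨i, a, b⟩ | ⟨i, j, d⟩ | a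
  · show Φ ((x.γ i * (cd.Bm i * x.κ i) - 1 : Matrix (Fin R) (Fin R) U) a b) =
      ((x.γ i).map Φ * ((cd.Bm i).map Φ * (x.κ i).map Φ) - 1 : Matrix (Fin R) (Fin R) F) a b
    rw [← Matrix.map_mul, ← Matrix.map_mul, Matrix.sub_apply, Matrix.sub_apply, map_sub,
      Matrix.map_apply]
    congr 1
    rw [Matrix.one_apply, Matrix.one_apply]
    split_ifs
    · exact map_one Φ
    · exact map_zero Φ
  · show Φ (((cd.Bm i * x.κ i) * x.η i - cd.Bm i) a b) =
      (((cd.Bm i).map Φ * (x.κ i).map Φ) * (x.η i).map Φ - (cd.Bm i).map Φ) a b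
    rw [← Matrix.map_mul, ← Matrix.map_mul, Matrix.sub_apply, Matrix.sub_apply, map_sub,
      Matrix.map_apply, Matrix.map_apply]
  · show Φ (coeff d (lsub (cd.Bm i.castSucc * x.κ i.castSucc) (cd.Pm i j) -
        ∑ k, C ((cd.Bm i.succ * x.κ i.succ) j k) * cd.pm i k)) =
      coeff d (lsub ((cd.Bm i.castSucc).map Φ * (x.κ i.castSucc).map Φ)
        (MvPolynomial.map Φ (cd.Pm i j)) -
        ∑ k, C (((cd.Bm i.succ).map Φ * (x.κ i.succ).map Φ) j k) *
          MvPolynomial.map Φ (cd.pm i k))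
    rw [← Matrix.map_mul, ← Matrix.map_mul, ← map_lsub, ← coeff_map, map_sub, map_sum]
    congr 2
    apply Finset.sum_congr rfl
    intro k _
    rw [map_mul, map_C, Matrix.map_apply]
  · show Φ (((cd.Bm 0 * x.κ 0).mulVec cd.av - cd.zv) a) =
      (((cd.Bm 0).map Φ * (x.κ 0).map Φ).mulVec (fun i => Φ (cd.av i)) -
        fun i => Φ (cd.zv i)) a
    rw [← Matrix.map_mul, Pi.sub_apply, Pi.sub_apply, map_sub]
    congr 1
    exact RingHom.map_mulVec Φ _ _ _

theorem isSol_iff (cd : CD U M s R m) (x : Unk U M s R m) :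
    IsSol cd x ↔ ∀ i, eqs cd x i = 0 := by
  constructor
  · intro h i
    rcases i with ⟨i, a, b⟩ | ⟨i, a, b⟩ | ⟨i, j, d⟩ | a
    · show (x.γ i * (cd.Bm i * x.κ i) - 1 : Matrix (Fin R) (Fin R) U) a b = 0
      rw [h.inj, sub_self]
      rfl
    · show ((cd.Bm i * x.κ i) * x.η i - cd.Bm i) a b = 0
      rw [h.gen, sub_self]
      rfl
    · show coeff d (lsub (cd.Bm i.castSucc * x.κ i.castSucc) (cd.Pm i j) -
        ∑ k, C ((cd.Bm i.succ * x.κ i.succ) j k) * cd.pm i k) = 0
      rw [h.map, sub_self, coeff_zero]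
    · show ((cd.Bm 0 * x.κ 0).mulVec cd.av - cd.zv) a = 0
      rw [h.pnt, sub_self]
      rfl
  · intro h
    refine ⟨?_, ?_, ?_, ?_⟩
    · intro i
      ext a b
      have h1 : (x.γ i * (cd.Bm i * x.κ i) - 1 : Matrix (Fin R) (Fin R) U) a b = 0 := h (.inl (i, a, b))
      rwa [Matrix.sub_apply, sub_eq_zero] at h1
    · intro i
      ext a b
      have h1 : ((cd.Bm i * x.κ i) * x.η i - cd.Bm i) a b = 0 := h (.inr (.inl (i, a, b)))
      rwa [Matrix.sub_apply, sub_eq_zero] at h1
    · intro i j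
      ext d
      have h1 : coeff d (lsub (cd.Bm i.castSucc * x.κ i.castSucc) (cd.Pm i j) -
        ∑ k, C ((cd.Bm i.succ * x.κ i.succ) j k) * cd.pm i k) = 0 :=
        h (.inr (.inr (.inl (i, j, d))))
      rwa [coeff_sub, sub_eq_zero] at h1
    · funext a
      have h1 : ((cd.Bm 0 * x.κ 0).mulVec cd.av - cd.zv) a = 0 := h (.inr (.inr (.inr a)))
      rwa [Pi.sub_apply, sub_eq_zero] at h1

theorem CD.map_comp {V : Type*} [CommRing V] (φ : U →+* F) (ψ : F →+* V) (cd : CD U M s R m) :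
    (cd.map φ).map ψ = cd.map (ψ.comp φ) := by
  unfold CD.map
  simp only [Matrix.map_map, MvPolynomial.map_map, RingHom.comp_apply]
  rfl

/-- The index set of the unknowns. -/
abbrev UnI (M s R m : ℕ) : Type :=
  Fin (m + 1) × ((Fin s × Fin R) ⊕ (Fin R × Fin s) ⊕ (Fin R × Fin M))

/-- The tuple of unknowns with given values. -/
def Unk.of (y : UnI M s R m → U) : Unk U M s R m where
  κ i := Matrix.of fun a b => y (i, .inl (a, b))
  η i := Matrix.of fun a b => y (i, .inr (.inl (a, b)))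
  γ i := Matrix.of fun a b => y (i, .inr (.inr (a, b)))

theorem Unk.of_map (φ : U → F) (y : UnI M s R m → U) :
    (Unk.of y).map φ = Unk.of (fun i => φ (y i)) := rfl

/-- The values of a tuple of unknowns. -/
def Unk.val (x : Unk U M s R m) : UnI M s R m → U
  | (i, .inl (a, b)) => x.κ i a b
  | (i, .inr (.inl (a, b))) => x.η i a b
  | (i, .inr (.inr (a, b))) => x.γ i a b

theorem Unk.of_val (x : Unk U M s R m) : Unk.of x.val = x := rfl

theorem eval₂_eqs (cd : CD U M s R m) (φ : U →+* F) (y : UnI M s R m → F)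
    (i : EqI M s R m) :
    eval₂ φ y (eqs (cd.map (C : U →+* MvPolynomial (UnI M s R m) U)) (Unk.of X) i) =
      eqs (cd.map φ) (Unk.of y) i := by
  have h1 := eqs_map (eval₂Hom φ y) (cd.map (C : U →+* MvPolynomial (UnI M s R m) U))
    (Unk.of X) i
  rw [CD.map_comp, eval₂Hom_comp_C, Unk.of_map] at h1
  simp only [coe_eval₂Hom, eval₂_X] at h1
  exact h1

end

theorem gensys {A E : Type*} [CommRing A] [IsDomain A] [Field E] {M s R m : ℕ}
    (cd : CD A M s R m) (Ω : Set (A →+* E)) (hΩ : ∀ g : A, g ≠ 0 → ∃ ω ∈ Ω, ω g ≠ 0)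
    (h : ∀ ω ∈ Ω, ∃ x : Unk E M s R m, IsSol (cd.map ω) x) :
    ∃ x : Unk (AlgebraicClosure (FractionRing A)) M s R m,
      IsSol (cd.map (algebraMap A (AlgebraicClosure (FractionRing A)))) x := by
  set f : EqI M s R m → MvPolynomial (UnI M s R m) A :=
    eqs (cd.map (C : A →+* MvPolynomial (UnI M s R m) A)) (Unk.of X) with hf
  obtain ⟨y, hy⟩ := gen f Ω hΩ (by
    intro ω hω
    obtain ⟨x, hx⟩ := h ω hω
    refine ⟨x.val, fun i => ?_⟩
    rw [hf, eval₂_eqs, Unk.of_val]
    exact (isSol_iff _ _).1 hx i)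
  refine ⟨Unk.of y, (isSol_iff _ _).2 fun i => ?_⟩
  rw [← eval₂_eqs]
  exact hy i

end Pool.Agent.PBK
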