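import Pool.Agent.PBK.Defs

/-!
# PBK RELG: a polynomial of small degree vanishing on the image of a hyperplane

Proof. Let `D = (2 * R * Q) ^ (R - 1)`, let `V` be the space of the polynomials in `R` variables with all
`degreeOf i ≤ D` (dimension `(D + 1) ^ R`: basis the monomials with exponents in `Fin R → Fin (D + 1)`).
Let `i0` be an index with `ℓ i0 ≠ 0`. The hyperplane `H : ∑ ℓ i * u i = 0` is the image of the linear map
`x ↦ u`, `x : Fin (R - 1) → E`, `u i = x (...)` for `i ≠ i0` and
`u i0 = - (1 / ℓ i0) * ∑_{i ≠ i0} ℓ i * u i`.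
For `G ∈ V` the composition `x ↦ G (p (u x))` is a polynomial in the `R - 1` variables `x` of total degree
at most `R * D * Q` (`G` has total degree at most `R * D`), hence in the space `V'` of the polynomials in
`R - 1` variables with all `degreeOf ≤ R * D * Q`, of dimension `(R * D * Q + 1) ^ (R - 1)`. The map
`V → V'` is linear, and
`(R * D * Q + 1) ^ (R - 1) ≤ (2 * R * Q * D) ^ (R - 1) = D * D ^ (R - 1) = D ^ R < (D + 1) ^ R`,
so it has a nonzero kernel element `G` (`LinearMap.exists_ne_zero_of_finrank_lt` or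
`Matrix.exists_mulVec_eq_zero_iff`-type results; one can also work with coefficient vectors:
unknown `Fin R → Fin (D + 1) → E`, equations indexed by `Fin (R - 1) → Fin (R * D * Q + 1)`).
-/

set_option autoImplicit false

open MvPolynomial

namespace Pool.Agent.PBK

variable {E : Type*} [Field E]

/-- a monomial given by its bounded exponents -/
private noncomputable def mono {R D : ℕ} (e : Fin R → Fin (D + 1)) : Fin R →₀ ℕ :=
  Finsupp.equivFunOnFinite.symm fun i => (e i : ℕ)

private theorem mono_apply {R D : ℕ} (e : Fin R → Fin (D + 1)) (i : Fin R) :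
    mono e i = (e i : ℕ) := rfl

private theorem mono_inj {R D : ℕ} {e e' : Fin R → Fin (D + 1)} (h : mono e = mono e') : e = e' := by
  funext i
  exact Fin.ext (congrArg (fun f : Fin R →₀ ℕ => f i) h)

/-- the polynomial with the given coefficients -/
private noncomputable def poly (E : Type*) [Field E] (R D : ℕ) :
    ((Fin R → Fin (D + 1)) → E) →ₗ[E] MvPolynomial (Fin R) E where
  toFun c := ∑ e, monomial (mono e) (c e)
  map_add' c c' := by
    rw [← Finset.sum_add_distrib]
    exact Finset.sum_congr rfl fun e _ => map_add _ _ _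
  map_smul' a c := by
    rw [RingHom.id_apply, Finset.smul_sum]
    exact Finset.sum_congr rfl fun e _ => (monomial (mono e)).map_smul a (c e)

private theorem poly_apply {R D : ℕ} (c : (Fin R → Fin (D + 1)) → E) :
    poly E R D c = ∑ e, monomial (mono e) (c e) := rfl

private theorem coeff_poly {R D : ℕ} (c : (Fin R → Fin (D + 1)) → E) (e : Fin R → Fin (D + 1)) :
    coeff (mono e) (poly E R D c) = c e := by
  classical
  rw [poly_apply, coeff_sum, Finset.sum_eq_single e]
  · rw [coeff_monomial, if_pos rfl]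
  · intro e' _ he'
    rw [coeff_monomial, if_neg fun h => he' (mono_inj h)]
  · intro h
    exact absurd (Finset.mem_univ e) h

private theorem degreeOf_poly {R D : ℕ} (c : (Fin R → Fin (D + 1)) → E) (i : Fin R) :
    (poly E R D c).degreeOf i ≤ D := by
  classical
  rw [poly_apply]
  refine (degreeOf_sum_le i _ _).trans (Finset.sup_le fun e _ => ?_)
  by_cases hc : c e = 0
  · rw [hc, map_zero, degreeOf_zero]
    exact Nat.zero_le _
  · rw [degreeOf_monomial_eq _ _ hc, mono_apply]
    exact Nat.le_of_lt_succ (e i).2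

private theorem relg_eval {σ τ : Type*} (x : τ → E) (w : σ → MvPolynomial τ E)
    (q : MvPolynomial σ E) : eval x (aeval w q) = eval (fun i => eval x (w i)) q := by
  induction q using MvPolynomial.induction_on with
  | C a => rw [aeval_C, algebraMap_eq, eval_C, eval_C]
  | add p q hp hq => rw [map_add, map_add, map_add, hp, hq]
  | mul_X p i hp => rw [map_mul, map_mul, map_mul, hp, aeval_X, eval_X]

theorem relg {R Q : ℕ} (hR : 2 ≤ R) (hQ : 1 ≤ Q) (p : Fin R → MvPolynomial (Fin R) E)
    (hp : ∀ i, (p i).IsHomogeneous Q) (ℓ : Fin R → E) (hℓ : ℓ ≠ 0) :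
    ∃ G : MvPolynomial (Fin R) E, G ≠ 0 ∧ (∀ i, G.degreeOf i ≤ (2 * R * Q) ^ (R - 1)) ∧
      ∀ u : Fin R → E, ∑ i, ℓ i * u i = 0 → eval (fun i => eval u (p i)) G = 0 := by
  classical
  obtain ⟨n, rfl⟩ : ∃ n, R = n + 1 := ⟨R - 1, by omega⟩
  obtain ⟨i0, hi0⟩ : ∃ i0, ℓ i0 ≠ 0 := by
    by_contra h
    push Not at h
    exact hℓ (funext h)
  set D : ℕ := (2 * (n + 1) * Q) ^ (n + 1 - 1) with hD
  have hD1 : 1 ≤ D := Nat.one_le_pow _ _ (by positivity)
  -- the parametrisation of the hyperplane
  let w : Fin (n + 1) → MvPolynomial (Fin n) E :=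
    i0.insertNth (α := fun _ => MvPolynomial (Fin n) E)
      (-(C (ℓ i0)⁻¹ * ∑ j, C (ℓ (i0.succAbove j)) * X j)) (fun j => X j)
  have hw0 : w i0 = -(C (ℓ i0)⁻¹ * ∑ j, C (ℓ (i0.succAbove j)) * X j) :=
    Fin.insertNth_apply_same _ _ _
  have hw1 : ∀ j, w (i0.succAbove j) = X j := fun j => Fin.insertNth_apply_succAbove _ _ _ _
  have hw : ∀ i, (w i).IsHomogeneous 1 := by
    intro i
    rcases Fin.eq_self_or_eq_succAbove i0 i with h | ⟨j, h⟩
    · rw [h, hw0]
      refine IsHomogeneous.neg ?_
      have h1 : (∑ j, C (ℓ (i0.succAbove j)) * X j : MvPolynomial (Fin n) E).IsHomogeneous 1 := by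
        refine IsHomogeneous.sum _ _ _ fun j _ => ?_
        have := (isHomogeneous_C (Fin n) (ℓ (i0.succAbove j))).mul (isHomogeneous_X E j)
        rwa [zero_add] at this
      have := (isHomogeneous_C (Fin n) (ℓ i0)⁻¹).mul h1
      rwa [zero_add] at this
    · rw [h, hw1]
      exact isHomogeneous_X _ _
  let r : Fin (n + 1) → MvPolynomial (Fin n) E := fun i => aeval w (p i)
  have hr : ∀ i, (r i).totalDegree ≤ Q := by
    intro i
    have := ((hp i).aeval w hw).totalDegree_le
    rwa [one_mul] at this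
  -- the composition
  let B : ℕ := (n + 1) * D * Q
  let Φ : ((Fin (n + 1) → Fin (D + 1)) → E) →ₗ[E] ((Fin n → Fin (B + 1)) → E) :=
    LinearMap.pi fun e => (lcoeff E (mono e)) ∘ₗ (aeval r).toLinearMap ∘ₗ (poly E (n + 1) D)
  have hfin : Module.finrank E ((Fin n → Fin (B + 1)) → E) <
      Module.finrank E ((Fin (n + 1) → Fin (D + 1)) → E) := by
    rw [Module.finrank_fintype_fun_eq_card, Module.finrank_fintype_fun_eq_card]
    rw [Fintype.card_fun, Fintype.card_fun, Fintype.card_fin, Fintype.card_fin, Fintype.card_fin,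
      Fintype.card_fin]
    have hB1 : 1 ≤ B := Nat.mul_pos (Nat.mul_pos (Nat.succ_pos n) hD1) hQ
    have h1 : B + 1 ≤ (2 * (n + 1) * Q) * D := by
      have : (2 * (n + 1) * Q) * D = B + B := by
        change _ = (n + 1) * D * Q + (n + 1) * D * Q
        ring
      rw [this]
      omega
    calc (B + 1) ^ n ≤ ((2 * (n + 1) * Q) * D) ^ n := Nat.pow_le_pow_left h1 n
      _ = D * D ^ n := by
        rw [mul_pow, hD]
        rfl
      _ = D ^ (n + 1) := (pow_succ' D n).symm
      _ < (D + 1) ^ (n + 1) := Nat.pow_lt_pow_left (Nat.lt_succ_self D) (Nat.succ_ne_zero n)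
  obtain ⟨c, hc, hc0⟩ := Submodule.exists_mem_ne_zero_of_ne_bot
    (LinearMap.ker_ne_bot_of_finrank_lt (f := Φ) hfin)
  have hG : aeval r (poly E (n + 1) D c) = 0 := by
    have htd : (aeval r (poly E (n + 1) D c)).totalDegree ≤ B := by
      rw [poly_apply, map_sum]
      refine totalDegree_finsetSum_le fun e _ => ?_
      rw [aeval_monomial]
      refine (totalDegree_mul _ _).trans ?_
      rw [algebraMap_eq, totalDegree_C, zero_add, Finsupp.prod_fintype _ _ (fun i => pow_zero _)]
      refine (totalDegree_finsetProd _ _).trans ?_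
      calc ∑ i, (r i ^ mono e i).totalDegree ≤ ∑ _i : Fin (n + 1), D * Q := by
            refine Finset.sum_le_sum fun i _ => (totalDegree_pow _ _).trans ?_
            exact Nat.mul_le_mul (Nat.le_of_lt_succ (e i).2) (hr i)
        _ = B := by
            rw [Finset.sum_const, Finset.card_univ, Fintype.card_fin, smul_eq_mul]
            change (n + 1) * (D * Q) = (n + 1) * D * Q
            ring
    refine MvPolynomial.ext _ _ fun m => ?_
    rw [coeff_zero]
    by_cases hm : ∀ i, m i ≤ B
    · have h1 := congrFun (LinearMap.mem_ker.1 hc) fun i => ⟨m i, Nat.lt_succ_of_le (hm i)⟩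
      have h2 : mono (fun i => (⟨m i, Nat.lt_succ_of_le (hm i)⟩ : Fin (B + 1))) = m := by
        ext i
        rfl
      change coeff (mono (fun i => (⟨m i, Nat.lt_succ_of_le (hm i)⟩ : Fin (B + 1))))
        (aeval r (poly E (n + 1) D c)) = 0 at h1
      rwa [h2] at h1
    · push Not at hm
      obtain ⟨i, hi⟩ := hm
      refine coeff_eq_zero_of_totalDegree_lt (lt_of_le_of_lt htd (lt_of_lt_of_le hi ?_))
      by_cases hmi : i ∈ m.support
      · exact Finset.single_le_sum (f := fun i => m i) (fun _ _ => Nat.zero_le _) hmi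
      · rw [Finsupp.notMem_support_iff.1 hmi]
        exact Nat.zero_le _
  refine ⟨poly E (n + 1) D c, ?_, fun i => degreeOf_poly c i, ?_⟩
  · intro h0
    apply hc0
    funext e
    rw [← coeff_poly c e, h0, coeff_zero]
    rfl
  · intro u hu
    -- the coordinates of `u`
    have hu2 : u i0 = -((ℓ i0)⁻¹ * ∑ j, ℓ (i0.succAbove j) * u (i0.succAbove j)) := by
      rw [Fin.sum_univ_succAbove _ i0] at hu
      rw [← neg_eq_of_add_eq_zero_right hu, mul_neg, neg_neg, ← mul_assoc, inv_mul_cancel₀ hi0,
        one_mul]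
    have h1 : ∀ i, eval (fun j => u (i0.succAbove j)) (w i) = u i := by
      intro i
      rcases Fin.eq_self_or_eq_succAbove i0 i with h | ⟨j, h⟩
      · rw [h, hw0, hu2]
        simp
      · rw [h, hw1, eval_X]
    have h2 : ∀ i, eval (fun j => u (i0.succAbove j)) (r i) = eval u (p i) := by
      intro i
      change eval (fun j => u (i0.succAbove j)) (aeval w (p i)) = _
      rw [relg_eval, funext h1]
    have h3 := congrArg (eval (fun j => u (i0.succAbove j))) hG
    rw [relg_eval, funext h2, map_zero] at h3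
    exact h3

end Pool.Agent.PBK
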