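import Pool.Agent.PBK.Surj
import Pool.Agent.PBK.Relg

/-!
# PBK GRID: preimages of small integral vectors span

Proof. Let `T = (2 * R * Q) ^ (R - 1)` and let `U` be the set of all `u` with `p u = a` for some integral
vector `a ≠ 0` with entries in `{0, ..., T}`. If `U` spans `E ^ R`, choose a basis from `U`
(`exists_linearIndependent`, reindex by `Fin R`). Otherwise `U` is contained in a hyperplane
`∑ ℓ i * u i = 0`, `ℓ ≠ 0` (a proper subspace is in the kernel of a nonzero linear form:
`Submodule.exists_le_ker_of_lt_top`). Let `G` be as in `relg`. Every integral vector `a` with entries in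
`{0, ..., T}` is `p u` for some `u` (`surj`), with `u ∈ U` if `a ≠ 0`, and `u = 0` if `a = 0`
(`p 0 = 0`, `Q ≥ 1`); in both cases `∑ ℓ i * u i = 0`, so `eval a G = 0`. So `G` vanishes on the grid
`{0, ..., T} ^ R` and has all `degreeOf ≤ T`, hence `G = 0`
(`MvPolynomial.eq_zero_of_eval_zero_at_prod_finset` or the Combinatorial Nullstellensatz /
`MvPolynomial.schwartz_zippel`-like lemma in Mathlib; the `T + 1` integers are distinct in `E` as
`CharZero E`). Contradiction.
-/

set_option autoImplicit false

open MvPolynomial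

namespace Pool.Agent.PBK

variable {E : Type*} [Field E] [CharZero E] [IsAlgClosed E]

theorem grid {R Q : ℕ} (hR : 2 ≤ R) (hQ : 1 ≤ Q) (p : Fin R → MvPolynomial (Fin R) E)
    (hp : ∀ i, (p i).IsHomogeneous Q) (h0 : NoZero p) :
    ∃ u : Fin R → Fin R → E, LinearIndependent E u ∧
      ∀ i, ∃ a : Fin R → ℕ, a ≠ 0 ∧ (∀ j, a j ≤ (2 * R * Q) ^ (R - 1)) ∧
        ∀ j, eval (u i) (p j) = ((a j : ℕ) : E) := by
  classical
  set T := (2 * R * Q) ^ (R - 1) with hT
  set U : Set (Fin R → E) := {u | ∃ a : Fin R → ℕ, a ≠ 0 ∧ (∀ j, a j ≤ T) ∧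
    ∀ j, eval u (p j) = ((a j : ℕ) : E)} with hU
  by_cases hsp : Submodule.span E U = ⊤
  · obtain ⟨b, hbU, hb, hli⟩ := exists_linearIndependent E U
    have hfin : Finite b := hli.finite
    have hbt : ⊤ ≤ Submodule.span E (Set.range ((↑) : b → (Fin R → E))) := by
      rw [Subtype.range_coe, hb, hsp]
    have hcard : Nat.card b = R := by
      have h1 := Module.finrank_eq_nat_card_basis (Module.Basis.mk hli hbt)
      rw [← h1, Module.finrank_fin_fun]
    let e : Fin R ≃ b := (Finite.equivFinOfCardEq hcard).symm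
    refine ⟨fun i => (e i : Fin R → E), hli.comp e e.injective, fun i => ?_⟩
    exact hbU (e i).2
  · exfalso
    obtain ⟨φ, hφ, hle⟩ := Submodule.exists_le_ker_of_lt_top _ (lt_top_iff_ne_top.2 hsp)
    set ℓ : Fin R → E := fun i => φ (fun j => if i = j then 1 else 0) with hℓ
    have hφu : ∀ u, φ u = ∑ i, ℓ i * u i := by
      intro u
      rw [LinearMap.pi_apply_eq_sum_univ φ u]
      exact Finset.sum_congr rfl fun i _ => by rw [smul_eq_mul, mul_comm]
    have hℓ0 : ℓ ≠ 0 := by
      intro h
      apply hφ
      ext u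
      simp [hφu, h]
    obtain ⟨G, hG0, hGd, hG⟩ := relg hR hQ p hp ℓ hℓ0
    apply hG0
    have hinj : Function.Injective (fun n : ℕ => (n : E)) := Nat.cast_injective
    refine eq_zero_of_eval_zero_at_prod_finset G
      (fun _ => (Finset.range (T + 1)).image (fun n : ℕ => (n : E))) (fun i => ?_) (fun x hx => ?_)
    · rw [Finset.card_image_of_injective _ hinj, Finset.card_range]
      exact Nat.lt_succ_of_le (hGd i)
    · have hx' : ∀ i, ∃ n : ℕ, n ≤ T ∧ (n : E) = x i := by
        intro i
        obtain ⟨n, hn, hn'⟩ := Finset.mem_image.1 (hx i)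
        exact ⟨n, Nat.lt_succ_iff.1 (Finset.mem_range.1 hn), hn'⟩
      choose a ha hax using hx'
      obtain ⟨u, hu⟩ := surj hQ p hp h0 x
      have hu0 : ∑ i, ℓ i * u i = 0 := by
        by_cases ha0 : a = 0
        · have hx0 : x = 0 := by
            funext i
            rw [← hax, ha0]
            simp
          have : u = 0 := by
            by_contra hne
            obtain ⟨i, hi⟩ := h0 u hne
            exact hi (by rw [hu i, hx0]; rfl)
          rw [this]
          simp
        · rw [← hφu]
          exact hle (Submodule.subset_span ⟨a, ha0, ha, fun j => by rw [hu j, hax]⟩)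
      have := hG u hu0
      have hxe : (fun i => eval u (p i)) = x := funext hu
      rwa [hxe] at this

end Pool.Agent.PBK
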