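import Pool.Agent.PBK.Nullb
import Pool.Agent.PBK.Multi
import Pool.Agent.PBK.Upb

/-!
# PBK HLOW: lower bound for the heights of the values of the forms `P`

Let `L`, `g` be as in `nullb`. For `y ∈ S.Wc`, `z ∈ S.fib y`, `z ≠ 0` let `v = (S.Pv k z y j)_(k, j)` and
let `u` be the vector `((z i * y l) ^ L)_(i, l)`. Then
`L * (absHeight z + absHeight y) ≤ absHeight u` (at every place the supremum of the vector of all the
products of `L` coordinates of `z` and `L` coordinates of `y`, of height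
`L * absHeight z + L * absHeight y` by `absHeight_prod`/`absHeight_mul`, is the supremum of `u`: use
`abs_htq` with the one factor `u` and `c = 1`; see the proof of `absHeight_low` in
`Pool/Agent/KSF/Hgt.lean`). And `u (i, l) = ∑ k j, g i l k j (z, y) * v (k, j)`, so, with `abs_htq`
or `absHeight_lin`-type arguments: `absHeight u ≤ absHeight G + absHeight v + C`, where
`G = (g i l k j (z, y))_(i, l, k, j)` (nonzero since `u ≠ 0`: `z ≠ 0`, `y ≠ 0`), e.g. by `multi` with
`J = Bool` applied to the bilinear expression `∑ G (i, l, k, j) * v (k, j)`; and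
`absHeight G ≤ (L - q) * absHeight z + (L - m) * absHeight y + C` by `upb`. Subtract.
-/

set_option autoImplicit false

open MvPolynomial

namespace Pool.Agent.PBK

open Pool.Agent.Helper63.WH

section Tools

variable {E : Type*} [Field E]

/-- The absolute value given by a complex embedding. -/
private noncomputable def hlwC (s : E →+* ℂ) : AbsoluteValue E ℝ where
  toFun z := ‖s z‖
  map_mul' a b := by rw [map_mul, norm_mul]
  nonneg' a := norm_nonneg _
  eq_zero' a := by rw [norm_eq_zero, map_eq_zero]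
  add_le' a b := by
    rw [map_add]
    exact norm_add_le _ _

private theorem hlw_sum_arch (v : AbsoluteValue E ℝ) {τ : Type*} [Fintype τ]
    (f : τ → E) (B : ℝ) (h : ∀ q, v (f q) ≤ B) : v (∑ q, f q) ≤ Fintype.card τ * B := by
  calc v (∑ q, f q) ≤ ∑ q, v (f q) := v.sum_le _ _
    _ ≤ ∑ _q : τ, B := Finset.sum_le_sum fun q _ => h q
    _ = Fintype.card τ * B := by rw [Finset.sum_const, Finset.card_univ, nsmul_eq_mul]

private theorem hlw_sum_non (v : AbsoluteValue E ℝ) (hv : IsNonarchimedean v)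
    {τ : Type*} [Fintype τ] (f : τ → E) (B : ℝ) (hB : 0 ≤ B) (h : ∀ q, v (f q) ≤ B) :
    v (∑ q, f q) ≤ B := by
  classical
  rcases (Finset.univ : Finset τ).eq_empty_or_nonempty with h0 | h0
  · rw [h0, Finset.sum_empty, map_zero]
    exact hB
  · obtain ⟨i, -, hi⟩ := hv.finset_image_add_of_nonempty f h0
    exact hi.trans (h i)

/-- The value of a product of coordinates. -/
private theorem hlw_prod (v : AbsoluteValue E ℝ) {W : Type*} (x : W → E) (w₀ : W)
    (hmax : ∀ w, v (x w) ≤ v (x w₀)) {n : ℕ} (I : Fin n → W) :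
    v (∏ t, x (I t)) ≤ v (x w₀) ^ n := by
  rw [map_prod]
  calc ∏ t, v (x (I t)) ≤ ∏ _t : Fin n, v (x w₀) :=
        Finset.prod_le_prod (fun _ _ => v.nonneg _) fun t _ => hmax _
    _ = v (x w₀) ^ n := by rw [Finset.prod_const, Finset.card_univ, Fintype.card_fin]

private theorem hlw_ne {W : Type*} (x : W → E) (hx : x ≠ 0) (m : ℕ) :
    (fun I : Fin m → W => ∏ i, x (I i)) ≠ 0 := by
  obtain ⟨w, hw⟩ := Function.ne_iff.1 hx
  exact Function.ne_iff.2 ⟨fun _ => w, Finset.prod_ne_zero_iff.2 fun _ _ => hw⟩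

end Tools

variable {E : Type*} [Field E] [CharZero E] [Algebra.IsAlgebraic ℚ E]

/-- One factor. -/
private theorem hlw_one {κ κ' : Type} [Finite κ] [Finite κ'] (z : κ → E) (hz : z ≠ 0)
    (y : κ' → E) (hy : y ≠ 0) (c : ℝ) (hc : 1 ≤ c)
    (harch : ∀ s : E →+* ℂ, ∀ k, ∃ i, hlwC s (z k) ≤ c * hlwC s (y i))
    (hnon : ∀ (p : Nat.Primes) (τ : E →+* PadicAlgCl p), ∀ k, ∃ i,
      pAbs p τ (z k) ≤ pAbs p τ (y i)) :
    absHeight z ≤ Real.log c + absHeight y := by
  have hc0 : (0 : ℝ) ≤ c := zero_le_one.trans hc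
  have h := abs_htq (E := E) (κ := κ) (J := Unit) (σ := fun _ => κ') z hz
    (fun _ => y) (fun _ => hy) c hc
    (fun s => by
      simp only [Finset.univ_unique, Finset.prod_const, Finset.card_singleton, pow_one]
      refine Real.iSup_le (fun k => ?_) (mul_nonneg hc0 (Real.iSup_nonneg fun i => norm_nonneg _))
      obtain ⟨i, hi⟩ := harch s k
      exact hi.trans (mul_le_mul_of_nonneg_left
        (Finite.le_ciSup_of_le (f := fun i => ‖s (y i)‖) i le_rfl) hc0))
    (fun p τ => by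
      simp only [Finset.univ_unique, Finset.prod_const, Finset.card_singleton, pow_one]
      refine Real.iSup_le (fun k => ?_) (Real.iSup_nonneg fun i => (pAbs p τ).nonneg _)
      obtain ⟨i, hi⟩ := hnon p τ k
      exact hi.trans (Finite.le_ciSup_of_le (f := fun i => pAbs p τ (y i)) i le_rfl))
    ∅ (fun _ => 1) (by simp) (by simp)
  simpa using h

/-- The vector of all products of `m` coordinates. -/
private theorem hlw_pow {W : Type} [Finite W] (x : W → E) (hx : x ≠ 0) (m : ℕ) :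
    absHeight (fun I : Fin m → W => ∏ i, x (I i)) = m * absHeight x := by
  have h := absHeight_prod (E := E) (α := Fin m) (σ := fun _ => W) (fun _ => x) (fun _ => hx)
  rw [h, Finset.sum_const, Finset.card_univ, Fintype.card_fin, nsmul_eq_mul]

/-- The inequality for the products, from a representation of the powers. -/
private theorem hlw_main {M N K : ℕ} {σ : Type} [Fintype σ] (z : Fin M → E) (y : Fin N → E)
    (hz : z ≠ 0) (hy : y ≠ 0)
    (G : Fin M × Fin N × σ → E) (u : σ → E)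
    (h : ∀ i l, (z i * y l) ^ K = ∑ q : σ, G (i, l, q) * u q) :
    K * absHeight z + K * absHeight y ≤
      Real.log (max 1 (Fintype.card σ)) + (absHeight G + absHeight u) := by
  obtain ⟨i₀, hi₀⟩ := Function.ne_iff.1 hz
  obtain ⟨l₀, hl₀⟩ := Function.ne_iff.1 hy
  have hi₀' : z i₀ ≠ 0 := hi₀
  have hl₀' : y l₀ ≠ 0 := hl₀
  have hne : (∑ q : σ, G (i₀, l₀, q) * u q) ≠ 0 := by
    rw [← h i₀ l₀]
    exact pow_ne_zero _ (mul_ne_zero hi₀' hl₀')
  obtain ⟨q₁, -, hq₁⟩ := Finset.exists_ne_zero_of_sum_ne_zero hne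
  have hσ : Nonempty σ := ⟨q₁⟩
  have hG : G ≠ 0 := fun h0 => by
    rw [h0] at hq₁
    simp at hq₁
  have hu : u ≠ 0 := fun h0 => by
    rw [h0] at hq₁
    simp at hq₁
  have hM : Nonempty (Fin M) := ⟨i₀⟩
  have hN : Nonempty (Fin N) := ⟨l₀⟩
  have hplace : ∀ (v : AbsoluteValue E ℝ) (c : ℝ), 0 ≤ c →
      (∀ (f : σ → E) (B : ℝ), 0 ≤ B → (∀ q, v (f q) ≤ B) → v (∑ q, f q) ≤ c * B) →
      ∀ p : (Fin K → Fin M) × (Fin K → Fin N),
        ∃ i : (Fin M × Fin N × σ) × σ,
        v ((∏ t, z (p.1 t)) * ∏ t, y (p.2 t)) ≤ c * v (G i.1 * u i.2) := by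
    intro v c hc0 hc p
    obtain ⟨a, ha⟩ := Finite.exists_max (fun i => v (z i))
    obtain ⟨b, hb⟩ := Finite.exists_max (fun i => v (y i))
    obtain ⟨q₀, hq₀⟩ := Finite.exists_max (fun q : σ => v (G (a, b, q) * u q))
    refine ⟨((a, b, q₀), q₀), ?_⟩
    have h1 : v ((∏ t, z (p.1 t)) * ∏ t, y (p.2 t)) ≤ v ((z a * y b) ^ K) := by
      rw [map_mul, map_pow, map_mul, mul_pow]
      exact mul_le_mul (hlw_prod v z a ha p.1) (hlw_prod v y b hb p.2) (v.nonneg _)
        (pow_nonneg (v.nonneg _) _)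
    refine h1.trans ?_
    rw [h a b]
    exact hc _ _ (v.nonneg _) hq₀
  have hT : (fun p : (Fin K → Fin M) × (Fin K → Fin N) =>
      (∏ t, z (p.1 t)) * ∏ t, y (p.2 t)) ≠ 0 := by
    obtain ⟨I, hI⟩ := Function.ne_iff.1 (hlw_ne z hz K)
    obtain ⟨J, hJ⟩ := Function.ne_iff.1 (hlw_ne y hy K)
    exact Function.ne_iff.2 ⟨(I, J), mul_ne_zero hI hJ⟩
  have hB : (fun i : (Fin M × Fin N × σ) × σ => G i.1 * u i.2) ≠ 0 := by
    obtain ⟨a, ha⟩ := Function.ne_iff.1 hG
    obtain ⟨b, hb⟩ := Function.ne_iff.1 hu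
    exact Function.ne_iff.2 ⟨(a, b), mul_ne_zero ha hb⟩
  have h1 := hlw_one (fun p : (Fin K → Fin M) × (Fin K → Fin N) =>
      (∏ t, z (p.1 t)) * ∏ t, y (p.2 t)) hT
    (fun i : (Fin M × Fin N × σ) × σ => G i.1 * u i.2) hB
    (max 1 (Fintype.card σ)) (le_max_left _ _)
    (fun s p => hplace (hlwC s) _ (zero_le_one.trans (le_max_left _ _)) (fun f B hB h =>
      (hlw_sum_arch (hlwC s) f B h).trans
        (mul_le_mul_of_nonneg_right (le_max_right _ _) hB)) p)
    (fun p τ I => by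
      obtain ⟨i, hi⟩ := hplace (pAbs p τ) 1 zero_le_one (fun f B hB h => by
        rw [one_mul]
        exact hlw_sum_non (pAbs p τ) (pAbs_nonarch p τ) f B hB h) I
      rw [one_mul] at hi
      exact ⟨i, hi⟩)
  rw [absHeight_mul G u hG hu,
    absHeight_mul (fun I : Fin K → Fin M => ∏ t, z (I t)) (fun J : Fin K → Fin N => ∏ t, y (J t))
      (hlw_ne z hz K) (hlw_ne y hy K), hlw_pow z hz, hlw_pow y hy] at h1
  exact h1

variable [IsAlgClosed E] {M N s nP nG : ℕ} {S : Sys E M N s nP nG}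

theorem hlow (hS : S.Good) :
    ∃ C : ℝ, 0 ≤ C ∧ ∀ y ∈ S.Wc, ∀ z ∈ S.fib y, z ≠ 0 →
      S.q * absHeight z + S.m * absHeight y ≤
        absHeight (fun x : Fin nP × Fin M => S.Pv x.1 z y x.2) + C := by
  obtain ⟨L, g, hq, hm, hg, hr⟩ := nullb hS
  obtain ⟨C, hC, hu⟩ := upb (fun x : Fin M × Fin N × (Fin nP × Fin M) =>
    g x.1 x.2.1 x.2.2.1 x.2.2.2) (L - S.q) (L - S.m) (fun x => hg _ _ _ _)
  refine ⟨Real.log (max 1 (Fintype.card (Fin nP × Fin M))) + C,
    add_nonneg (Real.log_nonneg (le_max_left _ _)) hC, fun y hy z hz hz0 => ?_⟩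
  have hy0 := hS.W_ne0 y hy
  have h1 := hu z y hz0 hy0
  have h2 := hlw_main (K := L) (σ := Fin nP × Fin M) z y hz0 hy0
    (fun x => eval (pt z y) (g x.1 x.2.1 x.2.2.1 x.2.2.2))
    (fun x => S.Pv x.1 z y x.2) (fun i l => by
      rw [hr y hy z hz i l, Fintype.sum_prod_type])
  rw [Nat.cast_sub hq, Nat.cast_sub hm] at h1
  have h3 : ((L : ℝ) - S.q) * absHeight z = L * absHeight z - S.q * absHeight z := by ring
  have h4 : ((L : ℝ) - S.m) * absHeight y = L * absHeight y - S.m * absHeight y := by ring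
  rw [h3, h4] at h1
  linarith

end Pool.Agent.PBK
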