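import Pool.Agent.PBK.Maxm

/-!
# PBK PACK: separated sets of vectors in a subspace

Proof. Let `U` be the real span of `s`, `n' = finrank U ≤ n`, `x : Fin n' → (ρ → ℝ)` a basis of `U`,
`f : Fin n' → ρ` as in `exists_max_minor`. By `maxm` `|v b| ≤ ∑ i, |v (f i)|` for all `v ∈ U`, `b : ρ`.
Consider the map `v ↦ (⌊v (f i) * (n + 1) / A⌋)_i` on `s`. It is injective: if `v`, `v'` have the same
image then `|v (f i) - v' (f i)| < A / (n + 1)` for all `i`, so `|v b - v' b| ≤ n' * A / (n + 1) < A` for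
all `b` (for `n' = 0`: `= 0`), hence `v = v'` by `h2`. With `t = (n + 1) * X / A` every coordinate of the
image is an integer between `⌊-t⌋` and `⌊t⌋`, at most `2 * t + 2` values, so
`card s ≤ (2 t + 2) ^ n' ≤ (2 t + 2) ^ n`.
-/

set_option autoImplicit false

namespace Pool.Agent.PBK

theorem pack {ρ : Type} [Fintype ρ] [DecidableEq ρ] (n : ℕ) (s : Finset (ρ → ℝ))
    (hs : Module.finrank ℝ (Submodule.span ℝ (s : Set (ρ → ℝ))) ≤ n) (X A : ℝ) (hX : 0 ≤ X)
    (hA : 0 < A) (h1 : ∀ v ∈ s, ∀ b, |v b| ≤ X)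
    (h2 : ∀ v ∈ s, ∀ v' ∈ s, v ≠ v' → ∃ b, A ≤ |v b - v' b|) :
    (s.card : ℝ) ≤ (2 * (n + 1) * X / A + 2) ^ n := by
  classical
  set U := Submodule.span ℝ (s : Set (ρ → ℝ)) with hU
  set n' := Module.finrank ℝ U with hn'
  let b : Module.Basis (Fin n') ℝ U := Module.finBasis ℝ U
  let x : Fin n' → (ρ → ℝ) := fun i => (b i : ρ → ℝ)
  have hx : LinearIndependent ℝ x :=
    b.linearIndependent.map' U.subtype (Submodule.ker_subtype U)
  have hspan : Submodule.span ℝ (Set.range x) = U := by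
    have e1 : Set.range x = U.subtype '' Set.range b := by
      rw [← Set.range_comp]
      rfl
    rw [e1, ← Submodule.map_span, b.span_eq, Submodule.map_top, Submodule.range_subtype]
  obtain ⟨f, hf1, hf2⟩ := exists_max_minor x hx
  have hn1 : (0 : ℝ) < n + 1 := by positivity
  have hn'n : (n' : ℝ) ≤ n := by exact_mod_cast hs
  set t : ℝ := (n + 1) * X / A with ht
  have ht0 : 0 ≤ t := by positivity
  let φ : (ρ → ℝ) → Fin n' → ℤ := fun v i => ⌊v (f i) * (n + 1) / A⌋
  have hinj : Set.InjOn φ (s : Set (ρ → ℝ)) := by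
    intro v hv v' hv' he
    by_contra hne
    obtain ⟨j, hj⟩ := h2 v hv v' hv' hne
    have hw : v - v' ∈ Submodule.span ℝ (Set.range x) := by
      rw [hspan]
      exact U.sub_mem (Submodule.subset_span hv) (Submodule.subset_span hv')
    have h3 := maxm x f hf1 hf2 (v - v') hw j
    have h4 : ∀ i, |(v - v') (f i)| ≤ A / (n + 1) := by
      intro i
      have h5 := Int.abs_sub_lt_one_of_floor_eq_floor (congrFun he i)
      have h6 : v (f i) * (n + 1) / A - v' (f i) * (n + 1) / A =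
          (v - v') (f i) * ((n + 1) / A) := by
        rw [Pi.sub_apply]
        ring
      rw [h6, abs_mul, abs_of_pos (div_pos hn1 hA), mul_div_assoc', div_lt_one hA] at h5
      rw [le_div_iff₀ hn1]
      exact h5.le
    have h5 : ∑ i, |(v - v') (f i)| ≤ n' * (A / (n + 1)) := by
      refine (Finset.sum_le_card_nsmul _ _ (A / (n + 1)) fun i _ => h4 i).trans ?_
      rw [Finset.card_univ, Fintype.card_fin, nsmul_eq_mul]
    have h6 : (n' : ℝ) * (A / (n + 1)) < A := by
      rw [mul_div_assoc', div_lt_iff₀ hn1]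
      nlinarith
    rw [Pi.sub_apply] at h3
    linarith
  have hmem : ∀ v ∈ s, φ v ∈ Fintype.piFinset fun _ : Fin n' => Finset.Icc ⌊-t⌋ ⌊t⌋ := by
    intro v hv
    rw [Fintype.mem_piFinset]
    intro i
    have h3 := abs_le.1 (h1 v hv (f i))
    have h4 : v (f i) * (n + 1) / A = (v (f i)) * ((n + 1) / A) := by ring
    have h5 : t = X * ((n + 1) / A) := by
      rw [ht]
      ring
    have h6 : (0 : ℝ) < (n + 1) / A := div_pos hn1 hA
    rw [Finset.mem_Icc]
    constructor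
    · apply Int.floor_le_floor
      rw [h4, h5]
      nlinarith [h3.1]
    · apply Int.floor_le_floor
      rw [h4, h5]
      nlinarith [h3.2]
  have hcard : (s.card : ℝ) ≤ (2 * t + 2) ^ n' := by
    have h3 : s.card ≤ (Finset.Icc ⌊-t⌋ ⌊t⌋).card ^ n' := by
      rw [← Finset.card_image_of_injOn hinj]
      refine (Finset.card_le_card (Finset.image_subset_iff.2 hmem)).trans ?_
      rw [Fintype.card_piFinset, Finset.prod_const, Finset.card_univ, Fintype.card_fin]
    have h4 : ((Finset.Icc ⌊-t⌋ ⌊t⌋).card : ℝ) ≤ 2 * t + 2 := by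
      rw [Int.card_Icc]
      have h5 : ⌊-t⌋ ≤ ⌊t⌋ + 1 := by
        have := Int.floor_le_floor (by linarith : -t ≤ t)
        omega
      have h6 : (((⌊t⌋ + 1 - ⌊-t⌋).toNat : ℕ) : ℝ) = ((⌊t⌋ + 1 - ⌊-t⌋ : ℤ) : ℝ) := by
        exact_mod_cast congrArg (Int.cast (R := ℝ)) (Int.toNat_of_nonneg (by omega :
          0 ≤ ⌊t⌋ + 1 - ⌊-t⌋))
      rw [h6]
      push_cast
      have h7 := Int.floor_le t
      have h8 := Int.lt_floor_add_one (-t)
      linarith
    calc (s.card : ℝ) ≤ (((Finset.Icc ⌊-t⌋ ⌊t⌋).card ^ n' : ℕ) : ℝ) := by exact_mod_cast h3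
      _ = ((Finset.Icc ⌊-t⌋ ⌊t⌋).card : ℝ) ^ n' := by push_cast; rfl
      _ ≤ (2 * t + 2) ^ n' := pow_le_pow_left₀ (Nat.cast_nonneg _) h4 _
  have e : 2 * (n + 1) * X / A + 2 = 2 * t + 2 := by
    rw [ht]
    ring
  rw [e]
  exact hcard.trans (pow_le_pow_right₀ (by linarith) hs)

end Pool.Agent.PBK
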