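import Pool.Agent.PBK.Pig
import Pool.Agent.PBK.Pack

/-!
# PBK LAT: successive minima of a lattice, elementary

Let `D = card ρ ≥ 1`, `Λ` the span of the `e a`. Choose `f` with `Δ = |mi e f|` maximal
(`exists_max_minor` for the vectors over `ℝ`; integral vectors independent over `ℤ` are independent over
`ℝ`); `Δ ≥ 1`. By `maxm` all `v ∈ Λ` satisfy `|v j| ≤ ∑ b, |v (f b)|`. Let `Y a b = e a (f b)`; restriction
to the coordinates `f b` is an injective map from `Λ` onto the span of the `Y a`.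

First claim. Let `X` be the natural number with `X ^ D ≤ Δ < (X + 1) ^ D`. By `pig` there are at least
two vectors of `Λ` whose coordinates `f b` are at most `X`, so there is a nonzero one (`pig` gives
vectors of the lattice, one of two distinct ones is nonzero); all its coordinates are at most
`D * X`, so `A ≤ D * X` and `A ^ D ≤ D ^ D * Δ`.

Second claim. Let `κ = B * (2 * D ^ 2 + 2) ^ (D - 1)`, and let `X` be the least natural number
`≥ max κ 1 * A`. Claim: the set of the vectors `v ∈ Λ` with all `|v j| ≤ D * X` spans a space of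
dimension `D` over `ℝ`. Suppose the dimension is at most `D - 1`. Let `s` be the set of `pig` for `X`;
every element of `s` is the restriction of a vector of `Λ` with `|v j| ≤ D * X`, so `s` (as real
vectors) spans a space of dimension `≤ D - 1`. For `v' ≠ u'` in `s`, the difference of the
corresponding vectors `v`, `u` of `Λ` is nonzero, so `A ≤ |v j - u j| ≤ ∑ b, |v' b - u' b|` for some
`j` and `A / D ≤ |v' b - u' b|` for some `b`. By `pack` (`n = D - 1`, `A / D` for `A`)
`(X + 1) ^ D ≤ card s * Δ ≤ (2 * D * X * D / A + 2) ^ (D - 1) * B * A ^ D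
≤ B * ((2 * D ^ 2 + 2) * X / A) ^ (D - 1) * A ^ D = κ * A * X ^ (D - 1)` (using `A ≤ X`), so
`X + 1 ≤ κ * A`, in contradiction to `κ * A ≤ X`. So there are `D` vectors of `Λ`, linearly
independent over `ℝ`, hence over `ℤ`, with coordinates at most
`D * X ≤ D * (max κ 1 * A + 1) ≤ C * A`, because `1 ≤ max B 1 * A`: this is clear if `A ≥ 1`, and if
`A < 1` then `1 ≤ Δ ≤ B * A ^ D ≤ B * A`.
-/

set_option autoImplicit false

namespace Pool.Agent.PBK

private theorem lat_cast_indep {ρ ν : Type} [Fintype ρ] [DecidableEq ρ] [Fintype ν]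
    {e : ρ → ν → ℤ} (he : LinearIndependent ℤ e) :
    LinearIndependent ℝ (fun a (j : ν) => ((e a j : ℤ) : ℝ)) := by
  classical
  have h1 : LinearIndependent ℤ (fun a (j : ν) => ((e a j : ℤ) : ℚ)) := by
    let g : (ν → ℤ) →ₗ[ℤ] (ν → ℚ) :=
      LinearMap.pi fun j => (Algebra.linearMap ℤ ℚ) ∘ₗ LinearMap.proj j
    have hg : LinearMap.ker g = ⊥ := by
      rw [LinearMap.ker_eq_bot]
      intro x y hxy
      funext j
      have := congrFun hxy j
      exact Int.cast_injective (α := ℚ) this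
    exact he.map' g hg
  have h2 : LinearIndependent ℚ (fun a (j : ν) => ((e a j : ℤ) : ℚ)) :=
    (LinearIndependent.iff_fractionRing ℤ ℚ).1 h1
  obtain ⟨g, hg⟩ := LinearMap.exists_leftInverse_of_injective
    (Fintype.linearCombination ℚ (fun a (j : ν) => ((e a j : ℤ) : ℚ)))
    (LinearMap.ker_eq_bot.2 (linearIndependent_iff_injective_fintypeLinearCombination.1 h2))
  have hG : ∀ a b, ∑ j, ((e a j : ℤ) : ℚ) * g (Pi.single j 1) b = if a = b then 1 else 0 := by
    intro a b
    have h3 := LinearMap.congr_fun hg (Pi.single a 1)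
    rw [LinearMap.comp_apply, Fintype.linearCombination_apply_single, one_smul] at h3
    have h4 := congrFun h3 b
    have h5 : (fun (j : ν) => ((e a j : ℤ) : ℚ)) =
        ∑ j, ((e a j : ℤ) : ℚ) • (Pi.single j 1 : ν → ℚ) := by
      funext i
      simp [Finset.sum_apply, Pi.single_apply]
    rw [h5, map_sum, Finset.sum_apply] at h4
    simp only [map_smul, Pi.smul_apply, smul_eq_mul] at h4
    rw [h4]
    simp [Pi.single_apply, eq_comm]
  rw [Fintype.linearIndependent_iff]
  intro c hc b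
  have h6 : ∑ j, (∑ a, c a * ((e a j : ℤ) : ℝ)) * ((g (Pi.single j 1) b : ℚ) : ℝ) = c b := by
    simp only [Finset.sum_mul]
    rw [Finset.sum_comm]
    have h7 : ∀ a, ∑ j, c a * ((e a j : ℤ) : ℝ) * ((g (Pi.single j 1) b : ℚ) : ℝ) =
        if a = b then c b else 0 := by
      intro a
      have h8 : ∑ j, c a * ((e a j : ℤ) : ℝ) * ((g (Pi.single j 1) b : ℚ) : ℝ) =
          c a * ((∑ j, ((e a j : ℤ) : ℚ) * g (Pi.single j 1) b : ℚ) : ℝ) := by
        push_cast
        rw [Finset.mul_sum]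
        exact Finset.sum_congr rfl fun j _ => by ring
      rw [h8, hG]
      split_ifs with h9
      · rw [h9]
        simp
      · simp
    rw [Finset.sum_congr rfl fun a _ => h7 a]
    simp
  rw [← h6]
  refine Finset.sum_eq_zero fun j _ => ?_
  have h9 := congrFun hc j
  rw [Finset.sum_apply] at h9
  simp only [Pi.smul_apply, smul_eq_mul, Pi.zero_apply] at h9
  rw [h9, zero_mul]

private theorem lat_indep_of_cast {ρ ν : Type} [Fintype ρ]
    {e : ρ → ν → ℤ} (he : LinearIndependent ℝ (fun a (j : ν) => ((e a j : ℤ) : ℝ))) :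
    LinearIndependent ℤ e := by
  rw [Fintype.linearIndependent_iff] at he ⊢
  intro c hc b
  have h := he (fun a => (c a : ℝ)) (by
    funext j
    have h1 := congrFun hc j
    rw [Finset.sum_apply] at h1 ⊢
    simp only [Pi.smul_apply, smul_eq_mul, Pi.zero_apply] at h1 ⊢
    exact_mod_cast h1) b
  exact_mod_cast h

private theorem lat_mi_cast {ρ ν : Type} [Fintype ρ] [DecidableEq ρ] (e : ρ → ν → ℤ) (f : ρ → ν) :
    mi (fun a (j : ν) => ((e a j : ℤ) : ℝ)) f = ((mi e f : ℤ) : ℝ) := by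
  have h := RingHom.map_det (Int.castRingHom ℝ) (Matrix.of fun a b => e a (f b))
  exact h.symm

private theorem lat_mem {ρ ν : Type} {e : ρ → ν → ℤ} {v : ν → ℤ}
    (hv : v ∈ Submodule.span ℤ (Set.range e)) :
    (fun j => ((v j : ℤ) : ℝ)) ∈
      Submodule.span ℝ (Set.range (fun a (j : ν) => ((e a j : ℤ) : ℝ))) := by
  induction hv using Submodule.span_induction with
  | mem x h =>
    obtain ⟨a, rfl⟩ := h
    exact Submodule.subset_span ⟨a, rfl⟩
  | zero =>
    have : (fun j : ν => (((0 : ν → ℤ) j : ℤ) : ℝ)) = 0 := by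
      funext j
      simp
    rw [this]
    exact Submodule.zero_mem _
  | add x y _ _ hx hy =>
    have : (fun j : ν => (((x + y) j : ℤ) : ℝ)) =
        (fun j => ((x j : ℤ) : ℝ)) + fun j => ((y j : ℤ) : ℝ) := by
      funext j
      simp
    rw [this]
    exact Submodule.add_mem _ hx hy
  | smul c x _ hx =>
    have : (fun j : ν => (((c • x) j : ℤ) : ℝ)) = (c : ℝ) • fun j => ((x j : ℤ) : ℝ) := by
      funext j
      simp
    rw [this]
    exact Submodule.smul_mem _ _ hx

/-- integer part of a root -/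
private theorem lat_root (D : ℕ) (hD : 0 < D) (m : ℕ) : ∃ X : ℕ, X ^ D ≤ m ∧ m < (X + 1) ^ D := by
  classical
  have hex : ∃ k : ℕ, m < k ^ D := ⟨m + 1, by
    calc m < m + 1 := Nat.lt_succ_self m
      _ = (m + 1) ^ 1 := (pow_one _).symm
      _ ≤ (m + 1) ^ D := Nat.pow_le_pow_right (Nat.succ_pos m) hD⟩
  have h1 := Nat.find_spec hex
  have h2 : Nat.find hex ≠ 0 := by
    intro h0
    rw [h0, zero_pow hD.ne'] at h1
    exact absurd h1 (Nat.not_lt_zero m)
  obtain ⟨X, hX⟩ := Nat.exists_eq_succ_of_ne_zero h2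
  refine ⟨X, ?_, ?_⟩
  · by_contra h3
    exact Nat.find_min hex (m := X) (by omega) (not_le.1 h3)
  · have h4 : Nat.find hex = X + 1 := hX
    rw [← h4]
    exact h1

private theorem lat_first {ρ ν : Type} [Fintype ρ] [DecidableEq ρ] [Nonempty ρ] [Fintype ν]
    {e : ρ → ν → ℤ} {A : ℝ} (hA : 0 < A)
    (h1 : ∀ v ∈ Submodule.span ℤ (Set.range e), v ≠ 0 → ∃ j, A ≤ |((v j : ℤ) : ℝ)|)
    {f : ρ → ν} (hf0 : mi e f ≠ 0)
    (hmax : ∀ v ∈ Submodule.span ℤ (Set.range e), ∀ j,
      |((v j : ℤ) : ℝ)| ≤ ∑ b, |((v (f b) : ℤ) : ℝ)|)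
    (hpi : ∀ w ∈ Submodule.span ℤ (Set.range fun a b => e a (f b)),
      ∃ v ∈ Submodule.span ℤ (Set.range e), ∀ b, v (f b) = w b) :
    A ^ Fintype.card ρ ≤ (Fintype.card ρ : ℝ) ^ Fintype.card ρ * |((mi e f : ℤ) : ℝ)| := by
  have hD : 0 < Fintype.card ρ := Fintype.card_pos
  obtain ⟨X, hX1, hX2⟩ := lat_root (Fintype.card ρ) hD (mi e f).natAbs
  obtain ⟨s, s1, s2, s3⟩ := pig (fun a b => e a (f b)) (h := hf0) X
  have s3' : (X + 1) ^ Fintype.card ρ ≤ s.card * (mi e f).natAbs := s3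
  have hs : 1 < s.card := by
    by_contra h
    have h2 : s.card * (mi e f).natAbs ≤ 1 * (mi e f).natAbs := Nat.mul_le_mul_right _ (not_lt.1 h)
    omega
  obtain ⟨w, hw, hw0⟩ : ∃ w ∈ s, w ≠ 0 := by
    obtain ⟨w, hw, w', hw', hne⟩ := Finset.one_lt_card.1 hs
    by_cases h0 : w = 0
    · exact ⟨w', hw', fun h => hne (h0.trans h.symm)⟩
    · exact ⟨w, hw, h0⟩
  obtain ⟨v, hv, hvw⟩ := hpi w (s1 w hw)
  have hv0 : v ≠ 0 := by
    rintro rfl
    apply hw0
    funext b
    exact (hvw b).symm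
  obtain ⟨j, hj⟩ := h1 v hv hv0
  have h2 : A ≤ Fintype.card ρ * X := by
    refine hj.trans ((hmax v hv j).trans ?_)
    refine (Finset.sum_le_card_nsmul _ _ (X : ℝ) fun b _ => ?_).trans ?_
    · rw [hvw b]
      have := s2 w hw b
      exact_mod_cast this
    · rw [Finset.card_univ, nsmul_eq_mul]
  calc A ^ Fintype.card ρ ≤ (Fintype.card ρ * X) ^ Fintype.card ρ := pow_le_pow_left₀ hA.le h2 _
    _ = (Fintype.card ρ : ℝ) ^ Fintype.card ρ * (X : ℝ) ^ Fintype.card ρ := mul_pow _ _ _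
    _ ≤ (Fintype.card ρ : ℝ) ^ Fintype.card ρ * |((mi e f : ℤ) : ℝ)| := by
        refine mul_le_mul_of_nonneg_left ?_ (by positivity)
        have h3 : ((X ^ Fintype.card ρ : ℕ) : ℝ) ≤ ((mi e f).natAbs : ℝ) := by exact_mod_cast hX1
        rw [Nat.cast_natAbs] at h3
        push_cast at h3
        exact h3

private theorem lat_second {ρ ν : Type} [Fintype ρ] [DecidableEq ρ] [Nonempty ρ] [Fintype ν]
    {B : ℝ} (hB : 0 < B) {e : ρ → ν → ℤ} {A : ℝ} (hA : 0 < A)
    (h1 : ∀ v ∈ Submodule.span ℤ (Set.range e), v ≠ 0 → ∃ j, A ≤ |((v j : ℤ) : ℝ)|)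
    {f : ρ → ν} (hf0 : mi e f ≠ 0) (hfB : |((mi e f : ℤ) : ℝ)| ≤ B * A ^ Fintype.card ρ)
    (hmax : ∀ v ∈ Submodule.span ℤ (Set.range e), ∀ j,
      |((v j : ℤ) : ℝ)| ≤ ∑ b, |((v (f b) : ℤ) : ℝ)|)
    (hpi : ∀ w ∈ Submodule.span ℤ (Set.range fun a b => e a (f b)),
      ∃ v ∈ Submodule.span ℤ (Set.range e), ∀ b, v (f b) = w b) (X : ℕ)
    (hX : max (B * (2 * (Fintype.card ρ : ℝ) ^ 2 + 2) ^ (Fintype.card ρ - 1)) 1 * A ≤ X) :
    ∃ v : ρ → ν → ℤ, LinearIndependent ℤ v ∧
        (∀ a, v a ∈ Submodule.span ℤ (Set.range e)) ∧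
        ∀ a j, |((v a j : ℤ) : ℝ)| ≤ Fintype.card ρ * X := by
  classical
  have hD : 0 < Fintype.card ρ := Fintype.card_pos
  have hDr : (0 : ℝ) < Fintype.card ρ := by exact_mod_cast hD
  let ι : Type := {v : ν → ℤ // v ∈ Submodule.span ℤ (Set.range e) ∧
    ∀ j, |((v j : ℤ) : ℝ)| ≤ Fintype.card ρ * X}
  let c : ι → (ν → ℝ) := fun v j => ((v.1 j : ℤ) : ℝ)
  obtain ⟨κ, g, hg1, hg2, hg3⟩ := exists_linearIndependent' ℝ c
  have : Finite κ := hg3.finite
  have : Fintype κ := Fintype.ofFinite κ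
  have hfr : Module.finrank ℝ (Submodule.span ℝ (Set.range c)) = Fintype.card κ := by
    rw [← hg2]
    exact finrank_span_eq_card hg3
  have hge : Fintype.card ρ ≤ Fintype.card κ := by
    by_contra hlt
    rw [← hfr] at hlt
    have hle : Module.finrank ℝ (Submodule.span ℝ (Set.range c)) ≤ Fintype.card ρ - 1 := by omega
    obtain ⟨s, s1, s2, s3⟩ := pig (fun a b => e a (f b)) (h := hf0) X
    have s3' : (X + 1) ^ Fintype.card ρ ≤ s.card * (mi e f).natAbs := s3
    choose! V hV1 hV2 using fun w hw => hpi w (s1 w hw)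
    have hVb : ∀ w ∈ s, ∀ j, |((V w j : ℤ) : ℝ)| ≤ Fintype.card ρ * X := by
      intro w hw j
      refine (hmax _ (hV1 w hw) j).trans ?_
      refine (Finset.sum_le_card_nsmul _ _ (X : ℝ) fun b _ => ?_).trans ?_
      · rw [hV2 w hw b]
        have := s2 w hw b
        exact_mod_cast this
      · rw [Finset.card_univ, nsmul_eq_mul]
    let castw : (ρ → ℤ) → (ρ → ℝ) := fun w b => ((w b : ℤ) : ℝ)
    have hcinj : Function.Injective castw := by
      intro w w' h
      funext b
      exact Int.cast_injective (α := ℝ) (congrFun h b)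
    have hspan : Submodule.span ℝ ((s.image castw : Finset (ρ → ℝ)) : Set (ρ → ℝ)) ≤
        (Submodule.span ℝ (Set.range c)).map (LinearMap.funLeft ℝ ℝ f) := by
      rw [Submodule.span_le]
      intro y hy
      rw [Finset.mem_coe, Finset.mem_image] at hy
      obtain ⟨w, hw, rfl⟩ := hy
      refine ⟨c ⟨V w, hV1 w hw, hVb w hw⟩, Submodule.subset_span ⟨_, rfl⟩, ?_⟩
      funext b
      change ((V w (f b) : ℤ) : ℝ) = ((w b : ℤ) : ℝ)
      rw [hV2 w hw b]
    have hfin : Module.finrank ℝ (Submodule.span ℝ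
        ((s.image castw : Finset (ρ → ℝ)) : Set (ρ → ℝ))) ≤ Fintype.card ρ - 1 :=
      (Submodule.finrank_mono hspan).trans ((Submodule.finrank_map_le _ _).trans hle)
    have hpack := pack (Fintype.card ρ - 1) (s.image castw) hfin (X : ℝ) (A / Fintype.card ρ)
      (Nat.cast_nonneg X) (div_pos hA hDr) (by
        intro y hy b
        obtain ⟨w, hw, rfl⟩ := Finset.mem_image.1 hy
        have := s2 w hw b
        change |((w b : ℤ) : ℝ)| ≤ X
        exact_mod_cast this) (by
        intro y hy y' hy' hne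
        obtain ⟨w, hw, rfl⟩ := Finset.mem_image.1 hy
        obtain ⟨w', hw', rfl⟩ := Finset.mem_image.1 hy'
        have hne' : V w - V w' ≠ 0 := by
          intro h0
          apply hne
          have h2 := sub_eq_zero.1 h0
          funext b
          change ((w b : ℤ) : ℝ) = ((w' b : ℤ) : ℝ)
          rw [← hV2 w hw b, ← hV2 w' hw' b, h2]
        have hmem := Submodule.sub_mem _ (hV1 w hw) (hV1 w' hw')
        obtain ⟨j, hj⟩ := h1 _ hmem hne'
        have h2 := hj.trans (hmax _ hmem j)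
        by_contra hcon
        push Not at hcon
        have h3 : ∑ b, |(((V w - V w') (f b) : ℤ) : ℝ)| < ∑ b : ρ, A / Fintype.card ρ := by
          refine Finset.sum_lt_sum_of_nonempty Finset.univ_nonempty fun b _ => ?_
          have h4 := hcon b
          change |((w b : ℤ) : ℝ) - ((w' b : ℤ) : ℝ)| < _ at h4
          rw [Pi.sub_apply, hV2 w hw b, hV2 w' hw' b]
          push_cast
          exact h4
        rw [Finset.sum_const, Finset.card_univ, nsmul_eq_mul, mul_div_cancel₀ _ hDr.ne'] at h3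
        linarith)
    rw [Finset.card_image_of_injective _ hcinj] at hpack
    set D := Fintype.card ρ with hDdef
    have hD1 : ((D - 1 : ℕ) : ℝ) = D - 1 := by
      rw [Nat.cast_sub hD, Nat.cast_one]
    have hXA : A ≤ X := by
      refine le_trans ?_ hX
      have := le_max_right (B * (2 * (D : ℝ) ^ 2 + 2) ^ (D - 1)) 1
      nlinarith
    have hX0 : (0 : ℝ) < X := lt_of_lt_of_le hA hXA
    have hp2 : (s.card : ℝ) ≤ ((2 * (D : ℝ) ^ 2 + 2) * (X / A)) ^ (D - 1) := by
      refine hpack.trans (pow_le_pow_left₀ ?_ ?_ _)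
      · rw [hD1]
        have : (0 : ℝ) ≤ 2 * (D - 1 + 1) * X / (A / D) := by
          rw [sub_add_cancel]
          positivity
        linarith
      · rw [hD1, sub_add_cancel]
        have h5 : 2 * (D : ℝ) * X / (A / D) = 2 * (D : ℝ) ^ 2 * (X / A) := by
          field_simp
        rw [h5]
        have h6 : 1 ≤ (X : ℝ) / A := (one_le_div hA).2 hXA
        nlinarith
    have hfin2 : ((X : ℝ) + 1) * (X : ℝ) ^ (D - 1) ≤
        (B * (2 * (D : ℝ) ^ 2 + 2) ^ (D - 1)) * A * (X : ℝ) ^ (D - 1) := by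
      have hDs : D = (D - 1) + 1 := by omega
      calc ((X : ℝ) + 1) * (X : ℝ) ^ (D - 1) ≤ ((X : ℝ) + 1) * ((X : ℝ) + 1) ^ (D - 1) := by
            refine mul_le_mul_of_nonneg_left ?_ (by positivity)
            exact pow_le_pow_left₀ hX0.le (by linarith) _
        _ = ((X : ℝ) + 1) ^ D := by
            conv_rhs => rw [hDs]
            rw [pow_succ]
            ring
        _ ≤ s.card * |((mi e f : ℤ) : ℝ)| := by
            have h7 : (((X + 1) ^ D : ℕ) : ℝ) ≤ ((s.card * (mi e f).natAbs : ℕ) : ℝ) := by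
              exact_mod_cast s3'
            push_cast [Nat.cast_natAbs] at h7
            exact h7
        _ ≤ ((2 * (D : ℝ) ^ 2 + 2) * (X / A)) ^ (D - 1) * (B * A ^ D) :=
            mul_le_mul hp2 hfB (abs_nonneg _) (by positivity)
        _ = (B * (2 * (D : ℝ) ^ 2 + 2) ^ (D - 1)) * A * (X : ℝ) ^ (D - 1) := by
            have h8 : A ^ D = A ^ (D - 1) * A := by
              conv_lhs => rw [hDs]
              rw [pow_succ]
            rw [h8, mul_pow, div_pow]
            field_simp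
    have h9 := le_of_mul_le_mul_right hfin2 (pow_pos hX0 _)
    have h10 : (B * (2 * (D : ℝ) ^ 2 + 2) ^ (D - 1)) * A ≤ X := by
      refine le_trans ?_ hX
      exact mul_le_mul_of_nonneg_right (le_max_left _ _) hA.le
    linarith
  obtain ⟨i⟩ := Function.Embedding.nonempty_of_card_le hge
  refine ⟨fun a => (g (i a)).1, ?_, fun a => (g (i a)).2.1, fun a j => (g (i a)).2.2 j⟩
  exact lat_indep_of_cast (hg3.comp i i.injective)

theorem lat (ρ ν : Type) [Fintype ρ] [DecidableEq ρ] [Nonempty ρ] [Fintype ν] (B : ℝ)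
    (hB : 0 < B) :
    ∃ C : ℝ, 0 < C ∧ ∀ e : ρ → ν → ℤ, LinearIndependent ℤ e → ∀ A : ℝ, 0 < A →
      (∀ v ∈ Submodule.span ℤ (Set.range e), v ≠ 0 → ∃ j, A ≤ |((v j : ℤ) : ℝ)|) →
      (∀ f : ρ → ν, |((mi e f : ℤ) : ℝ)| ≤ B * A ^ Fintype.card ρ) →
      (∃ f : ρ → ν, A ^ Fintype.card ρ ≤ C * |((mi e f : ℤ) : ℝ)|) ∧
      ∃ v : ρ → ν → ℤ, LinearIndependent ℤ v ∧
        (∀ a, v a ∈ Submodule.span ℤ (Set.range e)) ∧
        ∀ a j, |((v a j : ℤ) : ℝ)| ≤ C * A := by
  classical
  set D := Fintype.card ρ with hDdef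
  have hD : 0 < D := Fintype.card_pos
  have hDr : (0 : ℝ) < D := by exact_mod_cast hD
  set κ := B * (2 * (D : ℝ) ^ 2 + 2) ^ (D - 1) with hκ
  refine ⟨(D : ℝ) ^ D + D * (max κ 1 + max B 1), by positivity, ?_⟩
  intro e he A hA h1 h2
  obtain ⟨f, hf1, hf2⟩ := exists_max_minor _ (lat_cast_indep he)
  have hf0 : mi e f ≠ 0 := by
    intro h0
    apply hf2
    rw [lat_mi_cast, h0, Int.cast_zero]
  have hmax : ∀ v ∈ Submodule.span ℤ (Set.range e), ∀ j,
      |((v j : ℤ) : ℝ)| ≤ ∑ b, |((v (f b) : ℤ) : ℝ)| := fun v hv j =>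
    maxm _ f hf1 hf2 _ (lat_mem hv) j
  have hpi : ∀ w ∈ Submodule.span ℤ (Set.range fun a b => e a (f b)),
      ∃ v ∈ Submodule.span ℤ (Set.range e), ∀ b, v (f b) = w b := by
    intro w hw
    have h3 : (Set.range fun a b => e a (f b)) = LinearMap.funLeft ℤ ℤ f '' Set.range e := by
      rw [← Set.range_comp]
      rfl
    rw [h3, ← Submodule.map_span] at hw
    obtain ⟨v, hv, rfl⟩ := hw
    exact ⟨v, hv, fun b => rfl⟩
  constructor
  · refine ⟨f, (lat_first hA h1 hf0 hmax hpi).trans ?_⟩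
    refine mul_le_mul_of_nonneg_right ?_ (abs_nonneg _)
    have : 0 ≤ (D : ℝ) * (max κ 1 + max B 1) := by positivity
    linarith
  · obtain ⟨v, hv1, hv2, hv3⟩ := lat_second hB hA h1 hf0 (h2 f) hmax hpi ⌈max κ 1 * A⌉₊
      (Nat.le_ceil _)
    refine ⟨v, hv1, hv2, fun a j => (hv3 a j).trans ?_⟩
    have h4 : (⌈max κ 1 * A⌉₊ : ℝ) ≤ max κ 1 * A + 1 := (Nat.ceil_lt_add_one (by positivity)).le
    have h5 : 1 ≤ max B 1 * A := by
      rcases le_or_gt 1 A with h | h
      · have := le_max_right B 1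
        nlinarith
      · have h6 : (1 : ℝ) ≤ |((mi e f : ℤ) : ℝ)| := by
          rw [← Int.cast_abs]
          exact_mod_cast Int.one_le_abs hf0
        have h7 : A ^ D ≤ A := by
          have := pow_le_pow_of_le_one hA.le h.le hD
          rwa [Nat.succ_eq_add_one, zero_add, pow_one] at this
        have h8 := le_max_left B 1
        have h9 := h2 f
        nlinarith
    calc (D : ℝ) * (⌈max κ 1 * A⌉₊ : ℝ) ≤ D * (max κ 1 * A + max B 1 * A) :=
          mul_le_mul_of_nonneg_left (by linarith) hDr.le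
      _ = D * (max κ 1 + max B 1) * A := by ring
      _ ≤ ((D : ℝ) ^ D + D * (max κ 1 + max B 1)) * A := by
          refine mul_le_mul_of_nonneg_right ?_ hA.le
          have : 0 ≤ (D : ℝ) ^ D := by positivity
          linarith

end Pool.Agent.PBK
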