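import Pool.Agent.PBK.Lin

/-!
# PBK LATF: the lattice of the integral vectors of a subspace over `K`

Proof. Let `Λ` be the set of all `Z` with `vz ib Z ∈ span_E (w0)`, a `ℤ`-submodule of
`Fin M × Fin d → ℤ`. It is free of finite rank `n` (`Submodule.basisOfPid`, or
`Module.Free`/`Module.Finite` instances), and `n = R * d`: let `F` be the `K`-subspace of `Fin M → K`
spanned by the `w0 i` (as vectors over `K`), of dimension `R` over `K` and `R * d` over `ℚ`
(`Module.finrank_mul_finrank`; `d = finrank ℚ K` because of the basis `ib.ω`). A vector over `K` which is in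
the `E`-span of the `w0 i` is in `F` (linear algebra over `K`: `w0` can be completed to a basis of
`K ^ M`, which stays a basis over `E`; or use a left inverse of `w0` over `K`). The map `Z ↦ vz ib Z` is
injective on `Fin M × Fin d → ℤ` (basis) and `Λ` is its preimage of `F`; the image of `Λ` spans `F` over
`ℚ`: for `x ∈ F` all the coordinates `ib.ω.repr (x j) i ∈ ℚ`, multiply by a common denominator `n` to get
`n x = vz ib Z`. And `ℤ`-linearly independent elements of `Λ` have `ℚ`-linearly independent images
(clear denominators). So a `ℤ`-basis of `Λ` gives a `ℚ`-basis of `F`, and `n = R * d`. Reindex by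
`Fin R × Fin d`.
-/

set_option autoImplicit false

namespace Pool.Agent.PBK

section aux

variable {E : Type*} [Field E] [CharZero E] {K : IntermediateField ℚ E} {d : ℕ}

/-- vectors over `K` from rational coordinates -/
private noncomputable def zq (ib : IB K d) (M : ℕ) : (Fin M × Fin d → ℚ) ≃ₗ[ℚ] (Fin M → K) :=
  (LinearEquiv.curry ℚ ℚ (Fin M) (Fin d)).trans
    (LinearEquiv.piCongrRight fun _ => ib.ω.equivFun.symm)

private theorem zq_apply {M : ℕ} (ib : IB K d) (q : Fin M × Fin d → ℚ) (j : Fin M) :
    zq ib M q j = ∑ i, q (j, i) • ib.ω i :=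
  ib.ω.equivFun_symm_apply _

/-- the inclusion of the integral vectors -/
private def zc (N : Type) : (N → ℤ) →ₗ[ℤ] (N → ℚ) :=
  (Int.castAddHom ℚ).toIntLinearMap.compLeft N

private theorem zc_apply {N : Type} (Z : N → ℤ) (a : N) : zc N Z a = (Z a : ℚ) := rfl

private theorem zc_inj (N : Type) : Function.Injective (zc N) := by
  intro Z Z' h
  funext a
  exact Int.cast_injective (congrFun h a)

private theorem vz_eq {M : ℕ} (ib : IB K d) (Z : Fin M × Fin d → ℤ) :
    vz ib Z = fun j => ((zq ib M (zc _ Z) j : K) : E) := by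
  funext j
  rw [zq_apply]
  change _ = algebraMap K E (∑ i, (zc _ Z) (j, i) • ib.ω i)
  rw [map_sum]
  refine Finset.sum_congr rfl fun i _ => ?_
  rw [zc_apply, Algebra.smul_def, map_mul, ← IsScalarTower.algebraMap_apply ℚ K E, map_intCast]
  rfl

/-- descent of the span -/
private theorem span_desc {M R : ℕ} (w : Fin R → Fin M → K) (x : Fin M → K) :
    (fun j => (x j : E)) ∈ Submodule.span E (Set.range fun i => fun j => (w i j : E)) ↔
      x ∈ Submodule.span K (Set.range w) := by
  constructor
  · intro h
    by_contra hx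
    obtain ⟨f, hf, hle⟩ := Submodule.exists_le_ker_of_notMem hx
    let g : (Fin M → E) →ₗ[E] E := ∑ j, (f (Pi.single j 1) : E) • LinearMap.proj j
    have hg : ∀ y : Fin M → K, g (fun j => (y j : E)) = (f y : E) := by
      intro y
      have h1 : y = ∑ j, y j • (Pi.single j 1 : Fin M → K) := by
        funext l
        rw [Finset.sum_apply, Finset.sum_eq_single l]
        · simp
        · intro b _ hb
          simp [Pi.single_apply, hb.symm]
        · intro h
          exact absurd (Finset.mem_univ l) h
      conv_rhs => rw [h1]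
      rw [map_sum]
      change (∑ j, (f (Pi.single j 1) : E) • (LinearMap.proj j : (Fin M → E) →ₗ[E] E)) _ =
        algebraMap K E _
      rw [map_sum, LinearMap.sum_apply]
      refine Finset.sum_congr rfl fun j _ => ?_
      rw [map_smul, smul_eq_mul, map_mul, LinearMap.smul_apply, smul_eq_mul, mul_comm]
      rfl
    have h2 : Submodule.span E (Set.range fun i => fun j => (w i j : E)) ≤ LinearMap.ker g := by
      rw [Submodule.span_le]
      rintro _ ⟨i, rfl⟩
      change g (fun j => (w i j : E)) = 0
      rw [hg, show f (w i) = 0 from hle (Submodule.subset_span ⟨i, rfl⟩)]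
      rfl
    have h3 : g (fun j => (x j : E)) = 0 := h2 h
    rw [hg] at h3
    exact hf (Subtype.ext h3)
  · intro h
    refine Submodule.span_induction (p := fun x _ => (fun j => (x j : E)) ∈
      Submodule.span E (Set.range fun i => fun j => (w i j : E))) ?_ ?_ ?_ ?_ h
    · rintro _ ⟨i, rfl⟩
      exact Submodule.subset_span ⟨i, rfl⟩
    · exact Submodule.zero_mem _
    · intro y z _ _ hy hz
      exact Submodule.add_mem _ hy hz
    · intro a y _ hy
      exact Submodule.smul_mem _ (a : E) hy

/-- the lattice of the integral points of a rational subspace -/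
private theorem lat_sub {N : Type} [Finite N] (F : Submodule ℚ (N → ℚ)) :
    ∃ e : Fin (Module.finrank ℚ F) → N → ℤ, LinearIndependent ℤ e ∧
      ∀ Z, Z ∈ Submodule.span ℤ (Set.range e) ↔ zc N Z ∈ F := by
  classical
  let Λ : Submodule ℤ (N → ℤ) := (F.restrictScalars ℤ).comap (zc N)
  have hΛ : ∀ Z, Z ∈ Λ ↔ zc N Z ∈ F := fun Z => Iff.rfl
  let b := Module.finBasis ℤ Λ
  let e0 : Fin (Module.finrank ℤ Λ) → N → ℤ := fun i => (b i : N → ℤ)
  have he0 : LinearIndependent ℤ e0 :=
    b.linearIndependent.map' Λ.subtype (Submodule.ker_subtype _)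
  have hsp : Submodule.span ℤ (Set.range e0) = Λ := by
    have h1 : Set.range e0 = Λ.subtype '' Set.range b := by
      rw [← Set.range_comp]
      rfl
    rw [h1, Submodule.span_image, b.span_eq, Submodule.map_top, Submodule.range_subtype]
  have h1 : LinearIndependent ℤ (fun i => zc N (e0 i)) :=
    he0.map' (zc N) (LinearMap.ker_eq_bot.2 (zc_inj N))
  have h2 : LinearIndependent ℚ (fun i => zc N (e0 i)) :=
    (LinearIndependent.iff_fractionRing ℤ ℚ).1 h1
  have h3 : Submodule.span ℚ (Set.range fun i => zc N (e0 i)) = F := by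
    refine le_antisymm ?_ ?_
    · rw [Submodule.span_le]
      rintro _ ⟨i, rfl⟩
      exact (hΛ _).1 (b i).2
    · intro x hx
      obtain ⟨⟨n, hn⟩, hn2⟩ := IsLocalization.exist_integer_multiples_of_finite
        (nonZeroDivisors ℤ) x
      choose Z hZ using hn2
      have hn0 : (n : ℚ) ≠ 0 := by
        exact_mod_cast nonZeroDivisors.ne_zero hn
      have hZx : zc N Z = (n : ℚ) • x := by
        funext a
        have := hZ a
        rw [zc_apply, Pi.smul_apply, smul_eq_mul]
        rw [Algebra.smul_def] at this
        exact this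
      have hZΛ : Z ∈ Submodule.span ℤ (Set.range e0) := by
        rw [hsp, hΛ, hZx]
        exact F.smul_mem _ hx
      have h4 : zc N Z ∈ Submodule.span ℚ (Set.range fun i => zc N (e0 i)) := by
        refine Submodule.span_induction (p := fun Z _ => zc N Z ∈
          Submodule.span ℚ (Set.range fun i => zc N (e0 i))) ?_ ?_ ?_ ?_ hZΛ
        · rintro _ ⟨i, rfl⟩
          exact Submodule.subset_span ⟨i, rfl⟩
        · rw [map_zero]
          exact Submodule.zero_mem _
        · intro y z _ _ hy hz
          rw [map_add]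
          exact Submodule.add_mem _ hy hz
        · intro a y _ hy
          rw [map_smul, ← Int.cast_smul_eq_zsmul ℚ]
          exact Submodule.smul_mem _ _ hy
      rw [hZx] at h4
      have h5 := Submodule.smul_mem _ (n : ℚ)⁻¹ h4
      rwa [smul_smul, inv_mul_cancel₀ hn0, one_smul] at h5
  have h4 : Module.finrank ℚ F = Module.finrank ℤ Λ := by
    have := finrank_span_eq_card h2
    rw [h3, Fintype.card_fin] at this
    exact this
  refine ⟨fun i => e0 (Fin.cast h4 i), he0.comp _ (Fin.cast_injective h4), fun Z => ?_⟩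
  have h5 : Set.range (fun i => e0 (Fin.cast h4 i)) = Set.range e0 := by
    ext y
    constructor
    · rintro ⟨i, rfl⟩
      exact ⟨_, rfl⟩
    · rintro ⟨i, rfl⟩
      exact ⟨Fin.cast h4.symm i, rfl⟩
  rw [h5, hsp]
  exact hΛ Z

/-- the vectors over `K` -/
private def wK {R M : ℕ} (w0 : Fin R → Fin M → E) (hK : ∀ i j, w0 i j ∈ K) : Fin R → Fin M → K :=
  fun i j => ⟨w0 i j, hK i j⟩

private theorem wK_indep {R M : ℕ} (w0 : Fin R → Fin M → E) (hw0 : LinearIndependent E w0)
    (hK : ∀ i j, w0 i j ∈ K) : LinearIndependent K (wK w0 hK) :=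
  (linearIndependent_algebraMap_comp_iff (S := E)).1 hw0

/-- the rational coordinates of the vectors of the space -/
private noncomputable def FQ {M R : ℕ} (ib : IB K d) (w : Fin R → Fin M → K) :
    Submodule ℚ (Fin M × Fin d → ℚ) :=
  ((Submodule.span K (Set.range w)).restrictScalars ℚ).comap (zq ib M).toLinearMap

private theorem mem_FQ {M R : ℕ} (ib : IB K d) (w0 : Fin R → Fin M → E)
    (hK : ∀ i j, w0 i j ∈ K) (Z : Fin M × Fin d → ℤ) :
    vz ib Z ∈ Submodule.span E (Set.range w0) ↔ zc _ Z ∈ FQ ib (wK w0 hK) := by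
  rw [vz_eq]
  exact span_desc (wK w0 hK) (zq ib M (zc _ Z))

private theorem finrank_span_Q [FiniteDimensional ℚ K] {M R : ℕ} (ib : IB K d)
    (w : Fin R → Fin M → K) (hw : LinearIndependent K w) :
    Module.finrank ℚ ((Submodule.span K (Set.range w)).restrictScalars ℚ) = R * d := by
  have h1 : Module.finrank K (Submodule.span K (Set.range w)) = R := by
    rw [finrank_span_eq_card hw, Fintype.card_fin]
  have h2 : Module.finrank ℚ K = d := by
    rw [Module.finrank_eq_card_basis ib.ω, Fintype.card_fin]
  have h3 : Module.finrank ℚ K * Module.finrank K (Submodule.span K (Set.range w)) =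
      Module.finrank ℚ (Submodule.span K (Set.range w)) := Module.finrank_mul_finrank _ _ _
  rw [h1, h2, mul_comm] at h3
  exact h3.symm

private theorem finrank_FQ [FiniteDimensional ℚ K] {M R : ℕ} (ib : IB K d)
    (w : Fin R → Fin M → K) (hw : LinearIndependent K w) :
    Module.finrank ℚ (FQ ib w) = R * d := by
  rw [← finrank_span_Q ib w hw]
  unfold FQ
  have h1 := Submodule.comap_equiv_eq_map_symm (zq ib M)
    ((Submodule.span K (Set.range w)).restrictScalars ℚ)
  rw [h1]
  exact LinearEquiv.finrank_map_eq _ _

end aux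

theorem vz_injective {E : Type*} [Field E] [CharZero E] {K : IntermediateField ℚ E} {d M : ℕ}
    (ib : IB K d) : Function.Injective (vz (M := M) ib) := by
  intro Z Z' h
  rw [vz_eq, vz_eq] at h
  apply zc_inj
  apply (zq ib M).injective
  funext j
  exact Subtype.ext (congrFun h j)

theorem latf {E : Type*} [Field E] [CharZero E] {K : IntermediateField ℚ E}
    [FiniteDimensional ℚ K] {d : ℕ} (ib : IB K d) {R M : ℕ} (w0 : Fin R → Fin M → E)
    (hw0 : LinearIndependent E w0) (hK : ∀ i j, w0 i j ∈ K) :
    ∃ e : Fin R × Fin d → Fin M × Fin d → ℤ, LinearIndependent ℤ e ∧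
      ∀ Z, Z ∈ Submodule.span ℤ (Set.range e) ↔
        vz ib Z ∈ Submodule.span E (Set.range w0) := by
  obtain ⟨e, he, he2⟩ := lat_sub (FQ ib (wK w0 hK))
  have h1 := finrank_FQ ib (wK w0 hK) (wK_indep w0 hw0 hK)
  let t : Fin R × Fin d ≃ Fin (Module.finrank ℚ (FQ ib (wK w0 hK))) :=
    Fintype.equivOfCardEq (by
      rw [Fintype.card_prod, Fintype.card_fin, Fintype.card_fin, Fintype.card_fin, h1])
  refine ⟨fun a => e (t a), he.comp _ t.injective, fun Z => ?_⟩
  have h5 : Set.range (fun i => e (t i)) = Set.range e := t.surjective.range_comp e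
  rw [h5, he2, mem_FQ ib w0 hK]

/-- `R * d` independent integral vectors of the space contain a basis. -/
theorem latf_basis {E : Type*} [Field E] [CharZero E] {K : IntermediateField ℚ E}
    [FiniteDimensional ℚ K] {d : ℕ} (ib : IB K d) {R M : ℕ} (w0 : Fin R → Fin M → E)
    (hw0 : LinearIndependent E w0) (hK : ∀ i j, w0 i j ∈ K)
    (v : Fin R × Fin d → Fin M × Fin d → ℤ) (hv : LinearIndependent ℤ v)
    (hv' : ∀ a, vz ib (v a) ∈ Submodule.span E (Set.range w0)) :
    ∃ b : Fin R → Fin R × Fin d, LinearIndependent E (fun i => vz ib (v (b i))) ∧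
      Submodule.span E (Set.range fun i => vz ib (v (b i))) =
        Submodule.span E (Set.range w0) := by
  classical
  have h1 : LinearIndependent ℚ (fun a => zq ib M (zc _ (v a))) := by
    have h2 : LinearIndependent ℤ (fun a => zc _ (v a)) :=
      hv.map' (zc _) (LinearMap.ker_eq_bot.2 (zc_inj _))
    have h3 : LinearIndependent ℚ (fun a => zc _ (v a)) :=
      (LinearIndependent.iff_fractionRing ℤ ℚ).1 h2
    exact h3.map' (zq ib M).toLinearMap (LinearEquiv.ker _)
  have h2 : Submodule.span ℚ (Set.range fun a => zq ib M (zc _ (v a))) =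
      (Submodule.span K (Set.range (wK w0 hK))).restrictScalars ℚ := by
    refine Submodule.eq_of_le_of_finrank_eq ?_ ?_
    · rw [Submodule.span_le]
      rintro _ ⟨a, rfl⟩
      exact (mem_FQ ib w0 hK (v a)).1 (hv' a)
    · rw [finrank_span_eq_card h1, finrank_span_Q ib _ (wK_indep w0 hw0 hK), Fintype.card_prod,
        Fintype.card_fin, Fintype.card_fin]
  have h3 : Submodule.span E (Set.range fun a => vz ib (v a)) = Submodule.span E (Set.range w0) := by
    refine le_antisymm ?_ ?_
    · rw [Submodule.span_le]
      rintro _ ⟨a, rfl⟩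
      exact hv' a
    · rw [Submodule.span_le]
      rintro _ ⟨i, rfl⟩
      have h4 : wK w0 hK i ∈ Submodule.span ℚ (Set.range fun a => zq ib M (zc _ (v a))) := by
        rw [h2]
        exact Submodule.subset_span (s := Set.range (wK w0 hK)) ⟨i, rfl⟩
      have h5 : ∀ x ∈ Submodule.span ℚ (Set.range fun a => zq ib M (zc _ (v a))),
          (fun j => (x j : E)) ∈ Submodule.span E (Set.range fun a => vz ib (v a)) := by
        intro x hx
        refine Submodule.span_induction (p := fun x _ => (fun j => (x j : E)) ∈
          Submodule.span E (Set.range fun a => vz ib (v a))) ?_ ?_ ?_ ?_ hx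
        · rintro _ ⟨a, rfl⟩
          rw [← vz_eq]
          exact Submodule.subset_span ⟨a, rfl⟩
        · exact Submodule.zero_mem _
        · intro y z _ _ hy hz
          exact Submodule.add_mem _ hy hz
        · intro c y _ hy
          have h6 : (fun j => ((c • y) j : E)) = (c : E) • fun j => (y j : E) := by
            funext j
            change algebraMap K E (c • y j) = (c : E) * algebraMap K E (y j)
            rw [Algebra.smul_def, map_mul, ← IsScalarTower.algebraMap_apply ℚ K E]
            rfl
          rw [h6]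
          exact Submodule.smul_mem _ _ hy
      exact h5 _ h4
  obtain ⟨κ, a, ha, ha2, ha3⟩ := exists_linearIndependent' E (fun a => vz ib (v a))
  have : Finite κ := Finite.of_injective a ha
  let _ : Fintype κ := Fintype.ofFinite κ
  have h4 : Fintype.card κ = R := by
    rw [← finrank_span_eq_card ha3, ha2, h3, finrank_span_eq_card hw0, Fintype.card_fin]
  let t : Fin R ≃ κ := Fintype.equivOfCardEq (by rw [Fintype.card_fin, h4])
  refine ⟨fun i => a (t i), ha3.comp _ t.injective, ?_⟩
  have h5 : Set.range (fun i => vz ib (v (a (t i)))) = Set.range ((fun a => vz ib (v a)) ∘ a) :=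
    t.surjective.range_comp ((fun a => vz ib (v a)) ∘ a)
  rw [h5, ha2, h3]

end Pool.Agent.PBK
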