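import Pool.Agent.PBK.Defs

/-!
# PBK LDEFS: infinitesimal symmetries of one homogeneous map. Definitions.
-/

set_option autoImplicit false

open MvPolynomial

namespace Pool.Agent.PBK

variable {F : Type*} [CommRing F] {R : ℕ}

/-- `A'` is the linear map induced by the linear vector field `A` on the maps `p k`:
`∑ l, (A X)_l * ∂_l p_k = ∑ l, A'_(k l) * p_l`. -/
def IsSym (p : Fin R → MvPolynomial (Fin R) F) (A A' : Matrix (Fin R) (Fin R) F) : Prop :=
  ∀ k : Fin R, ∑ l, (∑ j, C (A l j) * X j) * pderiv l (p k) = ∑ l, C (A' k l) * p l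

theorem isChain_iff {m : ℕ} (p : Fin m → Fin R → MvPolynomial (Fin R) F)
    (A : Fin (m + 1) → Matrix (Fin R) (Fin R) F) :
    IsChain p A ↔ ∀ i : Fin m, IsSym (p i) (A i.castSucc) (A i.succ) := Iff.rfl

/-- `A` is semisimple: no generalised eigenvectors of rank 2. -/
def SemiS (A : Matrix (Fin R) (Fin R) F) : Prop :=
  ∀ (c : F) (u : Fin R → F), ((A - c • 1) ^ 2).mulVec u = 0 → (A - c • 1).mulVec u = 0

end Pool.Agent.PBK
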