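import Pool.Agent.PBK.Defs

/-!
# PBK LIN: maximal minors. Definitions.
-/

set_option autoImplicit false

namespace Pool.Agent.PBK

/-- The minor of the vectors `e a` with the columns `f b`. -/
def mi {ρ ν A : Type*} [Fintype ρ] [DecidableEq ρ] [CommRing A] (e : ρ → ν → A) (f : ρ → ν) : A :=
  Matrix.det (Matrix.of fun a b => e a (f b))

/-- An integral basis of the number field `K ⊆ E` with its conjugates in `E`. -/
structure IB {E : Type*} [Field E] [CharZero E] (K : IntermediateField ℚ E) (d : ℕ) where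
  ω : Module.Basis (Fin d) ℚ K
  int : ∀ i, IsIntegral ℤ (ω i)
  rep : ∀ x : K, IsIntegral ℤ x → ∀ i, ∃ n : ℤ, ω.repr x i = (n : ℚ)
  σ : Fin d → (K →+* E)
  det_ne : Matrix.det (Matrix.of fun s i => σ s (ω i)) ≠ 0
  B : ℝ
  one_le : 1 ≤ B
  bound : ∀ (s : E →+* ℂ) (i : Fin d), ‖s (ω i : E)‖ ≤ B

/-- The vector over `K` with the given integral coordinates. -/
noncomputable def vz {E : Type*} [Field E] [CharZero E] {K : IntermediateField ℚ E} {d M : ℕ} (ib : IB K d)
    (Z : Fin M × Fin d → ℤ) : Fin M → E :=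
  fun j => ∑ i, ((Z (j, i) : ℤ) : E) * (ib.ω i : E)

end Pool.Agent.PBK
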