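import Pool.Agent.PBK.Lin

/-!
# PBK MAXM: the coordinates of a maximal minor dominate

Proof. `v = ∑ a, c a • X a`. Fix `j`. For `b : ρ` let `t b = mi X (Function.update f b j) / mi X f`;
`|t b| ≤ 1` by `hf`. By Cramer's rule the column `j` is the combination of the columns `f b` with
the coefficients `t b`: `X a j = ∑ b, t b * X a (f b)` for all `a` (the square matrix
`Y = (X a (f b))` has determinant `mi X f ≠ 0`, and `Matrix.cramer`:
`Y *ᵥ Matrix.cramer Y x = det Y • x`, `Matrix.cramer Y x b = det (Y.updateCol b x)`,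
here `x a = X a j`). Hence `v j = ∑ b, t b * v (f b)` and `|v j| ≤ ∑ b, |v (f b)|`.
`exists_max_minor`: a finite set of values has a maximum of `|mi X f|`; it is not zero, since linearly
independent vectors have a nonzero maximal minor (rank of the matrix is `card ρ`, choose
`card ρ` linearly independent columns). `ρ → ν` is nonempty for the same reason.
-/

set_option autoImplicit false

namespace Pool.Agent.PBK

theorem maxm {ρ ν : Type} [Fintype ρ] [DecidableEq ρ] [Fintype ν] (X : ρ → ν → ℝ) (f : ρ → ν)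
    (hf : ∀ g, |mi X g| ≤ |mi X f|) (h0 : mi X f ≠ 0) (v : ν → ℝ)
    (hv : v ∈ Submodule.span ℝ (Set.range X)) (j : ν) : |v j| ≤ ∑ b, |v (f b)| := by
  classical
  obtain ⟨c, hc⟩ := (Submodule.mem_span_range_iff_exists_fun ℝ).1 hv
  set Y : Matrix ρ ρ ℝ := Matrix.of fun a b => X a (f b) with hY
  have hYd : Y.det = mi X f := rfl
  set x : ρ → ℝ := fun a => X a j with hx
  have hcr : ∀ b, Matrix.cramer Y x b = mi X (Function.update f b j) := by
    intro b
    rw [Matrix.cramer_apply, mi]
    congr 1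
    ext a b'
    rw [Matrix.updateCol_apply, Matrix.of_apply]
    by_cases h : b' = b
    · subst h
      rw [if_pos rfl, Function.update_self]
    · rw [if_neg h, Function.update_of_ne h, hY, Matrix.of_apply]
  have hmul : ∀ a, ∑ b, X a (f b) * Matrix.cramer Y x b = Y.det * X a j := by
    intro a
    have h1 := congrFun (Matrix.mulVec_cramer Y x) a
    rw [Pi.smul_apply, smul_eq_mul] at h1
    rw [← h1, Matrix.mulVec, dotProduct]
    rfl
  have hvj : ∀ l, v l = ∑ a, c a * X a l := by
    intro l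
    rw [← hc, Finset.sum_apply]
    rfl
  have key : Y.det * v j = ∑ b, Matrix.cramer Y x b * v (f b) := by
    rw [hvj j, Finset.mul_sum]
    simp only [hvj (f _), Finset.mul_sum]
    rw [Finset.sum_comm]
    refine Finset.sum_congr rfl fun a _ => ?_
    have h2 := hmul a
    calc Y.det * (c a * X a j) = c a * (Y.det * X a j) := by ring
      _ = c a * ∑ b, X a (f b) * Matrix.cramer Y x b := by rw [h2]
      _ = ∑ b, Matrix.cramer Y x b * (c a * X a (f b)) := by
        rw [Finset.mul_sum]
        exact Finset.sum_congr rfl fun b _ => by ring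
  have hpos : 0 < |Y.det| := by
    rw [hYd]
    exact abs_pos.2 h0
  have hle : |Y.det| * |v j| ≤ |Y.det| * ∑ b, |v (f b)| := by
    rw [← abs_mul, key]
    refine (Finset.abs_sum_le_sum_abs _ _).trans ?_
    rw [Finset.mul_sum]
    refine Finset.sum_le_sum fun b _ => ?_
    rw [abs_mul, hcr b, hYd]
    exact mul_le_mul_of_nonneg_right (hf _) (abs_nonneg _)
  exact le_of_mul_le_mul_left hle hpos

theorem exists_max_minor {ρ ν : Type} [Fintype ρ] [DecidableEq ρ] [Fintype ν] (X : ρ → ν → ℝ)
    (hX : LinearIndependent ℝ X) : ∃ f : ρ → ν, (∀ g, |mi X g| ≤ |mi X f|) ∧ mi X f ≠ 0 := by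
  classical
  have hex : ∃ g : ρ → ν, mi X g ≠ 0 := by
    have h1 : (Matrix.of X : Matrix ρ ν ℝ).rank = Fintype.card ρ :=
      LinearIndependent.rank_matrix (M := (Matrix.of X : Matrix ρ ν ℝ)) hX
    rw [Matrix.rank_eq_finrank_span_cols] at h1
    obtain ⟨f, hf, hsp, hli⟩ := Submodule.exists_fun_fin_finrank_span_eq ℝ
      (Set.range (Matrix.of X : Matrix ρ ν ℝ).col)
    choose J hJ using hf
    let e : ρ ≃ Fin (Module.finrank ℝ (Submodule.span ℝ (Set.range
      (Matrix.of X : Matrix ρ ν ℝ).col))) := Fintype.equivFinOfCardEq h1.symm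
    refine ⟨fun b => J (e b), fun h2 => ?_⟩
    unfold mi at h2
    have h3 : (Matrix.of fun a b => X a (J (e b)) : Matrix ρ ρ ℝ) =
        (Matrix.of (f ∘ e) : Matrix ρ ρ ℝ).transpose := by
      ext a b
      have := congrFun (hJ (e b)) a
      simpa [Matrix.col, Matrix.transpose] using this
    rw [h3, Matrix.det_transpose] at h2
    have h4 : IsUnit (Matrix.of (f ∘ e) : Matrix ρ ρ ℝ) :=
      Matrix.linearIndependent_rows_iff_isUnit.1 (hli.comp e e.injective)
    rw [Matrix.isUnit_iff_isUnit_det, h2] at h4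
    exact not_isUnit_zero h4
  obtain ⟨g0, hg0⟩ := hex
  haveI : Nonempty (ρ → ν) := ⟨g0⟩
  obtain ⟨f, hf⟩ := Finite.exists_max (fun g : ρ → ν => |mi X g|)
  refine ⟨f, hf, fun h => ?_⟩
  have h1 := hf g0
  rw [h, abs_zero] at h1
  exact hg0 (abs_nonpos_iff.1 h1)

end Pool.Agent.PBK
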