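import Pool.Agent.PBK.Cb
import Pool.Agent.PBK.Blk
import Pool.Agent.PBK.Latf
import Pool.Agent.PBK.Plk

/-!
# PBK MINB: the minors of the integral lattice and the Plücker coordinates

Proof. Let `z a = vz ib (e a)`, with coordinates `z a j = ∑ i, e a (j, i) * ω i` in `K`, in the span of the
`w0 k`; so `z a = ∑ k, c a k • w0 k` with `c a k ∈ K` (a vector over `K` in the `E`-span of
linearly independent vectors over `K` is a `K`-combination, see `latf`). Let `Ω s i = σ s (ω i)`, an
invertible matrix over `E` (`ib.det_ne`). For `s : Fin d` let `ws s k j = σ s (w0 k j)`.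
(1) `σ s (z a j) = ∑ i, e a (j, i) * Ω s i`, so
`e a (j, i) = ∑ s, σ s (z a j) * (Ω⁻¹) i s = ∑ (j', s), Z a (j', s) * Y (j', s) (j, i)` with
`Z a (j, s) = σ s (z a j)`, `Y (j', s) (j, i) = if j' = j then (Ω⁻¹) i s else 0`. By `cb`, for all `f`:
`mi e f = ∑ g, (∏ b, Y (g b) (f b)) * mi Z g` in `E` (`mi` commutes with ring homomorphisms, here
`ℤ → E`: `RingHom.map_det`).
(2) `Z a (j, s) = ∑ k, σ s (c a k) * ws s k j = ∑ (k, s'), X a (k, s') * W (k, s') (j, s)` with
`X a (k, s') = σ s' (c a k)` and `W (k, s') (j, s) = if s' = s then ws s' k j else 0`. By `mi_mul`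
`mi Z g = det X * mi W g`.
(3) By `blk` `mi W g = ∑ J, κ g J * ∏ s, plk (ws s) (J s)`.
So `mi e f = det X * ∑ J, T f J * ∏ s, plk (ws s) (J s)`, where
`T f J = ∑ g, (∏ b, Y (g b) (f b)) * κ g J` depends only on `ib`, `R`, `M`. The vector
`(mi e f)_f` is not zero (`e` is linearly independent over `ℤ`, hence over `ℚ`; `plk_ne_zero`-like
argument), so `det X ≠ 0` and by `absHeight_smul` and `multi` (`J := Fin d`, `σ s := Fin R → Fin M`)
`absHeight (mi e) ≤ ∑ s, absHeight (plk (ws s)) + C`. Finally `absHeight (plk (ws s)) = absHeight (plk w0)`: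
`plk (ws s) J = σ s (plk w0 J)` and both heights are equal to `logHeight / finrank` of the vector
`plk w0` over `K` (`absHeight_eq` in `Pool/Agent/Helper63/WH/Ext.lean`, for the two embeddings
`σ s` and the inclusion of `K` in `E`).
-/

set_option autoImplicit false

namespace Pool.Agent.PBK

open Pool.Agent.Helper63.WH

/-- Linearly independent vectors over a field have a nonzero maximal minor. -/
private theorem minb_exists {F ρ ν : Type*} [Field F] [Fintype ρ] [DecidableEq ρ] [Fintype ν]
    (X : ρ → ν → F) (hX : LinearIndependent F X) : ∃ f : ρ → ν, mi X f ≠ 0 := by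
  classical
  have hr : (Matrix.of X).rank = Fintype.card ρ := LinearIndependent.rank_matrix hX
  have hr2 : (Matrix.of X).transpose.rank = Fintype.card ρ := by rw [Matrix.rank_transpose, hr]
  rw [Matrix.rank_eq_finrank_span_row] at hr2
  obtain ⟨f, hf1, hf2, hf3⟩ := Submodule.exists_fun_fin_finrank_span_eq F
    (Set.range (Matrix.of X).transpose.row)
  choose g hg using hf1
  have hcard : Fintype.card ρ = Fintype.card
      (Fin (Module.finrank F (Submodule.span F (Set.range (Matrix.of X).transpose.row)))) := by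
    rw [Fintype.card_fin, hr2]
  set ε := Fintype.equivOfCardEq hcard with hε
  refine ⟨fun b => g (ε b), ?_⟩
  have h1 : LinearIndependent F (fun b => f (ε b)) := hf3.comp ε ε.injective
  have h2 : (Matrix.of fun a b => X a (g (ε b))).transpose = Matrix.of (fun b => f (ε b)) := by
    ext b a
    have := congrFun (hg (ε b)) a
    exact this
  have h3 : IsUnit (Matrix.of (fun b => f (ε b))) :=
    Matrix.linearIndependent_rows_iff_isUnit.1 h1
  unfold mi
  rw [← Matrix.det_transpose, h2]
  exact ((Matrix.isUnit_iff_isUnit_det _).1 h3).ne_zero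

private theorem minb_map {A A' ρ ν : Type*} [CommRing A] [CommRing A'] [Fintype ρ] [DecidableEq ρ]
    (φ : A →+* A') (X : ρ → ν → A) (f : ρ → ν) : φ (mi X f) = mi (fun a j => φ (X a j)) f := by
  unfold mi
  rw [RingHom.map_det]
  rfl

private theorem minb_plk {A A' : Type*} [CommRing A] [CommRing A'] {R M : ℕ}
    (φ : A →+* A') (w : Fin R → Fin M → A) (J : Fin R → Fin M) :
    φ (plk w J) = plk (fun i j => φ (w i j)) J := by
  unfold plk
  rw [RingHom.map_det]
  rfl

private theorem minb_desc {E : Type*} [Field E] [CharZero E] (K : IntermediateField ℚ E) {R M : ℕ}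
    (w : Fin R → Fin M → K) (hw : LinearIndependent E (fun k j => (w k j : E)))
    (z : Fin M → K)
    (hz : (fun j => (z j : E)) ∈ Submodule.span E (Set.range (fun k j => (w k j : E)))) :
    ∃ c : Fin R → K, ∀ j, z j = ∑ k, c k * w k j := by
  obtain ⟨u, hu⟩ := exists_comb hz
  obtain ⟨J, hJ⟩ := Function.ne_iff.1 (plk_ne_zero hw)
  set A : Matrix (Fin R) (Fin R) K := Matrix.of fun k l => w k (J l) with hA
  have hdet : IsUnit A.det := by
    rw [isUnit_iff_ne_zero]
    intro h
    apply hJ
    have h1 := minb_plk (algebraMap K E) w J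
    have h2 : plk w J = 0 := h
    rw [h2, map_zero] at h1
    exact h1.symm
  have h3 : u = fun k => ((Matrix.vecMul (fun l => z (J l)) A⁻¹ k : K) : E) := by
    have h4 : Matrix.vecMul u (A.map (algebraMap K E)) = fun l => ((z (J l) : K) : E) := by
      funext l
      have := congrFun hu (J l)
      exact this
    have h5 : Matrix.vecMul (fun l => ((z (J l) : K) : E)) (A⁻¹.map (algebraMap K E)) = u := by
      rw [← h4, Matrix.vecMul_vecMul, ← Matrix.map_mul, Matrix.mul_nonsing_inv _ hdet,
        Matrix.map_one _ (map_zero _) (map_one _), Matrix.vecMul_one]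
    rw [← h5]
    funext k
    have h7 := RingHom.map_vecMul (algebraMap K E) A⁻¹ (fun l => z (J l)) k
    exact h7.symm
  refine ⟨Matrix.vecMul (fun l => z (J l)) A⁻¹, fun j => ?_⟩
  apply Subtype.ext
  have h6 := congrFun hu j
  rw [h3] at h6
  rw [← h6]
  simp only [comb]
  push_cast
  rfl

theorem minb {E : Type*} [Field E] [CharZero E] [Algebra.IsAlgebraic ℚ E]
    {K : IntermediateField ℚ E} [FiniteDimensional ℚ K] {d : ℕ} (ib : IB K d) (R M : ℕ) :
    ∃ C : ℝ, 0 ≤ C ∧ ∀ w0 : Fin R → Fin M → E, LinearIndependent E w0 →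
      (∀ i j, w0 i j ∈ K) → ∀ e : Fin R × Fin d → Fin M × Fin d → ℤ, LinearIndependent ℤ e →
      (∀ a, vz ib (e a) ∈ Submodule.span E (Set.range w0)) →
      absHeight (fun f : Fin R × Fin d → Fin M × Fin d => ((mi e f : ℤ) : E)) ≤
        d * absHeight (plk w0) + C := by
  classical
  set Om : Matrix (Fin d) (Fin d) E := Matrix.of fun s i => ib.σ s (ib.ω i) with hOm
  have hOmu : IsUnit Om.det := isUnit_iff_ne_zero.2 ib.det_ne
  set Y : Fin M × Fin d → Fin M × Fin d → E := fun x y => if x.1 = y.1 then Om⁻¹ y.2 x.2 else 0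
    with hY
  choose κ hκ using fun g : Fin R × Fin d → Fin M × Fin d => blk (E := E) g
  obtain ⟨C, hC0, hC⟩ := multi (E := E) (κ := Fin R × Fin d → Fin M × Fin d) (J := Fin d)
    (σ := fun _ => Fin R → Fin M)
    (fun f J => ∑ g : Fin R × Fin d → Fin M × Fin d, (∏ b, Y (g b) (f b)) * κ g J)
  refine ⟨C, hC0, fun w0 hw0 hK e he hv => ?_⟩
  have : NumberField K := { to_charZero := inferInstance, to_finiteDimensional := inferInstance }
  set w : Fin R → Fin M → K := fun i j => ⟨w0 i j, hK i j⟩ with hw
  set z : Fin R × Fin d → Fin M → K := fun a j => ∑ i, ((e a (j, i) : ℤ) : K) * ib.ω i with hz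
  have hz1 : ∀ a, (fun j => (z a j : E)) = vz ib (e a) := by
    intro a
    funext j
    simp [z, vz]
  have hw0' : LinearIndependent E (fun k j => (w k j : E)) := hw0
  have hc : ∀ a, ∃ c : Fin R → K, ∀ j, z a j = ∑ k, c k * w k j := by
    intro a
    apply minb_desc K w hw0' (z a)
    rw [hz1 a]
    exact hv a
  choose c hc using hc
  set ws : Fin d → Fin R → Fin M → E := fun s k j => ib.σ s (w k j) with hws
  set X : Fin R × Fin d → Fin R × Fin d → E := fun a x => ib.σ x.2 (c a x.1) with hX
  set W : Fin R × Fin d → Fin M × Fin d → E := fun a b => if a.2 = b.2 then ws a.2 a.1 b.1 else 0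
    with hW
  set Z : Fin R × Fin d → Fin M × Fin d → E := fun a x => ib.σ x.2 (z a x.1) with hZ
  have e1 : ∀ a y, ((e a y : ℤ) : E) = ∑ x, Z a x * Y x y := by
    intro a y
    rw [Fintype.sum_prod_type]
    simp only [Y, Z, mul_ite, mul_zero]
    rw [Finset.sum_comm]
    simp only [Finset.sum_ite_eq', Finset.mem_univ, if_true]
    simp only [z, map_sum, map_mul, map_intCast, Finset.sum_mul]
    rw [Finset.sum_comm]
    have h1 : ∀ i : Fin d, ∑ s, ((e a (y.1, i) : ℤ) : E) * ib.σ s (ib.ω i) * Om⁻¹ y.2 s =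
        ((e a (y.1, i) : ℤ) : E) * (Om⁻¹ * Om) y.2 i := by
      intro i
      rw [Matrix.mul_apply, Finset.mul_sum]
      refine Finset.sum_congr rfl fun s _ => ?_
      rw [hOm, Matrix.of_apply]
      ring
    rw [Finset.sum_congr rfl fun i _ => h1 i, Matrix.nonsing_inv_mul _ hOmu]
    simp [Matrix.one_apply]
  have e2 : ∀ a x, Z a x = ∑ b, X a b * W b x := by
    intro a x
    rw [Fintype.sum_prod_type]
    simp only [X, W, Z, ws, mul_ite, mul_zero, Finset.sum_ite_eq', Finset.mem_univ, if_true]
    rw [hc a x.1, map_sum]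
    simp only [map_mul]
  have e3 : ∀ f, ((mi e f : ℤ) : E) = Matrix.det (Matrix.of X) *
      ∑ J : Fin d → Fin R → Fin M,
        (∑ g : Fin R × Fin d → Fin M × Fin d, (∏ b, Y (g b) (f b)) * κ g J) *
          ∏ s, plk (ws s) (J s) := by
    intro f
    have h1 : ((mi e f : ℤ) : E) = mi (fun a j => ((e a j : ℤ) : E)) f :=
      minb_map (Int.castRingHom E) e f
    have h2 : (fun a j => ((e a j : ℤ) : E)) = fun a j => ∑ x, Z a x * Y x j := by
      funext a j
      exact e1 a j
    rw [h1, h2, cb]
    have h3 : Z = fun a x => ∑ b, X a b * W b x := by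
      funext a x
      exact e2 a x
    have h4 : ∀ g, mi Z g = Matrix.det (Matrix.of X) * mi W g := by
      intro g
      rw [h3, mi_mul]
    have h5 : ∀ g, mi W g = ∑ J, κ g J * ∏ s, plk (ws s) (J s) := fun g => hκ g ws
    simp only [h4, h5, Finset.mul_sum, Finset.sum_mul]
    rw [Finset.sum_comm]
    refine Finset.sum_congr rfl fun J _ => Finset.sum_congr rfl fun g _ => ?_
    ring
  have hX0 : Matrix.det (Matrix.of X) ≠ 0 := by
    intro h
    have hQ : LinearIndependent ℚ (fun a j => ((e a j : ℤ) : ℚ)) := by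
      rw [← LinearIndependent.iff_fractionRing ℤ ℚ]
      let L : (Fin M × Fin d → ℤ) →ₗ[ℤ] (Fin M × Fin d → ℚ) :=
        { toFun := fun v j => ((v j : ℤ) : ℚ)
          map_add' := fun v v' => by
            funext j
            simp
          map_smul' := fun n v => by
            funext j
            simp }
      refine he.map' L ?_
      rw [LinearMap.ker_eq_bot]
      intro v v' h'
      funext j
      have := congrFun h' j
      exact Int.cast_injective this
    obtain ⟨f, hf⟩ := minb_exists _ hQ
    apply hf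
    have h1 := minb_map (Int.castRingHom ℚ) e f
    have h2 := e3 f
    rw [h, zero_mul] at h2
    have h3 : mi e f = 0 := by exact_mod_cast h2
    rw [h3] at h1
    exact h1.symm
  have hp : plk w0 ≠ 0 := plk_ne_zero hw0
  have hpK : (fun J => plk w J) ≠ 0 := by
    intro h
    apply hp
    funext J
    have h1 := minb_plk (algebraMap K E) w J
    have h2 : plk w J = 0 := congrFun h J
    rw [h2, map_zero] at h1
    exact h1.symm
  have hh : ∀ s, absHeight (plk (ws s)) = absHeight (plk w0) := by
    intro s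
    have h1 := absHeight_eq (ib.σ s) (fun J => plk w J) hpK
    have h2 := absHeight_eq (algebraMap K E) (fun J => plk w J) hpK
    have h3 : plk (ws s) = fun J => ib.σ s (plk w J) := by
      funext J
      exact (minb_plk (ib.σ s) w J).symm
    have h4 : plk w0 = fun J => algebraMap K E (plk w J) := by
      funext J
      exact (minb_plk (algebraMap K E) w J).symm
    rw [h3, h4, h1, h2]
  have hne : ∀ s, plk (ws s) ≠ 0 := by
    intro s h
    apply hpK
    funext J
    have h1 := minb_plk (ib.σ s) w J
    have h2 : plk (ws s) J = 0 := congrFun h J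
    have h3 : ib.σ s (plk w J) = 0 := h1.trans h2
    exact (map_eq_zero _).1 h3
  have h6 : (fun f : Fin R × Fin d → Fin M × Fin d => ((mi e f : ℤ) : E)) =
      Matrix.det (Matrix.of X) • fun f => ∑ J : Fin d → Fin R → Fin M,
        (∑ g : Fin R × Fin d → Fin M × Fin d, (∏ b, Y (g b) (f b)) * κ g J) *
          ∏ s, plk (ws s) (J s) := by
    funext f
    rw [e3 f]
    rfl
  rw [h6, absHeight_smul _ hX0]
  refine (hC (fun s => plk (ws s)) hne).trans ?_
  rw [Finset.sum_congr rfl fun s _ => hh s]
  simp

end Pool.Agent.PBK
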