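import Pool.Agent.PBK.Lin

/-!
# PBK PRIM: the maximal minors of a saturated lattice have no common prime factor

Proof. Assume that the prime `p` divides all the minors `mi e f`. Reduce modulo `p`: all the maximal
minors of the vectors `ē a : ν → ZMod p` vanish, so they are linearly dependent over the field
`ZMod p` (linearly independent vectors over a field have a nonzero maximal minor: the matrix has
rank `card ρ`, so `card ρ` linearly independent columns, and the determinant of these is not zero).
So there are integers `x a`, not all divisible by `p`, such that all the coordinates of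
`v = ∑ a, x a • e a` are divisible by `p`: `v = p • Z`. By saturation `Z` is in the span,
`Z = ∑ a, x' a • e a`, and by linear independence `x a = p * x' a` for all `a`. Contradiction.
-/

set_option autoImplicit false

namespace Pool.Agent.PBK

/-- Independent vectors over a field have a nonzero maximal minor. -/
private theorem prim_minor {ρ ν F : Type} [Fintype ρ] [DecidableEq ρ] [Fintype ν] [Field F]
    (e : ρ → ν → F) (he : LinearIndependent F e) : ∃ f : ρ → ν, mi e f ≠ 0 := by
  classical
  obtain ⟨κ, g, hinj, hspan, hli⟩ := exists_linearIndependent' F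
    (fun w : ν => fun i => e i w)
  have : Finite κ := Finite.of_injective g hinj
  let _ := Fintype.ofFinite κ
  have hrank : Module.finrank F (Submodule.span F (Set.range
      (fun w : ν => fun i => e i w))) = Fintype.card ρ := by
    have h5 : (Matrix.of e).rank = Fintype.card ρ := LinearIndependent.rank_matrix he
    rw [Matrix.rank_eq_finrank_span_cols] at h5
    exact h5
  have hκ : Fintype.card ρ = Fintype.card κ := by
    rw [← hrank, ← hspan]
    exact finrank_span_eq_card hli
  let φ : ρ ≃ κ := Fintype.equivOfCardEq hκ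
  refine ⟨fun i => g (φ i), ?_⟩
  have h6 : LinearIndependent F (fun k : ρ => fun i => e i (g (φ k))) :=
    hli.comp φ φ.injective
  have h7 : LinearIndependent F (Matrix.of fun k i : ρ => e i (g (φ k))).row := h6
  rw [Matrix.linearIndependent_rows_iff_isUnit, Matrix.isUnit_iff_isUnit_det] at h7
  have h8 : (Matrix.of fun i k : ρ => e i (g (φ k))) =
    (Matrix.of fun k i : ρ => e i (g (φ k))).transpose := rfl
  unfold mi
  rw [h8, Matrix.det_transpose]
  exact h7.ne_zero

theorem prim {ρ ν : Type} [Fintype ρ] [DecidableEq ρ] [Fintype ν] (e : ρ → ν → ℤ)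
    (he : LinearIndependent ℤ e)
    (hsat : ∀ (n : ℤ) (Z : ν → ℤ), n ≠ 0 → n • Z ∈ Submodule.span ℤ (Set.range e) →
      Z ∈ Submodule.span ℤ (Set.range e)) (p : ℕ) (hp : p.Prime) :
    ∃ f : ρ → ν, ¬ (p : ℤ) ∣ mi e f := by
  classical
  have : Fact p.Prime := ⟨hp⟩
  by_contra hcon
  push Not at hcon
  have hp0 : (p : ℤ) ≠ 0 := by exact_mod_cast hp.ne_zero
  have hdep : ¬ LinearIndependent (ZMod p) (fun (a : ρ) (j : ν) => ((e a j : ℤ) : ZMod p)) := by
    intro hli
    obtain ⟨f, hf⟩ := prim_minor _ hli
    apply hf
    have h1 : mi (fun (a : ρ) (j : ν) => ((e a j : ℤ) : ZMod p)) f =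
        ((mi e f : ℤ) : ZMod p) := by
      unfold mi
      have h10 := RingHom.map_det (Int.castRingHom (ZMod p)) (Matrix.of fun a b => e a (f b))
      rw [eq_intCast] at h10
      rw [h10]
      rfl
    rw [h1, ZMod.intCast_zmod_eq_zero_iff_dvd]
    exact hcon f
  rw [Fintype.not_linearIndependent_iff] at hdep
  obtain ⟨g, hg, i0, hi0⟩ := hdep
  have h2 : ∀ j, (p : ℤ) ∣ ∑ a, ((g a).val : ℤ) * e a j := by
    intro j
    rw [← ZMod.intCast_zmod_eq_zero_iff_dvd]
    have h3 := congrFun hg j
    rw [Finset.sum_apply, Pi.zero_apply] at h3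
    rw [← h3]
    push_cast
    refine Finset.sum_congr rfl fun a _ => ?_
    rw [ZMod.natCast_val, ZMod.cast_id]
    rfl
  choose Z hZ using h2
  have h4 : (p : ℤ) • Z = ∑ a, ((g a).val : ℤ) • e a := by
    funext j
    rw [Finset.sum_apply]
    simp only [Pi.smul_apply, smul_eq_mul]
    exact (hZ j).symm
  have h5 : Z ∈ Submodule.span ℤ (Set.range e) := by
    refine hsat p Z hp0 ?_
    rw [h4]
    exact Submodule.sum_mem _ fun a _ => Submodule.smul_mem _ _ (Submodule.subset_span ⟨a, rfl⟩)
  obtain ⟨c, hc⟩ := (Submodule.mem_span_range_iff_exists_fun ℤ).1 h5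
  rw [Fintype.linearIndependent_iff] at he
  have h6 : ∑ a, ((g a).val - (p : ℤ) * c a) • e a = 0 := by
    simp only [sub_smul, Finset.sum_sub_distrib, mul_smul]
    rw [← h4, ← Finset.smul_sum, hc, sub_self]
  have h7 := he _ h6 i0
  apply hi0
  have h8 : ((g i0).val : ℤ) = p * c i0 := by linarith
  have h9 : (((g i0).val : ℤ) : ZMod p) = 0 := by
    rw [h8]
    push_cast
    rw [ZMod.natCast_self, zero_mul]
  rw [Int.cast_natCast, ZMod.natCast_val, ZMod.cast_id] at h9
  exact h9

end Pool.Agent.PBK
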