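import Pool.Agent.PBK.Minb
import Pool.Agent.PBK.Prim
import Pool.Agent.PBK.Lat
import Pool.Agent.PBK.Coord
import Pool.Agent.PBK.Ints

/-!
# PBK MINK: a reduced basis of a space over a number field

Proof. Let `d = finrank ℚ K ≥ 1`, `ib : IB K d` (`exists_ib`), `Λ` the lattice of `latf` with the basis
`e`, `D = R * d = card (Fin R × Fin d)`. All the constants `c1, c2, ...` depend only on
`K, ib, R, M, C1`.
(1) For `Z ∈ Λ`, `Z ≠ 0`, `v = vz ib Z` is a nonzero vector of the space with integral coordinates in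
`K`, and `‖s (v j)‖ ≤ d * ib.B * max |Z|` for all `s : E →+* ℂ`, so by `absHeight_le_of_integral`
`b - C1 ≤ absHeight v ≤ log (d * ib.B * max |Z|)` (note `max |Z| ≥ 1`): some `|Z j| ≥ A` with
`A = exp (b - C1) / (d * ib.B)`.
(2) `Λ` is saturated (`vz ib (n • Z) = n • vz ib Z`), so by `prim` and `log_le_absHeight_int`,
`minb`: `log |mi e f| ≤ absHeight (mi e) ≤ d * absHeight (plk w0) + c1 ≤ d * (R * b + C1) + c1` for all
`f`, so `|mi e f| ≤ B * A ^ D` with `B = exp (d * C1 + c1) * (d * ib.B * exp C1) ^ D`.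
(3) Apply `lat` with `B`: it gives `C`, some `f` with `A ^ D ≤ C * |mi e f|`, and linearly independent
`v a ∈ Λ` with `|v a j| ≤ C * A`. By `latf_basis` some `R` of the vectors `vz ib (v a)` are a basis
`w` of the space, with coordinates in `K`, integral, and
`‖s (w i j)‖ ≤ d * ib.B * C * A ≤ c2 * exp b` for all `s`. We have `R * b + C1 ≥ absHeight (plk w0) ≥ 0`, so
`b ≥ - C1 / R`, and with `c3 = max c2 (exp (C1 / R))` we have `c3 * exp b ≥ 1`; so
`absHeight (cc w) ≤ log (c3 * exp b) = b + log c3`.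
(4) `D * log A ≤ log C + log |mi e f| ≤ log C + d * absHeight (plk w0) + c1`; divide by `d`:
`R * (b - C1 - log (d * ib.B)) ≤ absHeight (plk w0) + c4`, and
`absHeight (plk w) = absHeight (plk w0)` (`absHeight_plk_eq`).
-/

set_option autoImplicit false

namespace Pool.Agent.PBK

open Pool.Agent.Helper63.WH

section

variable {E : Type*} [Field E] [CharZero E] {K : IntermediateField ℚ E} {d M : ℕ}

private theorem vz_mem (ib : IB K d) (Z : Fin M × Fin d → ℤ) (j : Fin M) : vz ib Z j ∈ K := by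
  unfold vz
  exact K.sum_mem fun i _ => K.mul_mem (K.intCast_mem _) (ib.ω i).2

private theorem vz_integral (ib : IB K d) (Z : Fin M × Fin d → ℤ) (j : Fin M) :
    IsIntegral ℤ (vz ib Z j) := by
  unfold vz
  refine IsIntegral.sum _ fun i _ => IsIntegral.mul ?_ ?_
  · exact isIntegral_algebraMap (R := ℤ) (A := E) (x := Z (j, i))
  · exact (ib.int i).map (K.val.restrictScalars ℤ)

private theorem vz_smul (ib : IB K d) (n : ℤ) (Z : Fin M × Fin d → ℤ) :
    vz ib (n • Z) = (n : E) • vz ib Z := by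
  funext j
  simp only [vz, Pi.smul_apply, smul_eq_mul, Finset.mul_sum]
  refine Finset.sum_congr rfl fun i _ => ?_
  push_cast
  ring

private theorem vz_bound (ib : IB K d) (Z : Fin M × Fin d → ℤ) {T : ℝ}
    (hT : ∀ j, |((Z j : ℤ) : ℝ)| ≤ T) (s : E →+* ℂ) (j : Fin M) :
    ‖s (vz ib Z j)‖ ≤ d * ib.B * T := by
  unfold vz
  rw [map_sum]
  refine (norm_sum_le _ _).trans ?_
  have h1 : ∀ i ∈ (Finset.univ : Finset (Fin d)),
      ‖s (((Z (j, i) : ℤ) : E) * (ib.ω i : E))‖ ≤ ib.B * T := by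
    intro i _
    rw [map_mul, norm_mul, map_intCast, Complex.norm_intCast, mul_comm]
    exact mul_le_mul (ib.bound s i) (hT _) (abs_nonneg _) (zero_le_one.trans ib.one_le)
  refine (Finset.sum_le_sum h1).trans ?_
  rw [Finset.sum_const, Finset.card_univ, Fintype.card_fin, nsmul_eq_mul]
  exact le_of_eq (by ring)

end

theorem mink {E : Type*} [Field E] [CharZero E] [Algebra.IsAlgebraic ℚ E] [IsAlgClosed E]
    (K : IntermediateField ℚ E) [FiniteDimensional ℚ K] (R M : ℕ) (hR : 1 ≤ R) (C1 : ℝ) :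
    ∃ C2 : ℝ, 0 ≤ C2 ∧ ∀ w0 : Fin R → Fin M → E, LinearIndependent E w0 →
      (∀ i j, w0 i j ∈ K) → ∀ b : ℝ,
      (∀ z ∈ Submodule.span E (Set.range w0), z ≠ 0 → (∀ j, z j ∈ K) → b - C1 ≤ absHeight z) →
      absHeight (plk w0) ≤ R * b + C1 →
      ∃ w : Fin R → Fin M → E, LinearIndependent E w ∧
        Submodule.span E (Set.range w) = Submodule.span E (Set.range w0) ∧
        (∀ i j, w i j ∈ K) ∧ absHeight (cc w) ≤ b + C2 ∧ R * b - C2 ≤ absHeight (plk w) := by
  obtain ⟨ib⟩ := exists_ib K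
  set d : ℕ := Module.finrank ℚ K with hd
  have hd0 : 0 < d := Module.finrank_pos
  have hd1 : (1 : ℝ) ≤ d := by exact_mod_cast hd0
  have hR1 : (1 : ℝ) ≤ R := by exact_mod_cast hR
  obtain ⟨c1, hc1, hminb⟩ := minb ib R M
  set Bd : ℝ := d * ib.B with hBd
  have hBd1 : 1 ≤ Bd := by
    have := ib.one_le
    nlinarith
  have hBd0 : 0 < Bd := by linarith
  set B : ℝ := Real.exp (d * C1 + c1) * (Bd * Real.exp C1) ^ (R * d) with hB
  have hB0 : 0 < B := by positivity
  have : Nonempty (Fin R × Fin d) := ⟨(⟨0, by omega⟩, ⟨0, hd0⟩)⟩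
  obtain ⟨C, hC, hlat⟩ := lat (Fin R × Fin d) (Fin M × Fin d) B hB0
  have hcard : Fintype.card (Fin R × Fin d) = R * d := by simp
  set c3 : ℝ := max (C * Real.exp (-C1)) (Real.exp (C1 / R)) with hc3
  have hc30 : 0 < c3 := lt_max_of_lt_left (by positivity)
  refine ⟨max 0 (max (Real.log c3) (R * (C1 + Real.log Bd) + (Real.log C + c1) / d)),
    le_max_left _ _, fun w0 hw0 hw0K b hb hplk => ?_⟩
  set A : ℝ := Real.exp (b - C1) / Bd with hA
  have hA0 : 0 < A := by positivity
  obtain ⟨e, he, hspan⟩ := latf ib w0 hw0 hw0K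
  have hvz0 : vz (M := M) ib 0 = 0 := by
    funext j
    simp [vz]
  -- (1)
  have h1 : ∀ v ∈ Submodule.span ℤ (Set.range e), v ≠ 0 → ∃ j, A ≤ |((v j : ℤ) : ℝ)| := by
    intro Z hZ hZ0
    have hv0 : vz ib Z ≠ 0 := fun h => hZ0 (vz_injective ib (h.trans hvz0.symm))
    obtain ⟨j0, hj0⟩ := Function.ne_iff.1 hZ0
    have : Nonempty (Fin M × Fin d) := ⟨j0⟩
    obtain ⟨j1, hj1⟩ := Finite.exists_max fun j => |((Z j : ℤ) : ℝ)|
    have hj1' : (1 : ℝ) ≤ |((Z j1 : ℤ) : ℝ)| := by
      refine le_trans ?_ (hj1 j0)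
      rw [← Int.cast_abs]
      exact_mod_cast Int.one_le_abs hj0
    refine ⟨j1, ?_⟩
    have h2 : 1 ≤ Bd * |((Z j1 : ℤ) : ℝ)| := by nlinarith
    have h3 := absHeight_le_of_integral (vz ib Z) (vz_integral ib Z) _ h2
      (fun s j => vz_bound ib Z hj1 s j)
    have h4 := (hb _ ((hspan Z).1 hZ) hv0 (vz_mem ib Z)).trans h3
    have h5 : Real.exp (b - C1) ≤ Bd * |((Z j1 : ℤ) : ℝ)| :=
      (Real.le_log_iff_exp_le (by linarith)).1 h4
    rw [hA, div_le_iff₀ hBd0]
    linarith
  -- (2)
  have hsat : ∀ (n : ℤ) (Z : Fin M × Fin d → ℤ), n ≠ 0 →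
      n • Z ∈ Submodule.span ℤ (Set.range e) → Z ∈ Submodule.span ℤ (Set.range e) := by
    intro n Z hn hZ
    rw [hspan] at hZ ⊢
    rw [vz_smul] at hZ
    have hn' : (n : E) ≠ 0 := by exact_mod_cast hn
    exact (Submodule.smul_mem_iff _ hn').1 hZ
  have hlogmi : ∀ f, Real.log |((mi e f : ℤ) : ℝ)| ≤ d * absHeight (plk w0) + c1 := fun f =>
    (log_le_absHeight_int (E := E) (fun f => mi e f) (fun p hp => prim e he hsat p hp) f).trans
      (hminb w0 hw0 hw0K e he (fun a => (hspan _).1 (Submodule.subset_span ⟨a, rfl⟩)))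
  have hBA : B * A ^ (R * d) = Real.exp (d * (R * b + C1) + c1) := by
    rw [hB, hA, mul_assoc, ← mul_pow]
    have : Bd * Real.exp C1 * (Real.exp (b - C1) / Bd) = Real.exp b := by
      rw [show b = C1 + (b - C1) by ring, Real.exp_add]
      field_simp
      ring_nf
    rw [this, ← Real.exp_nat_mul, ← Real.exp_add]
    congr 1
    push_cast
    ring
  have h2 : ∀ f : Fin R × Fin d → Fin M × Fin d,
      |((mi e f : ℤ) : ℝ)| ≤ B * A ^ Fintype.card (Fin R × Fin d) := by
    intro f
    rw [hcard, hBA]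
    by_cases h0 : mi e f = 0
    · rw [h0]
      simp only [Int.cast_zero, abs_zero]
      positivity
    · have hpos : 0 < |((mi e f : ℤ) : ℝ)| := abs_pos.2 (by exact_mod_cast h0)
      rw [← Real.log_le_iff_le_exp hpos]
      refine (hlogmi f).trans ?_
      gcongr
  obtain ⟨⟨f, hf⟩, v, hv, hvs, hvb⟩ := hlat e he A hA0 h1 h2
  obtain ⟨bi, hbi, hbis⟩ := latf_basis ib w0 hw0 hw0K v hv (fun a => (hspan _).1 (hvs a))
  refine ⟨fun i => vz ib (v (bi i)), hbi, hbis, fun i j => vz_mem ib _ j, ?_, ?_⟩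
  · -- (3)
    have hb0 : 0 ≤ R * b + C1 := (absHeight_nonneg _).trans hplk
    have hge : 1 ≤ c3 * Real.exp b := by
      have h3 : Real.exp (C1 / R) * Real.exp b ≤ c3 * Real.exp b := by
        gcongr
        exact le_max_right _ _
      refine le_trans ?_ h3
      rw [← Real.exp_add, ← Real.exp_zero]
      apply Real.exp_le_exp.2
      have hR0 : (0 : ℝ) < R := by linarith
      have h4 : C1 / R + b = (R * b + C1) / R := by
        field_simp
        ring
      rw [h4]
      positivity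
    have h3 := absHeight_le_of_integral (cc fun i => vz ib (v (bi i)))
      (fun x => vz_integral ib _ _) (c3 * Real.exp b) hge (fun s x => by
        refine (vz_bound ib (v (bi x.1)) (fun j => hvb _ j) s x.2).trans ?_
        have h5 : d * ib.B * (C * A) = C * Real.exp (-C1) * Real.exp b := by
          change Bd * (C * (Real.exp (b - C1) / Bd)) = _
          rw [show b - C1 = -C1 + b by ring, Real.exp_add]
          field_simp
        rw [h5]
        gcongr
        exact le_max_left _ _)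
    rw [Real.log_mul hc30.ne' (Real.exp_pos b).ne', Real.log_exp] at h3
    have h6 : Real.log c3 ≤ max 0 (max (Real.log c3)
      (R * (C1 + Real.log Bd) + (Real.log C + c1) / d)) :=
      (le_max_left _ _).trans (le_max_right _ _)
    linarith
  · -- (4)
    rw [absHeight_plk_eq hbi hw0 hbis]
    rw [hcard] at hf
    have hApos : 0 < A ^ (R * d) := by positivity
    have hmipos : 0 < |((mi e f : ℤ) : ℝ)| := by
      rcases (abs_nonneg ((mi e f : ℤ) : ℝ)).lt_or_eq with h | h
      · exact h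
      · rw [← h, mul_zero] at hf
        linarith
    have h3 := Real.log_le_log hApos hf
    rw [Real.log_pow, Real.log_mul hC.ne' hmipos.ne', hA,
      Real.log_div (Real.exp_pos _).ne' hBd0.ne', Real.log_exp] at h3
    have h4 := hlogmi f
    have h5 : (R : ℝ) * (b - C1 - Real.log Bd) ≤ absHeight (plk w0) + (Real.log C + c1) / d := by
      have hd0' : (0 : ℝ) < d := by linarith
      have h6 : (d : ℝ) * (R * (b - C1 - Real.log Bd)) ≤
          d * (absHeight (plk w0) + (Real.log C + c1) / d) := by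
        have h7 : (d : ℝ) * (absHeight (plk w0) + (Real.log C + c1) / d) =
            d * absHeight (plk w0) + (Real.log C + c1) := by
          field_simp
        rw [h7]
        push_cast at h3
        nlinarith
      exact le_of_mul_le_mul_left h6 hd0'
    have h6 : R * (C1 + Real.log Bd) + (Real.log C + c1) / d ≤ max 0 (max (Real.log c3)
      (R * (C1 + Real.log Bd) + (Real.log C + c1) / d)) :=
      (le_max_right _ _).trans (le_max_right _ _)
    nlinarith

end Pool.Agent.PBK
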