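import Pool.Agent.PBK.Ldefs

/-!
# PBK NIL: nilpotent orbits under a homogeneous map

Proof. Let `U(t) = ∑_{i ≤ d} (t ^ i / i!) • A ^ i u ∈ (E[t]) ^ R` (polynomials in one variable `t`); as
`A ^ (d + 1) u = 0` we have `U' = A U` (derivative). Let `G k = p k (U(t)) ∈ E[t]` (`aeval`). By the chain
rule and `h`: `G' = A' G` (`G k ' = ∑ l, (∂_l p k)(U) * U_l' = ∑ l, (∂_l p k) (U) * (A U)_l =
∑ l, A' k l * G l`, the identity `h` evaluated at `U`). Comparing coefficients: the coefficient vector
of `t ^ i` of `G` is `g i = (1 / i!) • A' ^ i (G at 0)`, and `G k` at `0` is `p k u`. (`(i + 1) * g (i + 1) =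
A' g i`; `g 0 = p(u)`; characteristic `0`.) On the other hand `U` has degree `≤ d` with the leading
coefficients `(1 / d!) • A ^ d u =: v ≠ 0`, so `G k` has degree `≤ q * d` and its coefficient of
`t ^ (q * d)` is `p k v` (`p k` is a form of degree `q`: check on monomials; the coefficient of
`t ^ (n d)` of a product of `n` polynomials of degree `≤ d` is the product of the coefficients of
`t ^ d`), and `p k v ≠ 0` for some `k`. So `A' ^ (q d) p(u) = (q d)! • g (q d) ≠ 0` and
`A' ^ (q d + 1) p(u) = (q d + 1)! • g (q d + 1) = 0`.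
-/

set_option autoImplicit false

open MvPolynomial

namespace Pool.Agent.PBK

variable {E : Type*} [Field E] [CharZero E] {R q : ℕ}

/-- the exponential of the vector field -/
private noncomputable def nU (A : Matrix (Fin R) (Fin R) E) (u : Fin R → E) (d : ℕ) (l : Fin R) :
    Polynomial E :=
  ∑ i ∈ Finset.range (d + 1), Polynomial.C ((Nat.factorial i : E)⁻¹ * (A ^ i).mulVec u l) *
    Polynomial.X ^ i

private theorem pow_vec_zero {A : Matrix (Fin R) (Fin R) E} {u : Fin R → E} {d : ℕ}
    (h2 : (A ^ (d + 1)).mulVec u = 0) {i : ℕ} (hi : d < i) : (A ^ i).mulVec u = 0 := by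
  obtain ⟨m, rfl⟩ : ∃ m, i = m + (d + 1) := ⟨i - (d + 1), by omega⟩
  rw [pow_add, ← Matrix.mulVec_mulVec, h2, Matrix.mulVec_zero]

private theorem nU_coeff {A : Matrix (Fin R) (Fin R) E} {u : Fin R → E} {d : ℕ}
    (h2 : (A ^ (d + 1)).mulVec u = 0) (l : Fin R) (i : ℕ) :
    (nU A u d l).coeff i = (Nat.factorial i : E)⁻¹ * (A ^ i).mulVec u l := by
  unfold nU
  rw [Polynomial.finsetSum_coeff]
  simp only [Polynomial.coeff_C_mul, Polynomial.coeff_X_pow, mul_ite, mul_one, mul_zero]
  by_cases hi : i ∈ Finset.range (d + 1)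
  · rw [Finset.sum_ite_eq (Finset.range (d + 1)) i, if_pos hi]
  · rw [Finset.sum_ite_eq (Finset.range (d + 1)) i, if_neg hi]
    rw [Finset.mem_range, not_lt] at hi
    rw [pow_vec_zero h2 hi, Pi.zero_apply, mul_zero]

private theorem nU_degree (A : Matrix (Fin R) (Fin R) E) (u : Fin R → E) (d : ℕ) (l : Fin R) :
    (nU A u d l).natDegree ≤ d := by
  unfold nU
  refine Polynomial.natDegree_sum_le_of_forall_le _ _ fun i hi => ?_
  rw [Finset.mem_range] at hi
  exact (Polynomial.natDegree_C_mul_X_pow_le _ _).trans (by omega)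

private theorem nU_deriv {A : Matrix (Fin R) (Fin R) E} {u : Fin R → E} {d : ℕ}
    (h2 : (A ^ (d + 1)).mulVec u = 0) (l : Fin R) :
    Polynomial.derivative (nU A u d l) = ∑ j, Polynomial.C (A l j) * nU A u d j := by
  ext i
  rw [Polynomial.coeff_derivative, nU_coeff h2, Polynomial.finsetSum_coeff]
  simp only [Polynomial.coeff_C_mul, nU_coeff h2]
  have e1 : (A ^ (i + 1)).mulVec u l = ∑ j, A l j * (A ^ i).mulVec u j := by
    rw [pow_succ', ← Matrix.mulVec_mulVec]
    rfl
  have h3 : (Nat.factorial i : E) ≠ 0 := Nat.cast_ne_zero.2 (Nat.factorial_ne_zero i)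
  have h4 : ((i : E) + 1) ≠ 0 := by
    have := Nat.cast_ne_zero (R := E).2 (Nat.succ_ne_zero i)
    push_cast at this
    exact this
  rw [e1, Nat.factorial_succ]
  push_cast
  rw [mul_inv]
  calc ((i : E) + 1)⁻¹ * (Nat.factorial i : E)⁻¹ * (∑ j, A l j * (A ^ i).mulVec u j) * (i + 1)
      = (Nat.factorial i : E)⁻¹ * (∑ j, A l j * (A ^ i).mulVec u j) * (((i : E) + 1)⁻¹ * (i + 1)) := by
        ring
    _ = ∑ j, A l j * ((Nat.factorial i : E)⁻¹ * (A ^ i).mulVec u j) := by
        rw [inv_mul_cancel₀ h4, mul_one, Finset.mul_sum]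
        refine Finset.sum_congr rfl fun j _ => ?_
        ring

/-- chain rule -/
private theorem nil_chain (U : Fin R → Polynomial E) (P : MvPolynomial (Fin R) E) :
    Polynomial.derivative (aeval U P) =
      ∑ l, Polynomial.derivative (U l) * aeval U (pderiv l P) := by
  induction P using MvPolynomial.induction_on with
  | C a =>
    rw [aeval_C]
    simp only [pderiv_C, map_zero, mul_zero, Finset.sum_const_zero]
    exact Polynomial.derivative_C
  | add P Q hP hQ =>
    rw [map_add, map_add, hP, hQ, ← Finset.sum_add_distrib]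
    refine Finset.sum_congr rfl fun l _ => ?_
    rw [map_add, map_add, mul_add]
  | mul_X P i hP =>
    rw [map_mul, aeval_X, Polynomial.derivative_mul, hP]
    have e : ∀ l, Polynomial.derivative (U l) * aeval U (pderiv l (P * X i)) =
        Polynomial.derivative (U l) * aeval U (pderiv l P) * U i +
          (if i = l then aeval U P * Polynomial.derivative (U i) else 0) := by
      intro l
      rw [Derivation.leibniz, pderiv_X]
      by_cases hl : i = l
      · subst hl
        rw [if_pos rfl]
        simp only [Pi.single_eq_same, smul_eq_mul, map_add, map_mul, aeval_X, mul_one]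
        ring
      · rw [if_neg hl, Pi.single_eq_of_ne hl]
        simp only [smul_eq_mul, mul_zero, zero_add, map_mul, aeval_X, add_zero]
        ring
    simp only [e, Finset.sum_add_distrib]
    rw [Finset.sum_ite_eq Finset.univ i, if_pos (Finset.mem_univ i), Finset.sum_mul]

private theorem nil_prod {U : Fin R → Polynomial E} {d : ℕ} (hU : ∀ l, (U l).natDegree ≤ d)
    (s : Fin R →₀ ℕ) (S : Finset (Fin R)) :
    (∏ l ∈ S, U l ^ s l).natDegree ≤ (∑ l ∈ S, s l) * d ∧
      (∏ l ∈ S, U l ^ s l).coeff ((∑ l ∈ S, s l) * d) = ∏ l ∈ S, (U l).coeff d ^ s l := by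
  classical
  induction S using Finset.induction_on with
  | empty => simp
  | insert a S ha ih =>
    rw [Finset.prod_insert ha, Finset.sum_insert ha, Finset.prod_insert ha, add_mul]
    have h1 : (U a ^ s a).natDegree ≤ s a * d :=
      Polynomial.natDegree_pow_le_of_le (s a) (hU a)
    refine ⟨Polynomial.natDegree_mul_le_of_le h1 ih.1, ?_⟩
    rw [Polynomial.coeff_mul_add_eq_of_natDegree_le h1 ih.1, ih.2,
      Polynomial.coeff_pow_of_natDegree_le (hU a)]

private theorem nil_hom {U : Fin R → Polynomial E} {d : ℕ} (hU : ∀ l, (U l).natDegree ≤ d)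
    {P : MvPolynomial (Fin R) E} (hP : P.IsHomogeneous q) :
    (aeval U P).natDegree ≤ q * d ∧
      (aeval U P).coeff (q * d) = eval (fun l => (U l).coeff d) P := by
  have hq : ∀ s ∈ P.support, ∑ l ∈ s.support, s l = q := by
    intro s hs
    by_contra hne
    exact mem_support_iff.1 hs (hP.coeff_eq_zero hne)
  have e1 : aeval U P = ∑ s ∈ P.support,
      Polynomial.C (coeff s P) * ∏ l ∈ s.support, U l ^ s l := by
    conv_lhs => rw [P.as_sum, map_sum]
    refine Finset.sum_congr rfl fun s _ => ?_
    rw [aeval_monomial]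
    rfl
  constructor
  · rw [e1]
    refine Polynomial.natDegree_sum_le_of_forall_le _ _ fun s hs => ?_
    have h1 := (nil_prod hU s s.support).1
    rw [hq s hs] at h1
    exact (Polynomial.natDegree_C_mul_le _ _).trans h1
  · rw [e1, Polynomial.finsetSum_coeff, eval_eq]
    refine Finset.sum_congr rfl fun s hs => ?_
    have h1 := (nil_prod hU s s.support).2
    rw [hq s hs] at h1
    rw [Polynomial.coeff_C_mul, h1]

theorem nil_orbit (p : Fin R → MvPolynomial (Fin R) E) (hp : ∀ i, (p i).IsHomogeneous q)
    (h0 : NoZero p) (A A' : Matrix (Fin R) (Fin R) E) (h : IsSym p A A') (u : Fin R → E) (d : ℕ)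
    (h1 : (A ^ d).mulVec u ≠ 0) (h2 : (A ^ (d + 1)).mulVec u = 0) :
    (A' ^ (q * d)).mulVec (fun k => eval u (p k)) ≠ 0 ∧
      (A' ^ (q * d + 1)).mulVec (fun k => eval u (p k)) = 0 := by
  set U := nU A u d with hUdef
  have hU : ∀ l, (U l).natDegree ≤ d := nU_degree A u d
  set G : Fin R → Polynomial E := fun k => aeval U (p k) with hG
  have hder : ∀ k, Polynomial.derivative (G k) = ∑ l, Polynomial.C (A' k l) * G l := by
    intro k
    have e1 := congrArg (aeval U) (h k)
    rw [map_sum, map_sum] at e1
    rw [hG]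
    simp only
    rw [nil_chain]
    have e2 : ∀ l, Polynomial.derivative (U l) * aeval U (pderiv l (p k)) =
        aeval U ((∑ j, C (A l j) * X j) * pderiv l (p k)) := by
      intro l
      rw [map_mul, map_sum, hUdef, nU_deriv h2]
      congr 1
      refine Finset.sum_congr rfl fun j _ => ?_
      rw [map_mul, aeval_X, aeval_C]
      rfl
    rw [Finset.sum_congr rfl fun l _ => e2 l, e1]
    refine Finset.sum_congr rfl fun l _ => ?_
    rw [map_mul, aeval_C]
    rfl
  have hrec : ∀ (i : ℕ) (k : Fin R), ((i : E) + 1) * (G k).coeff (i + 1) = ∑ l, A' k l * (G l).coeff i := by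
    intro i k
    have e1 : (Polynomial.derivative (G k)).coeff i =
        (∑ l, Polynomial.C (A' k l) * G l).coeff i := by rw [hder k]
    rw [Polynomial.coeff_derivative, Polynomial.finsetSum_coeff] at e1
    simp only [Polynomial.coeff_C_mul] at e1
    rw [← e1]
    ring
  have hzero : (fun k => (G k).coeff 0) = fun k => eval u (p k) := by
    funext k
    have e1 : (G k).coeff 0 = Polynomial.constantCoeff (aeval U (p k)) := rfl
    rw [e1]
    have e2 : ∀ P : MvPolynomial (Fin R) E, Polynomial.constantCoeff (aeval U P) = eval u P := by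
      intro P
      induction P using MvPolynomial.induction_on with
      | C a =>
        rw [aeval_C, eval_C]
        simp
      | add P Q hP hQ => rw [map_add, map_add, map_add, hP, hQ]
      | mul_X P i hP =>
        rw [map_mul, map_mul, map_mul, hP, aeval_X, eval_X]
        congr 1
        show (U i).coeff 0 = u i
        rw [hUdef, nU_coeff h2]
        simp
    exact e2 (p k)
  have hpow : ∀ i, (fun k => (Nat.factorial i : E) * (G k).coeff i) =
      (A' ^ i).mulVec (fun k => eval u (p k)) := by
    intro i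
    induction i with
    | zero =>
      rw [pow_zero, Matrix.one_mulVec, ← hzero]
      funext k
      simp
    | succ i ih =>
      rw [pow_succ', ← Matrix.mulVec_mulVec, ← ih]
      funext k
      rw [Nat.factorial_succ]
      show (((i + 1) * Nat.factorial i : ℕ) : E) * (G k).coeff (i + 1) =
        ∑ l, A' k l * ((Nat.factorial i : E) * (G l).coeff i)
      push_cast
      calc ((i : E) + 1) * (Nat.factorial i : E) * (G k).coeff (i + 1)
          = (Nat.factorial i : E) * (((i : E) + 1) * (G k).coeff (i + 1)) := by ring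
        _ = ∑ l, A' k l * ((Nat.factorial i : E) * (G l).coeff i) := by
            rw [hrec, Finset.mul_sum]
            refine Finset.sum_congr rfl fun l _ => ?_
            ring
  constructor
  · rw [← hpow]
    intro h3
    set v : Fin R → E := fun l => (U l).coeff d with hv
    have hv0 : v ≠ 0 := by
      intro h4
      apply h1
      funext l
      have h5 := congrFun h4 l
      rw [hv, hUdef] at h5
      simp only [nU_coeff h2, Pi.zero_apply, mul_eq_zero, inv_eq_zero] at h5
      rcases h5 with h5 | h5
      · exact absurd h5 (Nat.cast_ne_zero.2 (Nat.factorial_ne_zero d))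
      · exact h5
    obtain ⟨k, hk⟩ := h0 v hv0
    have h6 := congrFun h3 k
    simp only [Pi.zero_apply, mul_eq_zero] at h6
    rcases h6 with h6 | h6
    · exact absurd h6 (Nat.cast_ne_zero.2 (Nat.factorial_ne_zero _))
    · rw [(nil_hom hU (hp k)).2] at h6
      exact hk h6
  · rw [← hpow]
    funext k
    have h7 := (nil_hom hU (hp k)).1
    rw [Polynomial.coeff_eq_zero_of_natDegree_lt (Nat.lt_succ_of_le h7), mul_zero]
    rfl

end Pool.Agent.PBK
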