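import Pool.Agent.PBK.Defs

/-!
# PBK NORTH: Northcott's theorem up to multiples

Proof. `K` is a number field. Let `T` be the set of the vectors `v : κ → E` with coordinates in `K`,
with some coordinate equal to `1`, and with `logHeight₁ (v k) ≤ B * finrank ℚ K` for all `k`
(`logHeight₁` over `K`). It is finite: `NumberField.finite_setOfPred_logHeight₁_le` (Mathlib,
`NumberTheory/Height/NumberField.lean`) and `Set.Finite.pi`. If `z ≠ 0` is proportional to a vector `x`
over `K`, choose `k0` with `x k0 ≠ 0` and let `v k = x k / x k0`. Then `absHeight z = absHeight x`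
(`absHeight_smul`) `= logHeight x / finrank ℚ K` (`aapi_eq` in `Pool/Agent/Helper63/WH/Aapi.lean`), and
`logHeight₁ (x k / x k0) ≤ logHeight x`: `logHeight₁ (x k / x k0) = logHeight ![x k, x k0]`
(Mathlib: `Height.logHeight₁_div_eq_logHeight` or the multiplicative version) and the height of a
subfamily is at most the height of the family (Mathlib has `mulHeight_comp_le` or similar; else it
is clear from the definition by products over the places).
-/

set_option autoImplicit false

open MvPolynomial

namespace Pool.Agent.PBK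

open Pool.Agent.Helper63.WH

variable {E : Type*} [Field E] [CharZero E] [Algebra.IsAlgebraic ℚ E]

omit [Algebra.IsAlgebraic ℚ E] in
/-- the height of a quotient of two coordinates -/
private theorem nth_div (K : IntermediateField ℚ E) [NumberField K] {κ : Type} [Finite κ]
    (x : κ → K) (k k0 : κ) :
    Height.logHeight₁ (x k / x k0) ≤ Height.logHeight x := by
  rw [Height.logHeight₁_div_eq_logHeight]
  have h1 : (![x k, x k0] : Fin 2 → K) = x ∘ ![k, k0] := by
    funext i
    fin_cases i <;> rfl
  rw [h1]
  exact Height.logHeight_comp_le _ _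

omit [Algebra.IsAlgebraic ℚ E] in
private theorem nth_fin (K : IntermediateField ℚ E) [NumberField K] {κ : Type} [Finite κ]
    (B : ℝ) : {v : κ → K | ∀ k, Height.logHeight₁ (v k) ≤ B}.Finite := by
  have h1 : {v : κ → K | ∀ k, v k ∈ {a : K | Height.logHeight₁ a ≤ B}}.Finite :=
    Set.Finite.pi' fun _ => NumberField.finite_setOfPred_logHeight₁_le K B
  exact h1.subset fun v hv k => hv k

theorem north (K : IntermediateField ℚ E) [FiniteDimensional ℚ K] {κ : Type} [Finite κ] (B : ℝ) :
    ∃ T : Set (κ → E), T.Finite ∧ (∀ v ∈ T, v ≠ 0) ∧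
      ∀ z : κ → E, z ≠ 0 → (∃ c : E, c ≠ 0 ∧ ∀ k, c * z k ∈ K) → absHeight z ≤ B →
        ∃ v ∈ T, ∃ c : E, c ≠ 0 ∧ z = c • v := by
  have : NumberField K := { to_charZero := inferInstance, to_finiteDimensional := inferInstance }
  refine ⟨(fun v : κ → K => fun k => (v k : E)) ''
    ({v : κ → K | ∀ k, Height.logHeight₁ (v k) ≤ B * Module.finrank ℚ K} ∩ {v | v ≠ 0}),
    ((nth_fin K _).inter_of_left _).image _, ?_, ?_⟩
  · rintro _ ⟨v, ⟨-, hv⟩, rfl⟩ h
    apply hv
    funext k
    exact Subtype.ext (congrFun h k)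
  · rintro z hz ⟨c, hc, hcz⟩ hB
    obtain ⟨x, hx⟩ : ∃ x : κ → K, ∀ k, (x k : E) = c * z k :=
      ⟨fun k => ⟨c * z k, hcz k⟩, fun k => rfl⟩
    obtain ⟨k0, hk0⟩ := Function.ne_iff.1 hz
    have hzk0 : z k0 ≠ 0 := hk0
    have hxk0 : x k0 ≠ 0 := by
      intro h
      have h1 := hx k0
      rw [h] at h1
      exact (mul_ne_zero hc hzk0) h1.symm
    have hx0 : x ≠ 0 := fun h => hxk0 (congrFun h k0)
    have h1 : (fun k => (x k : E)) = c • z := funext fun k => hx k
    have h2 : absHeight z = Height.logHeight x / Module.finrank ℚ K := by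
      rw [← absHeight_smul c hc z, ← h1]
      exact aapi_eq K x hx0
    have hd : (0 : ℝ) < Module.finrank ℚ K := by
      exact_mod_cast Module.finrank_pos (R := ℚ) (M := K)
    rw [h2, div_le_iff₀ hd] at hB
    refine ⟨_, ⟨fun k => x k / x k0, ⟨fun k => (nth_div K x k k0).trans hB, ?_⟩, rfl⟩, z k0, hzk0,
      ?_⟩
    · intro h
      have h3 := congrFun h k0
      simp only [Pi.zero_apply] at h3
      rw [div_self hxk0] at h3
      exact one_ne_zero h3
    · funext k
      have h4 : ((x k / x k0 : K) : E) = (x k : E) / (x k0 : E) := by push_cast; rfl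
      rw [Pi.smul_apply, smul_eq_mul]
      change z k = z k0 * ((x k / x k0 : K) : E)
      rw [h4, hx, hx]
      field_simp

end Pool.Agent.PBK
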