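import Pool.Agent.PBK.Bidec
import Pool.Agent.PBK.Plk

/-!
# PBK NULLB: bihomogeneous Nullstellensatz on the bundle

Proof. Let `Ω` be the set of all points `pt z y`, `y ∈ S.Wc`, `z ∈ S.fib y`, `I` the ideal of all
polynomials in `MvPolynomial (Fin M ⊕ Fin N) E` vanishing on `Ω`, and `I'` the ideal generated by `I` and
all the `S.P k j`.

(1) Let `pt z y` be a common zero of `I'` with `z ≠ 0`, `y ≠ 0`. Then `y ∈ S.Wc`: by `W_closed`, as the
forms in `y` vanishing on `S.Wc` give (rename by `Sum.inr`) elements of `I`. And `z ∈ S.fib y`: otherwise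
choose `R = S.R` columns `S.col y (j_1), ..., S.col y (j_R)` which are a basis of `S.fib y` (`rank`; a
spanning family contains a basis, e.g. `exists_linearIndependent`); together with `z` they are `R + 1`
linearly independent vectors of `E ^ M`, so some `(R + 1)`-minor (rows `i_0, ..., i_R`) of the
matrix with the columns `z, S.col y j_1, ..., S.col y j_R` is not zero (linearly independent vectors have a
nonzero maximal minor: the rank of the transposed matrix is `R + 1`, choose `R + 1` independent rows).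
This minor is the value at `pt z y` of the polynomial `D = det` of the matrix with the entries `X (inl i_a)`
and `rename Sum.inr (S.B j_b i_a)`, and `D ∈ I`: for `pt z' y' ∈ Ω` the `R + 1` columns are in
`S.fib y'`, of dimension `R`, so they are linearly dependent and the minor vanishes. Contradiction. So
`pt z y ∈ Ω`, and by `P_ne` some `S.P k j` does not vanish there: contradiction.

(2) So the polynomial `X (inl i) * X (inr l)` vanishes at all common zeros of `I'`; by the
Nullstellensatz (`MvPolynomial.vanishingIdeal_zeroLocus_eq_radical`) a power is in `I'`, and there is one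
exponent `L ≥ S.q, S.m` for all `i, l`: `(X (inl i) * X (inr l)) ^ L = F + ∑ k, ∑ j, g k j * S.P k j` with
`F ∈ I`. Take the part of bidegree `(L, L)` (`weightedHomogeneousComponent (bw _ _) (L, L)`): the
left side is of bidegree `(L, L)`, the part of `g k j * S.P k j` is (part of `g k j` of bidegree
`(L - q, L - m)`) `* S.P k j`, and the part of `F` vanishes on `Ω` by `bidec`, because `Ω` is stable
under `(z, y) ↦ (s z, t y)`, `s, t ≠ 0` (`fib_smul`; `E` is infinite as it is algebraically closed).
Evaluate at the points of `Ω`.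
-/

set_option autoImplicit false

open MvPolynomial

namespace Pool.Agent.PBK

private theorem nb_comp {E : Type*} [Field E] {α β : Type} (Q P : MvPolynomial (α ⊕ β) E)
    {q m L L' : ℕ} (hP : IsBihom P q m) (hq : q ≤ L) (hm : m ≤ L') :
    weightedHomogeneousComponent (bw α β) (L, L') (Q * P) =
      weightedHomogeneousComponent (bw α β) (L - q, L' - m) Q * P := by
  classical
  ext d
  rw [coeff_weightedHomogeneousComponent, coeff_mul, coeff_mul]
  split_ifs with h
  · refine Finset.sum_congr rfl fun x hx => ?_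
    rw [Finset.HasAntidiagonal.mem_antidiagonal] at hx
    rw [coeff_weightedHomogeneousComponent]
    by_cases h0 : coeff x.2 P = 0
    · rw [h0, mul_zero, mul_zero]
    · have h1 := hP h0
      have h2 : Finsupp.weight (bw α β) x.1 = (L - q, L' - m) := by
        have h3 : Finsupp.weight (bw α β) x.1 + Finsupp.weight (bw α β) x.2 = (L, L') := by
          rw [← map_add, hx, h]
        rw [h1] at h3
        have h4 := congrArg Prod.fst h3
        have h5 := congrArg Prod.snd h3
        simp only [Prod.fst_add, Prod.snd_add] at h4 h5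
        refine Prod.ext ?_ ?_
        · show _ = L - q
          omega
        · show _ = L' - m
          omega
      rw [if_pos h2]
  · symm
    refine Finset.sum_eq_zero fun x hx => ?_
    rw [Finset.HasAntidiagonal.mem_antidiagonal] at hx
    rw [coeff_weightedHomogeneousComponent]
    by_cases h0 : coeff x.2 P = 0
    · rw [h0, mul_zero]
    · have h1 := hP h0
      rw [if_neg, zero_mul]
      intro h2
      apply h
      rw [← hx, map_add, h1, h2]
      refine Prod.ext ?_ ?_
      · show L - q + q = L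
        omega
      · show L' - m + m = L'
        omega

private theorem nb_bas {E V : Type*} [Field E] [AddCommGroup V] [Module E V]
    [FiniteDimensional E V] {s R : ℕ} (v : Fin s → V)
    (h : Module.finrank E (Submodule.span E (Set.range v)) = R) :
    ∃ j : Fin R → Fin s, LinearIndependent E (fun a => v (j a)) ∧
      Submodule.span E (Set.range fun a => v (j a)) = Submodule.span E (Set.range v) := by
  classical
  obtain ⟨b, hb1, hb2, hb3⟩ := exists_linearIndependent E (Set.range v)
  have hfin : b.Finite := (Set.finite_range v).subset hb1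
  have := hfin.fintype
  have hcard : Fintype.card b = R := by
    rw [← h, ← hb2, finrank_span_set_eq_card hb3, Set.toFinset_card]
  obtain ⟨e⟩ : Nonempty (Fin R ≃ b) := ⟨(Fintype.equivFinOfCardEq hcard).symm⟩
  choose j hj using fun a : Fin R => hb1 (e a).2
  refine ⟨j, ?_, ?_⟩
  · have h1 : (fun a => v (j a)) = (fun x : b => (x : V)) ∘ e := funext hj
    rw [h1]
    exact hb3.comp e e.injective
  · have h1 : (fun a => v (j a)) = (fun x : b => (x : V)) ∘ e := funext hj
    rw [h1, Set.range_comp, e.range_eq_univ, Set.image_univ, Subtype.range_coe, hb2]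

variable {E : Type*} [Field E] [IsAlgClosed E] {M N s nP nG : ℕ} {S : Sys E M N s nP nG}

/-- The minors. -/
private noncomputable def nbD (S : Sys E M N s nP nG) (j : Fin S.R → Fin s)
    (J : Fin (S.R + 1) → Fin M) : MvPolynomial (Fin M ⊕ Fin N) E :=
  Matrix.det (Matrix.of fun a b : Fin (S.R + 1) =>
    (Fin.cons (fun i => X (Sum.inl i)) (fun a i => rename Sum.inr (S.B (j a) i)) :
      Fin (S.R + 1) → Fin M → MvPolynomial (Fin M ⊕ Fin N) E) a (J b))

omit [IsAlgClosed E] in
private theorem nbD_eval (j : Fin S.R → Fin s) (J : Fin (S.R + 1) → Fin M) (z : Fin M → E)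
    (y : Fin N → E) : eval (pt z y) (nbD S j J) =
      plk (Fin.cons z (fun a => S.col y (j a)) : Fin (S.R + 1) → Fin M → E) J := by
  unfold nbD plk
  rw [RingHom.map_det]
  congr 1
  ext a b
  rw [RingHom.mapMatrix_apply, Matrix.map_apply, Matrix.of_apply, Matrix.of_apply]
  refine Fin.cases ?_ (fun a => ?_) a
  · rw [Fin.cons_zero, Fin.cons_zero, eval_X]
    rfl
  · rw [Fin.cons_succ, Fin.cons_succ, eval_rename]
    rfl

omit [IsAlgClosed E] in
private theorem nb_plk_zero {R : ℕ} (v : Fin (R + 1) → Fin M → E)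
    (U : Submodule E (Fin M → E)) (hU : Module.finrank E U = R) (hv : ∀ a, v a ∈ U)
    (J : Fin (R + 1) → Fin M) : plk v J = 0 := by
  by_contra hne
  have h1 : LinearIndependent E (Matrix.of fun a b : Fin (R + 1) => v a (J b)).row :=
    Matrix.linearIndependent_rows_of_det_ne_zero hne
  have h2 : LinearIndependent E v :=
    LinearIndependent.of_comp (LinearMap.funLeft E E J) h1
  have h3 := finrank_span_eq_card h2
  have h4 : Submodule.span E (Set.range v) ≤ U := by
    rw [Submodule.span_le]
    rintro _ ⟨a, rfl⟩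
    exact hv a
  have h5 := Submodule.finrank_mono h4
  rw [h3, hU, Fintype.card_fin] at h5
  omega

theorem nullb (hS : S.Good) :
    ∃ (L : ℕ) (g : Fin M → Fin N → Fin nP → Fin M → MvPolynomial (Fin M ⊕ Fin N) E),
      S.q ≤ L ∧ S.m ≤ L ∧ (∀ i l k j, IsBihom (g i l k j) (L - S.q) (L - S.m)) ∧
      ∀ y ∈ S.Wc, ∀ z ∈ S.fib y, ∀ i l,
        (z i * y l) ^ L = ∑ k, ∑ j, eval (pt z y) (g i l k j) * S.Pv k z y j := by
  classical
  have : Infinite E := IsAlgClosed.instInfinite
  obtain ⟨Om, hOm⟩ : ∃ Om : Set (Fin M ⊕ Fin N → E),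
      Om = {p | ∃ y ∈ S.Wc, ∃ z ∈ S.fib y, p = pt z y} := ⟨_, rfl⟩
  obtain ⟨I, hI⟩ : ∃ I : Ideal (MvPolynomial (Fin M ⊕ Fin N) E), I = vanishingIdeal E Om :=
    ⟨_, rfl⟩
  have hIm : ∀ F : MvPolynomial (Fin M ⊕ Fin N) E,
      F ∈ I ↔ ∀ y ∈ S.Wc, ∀ z ∈ S.fib y, eval (pt z y) F = 0 := by
    intro F
    rw [hI, mem_vanishingIdeal_iff, hOm]
    constructor
    · intro h y hy z hz
      have h1 := h (pt z y) ⟨y, hy, z, hz, rfl⟩
      rwa [← coe_aeval_eq_eval]
    · rintro h _ ⟨y, hy, z, hz, rfl⟩
      have h1 := h y hy z hz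
      rwa [← coe_aeval_eq_eval] at h1
  obtain ⟨I', hI'⟩ : ∃ I' : Ideal (MvPolynomial (Fin M ⊕ Fin N) E),
      I' = I ⊔ Ideal.span (Set.range fun c : Fin nP × Fin M => S.P c.1 c.2) := ⟨_, rfl⟩
  -- the common zeros
  have key : ∀ c : Fin M × Fin N, ∃ r : ℕ,
      (X (Sum.inl c.1) * X (Sum.inr c.2) : MvPolynomial (Fin M ⊕ Fin N) E) ^ r ∈ I' := by
    rintro ⟨i, l⟩
    have h1 : (X (Sum.inl i) * X (Sum.inr l) : MvPolynomial (Fin M ⊕ Fin N) E) ∈
        vanishingIdeal E (zeroLocus E I') := by
      rw [mem_vanishingIdeal_iff]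
      intro p hp
      rw [mem_zeroLocus_iff] at hp
      obtain ⟨z, hz⟩ : ∃ z : Fin M → E, z = fun i => p (Sum.inl i) := ⟨_, rfl⟩
      obtain ⟨y, hy⟩ : ∃ y : Fin N → E, y = fun l => p (Sum.inr l) := ⟨_, rfl⟩
      have hpt : p = pt z y := by
        funext x
        rcases x with x | x
        · rw [hz]
          rfl
        · rw [hy]
          rfl
      have hz' : ∀ F ∈ I', eval (pt z y) F = 0 := by
        intro F hF
        have h2 := hp F hF
        rwa [← coe_aeval_eq_eval, ← hpt]
      rw [map_mul, aeval_X, aeval_X, hpt]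
      show z i * y l = 0
      by_contra hne
      have hzi := left_ne_zero_of_mul hne
      have hyl := right_ne_zero_of_mul hne
      have hz0 : z ≠ 0 := fun h => hzi (congrFun h i)
      have hy0 : y ≠ 0 := fun h => hyl (congrFun h l)
      have hyW : y ∈ S.Wc := by
        refine hS.W_closed y hy0 fun k F _ hF => ?_
        have h2 := hz' (rename Sum.inr F) (by
          rw [hI']
          refine Ideal.mem_sup_left ((hIm _).2 fun y' hy' z' _ => ?_)
          rw [eval_rename]
          exact hF y' hy')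
        rw [eval_rename] at h2
        exact h2
      have hzF : z ∈ S.fib y := by
        by_contra hzn
        obtain ⟨j, hj1, hj2⟩ := nb_bas (S.col y) (hS.rank y hyW)
        have h2 : LinearIndependent E
            (Fin.cons z (fun a => S.col y (j a)) : Fin (S.R + 1) → Fin M → E) := by
          rw [linearIndependent_finCons]
          refine ⟨hj1, ?_⟩
          rw [hj2]
          exact hzn
        obtain ⟨J, hJ⟩ := Function.ne_iff.1 (plk_ne_zero h2)
        apply hJ
        rw [← nbD_eval]
        refine hz' _ ?_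
        rw [hI']
        refine Ideal.mem_sup_left ((hIm _).2 fun y' hy' z' hz' => ?_)
        rw [nbD_eval]
        refine nb_plk_zero _ (S.fib y') (hS.rank y' hy') ?_ J
        intro a
        refine Fin.cases ?_ (fun a => ?_) a
        · exact hz'
        · exact Submodule.subset_span (Set.mem_range_self _)
      obtain ⟨k, hk⟩ := hS.P_ne y hyW
      obtain ⟨j, hj⟩ := Function.ne_iff.1 (hk z hzF hz0)
      apply hj
      refine hz' (S.P k j) ?_
      rw [hI']
      exact Ideal.mem_sup_right (Ideal.subset_span ⟨(k, j), rfl⟩)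
    rw [vanishingIdeal_zeroLocus_eq_radical] at h1
    exact h1
  choose r hr using key
  obtain ⟨Mr, hMr⟩ : ∃ Mr, ∀ c, r c ≤ Mr := by
    obtain ⟨Mr, hM⟩ := (Set.finite_range r).bddAbove
    exact ⟨Mr, fun w => hM ⟨w, rfl⟩⟩
  obtain ⟨L, hL⟩ : ∃ L, L = max Mr (max S.q S.m) := ⟨_, rfl⟩
  have hLq : S.q ≤ L := by rw [hL]; exact (le_max_left _ _).trans (le_max_right _ _)
  have hLm : S.m ≤ L := by rw [hL]; exact (le_max_right _ _).trans (le_max_right _ _)
  have hLr : ∀ c, r c ≤ L := fun c => (hMr c).trans (by rw [hL]; exact le_max_left _ _)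
  have hmem : ∀ (i : Fin M) (l : Fin N), ∃ b : Fin nP × Fin M → MvPolynomial (Fin M ⊕ Fin N) E,
      (X (Sum.inl i) * X (Sum.inr l) : MvPolynomial (Fin M ⊕ Fin N) E) ^ L -
        ∑ c, b c * S.P c.1 c.2 ∈ I := by
    intro i l
    have h1 : (X (Sum.inl i) * X (Sum.inr l) : MvPolynomial (Fin M ⊕ Fin N) E) ^ L ∈ I' :=
      Ideal.pow_mem_of_pow_mem I' (hr (i, l)) (hLr _)
    rw [hI', Submodule.mem_sup] at h1
    obtain ⟨p, hp, q, hq, hpq⟩ := h1
    obtain ⟨b, hb⟩ := Ideal.mem_span_range_iff_exists_fun.1 hq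
    refine ⟨b, ?_⟩
    rw [← hpq, ← hb, add_sub_cancel_right]
    exact hp
  choose b hb using hmem
  refine ⟨L, fun i l k j => weightedHomogeneousComponent (bw (Fin M) (Fin N))
    (L - S.q, L - S.m) (b i l (k, j)), hLq, hLm, fun i l k j => isBihom_component _ _ _, ?_⟩
  intro y hy z hz i l
  have h1 := bidec ((X (Sum.inl i) * X (Sum.inr l) : MvPolynomial (Fin M ⊕ Fin N) E) ^ L -
        ∑ c, b i l c * S.P c.1 c.2) z y (fun s t hs ht => by
    refine (hIm _).1 (hb i l) (t • y) (hS.W_smul y hy t ht) (s • z) ?_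
    rw [fib_smul hS ht]
    exact Submodule.smul_mem _ _ hz) L L
  have h2 : IsBihom ((X (Sum.inl i) * X (Sum.inr l) : MvPolynomial (Fin M ⊕ Fin N) E) ^ L)
      L L := by
    have h3 := ((isWeightedHomogeneous_X E (bw (Fin M) (Fin N)) (Sum.inl i)).mul
      (isWeightedHomogeneous_X E (bw (Fin M) (Fin N)) (Sum.inr l))).pow L
    have h4 : L • (bw (Fin M) (Fin N) (Sum.inl i) + bw (Fin M) (Fin N) (Sum.inr l)) = (L, L) := by
      simp [bw]
    rw [h4] at h3
    exact h3
  rw [map_sub, map_sum, weightedHomogeneousComponent_eq_self h2, map_sub, map_sum,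
    sub_eq_zero] at h1
  have h5 : eval (pt z y) ((X (Sum.inl i) * X (Sum.inr l) :
      MvPolynomial (Fin M ⊕ Fin N) E) ^ L) = (z i * y l) ^ L := by
    rw [map_pow, map_mul, eval_X, eval_X]
    rfl
  rw [h5, Fintype.sum_prod_type] at h1
  rw [h1]
  refine Finset.sum_congr rfl fun k _ => Finset.sum_congr rfl fun j _ => ?_
  rw [nb_comp _ _ (hS.P_bihom k j) hLq hLm, map_mul]
  rfl

end Pool.Agent.PBK
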