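import Pool.Agent.PBK.Lin

/-!
# PBK PIG: many small vectors in a lattice of full rank

Proof. Let `Λ` be the span of the `Y a` in `ρ → ℤ`, `Δ = |mi Y id| ≥ 1`. The quotient `(ρ → ℤ) ⧸ Λ` has
exactly `Δ` elements (Mathlib: `Submodule.natAbs_det_equiv`, `Submodule.cardQuot_apply`, or
`AddSubgroup.index` ... `Int.natAbs det`); one only needs that it is finite with at most `Δ` elements.
The `(X + 1) ^ card ρ` vectors with coordinates in `{0, ..., X}` are distributed over the classes, so
some class contains a set `s0` of them with `(X + 1) ^ card ρ ≤ card s0 * Δ`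
(`Finset.exists_le_card_fiber_of_mul_le_card_of_maps_to` or a sum over the fibres). `s0` is nonempty;
fix `x0 ∈ s0` and take `s = {x - x0 | x ∈ s0}`.
-/

set_option autoImplicit false

namespace Pool.Agent.PBK

theorem pig {ρ : Type} [Fintype ρ] [DecidableEq ρ] (Y : ρ → ρ → ℤ) (h : mi Y id ≠ 0) (X : ℕ) :
    ∃ s : Finset (ρ → ℤ), (∀ v ∈ s, v ∈ Submodule.span ℤ (Set.range Y)) ∧
      (∀ v ∈ s, ∀ b, |v b| ≤ X) ∧ (X + 1) ^ Fintype.card ρ ≤ s.card * (mi Y id).natAbs := by
  classical
  have hdet : mi Y id = Matrix.det (Matrix.of Y) := rfl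
  have hli : LinearIndependent ℤ Y := by
    have h1 : (Matrix.of Y).det ≠ 0 := h
    exact Matrix.linearIndependent_rows_of_det_ne_zero h1
  set N := Submodule.span ℤ (Set.range Y) with hN
  have hcard : (mi Y id).natAbs = Nat.card ((ρ → ℤ) ⧸ N) := by
    rw [← Submodule.natAbs_det_basis_change (Pi.basisFun ℤ ρ) N (Module.Basis.span hli),
      Pi.basisFun_det, hdet]
    congr 1
    have h2 : (Subtype.val ∘ (Module.Basis.span hli) : ρ → ρ → ℤ) = Y := by
      funext a
      rw [Function.comp_apply, Module.Basis.span_apply]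
    rw [h2]
    rfl
  have hfin : Finite ((ρ → ℤ) ⧸ N) := by
    apply Nat.finite_of_card_ne_zero
    rw [← hcard]
    exact Int.natAbs_ne_zero.2 h
  have : Fintype ((ρ → ℤ) ⧸ N) := Fintype.ofFinite _
  set box : Finset (ρ → ℤ) := Fintype.piFinset fun _ => Finset.Icc 0 (X : ℤ) with hbox
  have hbc : box.card = (X + 1) ^ Fintype.card ρ := by
    rw [hbox, Fintype.card_piFinset, Finset.prod_const, Int.card_Icc, Finset.card_univ]
    congr 1
  obtain ⟨y, -, hy⟩ := Finset.exists_max_image (Finset.univ : Finset ((ρ → ℤ) ⧸ N))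
    (fun y => (box.filter fun v => N.mkQ v = y).card) ⟨0, Finset.mem_univ _⟩
  set s0 := box.filter fun v => N.mkQ v = y with hs0
  have h1 : (X + 1) ^ Fintype.card ρ ≤ s0.card * (mi Y id).natAbs := by
    rw [← hbc, Finset.card_eq_sum_card_fiberwise (f := fun v => N.mkQ v)
      (t := (Finset.univ : Finset ((ρ → ℤ) ⧸ N))) (fun _ _ => Finset.mem_coe.2 (Finset.mem_univ _))]
    refine (Finset.sum_le_card_nsmul _ _ s0.card fun z _ => hy z (Finset.mem_univ _)).trans ?_
    rw [smul_eq_mul, mul_comm, hcard, Nat.card_eq_fintype_card, Finset.card_univ]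
  have hne : s0.Nonempty := by
    rw [← Finset.card_pos]
    by_contra h0
    have h2 : s0.card = 0 := by omega
    rw [h2, zero_mul] at h1
    exact absurd h1 (not_le.2 (pow_pos (Nat.succ_pos X) _))
  obtain ⟨x0, hx0⟩ := hne
  refine ⟨s0.image fun v => v - x0, fun v hv => ?_, fun v hv b => ?_, ?_⟩
  · obtain ⟨x, hx, rfl⟩ := Finset.mem_image.1 hv
    have h3 := (Finset.mem_filter.1 hx).2
    have h4 := (Finset.mem_filter.1 hx0).2
    rw [← Submodule.Quotient.eq]
    exact h3.trans h4.symm
  · obtain ⟨x, hx, rfl⟩ := Finset.mem_image.1 hv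
    have h3 := Finset.mem_Icc.1 (Fintype.mem_piFinset.1 (Finset.mem_filter.1 hx).1 b)
    have h4 := Finset.mem_Icc.1 (Fintype.mem_piFinset.1 (Finset.mem_filter.1 hx0).1 b)
    rw [Pi.sub_apply, abs_le]
    omega
  · rw [Finset.card_image_of_injective _ (sub_left_injective)]
    exact h1

end Pool.Agent.PBK
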