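import Pool.Agent.PBK.Grid
import Pool.Agent.PBK.Comp
import Pool.Agent.PBK.Cols
import Pool.Agent.PBK.Plk
import Pool.Agent.PBK.Bseq

/-!
# PBK PLKUP: upper bound for the height of the fibre

Proof. Let `C1` be the constant of `bseq`, `C2` of `cols`, `C3` of `absHeight_plk_le S.R M`. Claim:
`C = S.R * (C1 + 1) + C3` works. Let `y ∈ S.Wc`, `S.Growth y`, `w` a basis. For every `k` let `w'` be the
basis of `S.fib (S.gv^[k] y)` of `cols`, `p` the forms of degree `Q = q ^ k` of `comp_fibre`, `u i` the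
vectors of `grid`, with `p (u i) = a i`, an integral nonzero vector with entries in `{0, ..., T}`,
`T = (2 * R * q ^ k) ^ (R - 1)`. Let `z i = comb w (u i) ∈ S.fib y`, linearly independent (as `u` and
`w` are; `u i ≠ 0`). Then `S.zo (z i) y k` is a nonzero multiple of `comb w' (a i)`, so
`absHeight (S.zo (z i) y k) ≤ log T + C2 * (absHeight (S.gv^[k] y) + 1)`, and by `bseq`
`q ^ k * (absHeight (z i) - S.bb y) ≤ absHeight (S.zo (z i) y k) - S.bb (S.gv^[k] y) + C1 * q ^ k`.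
So `absHeight (z i) - S.bb y ≤ C1 + ε_k` with
`ε_k = (log T + C2 * (D * ρ ^ k + 1) + C' * ρ' ^ k) / q ^ k → 0` (`bb_bound`, `Growth`;
`log T = (R - 1) * (log (2 R) + k * log q)`). Choose `k` with `ε_k ≤ 1`. Then
`absHeight (plk w) = absHeight (plk z)` (`absHeight_plk_eq`; both families are bases of `S.fib y`,
as `finrank = S.R`) `≤ ∑ absHeight (z i) + C3 ≤ S.R * (S.bb y + C1 + 1) + C3`.
-/

set_option autoImplicit false

open MvPolynomial Filter Topology

namespace Pool.Agent.PBK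

open Pool.Agent.Helper63.WH

variable {E : Type*} [Field E] [CharZero E] [Algebra.IsAlgebraic ℚ E] [IsAlgClosed E]
  {M N s nP nG : ℕ} {S : Sys E M N s nP nG}

private theorem plkup_lim {q R : ℕ} (hq : 2 ≤ q) (hR : 2 ≤ R) {C2 D ρ C' ρ' : ℝ}
    (hρ : 1 ≤ ρ) (hρq : ρ < q) (hρ' : 1 ≤ ρ') (hρq' : ρ' < q) :
    ∃ k : ℕ, Real.log (((2 * R * q ^ k) ^ (R - 1) : ℕ) : ℝ) + C2 * (D * ρ ^ k + 1) +
      C' * ρ' ^ k ≤ (q : ℝ) ^ k := by
  have hq0 : (0 : ℝ) < q := by positivity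
  have hq1 : (1 : ℝ) < q := by exact_mod_cast (by omega : 1 < q)
  have hR0 : (0 : ℝ) < R := by positivity
  -- every summand divided by `q ^ k` tends to `0`
  have h1 : Tendsto (fun k : ℕ => (ρ / q) ^ k) atTop (𝓝 0) :=
    tendsto_pow_atTop_nhds_zero_of_lt_one (by positivity) ((div_lt_one hq0).2 hρq)
  have h2 : Tendsto (fun k : ℕ => (ρ' / q) ^ k) atTop (𝓝 0) :=
    tendsto_pow_atTop_nhds_zero_of_lt_one (by positivity) ((div_lt_one hq0).2 hρq')
  have h3 : Tendsto (fun k : ℕ => (1 / (q : ℝ)) ^ k) atTop (𝓝 0) :=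
    tendsto_pow_atTop_nhds_zero_of_lt_one (by positivity) ((div_lt_one hq0).2 hq1)
  have h4 : Tendsto (fun k : ℕ => (k : ℝ) * (1 / (q : ℝ)) ^ k) atTop (𝓝 0) :=
    tendsto_self_mul_const_pow_of_lt_one (by positivity) ((div_lt_one hq0).2 hq1)
  have h5 : Tendsto (fun k : ℕ => ((R : ℝ) - 1) * Real.log (2 * R) * (1 / (q : ℝ)) ^ k +
      ((R : ℝ) - 1) * Real.log q * ((k : ℝ) * (1 / (q : ℝ)) ^ k) +
      (C2 * D * (ρ / q) ^ k + C2 * (1 / (q : ℝ)) ^ k) + C' * (ρ' / q) ^ k) atTop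
      (𝓝 (((R : ℝ) - 1) * Real.log (2 * R) * 0 + ((R : ℝ) - 1) * Real.log q * 0 +
        (C2 * D * 0 + C2 * 0) + C' * 0)) :=
    (((h3.const_mul _).add (h4.const_mul _)).add ((h1.const_mul _).add (h3.const_mul _))).add
      (h2.const_mul _)
  have h6 : (((R : ℝ) - 1) * Real.log (2 * R) * 0 + ((R : ℝ) - 1) * Real.log q * 0 +
        (C2 * D * 0 + C2 * 0) + C' * 0) < 1 := by norm_num
  obtain ⟨k, hk⟩ := (h5.eventually_lt_const h6).exists
  refine ⟨k, ?_⟩
  have hlog : Real.log (((2 * R * q ^ k) ^ (R - 1) : ℕ) : ℝ) =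
      ((R : ℝ) - 1) * Real.log (2 * R) + ((R : ℝ) - 1) * Real.log q * k := by
    push_cast
    rw [Real.log_pow, Real.log_mul (by positivity) (by positivity), Real.log_pow,
      Nat.cast_sub (by omega : 1 ≤ R)]
    push_cast
    ring
  have hqk : (0 : ℝ) < (q : ℝ) ^ k := by positivity
  have h7 : (Real.log (((2 * R * q ^ k) ^ (R - 1) : ℕ) : ℝ) + C2 * (D * ρ ^ k + 1) +
      C' * ρ' ^ k) / (q : ℝ) ^ k < 1 := by
    refine lt_of_eq_of_lt ?_ hk
    rw [hlog, one_div, inv_pow, div_pow, div_pow]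
    field_simp
  exact ((div_lt_one hqk).1 h7).le

theorem plkup (hS : S.Good) :
    ∃ C : ℝ, 0 ≤ C ∧ ∀ y ∈ S.Wc, S.Growth y → ∀ w : Fin S.R → Fin M → E, S.IsBas y w →
      absHeight (plk w) ≤ S.R * S.bb y + C := by
  have hR := hS.hR
  have hq := hS.hq
  obtain ⟨C1, hC1, hb⟩ := bseq hS
  obtain ⟨C2, hC2, hc⟩ := cols hS
  obtain ⟨C3, hC3, hp⟩ := absHeight_plk_le (E := E) S.R M
  refine ⟨S.R * (C1 + 1) + C3, by positivity, fun y hy hg w hw => ?_⟩
  obtain ⟨C', ρ', hC', hρ', hρq', hbb⟩ := bb_bound hS hy hg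
  obtain ⟨D, ρ, hD, hρ, hρq, hgr⟩ := id hg
  obtain ⟨k, hk⟩ := plkup_lim (C2 := C2) (D := D) (C' := C') hq hR hρ hρq hρ' hρq'
  obtain ⟨w', hw', hsmall⟩ := hc _ (gv_iter_mem hS hy k)
  obtain ⟨p, hphom, hp0, hpz⟩ := comp_fibre hS hy hw k hw'
  obtain ⟨u, hu, hua⟩ := grid hR (Nat.one_le_pow _ _ (by omega)) p hphom hp0
  have hz : ∀ i, absHeight (comb w (u i)) ≤ S.bb y + (C1 + 1) := by
    intro i
    obtain ⟨a, ha0, haT, hau⟩ := hua i
    have hui : u i ≠ 0 := hu.ne_zero i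
    obtain ⟨t, ht, hzt⟩ := hpz (u i) hui
    have h1 := hsmall ((2 * S.R * S.q ^ k) ^ (S.R - 1)) a
      (Nat.one_le_pow _ _ (by positivity)) ha0 haT
    have h2 : absHeight (S.zo (comb w (u i)) y k) =
        absHeight (comb w' (fun j => ((a j : ℕ) : E))) := by
      rw [hzt, absHeight_smul t ht]
      congr 2
      funext j
      exact hau j
    have h3 := (hb y hy hg (comb w (u i)) (IsBas.comb_mem hw _) (comb_ne_zero hw.1 hui)).1 k
    have h4 := (abs_le.1 h3).1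
    have h5 := hgr k
    have h6 := (abs_le.1 (hbb k)).1
    have hqk : (0 : ℝ) < (S.q : ℝ) ^ k := by positivity
    have h7 : C2 * (absHeight (S.gv^[k] y) + 1) ≤ C2 * (D * ρ ^ k + 1) := by gcongr
    have h8 : (S.q : ℝ) ^ k * (absHeight (comb w (u i)) - S.bb y) ≤
        (S.q : ℝ) ^ k * (C1 + 1) := by
      rw [h2] at h4
      nlinarith
    have h9 := le_of_mul_le_mul_left h8 hqk
    linarith
  have hzi : LinearIndependent E (fun i => comb w (u i)) := by
    rw [Fintype.linearIndependent_iff] at hu ⊢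
    intro g hgs
    apply hu g
    have h1 : comb w (∑ i, g i • u i) = ∑ i, g i • comb w (u i) := by
      funext l
      simp only [comb, Finset.sum_apply, Pi.smul_apply, smul_eq_mul, Finset.sum_mul,
        Finset.mul_sum]
      rw [Finset.sum_comm]
      exact Finset.sum_congr rfl fun i _ => Finset.sum_congr rfl fun j _ => by ring
    rw [hgs] at h1
    exact comb_inj hw.1 (h1.trans (comb_zero w).symm)
  have hspan : Submodule.span E (Set.range w) =
      Submodule.span E (Set.range fun i => comb w (u i)) := by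
    symm
    apply Submodule.eq_of_le_of_finrank_eq
    · rw [Submodule.span_le]
      rintro _ ⟨i, rfl⟩
      exact comb_mem w (u i)
    · rw [finrank_span_eq_card hzi, finrank_span_eq_card hw.1]
  rw [absHeight_plk_eq hw.1 hzi hspan]
  refine (hp _ hzi).trans ?_
  have h1 : ∑ i, absHeight (comb w (u i)) ≤ ∑ _i : Fin S.R, (S.bb y + (C1 + 1)) :=
    Finset.sum_le_sum fun i _ => hz i
  rw [Finset.sum_const, Finset.card_univ, Fintype.card_fin, nsmul_eq_mul] at h1
  linarith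

end Pool.Agent.PBK
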