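import Pool.Agent.PBK.Mink
import Pool.Agent.PBK.Plkup
import Pool.Agent.PBK.Rat

/-!
# PBK RED: reduced bases of the fibres along the orbit

Proof. Let `Ca` be the constant of `bseq`, `Cb` of `plkup`, `C1 = max Ca Cb`, `C2` the constant of
`mink K S.R M _ C1`. Let `x = S.gv^[n] y` (in `S.Wc`, with `S.Growth x`: `growth_iter`), and let `t • x` be
over `K` (`rat_gv`). The columns `S.col (t • x) (J i)` of `exists_cols` are a basis `w0` of
`S.fib (t • x) = S.fib x` with coordinates in `K` (`col_mem`). All the nonzero vectors `z` of the fibre have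
`S.bb x - C1 ≤ absHeight z` (`bseq`), and `absHeight (plk w0) ≤ S.R * S.bb x + C1` (`plkup`). Apply
`mink` with `b = S.bb x`.
-/

set_option autoImplicit false

open MvPolynomial

namespace Pool.Agent.PBK

open Pool.Agent.Helper63.WH

variable {E : Type*} [Field E] [CharZero E] [Algebra.IsAlgebraic ℚ E] [IsAlgClosed E]
  {M N s nP nG : ℕ} {S : Sys E M N s nP nG}

theorem red (hS : S.Good) (K : IntermediateField ℚ E) [FiniteDimensional ℚ K]
    (hK : S.OverK K) {y : Fin N → E} (hy : y ∈ S.Wc) (hyK : ∀ i, y i ∈ K) (hg : S.Growth y) :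
    ∃ C : ℝ, 0 ≤ C ∧ ∀ n : ℕ, ∃ w : Fin S.R → Fin M → E, S.IsBas (S.gv^[n] y) w ∧
      (∀ i j, w i j ∈ K) ∧ absHeight (cc w) ≤ S.bb (S.gv^[n] y) + C ∧
      S.R * S.bb (S.gv^[n] y) - C ≤ absHeight (plk w) := by
  obtain ⟨Ca, hCa, hbs⟩ := bseq hS
  obtain ⟨Cb, hCb, hpu⟩ := plkup hS
  obtain ⟨C2, hC2, hmk⟩ := mink K S.R M (by have := hS.hR; omega) (max Ca Cb)
  refine ⟨C2, hC2, fun n => ?_⟩
  set x := S.gv^[n] y with hx
  have hxW : x ∈ S.Wc := gv_iter_mem hS hy n
  have hxg : S.Growth x := growth_iter hg n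
  obtain ⟨t, ht, htK⟩ := rat_gv hS hK hy hyK n
  have htx : ∀ i, (t • x) i ∈ K := htK
  obtain ⟨J, hJ⟩ := exists_cols hS (hS.W_smul x hxW t ht)
  have hJx : S.IsBas x (fun i => S.col (t • x) (J i)) := (isBas_smul hS ht).1 hJ
  obtain ⟨w, hw1, hw2, hw3, hw4, hw5⟩ := hmk _ hJ.1 (fun i j => col_mem hK htx (J i) j)
    (S.bb x) (by
      intro z hz hz0 _
      have h1 := (hbs x hxW hxg z (by rw [← hJx.2]; exact hz) hz0).2.1
      have h2 := le_max_left Ca Cb
      linarith) (by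
      have h1 := hpu x hxW hxg _ hJx
      have h2 := le_max_right Ca Cb
      linarith)
  exact ⟨w, ⟨hw1, hw2.trans hJx.2⟩, hw3, hw4, hw5⟩

end Pool.Agent.PBK
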