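import Pool.Agent.PBK.Nil

/-!
# PBK SEMI: symmetries of long chains are semisimple

* `isSym_one`: Euler's relation: `∑ l, X l * ∂_l p = q * p` for a form of degree `q`
  (Mathlib: `MvPolynomial.IsHomogeneous.sum_X_mul_pderiv` or similar; else check on monomials), so
  `IsSym p 1 (q • 1)`.
* `isSym_sub`, `isSym_smul`: linearity.
* `semi`: let `A` be a chain, `c`, `u` with `(A 0 - c) ^ 2 u = 0` and suppose `(A 0 - c) u ≠ 0`. Put
  `B i = A i - (c * q ^ i) • 1`; `IsSym (p i) (B i) (B (i + 1))` for all `i`. Let `u 0 = u`,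
  `u (i + 1) = p i (u i)`. By induction with `nil_orbit`: `(B i) ^ (q ^ i) (u i) ≠ 0` and
  `(B i) ^ (q ^ i + 1) (u i) = 0`. For `i = m`: a vector `v` with `B ^ n v ≠ 0`, `B ^ (n + 1) v = 0` for an
  `R × R` matrix `B` implies `n < R` (the `n + 1` vectors `v, B v, ..., B ^ n v` are linearly
  independent; or: the kernels of `B ^ j`, `j ≤ R`, are stationary from `j = R` on, Mathlib:
  `LinearMap.ker_pow_eq_ker_pow_finrank_of_le`/`Module.End.ker_pow_eq_ker_pow_finrank_of_le`), in
  contradiction to `R ≤ q ^ m`.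
-/

set_option autoImplicit false

open MvPolynomial

namespace Pool.Agent.PBK

variable {E : Type*} [Field E] [CharZero E] {R q : ℕ}

theorem isSym_one (p : Fin R → MvPolynomial (Fin R) E) (hp : ∀ i, (p i).IsHomogeneous q) :
    IsSym p 1 ((q : E) • 1) := by
  intro k
  have e1 : ∀ l : Fin R, ∑ j, C ((1 : Matrix (Fin R) (Fin R) E) l j) * X j =
      (X l : MvPolynomial (Fin R) E) := by
    intro l
    rw [Finset.sum_eq_single l]
    · simp
    · intro j _ hj
      rw [Matrix.one_apply_ne (Ne.symm hj), C_0, zero_mul]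
    · intro h
      exact absurd (Finset.mem_univ _) h
  simp only [e1]
  rw [(hp k).sum_X_mul_pderiv, Finset.sum_eq_single k]
  · rw [Matrix.smul_apply, Matrix.one_apply_eq, smul_eq_mul, mul_one, map_natCast, nsmul_eq_mul]
  · intro j _ hj
    rw [Matrix.smul_apply, Matrix.one_apply_ne (Ne.symm hj), smul_zero, C_0, zero_mul]
  · intro h
    exact absurd (Finset.mem_univ _) h

theorem isSym_add {p : Fin R → MvPolynomial (Fin R) E} {A A' B B' : Matrix (Fin R) (Fin R) E}
    (h : IsSym p A A') (h' : IsSym p B B') : IsSym p (A + B) (A' + B') := by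
  intro k
  simp only [Matrix.add_apply, C_add, add_mul, Finset.sum_add_distrib]
  rw [← h k, ← h' k]

theorem isSym_smul {p : Fin R → MvPolynomial (Fin R) E} {A A' : Matrix (Fin R) (Fin R) E}
    (c : E) (h : IsSym p A A') : IsSym p (c • A) (c • A') := by
  intro k
  have h1 := congrArg (fun P => C c * P) (h k)
  simp only [Finset.mul_sum, Matrix.smul_apply, smul_eq_mul, C_mul] at h1 ⊢
  rw [Finset.sum_congr rfl fun l _ => (mul_assoc (C c) (C (A' k l)) (p l)), ← h1]
  refine Finset.sum_congr rfl fun l _ => ?_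
  rw [Finset.sum_mul, Finset.sum_mul, Finset.mul_sum]
  refine Finset.sum_congr rfl fun j _ => ?_
  ring

/-- Nilpotency indices are bounded by the dimension. -/
private theorem semi_nil (B : Matrix (Fin R) (Fin R) E) (n : ℕ) (hn : R ≤ n) (v : Fin R → E)
    (h : (B ^ (n + 1)).mulVec v = 0) : (B ^ n).mulVec v = 0 := by
  set f : (Fin R → E) →ₗ[E] (Fin R → E) := Matrix.toLin' B with hf
  have hpow : ∀ i : ℕ, ∀ w, (f ^ i) w = (B ^ i).mulVec w := by
    intro i w
    rw [hf, ← Matrix.toLin'_pow, Matrix.toLin'_apply]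
  have hr : Module.finrank E (Fin R → E) = R := by simp
  have k1 : LinearMap.ker (f ^ (n + 1)) = LinearMap.ker (f ^ R) := by
    have := Module.End.ker_pow_eq_ker_pow_finrank_of_le (f := f) (m := n + 1) (by rw [hr]; omega)
    rwa [hr] at this
  have k2 : LinearMap.ker (f ^ n) = LinearMap.ker (f ^ R) := by
    have := Module.End.ker_pow_eq_ker_pow_finrank_of_le (f := f) (m := n) (by rw [hr]; omega)
    rwa [hr] at this
  have k3 : v ∈ LinearMap.ker (f ^ (n + 1)) := by
    rw [LinearMap.mem_ker, hpow, h]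
  rw [k1, ← k2, LinearMap.mem_ker, hpow] at k3
  exact k3

theorem semi {m : ℕ} (p : Fin m → Fin R → MvPolynomial (Fin R) E)
    (hp : ∀ i j, (p i j).IsHomogeneous q) (h0 : ∀ i, NoZero (p i)) (hm : R ≤ q ^ m)
    (A : Fin (m + 1) → Matrix (Fin R) (Fin R) E) (hA : IsChain p A) : SemiS (A 0) := by
  intro c u h1
  by_contra h2
  set B : ℕ → Matrix (Fin R) (Fin R) E := fun i =>
    (if h : i < m + 1 then A ⟨i, h⟩ else 0) - (c * (q : E) ^ i) • 1 with hB
  have hsym : ∀ (i : ℕ) (hi : i < m), IsSym (p ⟨i, hi⟩) (B i) (B (i + 1)) := by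
    intro i hi
    have s1 : IsSym (p ⟨i, hi⟩) (A ⟨i, by omega⟩) (A ⟨i + 1, by omega⟩) := hA ⟨i, hi⟩
    have s2 := isSym_smul (-(c * (q : E) ^ i)) (isSym_one (p ⟨i, hi⟩) (hp ⟨i, hi⟩))
    have s3 := isSym_add s1 s2
    have e1 : B i = A ⟨i, by omega⟩ + -(c * (q : E) ^ i) • 1 := by
      rw [hB]
      simp only
      rw [dif_pos (show i < m + 1 by omega), neg_smul, sub_eq_add_neg]
    have e2 : B (i + 1) = A ⟨i + 1, by omega⟩ + -(c * (q : E) ^ i) • (q : E) • 1 := by
      rw [hB]
      simp only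
      rw [dif_pos (show i + 1 < m + 1 by omega), smul_smul, neg_mul, neg_smul, sub_eq_add_neg,
        pow_succ, mul_assoc]
    rw [e1, e2]
    exact s3
  have key : ∀ i : ℕ, i ≤ m → ∃ v : Fin R → E, (B i ^ (q ^ i)).mulVec v ≠ 0 ∧
      (B i ^ (q ^ i + 1)).mulVec v = 0 := by
    intro i
    induction i with
    | zero =>
      intro _
      refine ⟨u, ?_, ?_⟩
      · rw [hB]
        simp only [pow_zero, mul_one, pow_one]
        rw [dif_pos (show 0 < m + 1 by omega)]
        exact h2
      · rw [hB]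
        simp only [pow_zero, mul_one]
        rw [dif_pos (show 0 < m + 1 by omega)]
        exact h1
    | succ i ih =>
      intro hi
      obtain ⟨v, v1, v2⟩ := ih (by omega)
      have := nil_orbit (p ⟨i, by omega⟩) (hp _) (h0 _) (B i) (B (i + 1)) (hsym i (by omega)) v
        (q ^ i) v1 v2
      rw [pow_succ, mul_comm (q ^ i) q]
      exact ⟨_, this⟩
  obtain ⟨v, v1, v2⟩ := key m le_rfl
  exact v1 (semi_nil (B m) _ hm v v2)

end Pool.Agent.PBK
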