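import Pool.Agent.PBK.Fibsc
import Pool.Agent.PBK.Hlow

/-!
# PBK STAR: heights on the fibres

Proof. Let `y ∈ S.Wc`, `c = S.sc y`, `S.IsScAt y k0 c` (`sc_spec`), `z ∈ S.fib y`, `z ≠ 0`. The vector
`v = (S.Pv k z y j)_(k, j) = (c k * S.Pv k0 z y j)_(k, j)` is a product vector, so
`absHeight v = absHeight c + absHeight (S.Pv k0 z y)` (`absHeight_mul`; `c ≠ 0` since `c k0 = 1`), and
`S.Pv k0 z y = t • S.fv z y`, `t ≠ 0` (`fv_P`), so `absHeight (S.Pv k0 z y) = absHeight (S.fv z y)`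
(`absHeight_smul`). By `hlow` and `upb` (for the tuple of all the `S.P k j`, index `Fin nP × Fin M`)
`|absHeight v - q * absHeight z - m * absHeight y| ≤ C`. This is the first claim, as
`S.lam y = m * absHeight y - absHeight c`.

Second claim: `S.lam y ≤ m * absHeight y`. For the lower bound take for `z` a nonzero column
`S.col y j` (exists as `S.R ≥ 2 > 0`; `exists_cols`): `absHeight (S.col y j) ≤ c * absHeight y + C` by
`uph` (for the finitely many columns take the maximum of the constants), and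
`absHeight c = absHeight v - absHeight (S.fv z y) ≤ absHeight v ≤ q * absHeight z + m * absHeight y + C`
(`absHeight_nonneg`), which is at most `C' * (absHeight y + 1)`.
-/

set_option autoImplicit false

open MvPolynomial

namespace Pool.Agent.PBK

open Pool.Agent.Helper63.WH

variable {E : Type*} [Field E] [CharZero E] [Algebra.IsAlgebraic ℚ E] [IsAlgClosed E]
  {M N s nP nG : ℕ} {S : Sys E M N s nP nG}

/-- The height of all the values is the height of the factors plus the height of the image. -/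
private theorem star_eq (hS : S.Good) {y : Fin N → E} (hy : y ∈ S.Wc) {z : Fin M → E}
    (hz : z ∈ S.fib y) (hz0 : z ≠ 0) :
    absHeight (fun x : Fin nP × Fin M => S.Pv x.1 z y x.2) =
      absHeight (S.sc y) + absHeight (S.fv z y) := by
  obtain ⟨k0, h1, h2, h3⟩ := sc_spec hS hy
  have hPne := h2 z hz hz0
  obtain ⟨t, ht⟩ := hS.fv_P k0 y hy z hz hz0
  have ht0 : t ≠ 0 := by
    rintro rfl
    rw [zero_smul] at ht
    exact hPne ht
  have hc : S.sc y ≠ 0 := by
    intro h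
    rw [h] at h1
    simp at h1
  have e1 : absHeight (S.Pv k0 z y) = absHeight (S.fv z y) := by
    rw [ht, absHeight_smul t ht0]
  rw [← e1, ← absHeight_mul (S.sc y) (S.Pv k0 z y) hc hPne]
  congr 1
  funext x
  rw [h3 x.1 z hz]
  rfl

theorem star (hS : S.Good) :
    ∃ C : ℝ, 0 ≤ C ∧
      (∀ y ∈ S.Wc, ∀ z ∈ S.fib y, z ≠ 0 →
        |absHeight (S.fv z y) - S.q * absHeight z - S.lam y| ≤ C) ∧
      ∀ y ∈ S.Wc, |S.lam y| ≤ C * (absHeight y + 1) := by
  obtain ⟨Cl, hCl, hl⟩ := hlow hS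
  obtain ⟨Cu, hCu, hu⟩ := upb (fun x : Fin nP × Fin M => S.P x.1 x.2) S.q S.m
    (fun x => hS.P_bihom x.1 x.2)
  have hcol : ∀ j : Fin s, ∃ C : ℝ, 0 ≤ C ∧ ∀ y : Fin N → E, y ≠ 0 →
      absHeight (S.col y j) ≤ S.c * absHeight y + C := fun j => uph (S.B j) S.c (hS.B_hom j)
  choose Cc hCc0 hCc using hcol
  have hCC : 0 ≤ ∑ j, Cc j := Finset.sum_nonneg fun j _ => hCc0 j
  have hCj : ∀ j, Cc j ≤ ∑ j, Cc j := fun j =>
    Finset.single_le_sum (f := Cc) (fun i _ => hCc0 i) (Finset.mem_univ j)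
  set C0 : ℝ := S.m + (S.q * S.c + S.q * (∑ j, Cc j) + S.m + Cu) + Cl with hC0
  have hm0 : (0 : ℝ) ≤ S.m := Nat.cast_nonneg _
  have hq0 : (0 : ℝ) ≤ S.q := Nat.cast_nonneg _
  have hc0 : (0 : ℝ) ≤ S.c := Nat.cast_nonneg _
  have hqc : (0 : ℝ) ≤ S.q * S.c := mul_nonneg hq0 hc0
  have hqC : (0 : ℝ) ≤ S.q * (∑ j, Cc j) := mul_nonneg hq0 hCC
  refine ⟨C0, by positivity, fun y hy z hz hz0 => ?_, fun y hy => ?_⟩
  · have h1 := star_eq hS hy hz hz0
    have h2 := hl y hy z hz hz0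
    have h3 : absHeight (fun x : Fin nP × Fin M => S.Pv x.1 z y x.2) ≤
        S.q * absHeight z + S.m * absHeight y + Cu := hu z y hz0 (hS.W_ne0 y hy)
    unfold Sys.lam
    rw [abs_le]
    constructor
    · linarith
    · linarith
  · have hy0 := absHeight_nonneg y
    obtain ⟨J, hJ⟩ := exists_cols hS hy
    have hR := hS.hR
    have hz0 : S.col y (J ⟨0, by omega⟩) ≠ 0 := hJ.1.ne_zero _
    have hz : S.col y (J ⟨0, by omega⟩) ∈ S.fib y := Submodule.subset_span ⟨_, rfl⟩
    have h1 := star_eq hS hy hz hz0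
    have h3 : absHeight (fun x : Fin nP × Fin M => S.Pv x.1 (S.col y (J ⟨0, by omega⟩)) y x.2) ≤
        S.q * absHeight (S.col y (J ⟨0, by omega⟩)) + S.m * absHeight y + Cu :=
      hu _ y hz0 (hS.W_ne0 y hy)
    have h4 := hCc (J ⟨0, by omega⟩) y (hS.W_ne0 y hy)
    have h5 := hCj (J ⟨0, by omega⟩)
    have h6 := absHeight_nonneg (S.fv (S.col y (J ⟨0, by omega⟩)) y)
    have h7 := absHeight_nonneg (S.sc y)
    have h8 : (S.q : ℝ) * absHeight (S.col y (J ⟨0, by omega⟩)) ≤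
        S.q * (S.c * absHeight y + ∑ j, Cc j) := by
      apply mul_le_mul_of_nonneg_left _ hq0
      linarith
    unfold Sys.lam
    rw [abs_le]
    have h9 : absHeight (S.sc y) ≤ S.q * (S.c * absHeight y + ∑ j, Cc j) + S.m * absHeight y +
        Cu := by linarith
    have h10 : 0 ≤ (S.q * (∑ j, Cc j)) * absHeight y := mul_nonneg hqC hy0
    have h11 : 0 ≤ Cu * absHeight y := mul_nonneg hCu hy0
    have h12 : 0 ≤ Cl * absHeight y := mul_nonneg hCl hy0
    have h13 : 0 ≤ S.m * absHeight y := mul_nonneg hm0 hy0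
    have h14 : 0 ≤ (S.q * S.c) * absHeight y := mul_nonneg hqc hy0
    constructor
    · nlinarith
    · nlinarith

end Pool.Agent.PBK
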