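import Pool.Agent.Helper63.WH.Defs

/-!
# Endomorphisms of projective bundles: the notions used in the final theorem

`E` is a field. A vector bundle `F` on a closed set `W` of projective space is given as a subbundle of
a trivial bundle `E ^ (M + 1)`, generated by finitely many columns of forms of the same degree (every
projective bundle over `W` has such a presentation: embed the bundle by
a globally generated twist of the dual bundle, and generate a twist of `F` by sections). `ℙ(F)` is the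
set of the pairs `(x, y)`, `y ∈ W`, `x` a line of the fibre `F_y`.
-/

set_option autoImplicit false

open MvPolynomial Filter Topology
open scoped LinearAlgebra.Projectivization

namespace Pool.Agent.PBK

open Pool.Agent.Helper63.WH

section

variable {E : Type*} [Field E] {M N s : ℕ}

/-- The points of `n`-dimensional projective space over `E`. -/
abbrev Pr (E : Type*) [Field E] (n : ℕ) : Type _ := ℙ E (Fin (n + 1) → E)

/-- Zariski closed subsets of projective space: the common zeros of a set of forms. -/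
def PClosed (W : Set (Pr E N)) : Prop :=
  ∃ I : Set (MvPolynomial (Fin (N + 1)) E), (∀ F ∈ I, ∃ k : ℕ, F.IsHomogeneous k) ∧
    W = {y | ∀ F ∈ I, eval y.rep F = 0}

/-- Irreducible subsets of projective space. -/
def PIrred (W : Set (Pr E N)) : Prop :=
  W.Nonempty ∧ ∀ W₁ W₂ : Set (Pr E N), PClosed W₁ → PClosed W₂ → W ⊆ W₁ ∪ W₂ →
    W ⊆ W₁ ∨ W ⊆ W₂

/-- `F` is bihomogeneous of bidegree `(a, b)` in two groups of variables. -/
def Bihom (F : MvPolynomial (Fin (M + 1) ⊕ Fin (N + 1)) E) (a b : ℕ) : Prop :=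
  IsWeightedHomogeneous (Sum.elim (fun _ => (1, 0)) (fun _ => (0, 1)) :
    Fin (M + 1) ⊕ Fin (N + 1) → ℕ × ℕ) F (a, b)

/-- Zariski closed subsets of a product of two projective spaces: the common zeros of a set of
bihomogeneous forms. -/
def BClosed (Z : Set (Pr E M × Pr E N)) : Prop :=
  ∃ I : Set (MvPolynomial (Fin (M + 1) ⊕ Fin (N + 1)) E), (∀ F ∈ I, ∃ a b : ℕ, Bihom F a b) ∧
    Z = {p | ∀ F ∈ I, eval (Sum.elim p.1.rep p.2.rep) F = 0}

/-- The fibre at `y` of the bundle: the span of the values of the columns. -/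
noncomputable def fibre (B : Fin s → Fin (M + 1) → MvPolynomial (Fin (N + 1)) E) (y : Pr E N) :
    Submodule E (Fin (M + 1) → E) :=
  Submodule.span E (Set.range fun j i => eval y.rep (B j i))

/-- The columns are forms of the same degree and span fibres of dimension `R` over `W`. -/
def IsBundle (W : Set (Pr E N)) (B : Fin s → Fin (M + 1) → MvPolynomial (Fin (N + 1)) E)
    (R : ℕ) : Prop :=
  (∃ c : ℕ, ∀ j i, (B j i).IsHomogeneous c) ∧ ∀ y ∈ W, Module.finrank E (fibre B y) = R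

/-- The projective bundle over `W`. -/
def bundle (W : Set (Pr E N)) (B : Fin s → Fin (M + 1) → MvPolynomial (Fin (N + 1)) E) :
    Set (Pr E M × Pr E N) :=
  {p | p.2 ∈ W ∧ p.1.rep ∈ fibre B p.2}

/-- `g` is a self map of `W` which is given locally by forms. -/
def IsMap (W : Set (Pr E N)) (g : Pr E N → Pr E N) : Prop :=
  Set.MapsTo g W W ∧ ∃ (e t : ℕ) (G : Fin t → Fin (N + 1) → MvPolynomial (Fin (N + 1)) E),
    (∀ l i, (G l i).IsHomogeneous e) ∧
    (∀ l, ∀ y ∈ W, ∃ c : E, ∀ i, eval y.rep (G l i) = c * (g y).rep i) ∧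
    ∀ y ∈ W, ∃ l i, eval y.rep (G l i) ≠ 0

/-- `f` is a self map of the projective bundle over the map `g` of the base, of degree `q` on the
fibres: there are finitely many tuples `P k` of bihomogeneous forms of a bidegree `(q, m)`, which give
`f` wherever they do not vanish, and for every `y ∈ W` some tuple does not vanish at any point of the
fibre over `y`. -/
def IsBundleMap (W : Set (Pr E N)) (B : Fin s → Fin (M + 1) → MvPolynomial (Fin (N + 1)) E)
    (g : Pr E N → Pr E N) (f : Pr E M × Pr E N → Pr E M × Pr E N) (q : ℕ) : Prop :=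
  (∀ p ∈ bundle W B, (f p).2 = g p.2 ∧ (f p).1.rep ∈ fibre B (g p.2)) ∧
  ∃ (m t : ℕ) (P : Fin t → Fin (M + 1) → MvPolynomial (Fin (M + 1) ⊕ Fin (N + 1)) E),
    (∀ k i, Bihom (P k i) q m) ∧
    (∀ k, ∀ p ∈ bundle W B, ∃ c : E, ∀ i,
      eval (Sum.elim p.1.rep p.2.rep) (P k i) = c * (f p).1.rep i) ∧
    ∀ y ∈ W, ∃ k, ∀ x : Pr E M, (x, y) ∈ bundle W B →
      ∃ i, eval (Sum.elim x.rep y.rep) (P k i) ≠ 0

/-- On the fibre over `y` the map `f` is a power map: in suitable bases `w` of the fibre at `y` and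
`w'` of the fibre at `g y` it is `∑ u_i w_i ↦ ∑ u_i ^ q w'_i`. -/
def PowerAt (B : Fin s → Fin (M + 1) → MvPolynomial (Fin (N + 1)) E) (R : ℕ)
    (g : Pr E N → Pr E N) (f : Pr E M × Pr E N → Pr E M × Pr E N) (q : ℕ) (y : Pr E N) : Prop :=
  ∃ w w' : Fin R → Fin (M + 1) → E, LinearIndependent E w ∧
    Submodule.span E (Set.range w) = fibre B y ∧ LinearIndependent E w' ∧
    Submodule.span E (Set.range w') = fibre B (g y) ∧
    ∀ (u : Fin R → E) (x : Pr E M), x.rep = ∑ i, u i • w i →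
      ∃ t : E, (f (x, y)).1.rep = t • ∑ i, u i ^ q • w' i

/-- `g` is given on `W`, as a rational map, by forms of degree `d`. -/
def Rep1 (W : Set (Pr E N)) (g : Pr E N → Pr E N) (d : ℕ) : Prop :=
  ∃ G : Fin (N + 1) → MvPolynomial (Fin (N + 1)) E, (∀ i, (G i).IsHomogeneous d) ∧
    (∃ y ∈ W, ∃ i, eval y.rep (G i) ≠ 0) ∧
    ∀ y ∈ W, ∃ c : E, ∀ i, eval y.rep (G i) = c * (g y).rep i

/-- The first dynamical degree of `g` on `W` is `δ`: the least degrees of forms giving the iterates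
`g^[n]` as rational maps grow like `δ ^ n`. -/
def DynDeg1 (W : Set (Pr E N)) (g : Pr E N → Pr E N) (δ : ℝ) : Prop :=
  Tendsto (fun n : ℕ => ((sInf {d | Rep1 W g^[n] d} : ℕ) : ℝ) ^ ((1 : ℝ) / n)) atTop (𝓝 δ)

/-- Both components of `f` are given on `V`, as rational maps, by bihomogeneous forms of total
degree at most `d`. -/
def Rep2 (V : Set (Pr E M × Pr E N)) (f : Pr E M × Pr E N → Pr E M × Pr E N) (d : ℕ) : Prop :=
  (∃ (a b : ℕ) (P : Fin (M + 1) → MvPolynomial (Fin (M + 1) ⊕ Fin (N + 1)) E), a + b ≤ d ∧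
    (∀ i, Bihom (P i) a b) ∧ (∃ p ∈ V, ∃ i, eval (Sum.elim p.1.rep p.2.rep) (P i) ≠ 0) ∧
    ∀ p ∈ V, ∃ c : E, ∀ i, eval (Sum.elim p.1.rep p.2.rep) (P i) = c * (f p).1.rep i) ∧
  ∃ (a b : ℕ) (P : Fin (N + 1) → MvPolynomial (Fin (M + 1) ⊕ Fin (N + 1)) E), a + b ≤ d ∧
    (∀ i, Bihom (P i) a b) ∧ (∃ p ∈ V, ∃ i, eval (Sum.elim p.1.rep p.2.rep) (P i) ≠ 0) ∧
    ∀ p ∈ V, ∃ c : E, ∀ i, eval (Sum.elim p.1.rep p.2.rep) (P i) = c * (f p).2.rep i

/-- The first dynamical degree of `f` on `V` is `δ`. -/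
def DynDeg2 (V : Set (Pr E M × Pr E N)) (f : Pr E M × Pr E N → Pr E M × Pr E N) (δ : ℝ) :
    Prop :=
  Tendsto (fun n : ℕ => ((sInf {d | Rep2 V f^[n] d} : ℕ) : ℝ) ^ ((1 : ℝ) / n)) atTop (𝓝 δ)

/-- The orbit of `p` is Zariski dense in `V`. -/
def Dense2 (V : Set (Pr E M × Pr E N)) (f : Pr E M × Pr E N → Pr E M × Pr E N)
    (p : Pr E M × Pr E N) : Prop :=
  ∀ Z, BClosed Z → (∀ n, f^[n] p ∈ Z) → V ⊆ Z

end

section

variable {E : Type*} [Field E] [CharZero E] {M N : ℕ}

/-- The arithmetic degree of `g` at `y` exists and is equal to `a`. -/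
def ADeg1 (g : Pr E N → Pr E N) (y : Pr E N) (a : ℝ) : Prop :=
  Tendsto (fun n : ℕ => (max (absHeight (g^[n] y).rep) 1) ^ ((1 : ℝ) / n)) atTop (𝓝 a)

/-- The arithmetic degree of `f` at `p` exists and is equal to `a`; the height is the one of
`O(1, 1)`. -/
def ADeg2 (f : Pr E M × Pr E N → Pr E M × Pr E N) (p : Pr E M × Pr E N) (a : ℝ) : Prop :=
  Tendsto (fun n : ℕ => (max (absHeight (f^[n] p).1.rep + absHeight (f^[n] p).2.rep) 1) ^
    ((1 : ℝ) / n)) atTop (𝓝 a)

end

end Pool.Agent.PBK
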