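import Pool.Agent.PBK.Defs

/-!
# PBK SURJ: a homogeneous self map of `E ^ R` without zeros is surjective

Proof. If `a = 0` take `u = 0` (`Q ≥ 1`). Let `a j0 ≠ 0`. The `R - 1` polynomials
`C (a j0) * p i - C (a i) * p j0`, `i ≠ j0`, vanish at `0`, so they have a common zero `u ≠ 0`: this is the
theorem `exists_common_zero` of `Pool/Agent/Helper10/FQ/Zero.lean`, stated there for polynomials over
`ℂ` (copy its proof, replacing `ℂ` by the algebraically closed field `E`; it uses the
Nullstellensatz and Krull's height theorem from Mathlib). So `p i u = (a i / a j0) * p j0 u` for all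
`i`, and `p j0 u ≠ 0`, since otherwise `u` would be a nontrivial zero of `p`. Choose `s` with
`s ^ Q = a j0 / p j0 u` (`IsAlgClosed.exists_pow_nat_eq`); then `p i (s • u) = s ^ Q * p i u = a i`
(`Pool.Agent.KSF.eval_smul_form`).
-/

set_option autoImplicit false

open MvPolynomial

namespace Pool.Agent.PBK

variable {E : Type*} [Field E] [IsAlgClosed E]

section zero

variable {σ : Type} [Finite σ]

/-- Translation by a point as a ring automorphism. -/
private noncomputable def surjTrans (x : σ → E) : MvPolynomial σ E ≃ₐ[E] MvPolynomial σ E :=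
  AlgEquiv.ofAlgHom (aeval fun i => X i + C (x i)) (aeval fun i => X i - C (x i))
    (by ext i; simp) (by ext i; simp)

omit [IsAlgClosed E] [Finite σ] in
private lemma surj_eval_trans (x y : σ → E) (g : MvPolynomial σ E) :
    eval y (surjTrans x g) = eval (y + x) g := by
  have : ((aeval y : MvPolynomial σ E →ₐ[E] E).comp (surjTrans x : MvPolynomial σ E →ₐ[E] _)) =
      aeval (y + x) := by
    ext i
    simp [surjTrans]
  have h := congrArg (fun φ : MvPolynomial σ E →ₐ[E] E => φ g) this
  simpa [aeval_eq_eval] using h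

omit [IsAlgClosed E] [Finite σ] in
private lemma surj_height_vanishing (x : σ → E) :
    (vanishingIdeal E ({x} : Set (σ → E)) : Ideal (MvPolynomial σ E)).height =
      (vanishingIdeal E ({0} : Set (σ → E)) : Ideal (MvPolynomial σ E)).height := by
  have h : (vanishingIdeal E ({x} : Set (σ → E)) : Ideal (MvPolynomial σ E)) =
      (vanishingIdeal E ({0} : Set (σ → E)) : Ideal (MvPolynomial σ E)).comap
        (surjTrans x).toRingEquiv := by
    ext g
    simp only [mem_vanishingIdeal_iff, Set.mem_singleton_iff, forall_eq, Ideal.mem_comap]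
    have := surj_eval_trans x 0 g
    rw [zero_add] at this
    simp only [aeval_eq_eval] at *
    constructor
    · intro h
      exact this.trans h
    · intro h
      exact this.symm.trans h
  rw [h, RingEquiv.height_comap]

private lemma surj_height_zero_le : (Nat.card σ : WithBot ℕ∞) ≤
    (vanishingIdeal E ({0} : Set (σ → E)) : Ideal (MvPolynomial σ E)).height := by
  have h1 : ringKrullDim (MvPolynomial σ E) = Nat.card σ := by
    rw [MvPolynomial.ringKrullDim_of_isNoetherianRing]
    simp
  rw [← h1, ringKrullDim_le_iff_isMaximal_height_le]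
  intro I hI
  obtain ⟨x, rfl⟩ := (isMaximal_iff_eq_vanishingIdeal_singleton).1 hI
  rw [surj_height_vanishing x]

/-- Fewer polynomials than variables, all vanishing at `0`, have a common zero `≠ 0`. -/
private theorem surj_common_zero {κ : Type} (s : Finset κ) (g : κ → MvPolynomial σ E)
    (hg : ∀ k ∈ s, eval 0 (g k) = 0) (hs : s.card < Nat.card σ) :
    ∃ x : σ → E, x ≠ 0 ∧ ∀ k ∈ s, eval x (g k) = 0 := by
  classical
  by_contra hcon
  push Not at hcon
  set I : Ideal (MvPolynomial σ E) := Ideal.span (s.image g : Finset (MvPolynomial σ E)) with hI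
  set m : Ideal (MvPolynomial σ E) := vanishingIdeal E ({0} : Set (σ → E)) with hm
  have hIm : I ≤ m := by
    rw [hI, Ideal.span_le]
    intro p hp
    simp only [Finset.coe_image, Set.mem_image, Finset.mem_coe] at hp
    obtain ⟨k, hk, rfl⟩ := hp
    simp only [hm, SetLike.mem_coe, mem_vanishingIdeal_iff, Set.mem_singleton_iff, forall_eq]
    exact hg k hk
  have : m.IsPrime := by
    have : m.IsMaximal := isMaximal_iff_eq_vanishingIdeal_singleton.2 ⟨0, rfl⟩
    exact this.isPrime
  obtain ⟨P, hP, hPm⟩ := Ideal.exists_minimalPrimes_le hIm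
  have hPp : P.IsPrime := hP.1.1
  have hle : m ≤ P := by
    rw [← IsPrime.vanishingIdeal_zeroLocus (K := E) P]
    intro p hp
    rw [mem_vanishingIdeal_iff]
    intro x hx
    rw [mem_zeroLocus_iff] at hx
    have hx0 : x = 0 := by
      by_contra hne
      obtain ⟨k, hk, hk'⟩ := hcon x hne
      apply hk'
      exact hx (g k) (hP.1.2 (Ideal.subset_span (by
        simp only [Finset.coe_image, Set.mem_image, Finset.mem_coe]
        exact ⟨k, hk, rfl⟩)))
    subst hx0
    rw [hm, mem_vanishingIdeal_iff] at hp
    exact hp 0 rfl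
  have hPe : P = m := le_antisymm hPm hle
  have h2 := Ideal.height_le_card_of_mem_minimalPrimes_span_finset (hI ▸ hP)
  have h3 := surj_height_zero_le (E := E) (σ := σ)
  rw [hPe] at h2
  have h4 : (Nat.card σ : WithBot ℕ∞) ≤ ((s.image g).card : ℕ∞) := h3.trans (by exact_mod_cast h2)
  have h5 : Nat.card σ ≤ (s.image g).card := by exact_mod_cast h4
  have h6 : (s.image g).card ≤ s.card := Finset.card_image_le
  omega

end zero

theorem surj {R Q : ℕ} (hQ : 1 ≤ Q) (p : Fin R → MvPolynomial (Fin R) E)
    (hp : ∀ i, (p i).IsHomogeneous Q) (h0 : NoZero p) (a : Fin R → E) :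
    ∃ u : Fin R → E, ∀ i, eval u (p i) = a i := by
  classical
  have hz : ∀ i, eval 0 (p i) = 0 := by
    intro i
    have h1 := Pool.Agent.KSF.eval_smul_form (hp i) (0 : E) 0
    rw [zero_pow (by omega), zero_mul, smul_zero] at h1
    exact h1
  by_cases ha : a = 0
  · exact ⟨0, fun i => by rw [hz, ha]; rfl⟩
  · obtain ⟨j0, hj0⟩ : ∃ j, a j ≠ 0 := by
      by_contra hcon
      push Not at hcon
      exact ha (funext hcon)
    obtain ⟨u, hu0, hu⟩ := surj_common_zero (E := E) (Finset.univ.erase j0)
      (fun i => C (a j0) * p i - C (a i) * p j0) (fun i _ => by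
        rw [map_sub, map_mul, map_mul, hz, hz, mul_zero, mul_zero, sub_zero]) (by
        rw [Finset.card_erase_of_mem (Finset.mem_univ j0), Nat.card_eq_fintype_card,
          Finset.card_univ]
        have : 0 < Fintype.card (Fin R) := Fintype.card_pos_iff.2 ⟨j0⟩
        omega)
    have hu' : ∀ i, a j0 * eval u (p i) = a i * eval u (p j0) := by
      intro i
      by_cases hi : i = j0
      · rw [hi]
      · have h2 := hu i (Finset.mem_erase.2 ⟨hi, Finset.mem_univ i⟩)
        rw [map_sub, map_mul, map_mul, eval_C, eval_C, sub_eq_zero] at h2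
        exact h2
    have hpj : eval u (p j0) ≠ 0 := by
      intro h3
      obtain ⟨i, hi⟩ := h0 u hu0
      have h4 := hu' i
      rw [h3, mul_zero] at h4
      exact hi ((mul_eq_zero.1 h4).resolve_left hj0)
    obtain ⟨s, hs⟩ := IsAlgClosed.exists_pow_nat_eq (a j0 / eval u (p j0)) (by omega : 0 < Q)
    refine ⟨s • u, fun i => ?_⟩
    rw [Pool.Agent.KSF.eval_smul_form (hp i), hs]
    rw [div_mul_eq_mul_div, hu' i, mul_div_assoc, div_self hpj, mul_one]

end Pool.Agent.PBK
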