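import Pool.Agent.PBK.Red
import Pool.Agent.PBK.Bdd
import Pool.Agent.PBK.Htyp
import Pool.Agent.PBK.North

/-!
# PBK TYPES: finitely many types along an orbit of canonical height zero

Proof. Write `x n = S.gv^[n] y`, `z n = S.zo z y n`.
(1) For every `n` choose: the basis `w n` of `S.fib (x n)` over `K` of `red` (constant `C2`, which we
enlarge so that also `|absHeight (z n) - S.bb (x n)| ≤ C2`), `k n` with `S.IsScAt (x n) (k n) (S.sc (x n))`
(`sc_spec`), `l n` with `S.Gv (l n) (x n) ≠ 0` (`G_ne`), `t n ≠ 0` with `t n • x n` over `K` (`rat_gv`).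
`fibmap` for the point `t n • x n`, the chart `k n` and the bases `w n`, `w (n + 1)` (it is a basis
of `S.fib (S.gv (t n • x n)) = S.fib (x (n + 1))` by `gv_smul`, `fib_smul`) gives forms `p' n` over `K`
with `S.Pv (k n) (comb (w n) u) (t n • x n) = comb (w (n + 1)) (p' n u)`, without nontrivial zeros. By
`Pv_smul` the forms `p n = (t n ^ m)⁻¹ • p' n` satisfy `S.IsFM (k n) (x n) (w n) (w (n + 1)) (p n)`. By
`bdd_map`: `absHeight (cv q (p n)) ≤ C`, and `cv q (p n)` is a nonzero multiple of a vector over `K`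
(nonzero: `NoZero` and `R ≥ 1`). By `north` there is a finite set `T1` of vectors such that every
`cv q (p n)` is a nonzero multiple of some `v n ∈ T1`. The set `{v n | n}` is finite; choose for each of
its elements `v` one index `n_v` with `v n_v = v` and let `p̂ v = p n_v`; then `p n j = C (c n) * p̂ (v n) j`
with `c n ≠ 0` by `cv_inj` (`cv q (p n) = c • v n`, `cv q (p n_v) = c' • v n`).
(2) `z n = comb (w n) (a n)`, `a n ≠ 0`; `a n` is proportional to a vector over `K` (`rat_zo`, `rat_coord`),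
and `absHeight (a n) ≤ C` by `bdd_pt` with `b = S.bb (x n)`. By `north` there is a finite set `T2` of
nonzero vectors with `a n = d n • â n`, `d n ≠ 0`, `â n ∈ T2`.
(3) Let `T` be the set of all types whose maps are in the finite set of the `p̂ v` and whose point is in
`T2` (finite: an injective image of a product of finite sets; `Set.Finite.pi`, `Fin m` finite). For `n` let
`τ` be the type with `τ.k i = k (n + i)`, `τ.t i = l (n + i)`, `τ.p i = p̂ (v (n + i))`, `τ.a = â n`. By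
`exists_hasTyp` (for the point `x n`, `S.gv^[i] (x n) = x (n + i)`, the bases `w (n + i)`, the scalars
`c (n + i)`) `S.HasTyp τ (comb (w n) (â n)) (x n)` and `comb (w n) (â n) = (d n)⁻¹ • z n`.
All types of `T` which we need are admissible; to have `∀ τ ∈ T, τ.Adm S.q` restrict `T` to the
admissible ones.
-/

set_option autoImplicit false

open MvPolynomial

namespace Pool.Agent.PBK

open Pool.Agent.Helper63.WH

variable {E : Type*} [Field E] [CharZero E] [Algebra.IsAlgebraic ℚ E] [IsAlgClosed E]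
  {M N s nP nG : ℕ} {S : Sys E M N s nP nG}

omit [Algebra.IsAlgebraic ℚ E] in
/-- The fibre map at a point proportional to a point over `K`. -/
private theorem types_map (hS : S.Good) {K : IntermediateField ℚ E} (hK : S.OverK K)
    {x : Fin N → E} (hx : x ∈ S.Wc) {t : E} (ht : t ≠ 0) (htK : ∀ i, t * x i ∈ K) {k : Fin nP}
    {c : Fin nP → E} (hk : S.IsScAt x k c) {w w' : Fin S.R → Fin M → E} (hw : S.IsBas x w)
    (hw' : S.IsBas (S.gv x) w') (hwK : ∀ i j, w i j ∈ K) (hwK' : ∀ i j, w' i j ∈ K) :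
    ∃ p : Fin S.R → MvPolynomial (Fin S.R) E, S.IsFM k x w w' p ∧ NoZero p ∧
      ∃ c : E, c ≠ 0 ∧ ∀ i, c * cv S.q p i ∈ K := by
  have hxt : t • x ∈ S.Wc := hS.W_smul x hx t ht
  obtain ⟨b, hb, hgb⟩ := gv_smul hS hx ht
  have hw1 : S.IsBas (t • x) w := (isBas_smul hS ht).2 hw
  have hw1' : S.IsBas (S.gv (t • x)) w' := by
    rw [hgb]
    exact (isBas_smul hS hb).2 hw'
  obtain ⟨p', hp'1, hp'2, hp'3⟩ := fibmap hS hxt k hw1 hw1'
  have htm : t ^ S.m ≠ 0 := pow_ne_zero _ ht
  have hPv : ∀ z : Fin M → E, S.Pv k z (t • x) = t ^ S.m • S.Pv k z x := by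
    intro z
    have := Pv_smul hS 1 t z x k
    rwa [one_smul, one_pow, one_mul] at this
  have hcoef : ∀ j d, coeff d (C (t ^ S.m)⁻¹ * p' j) = (t ^ S.m)⁻¹ * coeff d (p' j) :=
    fun j d => coeff_C_mul d _ _
  refine ⟨fun j => C (t ^ S.m)⁻¹ * p' j, ⟨fun j => ?_, fun u => ?_⟩, ?_, t ^ S.m, htm, ?_⟩
  · have := (isHomogeneous_C (Fin S.R) (t ^ S.m)⁻¹).mul (hp'1.1 j)
    rwa [zero_add] at this
  · have h1 := hp'1.2 u
    rw [hPv] at h1
    have h2 : S.Pv k (comb w u) x = (t ^ S.m)⁻¹ • comb w' (fun j => eval u (p' j)) := by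
      rw [← h1, smul_smul, inv_mul_cancel₀ htm, one_smul]
    rw [h2, ← comb_smul]
    congr 1
    funext j
    simp
  · have h1 := hp'2 (fun z hz hz0 => by
      rw [hPv]
      refine smul_ne_zero htm (hk.2.1 z ?_ hz0)
      rwa [fib_smul hS ht] at hz)
    intro u hu
    obtain ⟨i, hi⟩ := h1 u hu
    refine ⟨i, ?_⟩
    rw [map_mul, eval_C]
    exact mul_ne_zero (inv_ne_zero htm) hi
  · intro i
    unfold cv
    rw [hcoef, ← mul_assoc, mul_inv_cancel₀ htm, one_mul]
    exact hp'3 K hK htK hwK hwK' _ _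

theorem types (hS : S.Good) (K : IntermediateField ℚ E) [FiniteDimensional ℚ K]
    (hK : S.OverK K) (m : ℕ) {y : Fin N → E} (hy : y ∈ S.Wc) (hyK : ∀ i, y i ∈ K)
    (hg : S.Growth y) {z : Fin M → E} (hz : z ∈ S.fib y) (hz0 : z ≠ 0) (hzK : ∀ i, z i ∈ K)
    {C : ℝ} (h0 : ∀ n : ℕ, |absHeight (S.zo z y n) - S.bb (S.gv^[n] y)| ≤ C) :
    ∃ T : Set (Typ E S.R m nP nG), T.Finite ∧ (∀ τ ∈ T, τ.Adm S.q) ∧
      ∀ n : ℕ, ∃ τ ∈ T, ∃ c : E, c ≠ 0 ∧ S.HasTyp τ (c • S.zo z y n) (S.gv^[n] y) := by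
  classical
  have hR := hS.hR
  have hxs : ∀ n, S.gv (S.gv^[n] y) = S.gv^[n + 1] y :=
    fun n => (Function.iterate_succ_apply' S.gv n y).symm
  obtain ⟨Cr, hCr, hred⟩ := red hS K hK hy hyK hg
  choose w hwB hwK hwc hwp using hred
  set C2 : ℝ := max Cr C with hC2
  choose k hk using fun n => sc_spec hS (gv_iter_mem hS hy n)
  choose l hl using fun n => hS.G_ne _ (gv_iter_mem hS hy n)
  choose t ht0 htK using fun n => rat_gv hS hK hy hyK n
  have hwB' : ∀ n, S.IsBas (S.gv (S.gv^[n] y)) (w (n + 1)) := fun n => by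
    rw [hxs n]
    exact hwB (n + 1)
  choose p hpFM hpN c0 hc0 hpK using fun n =>
    types_map hS hK (gv_iter_mem hS hy n) (ht0 n) (htK n) (hk n) (hwB n) (hwB' n) (hwK n)
      (hwK (n + 1))
  obtain ⟨C3, hC3⟩ := bdd_map hS C2
  have hph : ∀ n, absHeight (cv S.q (p n)) ≤ C3 := fun n => by
    refine hC3 _ (gv_iter_mem hS hy n) (growth_iter hg n) (w n) (w (n + 1)) (hwB n) (hwB' n)
      ((hwc n).trans (by gcongr; exact le_max_left _ _)) ?_ ?_ (k n) (hk n) (p n) (hpFM n)
    · rw [hxs n]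
      exact (hwc (n + 1)).trans (by gcongr; exact le_max_left _ _)
    · rw [hxs n]
      refine le_trans ?_ (hwp (n + 1))
      gcongr
      exact le_max_left _ _
  have hone : (1 : Fin S.R → E) ≠ 0 := by
    intro h
    have := congrFun h ⟨0, by omega⟩
    simp at this
  have hcv0 : ∀ n, cv S.q (p n) ≠ 0 := by
    intro n h
    have h1 : ∀ j, p n j = MvPolynomial.C (0 : E) * p n j :=
      cv_inj (hpFM n).1 (hpFM n).1 (c := 0) (by rw [h, smul_zero])
    obtain ⟨i, hi⟩ := hpN n 1 hone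
    rw [h1 i] at hi
    simp at hi
  obtain ⟨T1, hT1, hT1n, hT1'⟩ := north K (κ := Fin S.R × (Fin S.R → Fin (S.q + 1))) C3
  choose v hv c1 hc1 hcv using fun n => hT1' (cv S.q (p n)) (hcv0 n) ⟨c0 n, hc0 n, hpK n⟩ (hph n)
  -- representatives
  set rep : (Fin S.R × (Fin S.R → Fin (S.q + 1)) → E) → ℕ := fun V =>
    if h : ∃ n, v n = V then h.choose else 0 with hrep
  have hrep' : ∀ n, v (rep (v n)) = v n := by
    intro n
    have h : ∃ n', v n' = v n := ⟨n, rfl⟩
    simp only [hrep, dif_pos h]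
    exact h.choose_spec
  set cn : ℕ → E := fun n => c1 n / c1 (rep (v n)) with hcn
  have hcn0 : ∀ n, cn n ≠ 0 := fun n => div_ne_zero (hc1 n) (hc1 _)
  have hpp : ∀ n j, p n j = MvPolynomial.C (cn n) * p (rep (v n)) j := by
    intro n
    refine cv_inj (hpFM n).1 (hpFM _).1 ?_
    rw [hcv n, hcv (rep (v n)), hrep' n, smul_smul]
    congr 1
    simp only [hcn]
    rw [div_mul_cancel₀ _ (hc1 _)]
  -- the points
  choose a ha using fun n =>
    IsBas.exists_comb (hwB n) (zo_mem_ne hS hy hz hz0 n).1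
  have ha0 : ∀ n, a n ≠ 0 := by
    intro n h
    apply (zo_mem_ne hS hy hz hz0 n).2
    rw [← ha n, h, comb_zero]
  choose t' ht'0 ht'K using fun n => rat_zo hS hK hy hyK hz hz0 hzK n
  obtain ⟨C4, hC4⟩ := bdd_pt (E := E) S.R M (by omega) C2
  have hah : ∀ n, absHeight (a n) ≤ C4 := by
    intro n
    refine hC4 (w n) (hwB n).1 (S.bb (S.gv^[n] y)) ((hwc n).trans (by gcongr; exact le_max_left _ _))
      (le_trans (by gcongr; exact le_max_left _ _) (hwp n)) (a n) (ha0 n) ?_
    rw [ha n]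
    have := (abs_le.1 (h0 n)).2
    have h2 : C ≤ C2 := le_max_right _ _
    linarith
  obtain ⟨T2, hT2, hT2n, hT2'⟩ := north K (κ := Fin S.R) C4
  choose â hâ d hd had using fun n => hT2' (a n) (ha0 n)
    ⟨t' n, ht'0 n, fun i => rat_coord (hwB n).1 (hwK n) (fun l => by
      rw [ha n]
      exact ht'K n l) i⟩ (hah n)
  -- the finite set of types
  set PH : Set (Fin S.R → MvPolynomial (Fin S.R) E) := (fun V => p (rep V)) '' T1 with hPH
  have hPHf : PH.Finite := hT1.image _
  refine ⟨{τ | τ.Adm S.q ∧ (∀ i, τ.p i ∈ PH) ∧ τ.a ∈ T2}, ?_, fun τ hτ => hτ.1, fun n => ?_⟩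
  · have hfin : ((Set.univ : Set (Fin m → Fin nP)) ×ˢ ((Set.univ : Set (Fin m → Fin nG)) ×ˢ
        ((Set.pi Set.univ fun _ : Fin m => PH) ×ˢ T2))).Finite :=
      Set.finite_univ.prod (Set.finite_univ.prod ((Set.Finite.pi fun _ => hPHf).prod hT2))
    refine (hfin.image (fun x => (⟨x.1, x.2.1, x.2.2.1, x.2.2.2⟩ : Typ E S.R m nP nG))).subset ?_
    rintro τ ⟨-, h1, h2⟩
    exact ⟨(τ.k, τ.t, τ.p, τ.a), ⟨Set.mem_univ _, Set.mem_univ _, fun i _ => h1 i, h2⟩, rfl⟩
  · have hit : ∀ i : ℕ, S.gv^[i] (S.gv^[n] y) = S.gv^[n + i] y := fun i => by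
      rw [← Function.iterate_add_apply, add_comm]
    refine ⟨⟨fun i => k (n + i), fun i => l (n + i), fun i => p (rep (v (n + i))), â n⟩,
      ⟨⟨fun i j => (hpFM _).1 j, fun i => hpN _, hT2n _ (hâ n)⟩,
        fun i => ⟨v (n + i), hv _, rfl⟩, hâ n⟩, (d n)⁻¹, inv_ne_zero (hd n), ?_⟩
    have key := exists_hasTyp hS (m := m)
      (⟨fun i => k (n + i), fun i => l (n + i), fun i => p (rep (v (n + i))), â n⟩ :
        Typ E S.R m nP nG) (gv_iter_mem hS hy n) (fun i => w (n + i))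
      (fun i => by
        rw [hit i]
        exact hwB (n + i))
      (fun i => by
        rw [hit i]
        exact hl (n + i))
      (fun i => cn (n + i)) (fun i => hcn0 _)
      (fun i u => by
        rw [hit i]
        have h1 := (hpFM (n + i)).2 u
        change S.Pv (k (n + i)) (comb (w (n + i)) u) (S.gv^[n + i] y) = _
        rw [h1]
        change _ = comb (w (n + (i + 1))) _
        rw [← add_assoc]
        congr 1
        funext j
        rw [hpp (n + i) j]
        simp)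
    have h3 : (d n)⁻¹ • S.zo z y n = comb (w (n + 0)) (â n) := by
      rw [← ha n, had n, comb_smul, smul_smul, inv_mul_cancel₀ (hd n), one_smul]
      rfl
    rw [h3]
    exact key

end Pool.Agent.PBK
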